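import Mathlib
import Pool.Agent.Y734.Fin2
import Pool.Agent.Y734.B.Main
import Pool.Agent.Y734.HYP2.Main

/-!
# Quadratic points of the plane: all points off the lines, with the constants 6, 7, 8

A version of the theorems in `Pool/Agent/Y734` where the rational lines through the point may contain
any number of double points.
-/

set_option autoImplicit false

namespace Run7.h567.QP

open MvPolynomial NumberField Filter Topology
open Pool.Agent.Y734 Pool.Agent.Y734.B

/-- the constant for points such that every rational line through them contains at most `m` double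
points -/
noncomputable def bd (m : ℕ) : ℝ := 4 + max 2 (min (m : ℝ) 4)

lemma six_le (m : ℕ) : 6 ≤ bd m := by
  unfold bd
  have := le_max_left (2 : ℝ) (min (m : ℝ) 4)
  linarith

lemma bd_pos (m : ℕ) : 0 < bd m := by
  have := six_le m
  linarith

lemma le_bd (m : ℕ) : ((m : ℝ) ≤ 4 → 4 + (m : ℝ) ≤ bd m) ∧ (4 ≤ (m : ℝ) → 8 ≤ bd m) := by
  unfold bd
  constructor
  · intro h
    have := le_max_right (2 : ℝ) (min (m : ℝ) 4)
    rw [min_eq_left h] at this ⊢
    linarith
  · intro h
    have := le_max_right (2 : ℝ) (min (m : ℝ) 4)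
    rw [min_eq_right h] at this ⊢
    linarith

lemma bd_two : bd 2 = 6 := by
  unfold bd
  norm_num

lemma bd_three : bd 3 = 7 := by
  unfold bd
  norm_num

lemma bd_ge {m : ℕ} (h : 4 ≤ m) : bd m = 8 := by
  unfold bd
  have h' : (4 : ℝ) ≤ m := by exact_mod_cast h
  rw [min_eq_right h']
  norm_num

/-- the abstract statement -/
def AbsM (m : ℕ) : Prop :=
  ∀ (V : Type) [Fintype V] (q : ℕ) (_ : 4 ≤ q) (H : Fin q → Fin 3 → ℚ) (_ : GenPos H) (Ω : Type)
    [Field Ω] [Algebra ℚ Ω] (D : Pool.Agent.Y734.B.HD V H Ω)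
    (_ : ∀ ℓ : Fin 3 → ℚ, ℓ ≠ 0 → lf D.P ℓ = 0 → (dbl H ℓ).card ≤ m),
    ∑ v, ∑ i, (D.α v i + D.α' v i) ≤ bd m

/-- the inequality for sequences of points -/
def HypM (m : ℕ) : Prop :=
  ∀ (S : Finset ℕ) (_ : ∀ p ∈ S, p.Prime) (q : ℕ) (_ : 4 ≤ q) (H : Fin q → Fin 3 → ℚ)
    (_ : GenPos H) (C : ℝ) (Q : ℕ → QData2 S C) (_ : Tendsto (fun t => (Q t).h) atTop atTop)
    (_ : ∀ (t : ℕ) (ℓ : Fin 3 → ℚ), ℓ ≠ 0 → lf (Q t).z ℓ = 0 → (dbl H ℓ).card ≤ m)
    (_ : ∀ t v i, 0 < (Q t).N v (H i) ∧ 0 < (Q t).N' v (H i)) (ε : ℝ) (_ : 0 < ε),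
    ∀ᶠ t in atTop, ∑ v : Option S, ∑ i,
      (-Real.log ((Q t).N v (H i)) - Real.log ((Q t).N' v (H i))) ≤ (bd m + ε) * (Q t).h

section

variable {V : Type} [Fintype V] {q : ℕ} {H : Fin q → Fin 3 → ℚ} {Ω : Type} [Field Ω] [Algebra ℚ Ω]

/-- **the point on a rational line** -/
lemma abs_lineM (m : ℕ) (hq : 4 ≤ q) (hH : GenPos H) (D : Pool.Agent.Y734.B.HD V H Ω) {ℓ : Fin 3 → ℚ} (hℓ : ℓ ≠ 0)
    (hP : lf D.P ℓ = 0) (hd : (dbl H ℓ).card ≤ m) :
    ∑ v, ∑ i, (D.α v i + D.α' v i) ≤ bd m := by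
  have hbd6 := six_le m
  choose p r s t h using fun v => exists_top hq hH D v
  by_cases h3 : 3 ≤ Module.finrank ℚ (A1 D.c D.P D.P')
  · -- `finrank = 3`
    have hle3 : Module.finrank ℚ (A1 D.c D.P D.P') ≤ 3 := by
      obtain ⟨j, hj⟩ : ∃ j : Fin q, LinearIndependent ℚ ![H ⟨0, by omega⟩, H j, ℓ] := by
        by_contra hno
        push Not at hno
        obtain ⟨x1, y1, e1⟩ := exists_coeff2 (pair_line D hℓ hP ⟨0, by omega⟩) (hno ⟨1, by omega⟩)
        obtain ⟨x2, y2, e2⟩ := exists_coeff2 (pair_line D hℓ hP ⟨0, by omega⟩) (hno ⟨2, by omega⟩)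
        have h012 := li3.1 (hH ⟨0, by omega⟩ ⟨1, by omega⟩ ⟨2, by omega⟩ (by simp) (by simp)
          (by simp)) (x1 * y2 - x2 * y1) (-y2) y1 (by rw [e1, e2]; module)
        obtain ⟨_, hy2, hy1⟩ := h012
        have h01 := LinearIndependent.pair_iff.1 (linInd_pair hH hq
          (p := ⟨0, by omega⟩) (r := ⟨1, by omega⟩) (by simp)) (-x1) 1 (by
            rw [e1, hy1]; module)
        exact one_ne_zero h01.2
      have hfd : FiniteDimensional ℚ (Submodule.span ℚ (Set.range
        ![bil D.c D.P D.P' (H ⟨0, by omega⟩) (H ⟨0, by omega⟩), bil D.c D.P D.P' (H j) (H j),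
          bil D.c D.P D.P' (H ⟨0, by omega⟩) (H j)])) :=
        FiniteDimensional.span_of_finite ℚ (Set.finite_range _)
      refine (Submodule.finrank_mono (A1_line D hP hj)).trans ?_
      exact (finrank_range_le_card (R := ℚ) _).trans (by simp)
    have h1 := sst1 D _ fun v => tot_line D hℓ hP h3 v (p v) (s v)
    have h2 : (Module.finrank ℚ (A1 D.c D.P D.P') : ℝ) ≤ 3 := by exact_mod_cast hle3
    have h4 : ∑ v, ∑ i, (D.α v i + D.α' v i) ≤ ∑ v, 2 * (D.α v (p v) + D.α' v (s v)) := by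
      refine Finset.sum_le_sum fun v _ => ?_
      rw [(h v).sum]
      have := (h v).le
      have := (h v).le'
      linarith
    rw [← Finset.mul_sum] at h4
    linarith
  · -- `finrank ≤ 2`
    push Not at h3
    have hT : ∀ v, Tot D v ((D.α v (p v) + D.α' v (s v)) / 2) := by
      intro v
      have hp0 := D.α_nonneg' v (p v)
      have hs0 := D.α_nonneg v (s v)
      rcases le_total (D.α v (p v)) (D.α' v (s v)) with h1 | h1
      · exact tot_one D v (bil_H_ne D (s v)) (bil_mem _ _ _ _ _) (lev_self D v (s v)) (by linarith)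
      · exact tot_one D v (bil_H_ne D (p v)) (bil_mem _ _ _ _ _) (lev_self D v (p v)) (by linarith)
    have h1 := sst1 D _ hT
    rw [← Finset.sum_div] at h1
    have h2 : (Module.finrank ℚ (A1 D.c D.P D.P') : ℝ) ≤ 2 := by
      have : Module.finrank ℚ (A1 D.c D.P D.P') ≤ 2 := by omega
      exact_mod_cast this
    -- the second weights
    have hb : ∀ v, D.α v (r v) + D.α' v (t v) ≤
        ∑ x ∈ dbl H ℓ, (D.α v x.1 + D.α' v x.1) := by
      intro v
      have e1 := min_le_dbl D hP v (h v).hpr (h v).le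
      have e2 := min_le_dbl D.swap ((D.conj ℓ).1 hP) v (h v).hst (h v).le'
      have e1' : ∑ x ∈ dbl H ℓ, min (D.α v x.1) (D.α v x.2) ≤ ∑ x ∈ dbl H ℓ, D.α v x.1 :=
        Finset.sum_le_sum fun x _ => min_le_left _ _
      have e2' : ∑ x ∈ dbl H ℓ, min (D.α' v x.1) (D.α' v x.2) ≤ ∑ x ∈ dbl H ℓ, D.α' v x.1 :=
        Finset.sum_le_sum fun x _ => min_le_left _ _
      rw [Finset.sum_add_distrib]
      exact add_le_add (e1.trans e1') (le_trans e2 e2')
    have hb4 : ∑ v, (D.α v (r v) + D.α' v (t v)) ≤ ∑ v, (D.α v (p v) + D.α' v (s v)) :=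
      Finset.sum_le_sum fun v _ => add_le_add (h v).le (h v).le'
    have hb' : ∑ v, (D.α v (r v) + D.α' v (t v)) ≤ m := by
      refine (Finset.sum_le_sum fun v _ => hb v).trans ?_
      rw [Finset.sum_comm]
      refine (Finset.sum_le_sum fun x _ => Pool.Agent.Y734.B.liou D x.1).trans ?_
      rw [Finset.sum_const, nsmul_eq_mul, mul_one]
      exact_mod_cast hd
    have h4 : ∑ v, ∑ i, (D.α v i + D.α' v i) = ∑ v, (D.α v (p v) + D.α' v (s v)) +
        ∑ v, (D.α v (r v) + D.α' v (t v)) := by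
      rw [← Finset.sum_add_distrib]
      refine Finset.sum_congr rfl fun v _ => ?_
      rw [(h v).sum]
      ring
    have h5 := le_bd m
    rcases le_total (m : ℝ) 4 with h6 | h6
    · have := h5.1 h6
      linarith
    · have := h5.2 h6
      linarith


end

/-- the abstract theorem -/
theorem absM (m : ℕ) (hgrow : GrowStmt) (hdim : DimStmt) (hdim3 : Dim3Stmt) : AbsM m := by
  intro V _ q hq H hH Ω _ _ D hD
  have habs2 := abs2 hgrow hdim hdim3
  by_cases hNL : NoLine D
  · refine (habs2 V q hq H hH Ω D ?_).trans (six_le m)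
    intro ℓ hℓ h0
    exact absurd h0 (hNL ℓ hℓ)
  · unfold NoLine at hNL
    push Not at hNL
    obtain ⟨ℓ, hℓ, hP⟩ := hNL
    exact abs_lineM m hq hH D hℓ hP (hD ℓ hℓ hP)

open Pool.Agent.Y660.QP Pool.Agent.Y734.HYP2 in
/-- from the abstract theorem to the inequality -/
theorem hypM (m : ℕ) (husst : UsstStmt) (habs : AbsM m) : HypM m := by
  intro S hS q hq H hgp C Q hQ hdbl hpos ε hε
  by_contra hcon
  rw [not_eventually] at hcon
  obtain ⟨bad, hbad⟩ : ∃ bad : Set ℕ, bad = {t | ¬ ∑ v : Option S, ∑ i,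
      (-Real.log ((Q t).N v (H i)) - Real.log ((Q t).N' v (H i))) ≤ (bd m + ε) * (Q t).h} := ⟨_, rfl⟩
  have hne : NeBot (atTop ⊓ 𝓟 bad : Filter ℕ) := by
    rw [← frequently_mem_iff_neBot, hbad]
    exact hcon
  obtain ⟨U, hUd⟩ : ∃ U : Ultrafilter ℕ, U = Ultrafilter.of (atTop ⊓ 𝓟 bad : Filter ℕ) := ⟨_, rfl⟩
  have hUle : (U : Filter ℕ) ≤ atTop ⊓ 𝓟 bad := by
    rw [hUd]
    exact Ultrafilter.of_le _
  have hU : (U : Filter ℕ) ≤ atTop := hUle.trans inf_le_left
  have hUb : ∀ᶠ t in (U : Filter ℕ), t ∈ bad := le_principal_iff.1 (hUle.trans inf_le_right)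
  have hh : Tendsto (fun t => (Q t).h) U atTop := hQ.mono_left hU
  have hh0 : ∀ t, 0 ≤ (Q t).h := fun t => (Q t).h_nonneg
  obtain ⟨Ω, _, _, ⟨g⟩⟩ := ex_gm U
  -- the values of the forms are not zero
  have hlf : ∀ i t, lf (Q t).z (H i) ≠ 0 := by
    intro i t h0
    have h1 := (hpos t none i).1
    rw [(Q t).null none (H i) h0] at h1
    exact lt_irrefl _ h1
  have hlf' : ∀ i t, lf (Q t).z' (H i) ≠ 0 := by
    intro i t h0
    have h1 := (hpos t none i).2
    rw [(Q t).null' none (H i) h0] at h1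
    exact lt_irrefl _ h1
  have hrr : ∀ i, ∀ᶠ t in (U : Filter ℕ), rr (Q t).toQData (H i) (H i) ≠ 0 := by
    intro i
    refine Eventually.of_forall fun t h3 => ?_
    have h1 := hlf i t
    have h2 := hlf' i t
    rw [lf_cast] at h1 h2
    have h4 := rr_eq (Q t).toQData (H i) (H i)
    rw [h3, Rat.cast_zero] at h4
    have h5 : (Q t).c * (2 * ((∑ j, (H i j : ℂ) * (Q t).z j) * (∑ j, (H i j : ℂ) * (Q t).z' j))) = 0 := by
      rw [h4]
      ring
    have h6 := mul_ne_zero (Q t).c_ne (mul_ne_zero two_ne_zero (mul_ne_zero h1 h2))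
    exact h6 h5
  -- the exponents
  have hα : ∀ (v : Option S) (i : Fin q), ∃ α : ℝ, 0 ≤ α ∧
      Tendsto (fun t => -Real.log ((Q t).N v (H i)) / (Q t).h) U (𝓝 α) ∧
      Sm U (fun t => (Q t).h) (fun _ => 1) (fun t => (Q t).N v (H i)) α := by
    intro v i
    obtain ⟨K, hK, hl⟩ := liou (C := C) hS (H i)
    refine ex_lim (fun t => (Q t).h) (fun t => (Q t).N v (H i)) hh (fun t => (hpos t v i).1)
      (lp_zero (fun t => (Q t).N v) _ hh hh0 _ (fun t => (Q t).semi v) _) hK ?_
    filter_upwards [hrr i] with t ht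
    exact (hl (Q t).toQData v ht).1
  have hα' : ∀ (v : Option S) (i : Fin q), ∃ α : ℝ, 0 ≤ α ∧
      Tendsto (fun t => -Real.log ((Q t).N' v (H i)) / (Q t).h) U (𝓝 α) ∧
      Sm U (fun t => (Q t).h) (fun _ => 1) (fun t => (Q t).N' v (H i)) α := by
    intro v i
    obtain ⟨K, hK, hl⟩ := liou (C := C) hS (H i)
    refine ex_lim (fun t => (Q t).h) (fun t => (Q t).N' v (H i)) hh (fun t => (hpos t v i).2)
      (lp_zero (fun t => (Q t).N' v) _ hh hh0 _ (fun t => (Q t).semi' v) _) hK ?_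
    filter_upwards [hrr i] with t ht
    exact (hl (Q t).toQData v ht).2
  choose α hα0 hαt hαs using hα
  choose α' hα0' hαt' hαs' using hα'
  have hmono : ∀ (f : ℕ → ℝ) (a b : ℝ), b ≤ a → Sm U (fun t => (Q t).h) (fun _ => 1) f a →
      Sm U (fun t => (Q t).h) (fun _ => 1) f b := fun f a b hab hf =>
    hf.mono hh0 (fun _ => zero_le_one) hab
  let D : Pool.Agent.Y734.B.HD (Option S) H Ω :=
    { P := fun j => g.π (fun t => (Q t).z j)
      P' := fun j => g.π (fun t => (Q t).z' j)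
      c := g.π (fun t => (Q t).c)
      c_ne := by
        intro h
        rw [g.ker] at h
        obtain ⟨t, ht⟩ := h.exists
        exact (Q t).c_ne ht
      conj := by
        intro G
        rw [lf_germ_zero g (fun t => (Q t).z), lf_germ_zero g (fun t => (Q t).z')]
        exact eventually_congr (Eventually.of_forall fun t => (Q t).conj G)
      H_ne := by
        intro i h
        rw [lf_germ_zero g (fun t => (Q t).z)] at h
        obtain ⟨t, ht⟩ := h.exists
        exact hlf i t ht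
      Lev := fun v k y a => Lv g (fun t => (Q t).h) v k y a
      lev_one := fun v => lv_one hS hh hh0 v
      lev_mul := fun v k l x y a b h1 h2 => lv_mul hS v k l x y a b h1 h2
      lev_mem := by
        intro v y hy
        have hb : ∀ G G', Lv g (fun t => (Q t).h) v 1 (bil (g.π (fun t => (Q t).c))
            (fun j => g.π (fun t => (Q t).z j)) (fun j => g.π (fun t => (Q t).z' j)) G G') 0 := by
          intro G G'
          have := lv_bil (g := g) hh v G G' 0 0 0 0
            (lp_zero (fun t => (Q t).N v) _ hh hh0 _ (fun t => (Q t).semi v) _)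
            (lp_zero (fun t => (Q t).N' v) _ hh hh0 _ (fun t => (Q t).semi' v) _)
            (lp_zero (fun t => (Q t).N v) _ hh hh0 _ (fun t => (Q t).semi v) _)
            (lp_zero (fun t => (Q t).N' v) _ hh hh0 _ (fun t => (Q t).semi' v) _)
          simpa using this
        unfold A1 at hy
        induction hy using Submodule.span_induction with
        | mem x hx =>
          obtain ⟨G, G', rfl⟩ := hx
          exact hb G G'
        | zero =>
          have := lv_smul hS hh v 1 _ 0 0 (hb 0 0)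
          rwa [zero_smul] at this
        | add x y _ _ hx hy => exact lv_add hS hh v 1 x y 0 hx hy
        | smul c x _ hx => exact lv_smul hS hh v 1 x 0 c hx
      LP := fun v G a => Sm U (fun t => (Q t).h) (fun _ => 1) (fun t => (Q t).N v G) a
      LP' := fun v G a => Sm U (fun t => (Q t).h) (fun _ => 1) (fun t => (Q t).N' v G) a
      lp_zero := fun v G => lp_zero (fun t => (Q t).N v) _ hh hh0 _ (fun t => (Q t).semi v) G
      lp_zero' := fun v G => lp_zero (fun t => (Q t).N' v) _ hh hh0 _ (fun t => (Q t).semi' v) G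
      lp_lin := fun v G G' r s a h1 h2 =>
        lp_lin (fun t => (Q t).N v) _ hh _ (fun t => (Q t).semi v) G G' r s a h1 h2
      lp_lin' := fun v G G' r s a h1 h2 =>
        lp_lin (fun t => (Q t).N' v) _ hh _ (fun t => (Q t).semi' v) G G' r s a h1 h2
      lp_mono := fun v G a b hab h1 => hmono _ a b hab h1
      lp_mono' := fun v G a b hab h1 => hmono _ a b hab h1
      lp_three := fun v G a h1 h2 =>
        lp_three (fun t => (Q t).N v) _ hh _ (fun t => (Q t).semi v) G a h1 h2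
      lp_three' := fun v G a h1 h2 =>
        lp_three (fun t => (Q t).N' v) _ hh _ (fun t => (Q t).semi' v) G a h1 h2
      lp_null := by
        intro v G a h
        rw [lf_germ_zero g (fun t => (Q t).z)] at h
        apply sm_zero
        filter_upwards [h] with t ht
        exact (Q t).null v G ht
      lp_null' := by
        intro v G a h
        rw [lf_germ_zero g (fun t => (Q t).z')] at h
        apply sm_zero
        filter_upwards [h] with t ht
        exact (Q t).null' v G ht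
      lp_quad := by
        intro v G G' κ₁ κ₂ a h h1
        refine Sm.of_le hh (K := 1 + absQ (v.map (fun p => (p : ℕ))) κ₁ +
          absQ (v.map (fun p => (p : ℕ))) κ₂) ?_ (fun _ => zero_le_one) h1 ?_
        · have := absQ_nonneg (v.map (fun p => (p : ℕ))) κ₁
          have := absQ_nonneg (v.map (fun p => (p : ℕ))) κ₂
          linarith
        · filter_upwards [quad_germ g (fun t => (Q t).z) G G' κ₁ κ₂ h] with t ht
          exact (Q t).quad v G G' κ₁ κ₂ ht
      lp_quad' := by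
        intro v G G' κ₁ κ₂ a h h1
        refine Sm.of_le hh (K := 1 + absQ (v.map (fun p => (p : ℕ))) κ₁ +
          absQ (v.map (fun p => (p : ℕ))) κ₂) ?_ (fun _ => zero_le_one) h1 ?_
        · have := absQ_nonneg (v.map (fun p => (p : ℕ))) κ₁
          have := absQ_nonneg (v.map (fun p => (p : ℕ))) κ₂
          linarith
        · filter_upwards [quad_germ g (fun t => (Q t).z') G G' κ₁ κ₂ h] with t ht
          exact (Q t).quad' v G G' κ₁ κ₂ ht
      pair := fun v G G' a a' b b' h1 h2 h3 h4 => lv_bil (g := g) hh v G G' a a' b b' h1 h2 h3 h4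
      α := α
      α' := α'
      α_nonneg := hα0
      α_nonneg' := hα0'
      lp_α := hαs
      lp_α' := hαs'
      sst := fun k W _ _ ι _ b w h1 h2 h3 h4 =>
        sst g hS husst hU (fun t => (Q t).h) hh k W ι b w h1 h2 h3 h4 }
  have hfin := habs (Option S) q hq H hgp Ω D (by
    intro ℓ hℓ h
    have h' : lf (fun j => g.π (fun t => (Q t).z j)) ℓ = 0 := h
    rw [lf_germ_zero g (fun t => (Q t).z)] at h'
    obtain ⟨t, ht⟩ := h'.exists
    exact hdbl t ℓ hℓ ht)
  have hfin' : ∑ v : Option S, ∑ i, (α v i + α' v i) ≤ bd m := hfin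
  -- the limit of the failing inequality
  have hlim : Tendsto (fun t => ∑ v : Option S, ∑ i, (-Real.log ((Q t).N v (H i)) / (Q t).h +
      -Real.log ((Q t).N' v (H i)) / (Q t).h)) U (𝓝 (∑ v : Option S, ∑ i, (α v i + α' v i))) :=
    tendsto_finsetSum _ fun v _ => tendsto_finsetSum _ fun i _ => (hαt v i).add (hαt' v i)
  have hge : ∀ᶠ t in (U : Filter ℕ), bd m + ε ≤ ∑ v : Option S, ∑ i,
      (-Real.log ((Q t).N v (H i)) / (Q t).h + -Real.log ((Q t).N' v (H i)) / (Q t).h) := by
    filter_upwards [hUb, hh.eventually_gt_atTop 0] with t h1 h2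
    rw [hbad] at h1
    have h3 := not_le.1 h1
    have h4 : ∑ v : Option S, ∑ i,
        (-Real.log ((Q t).N v (H i)) / (Q t).h + -Real.log ((Q t).N' v (H i)) / (Q t).h) =
        (∑ v : Option S, ∑ i,
          (-Real.log ((Q t).N v (H i)) - Real.log ((Q t).N' v (H i)))) / (Q t).h := by
      rw [Finset.sum_div]
      apply Finset.sum_congr rfl
      intro v _
      rw [Finset.sum_div]
      apply Finset.sum_congr rfl
      intro i _
      ring
    rw [h4, le_div_iff₀ h2]
    exact h3.le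
  have := ge_of_tendsto hlim hge
  linarith

/-- the main theorem -/
theorem main_ofM (m : ℕ) (hbr : BrStmt2) (hhyp : HypM m) (S : Finset ℕ) (hS : ∀ p ∈ S, p.Prime) (q : ℕ)
    (hq : 4 ≤ q) (H : Fin q → Fin 3 → ℚ) (hH : GenPos H) (ε : ℝ) (hε : 0 < ε) :
    ∃ C : ℝ, ∀ (L : Type) [Field L] [NumberField L], Module.finrank ℚ L ≤ 2 →
      ∀ x : Fin 3 → L, x ≠ 0 → aeval x (∏ i, lin (n := 2) (H i)) ≠ 0 →
        (∀ ℓ : Fin 3 → ℚ, ℓ ≠ 0 → aeval x (lin (n := 2) ℓ) = 0 → (dbl H ℓ).card ≤ m) →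
          proximity (n := 2) S (∏ i, lin (H i)) q x ≤ (bd m + ε) * height (n := 2) x + C := by
  have hbd := bd_pos m
  by_contra hcon
  push Not at hcon
  obtain ⟨C0, hC0⟩ := hbr S hS q H
  obtain ⟨K, hK⟩ := liou_all S hS C0 H
  have hbad : ∀ t : ℕ, ∃ (L : Type) (_ : Field L) (_ : NumberField L) (_ : Module.finrank ℚ L ≤ 2)
      (x : Fin 3 → L) (_ : x ≠ 0) (_ : aeval x (∏ i, lin (n := 2) (H i)) ≠ 0)
      (_ : ∀ ℓ : Fin 3 → ℚ, ℓ ≠ 0 → aeval x (lin (n := 2) ℓ) = 0 → (dbl H ℓ).card ≤ m),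
        (bd m + ε) * height (n := 2) x + (t : ℝ) < proximity (n := 2) S (∏ i, lin (H i)) q x := by
    intro t
    obtain ⟨L, i1, i2, h3, x, h4, h5, h6, h7⟩ := hcon (t : ℝ)
    exact ⟨L, i1, i2, h3, x, h4, h5, h6, h7⟩
  choose L i1 i2 hL x hx hF hΦ hineq using hbad
  choose Q hQ using fun t => hC0 (L t) (hL t) (x t) (hx t) (hF t)
  have hpos : ∀ t v i, 0 < (Q t).N v (H i) ∧ 0 < (Q t).N' v (H i) := fun t => (hQ t).2.2.1
  have hht : ∀ t, 0 ≤ height (n := 2) (x t) := fun t =>
    div_nonneg (Height.logHeight_nonneg (x t)) (Nat.cast_nonneg _)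
  have hq0 : (0 : ℝ) < q := by exact_mod_cast (by omega : 0 < q)
  have hlow : ∀ t : ℕ, (2 * (t : ℝ) - K - C0) / q ≤ (Q t).h := by
    intro t
    rw [div_le_iff₀ hq0]
    have h1 := hK (Q t) (hpos t)
    have h2 := (hQ t).2.2.2
    have h3 := hineq t
    have h4 : 0 ≤ (bd m + ε) * height (n := 2) (x t) := mul_nonneg (by linarith) (hht t)
    linarith
  have hh : Tendsto (fun t => (Q t).h) atTop atTop := by
    refine tendsto_atTop_mono hlow ?_
    refine Tendsto.atTop_div_const hq0 ?_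
    refine tendsto_atTop_add_const_right _ _ ?_
    refine tendsto_atTop_add_const_right _ _ ?_
    exact tendsto_natCast_atTop_atTop.const_mul_atTop (by norm_num)
  have key := hhyp S hS q hq H hH C0 Q hh
    (fun t ℓ hℓ h0 => hΦ t ℓ hℓ ((hQ t).1 ℓ h0)) hpos ε hε
  obtain ⟨t, ht1, ht2⟩ := (key.and (eventually_ge_atTop
    (⌈((bd m + ε) * C0 + C0) / 2⌉₊))).exists
  have h1 := (hQ t).2.1
  have h2 := (hQ t).2.2.2
  have h3 := hineq t
  have h4 : ((bd m + ε) * C0 + C0) / 2 ≤ t := (Nat.le_ceil _).trans (by exact_mod_cast ht2)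
  have h5 : (bd m + ε) * (Q t).h ≤ (bd m + ε) * (2 * height (n := 2) (x t) + C0) :=
    mul_le_mul_of_nonneg_left h1 (by linarith)
  nlinarith


end Run7.h567.QP
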