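import Pool.Agent.Run7.h567.Interp

set_option autoImplicit false

open MeasureTheory ENNReal Set Filter Topology

namespace Run7.h567

variable {d : ℕ}

/-- the density -/
noncomputable def rho (f : V d → V d → ℝ≥0∞) (z : ℝ × V d) : ℝ≥0∞ :=
  ∫⁻ v : V d, f (z.2 - z.1 • v) v

lemma measurable_rho {f : V d → V d → ℝ≥0∞} (hf : Measurable (Function.uncurry f)) :
    Measurable (rho f) := by
  unfold rho
  have : Measurable (fun p : (ℝ × V d) × V d => Function.uncurry f (p.1.2 - p.1.1 • p.2, p.2)) :=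
    hf.comp (by fun_prop)
  exact this.lintegral_prod_right'

lemma pairing {f : V d → V d → ℝ≥0∞} (hf : Measurable (Function.uncurry f)) {g : ℝ × V d → ℝ≥0∞}
    (hg : Measurable g) :
    ∫⁻ z, rho f z * g z = ∫⁻ v : V d, ∫⁻ x : V d, f x v * Xr g (x, v) := by
  have h1 : Measurable (fun p : (ℝ × V d) × V d => Function.uncurry f (p.1.2 - p.1.1 • p.2, p.2)) :=
    hf.comp (by fun_prop)
  have h2 : Measurable (fun p : (ℝ × V d) × V d => f (p.1.2 - p.1.1 • p.2) p.2 * g p.1) :=
    Measurable.mul h1 (by fun_prop)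
  calc ∫⁻ z, rho f z * g z = ∫⁻ z : ℝ × V d, ∫⁻ v : V d, f (z.2 - z.1 • v) v * g z := by
        refine lintegral_congr fun z => ?_
        unfold rho
        have m0 : Measurable (fun v : V d => f (z.2 - z.1 • v) v) :=
          h1.comp (f := fun v : V d => (z, v)) (by fun_prop)
        rw [lintegral_mul_const _ m0]
    _ = ∫⁻ v : V d, ∫⁻ z : ℝ × V d, f (z.2 - z.1 • v) v * g z :=
        lintegral_lintegral_swap h2.aemeasurable
    _ = _ := by
        refine lintegral_congr fun v => ?_
        have m1 : Measurable (fun z : ℝ × V d => f (z.2 - z.1 • v) v * g z) :=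
          h2.comp (f := fun z : ℝ × V d => (z, v)) (by fun_prop)
        rw [← lintegral_shear v _ m1]
        refine lintegral_congr fun x => ?_
        have m2 : Measurable (fun t : ℝ => g (pt (x, v) t)) := by fun_prop
        unfold Xr
        rw [← lintegral_const_mul _ m2]
        refine lintegral_congr fun t => ?_
        simp [pt]

/-- duality and monotone approximation -/
theorem dual (hd : 1 ≤ d) (p : ℝ) (hp : ((d : ℝ) + 1) / d < p) (C : NNReal)
    (hX : ∀ g : ℝ × V d → ℝ≥0∞, Measurable g → (∀ z, g z ≠ ∞) →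
      ∫⁻ v : V d, (∫⁻ x : V d, Xr g (x, v) ^ (((d : ℝ) * p) / ((d : ℝ) * p - d - 1))) ^
          ((d : ℝ) * p - d - 1) ≤
        C * (∫⁻ z, g z ^ (((d : ℝ) * p) / ((d : ℝ) * p - d))) ^ ((d : ℝ) * p - d)) :
    ∀ f : V d → V d → ℝ≥0∞, Measurable (Function.uncurry f) →
      (∫⁻ t : ℝ, ∫⁻ x : V d, (∫⁻ v : V d, f (x - t • v) v) ^ p) ^ (1 / p) ≤
        ((C ^ (1 / ((d : ℝ) * p)) : NNReal) : ℝ≥0∞) *
        (∫⁻ v : V d, (∫⁻ x : V d, f x v ^ ((d : ℝ) * p / ((d : ℝ) + 1))) ^
          (((d : ℝ) * p / ((d : ℝ) * p - 1)) / ((d : ℝ) * p / ((d : ℝ) + 1)))) ^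
          (1 / ((d : ℝ) * p / ((d : ℝ) * p - 1))) := by
  intro f hf
  have hd' : (1 : ℝ) ≤ d := by exact_mod_cast hd
  have hd0 : (0 : ℝ) < d := by linarith
  set a : ℝ := (d : ℝ) * p with ha
  have ha1 : (d : ℝ) + 1 < a := by
    rw [div_lt_iff₀ hd0] at hp
    rw [ha]; linarith
  have ha0 : 0 < a := by linarith
  have had : 0 < a - d := by linarith
  have hadd : 0 < a - d - 1 := by linarith
  have ha11 : 0 < a - 1 := by linarith
  have hp1 : 1 < p := by
    refine lt_trans ?_ hp
    rw [lt_div_iff₀ hd0]; linarith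
  have hp0 : 0 < p := by linarith
  set b : ℝ := a / ((d : ℝ) + 1) with hb
  set a1 : ℝ := a / (a - 1) with ha1'
  set b' : ℝ := a / (a - d - 1) with hb'
  set P : ℝ := a / (a - d) with hP
  have hP0 : 0 < P := by positivity
  have hbb : b.HolderConjugate b' := by
    rw [Real.holderConjugate_iff]
    refine ⟨?_, ?_⟩
    · rw [hb, lt_div_iff₀ (by positivity)]; linarith
    · rw [hb, hb', inv_div, inv_div]
      field_simp
      ring
  have haa : a1.HolderConjugate a := by
    rw [Real.holderConjugate_iff]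
    refine ⟨?_, ?_⟩
    · rw [ha1', lt_div_iff₀ ha11]; linarith
    · rw [ha1', inv_div]
      field_simp
      ring
  have hb0 : 0 < b := by positivity
  have hb'0 : 0 < b' := by positivity
  have ha10 : 0 < a1 := by positivity
  set Nf : ℝ≥0∞ := (∫⁻ v : V d, (∫⁻ x : V d, f x v ^ b) ^ (a1 / b)) ^ (1 / a1) with hNf
  have hρm := measurable_rho hf
  -- the main duality inequality
  have key : ∀ g : ℝ × V d → ℝ≥0∞, Measurable g → (∀ z, g z ≠ ∞) →
      ∫⁻ z, rho f z * g z ≤ (C ^ (1 / a) : NNReal) * Nf * (∫⁻ z, g z ^ P) ^ (1 / P) := by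
    intro g hg hgt
    rw [pairing hf hg]
    have hXm := measurable_Xr hg
    have m1 : Measurable (fun q : V d × V d => f q.2 q.1 ^ b) := by
      have : Measurable (fun q : V d × V d => Function.uncurry f (q.2, q.1)) :=
        hf.comp (by fun_prop)
      exact this.pow_const _
    have m2 : Measurable (fun q : V d × V d => Xr g (q.2, q.1) ^ b') := by
      have : Measurable (fun q : V d × V d => Xr g (q.2, q.1)) :=
        hXm.comp (f := fun q : V d × V d => (q.2, q.1)) (by fun_prop)
      exact this.pow_const _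
    set F1 : V d → ℝ≥0∞ := fun v => (∫⁻ x : V d, f x v ^ b) ^ (1 / b) with hF1
    set F2 : V d → ℝ≥0∞ := fun v => (∫⁻ x : V d, Xr g (x, v) ^ b') ^ (1 / b') with hF2
    have hF1m : Measurable F1 := (m1.lintegral_prod_right').pow_const _
    have hF2m : Measurable F2 := (m2.lintegral_prod_right').pow_const _
    have h1 : ∀ v : V d, ∫⁻ x : V d, f x v * Xr g (x, v) ≤ F1 v * F2 v := by
      intro v
      have mf : Measurable (fun x : V d => f x v) :=
        hf.comp (f := fun x : V d => (x, v)) (by fun_prop)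
      have mX : Measurable (fun x : V d => Xr g (x, v)) :=
        hXm.comp (f := fun x : V d => (x, v)) (by fun_prop)
      exact ENNReal.lintegral_mul_le_Lp_mul_Lq volume hbb mf.aemeasurable mX.aemeasurable
    have h2 := ENNReal.lintegral_mul_le_Lp_mul_Lq volume haa hF1m.aemeasurable hF2m.aemeasurable
    have e1 : ∀ v, F1 v ^ a1 = (∫⁻ x : V d, f x v ^ b) ^ (a1 / b) := by
      intro v
      rw [hF1, ← ENNReal.rpow_mul]
      congr 1
      ring
    have e2 : ∀ v, F2 v ^ a = (∫⁻ x : V d, Xr g (x, v) ^ b') ^ (a - d - 1) := by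
      intro v
      rw [hF2, ← ENNReal.rpow_mul]
      congr 1
      rw [hb']; field_simp
    calc ∫⁻ v : V d, ∫⁻ x : V d, f x v * Xr g (x, v) ≤ ∫⁻ v : V d, F1 v * F2 v := lintegral_mono h1
      _ ≤ (∫⁻ v, F1 v ^ a1) ^ (1 / a1) * (∫⁻ v, F2 v ^ a) ^ (1 / a) := h2
      _ = Nf * (∫⁻ v, (∫⁻ x : V d, Xr g (x, v) ^ b') ^ (a - d - 1)) ^ (1 / a) := by
          simp_rw [e1, e2]; rfl
      _ ≤ Nf * (C * (∫⁻ z, g z ^ P) ^ (a - d)) ^ (1 / a) := by
          gcongr
          exact hX g hg hgt
      _ = _ := by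
          rw [ENNReal.mul_rpow_of_nonneg _ _ (by positivity), ← ENNReal.rpow_mul,
            ENNReal.coe_rpow_of_nonneg _ (by positivity)]
          have : (a - d) * (1 / a) = 1 / P := by rw [hP]; field_simp
          rw [this]
          ring
  -- truncations
  set K : ℝ≥0∞ := (C ^ (1 / a) : NNReal) * Nf with hK
  set Bn : ℕ → Set (ℝ × V d) := fun n => Metric.closedBall 0 n with hBn
  have hBm : ∀ n, MeasurableSet (Bn n) := fun n => Metric.isClosed_closedBall.measurableSet
  have hBf : ∀ n, volume (Bn n) ≠ ∞ := fun n => (isCompact_closedBall _ _).measure_ne_top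
  set hn : ℕ → ℝ × V d → ℝ≥0∞ := fun n z => min (rho f z) n with hhn
  have hhm : ∀ n, Measurable (hn n) := fun n => hρm.min measurable_const
  have hht : ∀ n z, hn n z ≠ ∞ := fun n z =>
    ne_top_of_le_ne_top (ENNReal.natCast_ne_top n) (min_le_right _ _)
  have trunc : ∀ n, ∫⁻ z, (Bn n).indicator (fun z => hn n z ^ p) z ≤ K ^ p := by
    intro n
    set g : ℝ × V d → ℝ≥0∞ := (Bn n).indicator (fun z => hn n z ^ (p - 1)) with hg
    set I := ∫⁻ z, (Bn n).indicator (fun z => hn n z ^ p) z with hI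
    have hgm : Measurable g := ((hhm n).pow_const _).indicator (hBm n)
    have hgt : ∀ z, g z ≠ ∞ := by
      intro z
      by_cases hz : z ∈ Bn n
      · rw [hg, indicator_of_mem hz]
        exact ENNReal.rpow_ne_top_of_nonneg (by linarith) (hht n z)
      · rw [hg, indicator_of_notMem hz]; exact ENNReal.zero_ne_top
    have hgP : ∫⁻ z, g z ^ P = I := by
      refine lintegral_congr fun z => ?_
      by_cases hz : z ∈ Bn n
      · rw [hg, indicator_of_mem hz, indicator_of_mem hz, ← ENNReal.rpow_mul]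
        congr 1
        rw [hP, ha]
        have : (d:ℝ) * p - d = d * (p - 1) := by ring
        rw [this]
        have : p - 1 ≠ 0 := by linarith
        field_simp
      · rw [hg, indicator_of_notMem hz, indicator_of_notMem hz, ENNReal.zero_rpow_of_pos hP0]
    have hIt : I ≠ ∞ := by
      refine ne_top_of_le_ne_top (b := (n : ℝ≥0∞) ^ p * volume (Bn n)) ?_ ?_
      · exact ENNReal.mul_ne_top (ENNReal.rpow_ne_top_of_nonneg hp0.le (ENNReal.natCast_ne_top n)) (hBf n)
      · rw [← lintegral_indicator_const (hBm n)]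
        refine lintegral_mono fun z => ?_
        by_cases hz : z ∈ Bn n
        · rw [indicator_of_mem hz, indicator_of_mem hz]
          gcongr
          exact min_le_right _ _
        · rw [indicator_of_notMem hz, indicator_of_notMem hz]
    have hle : I ≤ ∫⁻ z, rho f z * g z := by
      refine lintegral_mono fun z => ?_
      by_cases hz : z ∈ Bn n
      · rw [hg, indicator_of_mem hz, indicator_of_mem hz]
        calc hn n z ^ p = hn n z * hn n z ^ (p - 1) := by
              conv_lhs => rw [show p = 1 + (p - 1) by ring]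
              rw [ENNReal.rpow_add_of_nonneg _ _ zero_le_one (by linarith), ENNReal.rpow_one]
          _ ≤ _ := by gcongr; exact min_le_left _ _
      · rw [indicator_of_notMem hz]; exact zero_le
    have h3 := hle.trans (key g hgm hgt)
    rw [hgP] at h3
    by_cases hI0 : I = 0
    · rw [hI0]; exact zero_le
    have hPp : 1 - 1 / P = 1 / p := by
      rw [hP, ha]
      have : (d:ℝ) * p - d = d * (p - 1) := by ring
      rw [this]
      have : p - 1 ≠ 0 := by linarith
      field_simp
      ring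
    have h4 : I ^ (1 / p) ≤ K := by
      rw [← hPp, ENNReal.rpow_sub _ _ hI0 hIt, ENNReal.rpow_one]
      exact ENNReal.div_le_of_le_mul h3
    calc I = (I ^ (1 / p)) ^ p := by
          rw [← ENNReal.rpow_mul, one_div_mul_cancel hp0.ne', ENNReal.rpow_one]
      _ ≤ K ^ p := by gcongr
  -- limit
  have hfatou : ∫⁻ z, rho f z ^ p ≤ K ^ p := by
    have hlim : ∀ z, Tendsto (fun n => (Bn n).indicator (fun z => hn n z ^ p) z) atTop
        (𝓝 (rho f z ^ p)) := by
      intro z
      have h5 : Tendsto (fun n : ℕ => hn n z ^ p) atTop (𝓝 (rho f z ^ p)) := by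
        have h6 : Tendsto (fun n : ℕ => hn n z) atTop (𝓝 (min (rho f z) ∞)) :=
          tendsto_const_nhds.min ENNReal.tendsto_nat_nhds_top
        rw [min_eq_left le_top] at h6
        exact (ENNReal.continuous_rpow_const.tendsto _).comp h6
      refine h5.congr' ?_
      obtain ⟨n0, hn0⟩ := exists_nat_ge ‖z‖
      filter_upwards [eventually_ge_atTop n0] with n hn1
      have hz : z ∈ Bn n := by
        rw [hBn]
        simp only [Metric.mem_closedBall, dist_zero_right]
        exact hn0.trans (by exact_mod_cast hn1)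
      rw [indicator_of_mem hz]
    calc ∫⁻ z, rho f z ^ p = ∫⁻ z, liminf (fun n => (Bn n).indicator (fun z => hn n z ^ p) z) atTop := by
          refine lintegral_congr fun z => ?_
          rw [(hlim z).liminf_eq]
      _ ≤ liminf (fun n => ∫⁻ z, (Bn n).indicator (fun z => hn n z ^ p) z) atTop :=
          lintegral_liminf_le fun n => ((hhm n).pow_const _).indicator (hBm n)
      _ ≤ liminf (fun _ : ℕ => K ^ p) atTop :=
          liminf_le_liminf (Eventually.of_forall trunc)
      _ = K ^ p := liminf_const _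
  have e3 : ∫⁻ t : ℝ, ∫⁻ x : V d, (∫⁻ v : V d, f (x - t • v) v) ^ p = ∫⁻ z, rho f z ^ p := by
    rw [Measure.volume_eq_prod ℝ (V d), lintegral_prod _ (hρm.pow_const _).aemeasurable]
    rfl
  rw [e3]
  calc (∫⁻ z, rho f z ^ p) ^ (1 / p) ≤ (K ^ p) ^ (1 / p) := by gcongr
    _ = K := by rw [← ENNReal.rpow_mul, mul_one_div_cancel hp0.ne', ENNReal.rpow_one]

end Run7.h567
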