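import Pool.Agent.Run7.h567.Restr
import Pool.Agent.Run7.h567.Dual

set_option autoImplicit false

open MeasureTheory ENNReal Set Filter Topology

namespace Run7.h567

variable {d : ℕ}

/-- the core bound with exponent `e` gives the estimate for all `p > (d + 2 - e) / d` -/
theorem main_of_core (hd : 1 ≤ d) (e : ℝ) (he0 : 0 < e) (he1 : e ≤ 1) (hcore : CoreBound d e)
    (p : ℝ) (hp : ((d : ℝ) + 2 - e) / d < p) :
    ∃ C : NNReal, ∀ f : V d → V d → ℝ≥0∞, Measurable (Function.uncurry f) →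
      (∫⁻ t : ℝ, ∫⁻ x : V d, (∫⁻ v : V d, f (x - t • v) v) ^ p) ^ (1 / p) ≤
        (C : ℝ≥0∞) *
        (∫⁻ v : V d, (∫⁻ x : V d, f x v ^ ((d : ℝ) * p / ((d : ℝ) + 1))) ^
          (((d : ℝ) * p / ((d : ℝ) * p - 1)) / ((d : ℝ) * p / ((d : ℝ) + 1)))) ^
          (1 / ((d : ℝ) * p / ((d : ℝ) * p - 1))) := by
  have hd' : (1 : ℝ) ≤ d := by exact_mod_cast hd
  have hd0 : (0 : ℝ) < d := by linarith
  have hp' : (d : ℝ) + 2 - e < d * p := by
    rw [div_lt_iff₀ hd0] at hp; linarith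
  -- choose the exponent
  obtain ⟨ε, hε0, hεe, hεp⟩ : ∃ ε : ℝ, 0 ≤ ε ∧ ε < e ∧ (d : ℝ) + 2 - ε < d * p := by
    by_cases h : (d : ℝ) + 2 < d * p
    · exact ⟨0, le_rfl, he0, by linarith⟩
    · refine ⟨((d : ℝ) + 2 - d * p + e) / 2, ?_, ?_, ?_⟩ <;> linarith
  have hε1 : ε < 1 := by linarith
  obtain ⟨C0, hC0⟩ := restricted e ε hcore hε0 hεe hε1
  have hres : ∀ E : Set (ℝ × V d), MeasurableSet E → volume E ≠ ∞ →
      ∫⁻ v : V d, (∫⁻ x : V d, F E (x, v) ^ (((d : ℝ) + 1 + (1 - ε)) / (1 - ε))) ^ (1 - ε) ≤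
        C0 * volume E ^ (1 + (1 - ε)) := by
    intro E hE hEf
    have := hC0 E hE hEf
    rw [show (d : ℝ) + 1 + (1 - ε) = d + 2 - ε by ring, show 1 + (1 - ε) = 2 - ε by ring]
    exact this
  obtain ⟨C1, hC1⟩ := interp hd (1 - ε) (by linarith) (by linarith) C0 hres (d * p) (by linarith)
  have hpd : ((d : ℝ) + 1) / d < p := by
    rw [div_lt_iff₀ hd0]; linarith
  exact ⟨_, dual hd p hpd C1 hC1⟩

end Run7.h567
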