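import Pool.Agent.Run7.h567.CoreA
import Pool.Agent.Run7.h567.MainC

set_option autoImplicit false

open MeasureTheory

namespace Run7.h567.BeyondChrist

/-- The mixed-norm estimate for the free-transport density, for all `p` above an explicit exponent
strictly below `(d + 2) / d`. -/
theorem result :
    ∀ d : ℕ, 1 ≤ d → ∀ p : ℝ,
      ((d : ℝ) + 2 - 1 / (3 * (d : ℝ) ^ 2 + 13 * (d : ℝ) + 14)) / (d : ℝ) < p →
      ∃ C : NNReal, ∀ f : (Fin d → ℝ) → (Fin d → ℝ) → ENNReal,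
        Measurable (Function.uncurry f) →
          (∫⁻ t : ℝ, ∫⁻ x : Fin d → ℝ,
              (∫⁻ v : Fin d → ℝ, f (x - t • v) v) ^ p) ^ (1 / p)
            ≤ (C : ENNReal) *
              (∫⁻ v : Fin d → ℝ,
                  (∫⁻ x : Fin d → ℝ, f x v ^ ((d : ℝ) * p / ((d : ℝ) + 1))) ^
                    (((d : ℝ) * p / ((d : ℝ) * p - 1)) / ((d : ℝ) * p / ((d : ℝ) + 1)))) ^
                (1 / ((d : ℝ) * p / ((d : ℝ) * p - 1))) := by
  intro d hd p hp
  have hM : ((Run7.h567.MM d : ℕ) : ℝ) = 3 * (d : ℝ) ^ 2 + 13 * (d : ℝ) + 14 := by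
    unfold Run7.h567.MM
    push_cast
    ring
  have hM0 : (1 : ℝ) ≤ 3 * (d : ℝ) ^ 2 + 13 * (d : ℝ) + 14 := by
    have h0 : (0 : ℝ) ≤ (d : ℝ) := Nat.cast_nonneg d
    nlinarith [sq_nonneg (d : ℝ)]
  have hcore := Run7.h567.core_base hd
  rw [hM] at hcore
  refine Run7.h567.main_of_core hd _ (by positivity) ?_ hcore p hp
  rw [div_le_one (by positivity)]
  exact hM0

end Run7.h567.BeyondChrist
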