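import Pool.Agent.Run7.h567.Defs

set_option autoImplicit false

open MeasureTheory ENNReal Set

namespace Run7.h567

variable {d : ℕ}

/-- times at which the line is in `E` -/
def Sec (E : Set (ℝ × V d)) (ℓ : V d × V d) : Set ℝ := {t | pt ℓ t ∈ E}

/-- the length (in time) of the line inside `E` -/
noncomputable def F (E : Set (ℝ × V d)) (ℓ : V d × V d) : ℝ≥0∞ := volume (Sec E ℓ)

/-- real version -/
noncomputable def A (E : Set (ℝ × V d)) (ℓ : V d × V d) : ℝ := (F E ℓ).toReal

lemma measurableSet_Sec {E : Set (ℝ × V d)} (hE : MeasurableSet E) (ℓ : V d × V d) :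
    MeasurableSet (Sec E ℓ) := by
  have : Measurable (fun t : ℝ => pt ℓ t) := by fun_prop
  exact this hE

lemma measurable_F {E : Set (ℝ × V d)} (hE : MeasurableSet E) : Measurable (F E) := by
  have h : MeasurableSet {p : (V d × V d) × ℝ | pt p.1 p.2 ∈ E} := by
    have : Measurable (fun p : (V d × V d) × ℝ => pt p.1 p.2) := by fun_prop
    exact this hE
  exact measurable_measure_prodMk_left h

lemma measurable_A {E : Set (ℝ × V d)} (hE : MeasurableSet E) : Measurable (A E) :=
  (measurable_F hE).ennreal_toReal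

lemma A_nonneg (E : Set (ℝ × V d)) (ℓ : V d × V d) : 0 ≤ A E ℓ := ENNReal.toReal_nonneg

lemma F_eq {E : Set (ℝ × V d)} {ℓ : V d × V d} (h : F E ℓ ≠ ∞) : F E ℓ = ENNReal.ofReal (A E ℓ) :=
  (ENNReal.ofReal_toReal h).symm

lemma A_pos {E : Set (ℝ × V d)} {ℓ : V d × V d} (h : F E ℓ ≠ 0 ∧ F E ℓ ≠ ∞) : 0 < A E ℓ :=
  ENNReal.toReal_pos h.1 h.2

/-- the cone formula for the measure of `E` -/
lemma cone_E {E : Set (ℝ × V d)} (hE : MeasurableSet E) (z : ℝ × V d) :
    ∫⁻ v : V d, ∫⁻ t in Sec E (ln z v), ENNReal.ofReal (|t - z.1| ^ d) = volume E := by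
  have h1 := lintegral_cone z (E.indicator 1) (measurable_one.indicator hE)
  rw [lintegral_indicator_one hE] at h1
  rw [← h1, lintegral_lintegral_swap ?_]
  · refine lintegral_congr fun v => ?_
    rw [← lintegral_indicator (measurableSet_Sec hE _),
      ← lintegral_add_left_eq_self (μ := (volume : Measure ℝ)) _ z.1]
    refine lintegral_congr fun s => ?_
    by_cases hs : (z.1 + s, z.2 + s • v) ∈ E
    · rw [indicator_of_mem, indicator_of_mem hs]
      · simp
      · simp only [Sec, mem_ofPred_eq, pt_ln]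
        simpa using hs
    · rw [indicator_of_notMem, indicator_of_notMem hs]
      · simp
      · simp only [Sec, mem_ofPred_eq, pt_ln]
        simpa using hs
  · have : Measurable (fun p : ℝ × V d => (E.indicator 1 (z.1 + p.1, z.2 + p.1 • p.2) : ℝ≥0∞)) :=
      (measurable_one.indicator hE).comp (by fun_prop)
    exact (Measurable.mul (by fun_prop) this).aemeasurable

/-- Chebyshev -/
lemma cheb {S : Set ℝ} (hS : MeasurableSet S) (a c : ℝ) (hc : 0 ≤ c) :
    ENNReal.ofReal (c ^ d) * volume (S ∩ {t | c ≤ |t - a|}) ≤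
      ∫⁻ t in S, ENNReal.ofReal (|t - a| ^ d) := by
  have hm : MeasurableSet (S ∩ {t : ℝ | c ≤ |t - a|}) :=
    hS.inter (measurableSet_le measurable_const (by fun_prop))
  calc ENNReal.ofReal (c ^ d) * volume (S ∩ {t | c ≤ |t - a|})
      = ∫⁻ t in S ∩ {t | c ≤ |t - a|}, ENNReal.ofReal (c ^ d) := by
        rw [setLIntegral_const]
    _ ≤ ∫⁻ t in S ∩ {t | c ≤ |t - a|}, ENNReal.ofReal (|t - a| ^ d) := by
        refine setLIntegral_mono' hm fun t ht => ?_
        exact ENNReal.ofReal_le_ofReal (pow_le_pow_left₀ hc ht.2 _)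
    _ ≤ ∫⁻ t in S, ENNReal.ofReal (|t - a| ^ d) := lintegral_mono_set inter_subset_left

lemma vol_abs_lt (a c : ℝ) : volume {t : ℝ | |t - a| < c} = ENNReal.ofReal (2 * c) := by
  have : {t : ℝ | |t - a| < c} = Metric.ball a c := by
    ext t; simp [Real.dist_eq]
  rw [this, Real.volume_ball]

lemma vol_abs_le (a c : ℝ) : volume {t : ℝ | |t - a| ≤ c} = ENNReal.ofReal (2 * c) := by
  have : {t : ℝ | |t - a| ≤ c} = Metric.closedBall a c := by
    ext t; simp [Real.dist_eq]
  rw [this, Real.volume_closedBall]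

/-- half of the set is at distance `≥ A / 4` -/
lemma half_far {S : Set ℝ} {a x : ℝ} (hx : volume S = ENNReal.ofReal x) :
    ENNReal.ofReal (x / 2) ≤ volume (S ∩ {t | x / 4 ≤ |t - a|}) := by
  by_contra hcon
  push Not at hcon
  have h1 : volume S ≤ volume (S ∩ {t | x / 4 ≤ |t - a|}) + volume {t : ℝ | |t - a| < x / 4} := by
    refine (measure_mono ?_).trans (measure_union_le _ _)
    intro t ht
    by_cases h : x / 4 ≤ |t - a|
    · exact Or.inl ⟨ht, h⟩
    · exact Or.inr (not_le.1 h)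
  rw [vol_abs_lt, hx, show 2 * (x / 4) = x / 2 by ring] at h1
  have hx0 : 0 < x := by
    by_contra h
    have : x / 2 ≤ 0 := by linarith
    rw [ENNReal.ofReal_of_nonpos this] at hcon
    exact absurd hcon (not_lt.2 zero_le)
  have h2 : ENNReal.ofReal x < ENNReal.ofReal (x / 2) + ENNReal.ofReal (x / 2) :=
    lt_of_le_of_lt h1 (ENNReal.add_lt_add_right ENNReal.ofReal_ne_top hcon)
  rw [← ENNReal.ofReal_add (by positivity) (by positivity), add_halves] at h2
  exact lt_irrefl _ h2

lemma bush_line {S : Set ℝ} (hS : MeasurableSet S) (a : ℝ) {x : ℝ} (hx0 : 0 ≤ x)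
    (hx : volume S = ENNReal.ofReal x) :
    ENNReal.ofReal (x ^ (d + 1)) ≤
      ENNReal.ofReal (2 * 4 ^ d) * ∫⁻ t in S, ENNReal.ofReal (|t - a| ^ d) := by
  have h1 := cheb (d := d) hS a (x / 4) (by positivity)
  have h2 := half_far (a := a) hx
  calc ENNReal.ofReal (x ^ (d + 1))
      = ENNReal.ofReal (2 * 4 ^ d) * (ENNReal.ofReal ((x / 4) ^ d) * ENNReal.ofReal (x / 2)) := by
        rw [← ENNReal.ofReal_mul (by positivity), ← ENNReal.ofReal_mul (by positivity)]
        congr 1
        rw [div_pow]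
        field_simp
        exact pow_succ x d
    _ ≤ ENNReal.ofReal (2 * 4 ^ d) * (ENNReal.ofReal ((x / 4) ^ d) *
          volume (S ∩ {t | x / 4 ≤ |t - a|})) := by gcongr
    _ ≤ _ := by gcongr

section
variable {E : Set (ℝ × V d)} {G : Set (V d × V d)}

/-- powers of the length on `G` -/
noncomputable def wt (E : Set (ℝ × V d)) (G : Set (V d × V d)) (k : ℕ) (ℓ : V d × V d) : ℝ≥0∞ :=
  G.indicator (fun ℓ => ENNReal.ofReal (A E ℓ ^ k)) ℓ

lemma measurable_wt (hE : MeasurableSet E) (hG : MeasurableSet G) (k : ℕ) :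
    Measurable (wt E G k) := by
  have := measurable_A hE
  exact Measurable.indicator (by fun_prop) hG

/-- bush bound: total weight of the `G`-lines through a point -/
lemma bush (hE : MeasurableSet E) (hGF : ∀ ℓ ∈ G, F E ℓ ≠ 0 ∧ F E ℓ ≠ ∞) (z : ℝ × V d) :
    ∫⁻ v : V d, wt E G (d + 1) (ln z v) ≤ ENNReal.ofReal (2 * 4 ^ d) * volume E := by
  rw [← cone_E hE z, ← lintegral_const_mul' _ _ ENNReal.ofReal_ne_top]
  refine lintegral_mono fun v => ?_
  by_cases h : ln z v ∈ G
  · simp only [wt, indicator_of_mem h]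
    exact bush_line (measurableSet_Sec hE _) z.1 (A_nonneg _ _) (F_eq (hGF _ h).2)
  · simp [wt, indicator_of_notMem h]

/-- far part of the section -/
def Far (E : Set (ℝ × V d)) (R : ℝ) (ℓ : V d × V d) (t : ℝ) : Set ℝ :=
  Sec E ℓ ∩ {t' | R * A E ℓ < |t' - t|}

lemma measurable_Far (hE : MeasurableSet E) (R : ℝ) :
    Measurable (fun p : (V d × V d) × ℝ => volume (Far E R p.1 p.2)) := by
  have hA := measurable_A hE
  have h : MeasurableSet {q : ((V d × V d) × ℝ) × ℝ |
      pt q.1.1 q.2 ∈ E ∧ R * A E q.1.1 < |q.2 - q.1.2|} := by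
    refine MeasurableSet.inter ?_ ?_
    · have : Measurable (fun q : ((V d × V d) × ℝ) × ℝ => pt q.1.1 q.2) := by fun_prop
      exact this hE
    · exact measurableSet_lt (f := fun q : ((V d × V d) × ℝ) × ℝ => R * A E q.1.1)
        (g := fun q : ((V d × V d) × ℝ) × ℝ => |q.2 - q.1.2|) (by fun_prop) (by fun_prop)
  exact measurable_measure_prodMk_left h

/-- bad incidences -/
def Bad (E : Set (ℝ × V d)) (G : Set (V d × V d)) (R : ℝ) : Set ((V d × V d) × ℝ) :=
  {p | p.1 ∈ G ∧ pt p.1 p.2 ∈ E ∧ ENNReal.ofReal (A E p.1 / 4) ≤ volume (Far E R p.1 p.2)}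

/-- good incidences -/
def Good (E : Set (ℝ × V d)) (G : Set (V d × V d)) (R : ℝ) : Set ((V d × V d) × ℝ) :=
  {p | p.1 ∈ G ∧ pt p.1 p.2 ∈ E ∧ volume (Far E R p.1 p.2) < ENNReal.ofReal (A E p.1 / 4)}

lemma measurableSet_Bad (hE : MeasurableSet E) (hG : MeasurableSet G) (R : ℝ) :
    MeasurableSet (Bad E G R) := by
  have hA := measurable_A hE
  refine MeasurableSet.inter (measurable_fst hG) (MeasurableSet.inter ?_ ?_)
  · exact measurable_pt hE
  · exact measurableSet_le (by fun_prop) (measurable_Far hE R)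

lemma measurableSet_Good (hE : MeasurableSet E) (hG : MeasurableSet G) (R : ℝ) :
    MeasurableSet (Good E G R) := by
  have hA := measurable_A hE
  refine MeasurableSet.inter (measurable_fst hG) (MeasurableSet.inter ?_ ?_)
  · exact measurable_pt hE
  · exact measurableSet_lt (measurable_Far hE R) (by fun_prop)

lemma bad_bound (hE : MeasurableSet E) (R : ℝ) (hR : 0 ≤ R) (z : ℝ × V d) :
    ENNReal.ofReal (R ^ d) * ∫⁻ v : V d, (Bad E G R).indicator (fun p => wt E G (d + 1) p.1) (ln z v, z.1)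
      ≤ 4 * volume E := by
  rw [← cone_E hE z, ← lintegral_const_mul' _ _ ENNReal.ofReal_ne_top,
    ← lintegral_const_mul' _ _ (by norm_num)]
  refine lintegral_mono fun v => ?_
  by_cases h : (ln z v, z.1) ∈ Bad E G R
  · rw [indicator_of_mem h]
    obtain ⟨h1, h2, h3⟩ := h
    simp only [wt, indicator_of_mem h1]
    have hA := A_nonneg E (ln z v)
    have hc := cheb (d := d) (measurableSet_Sec hE (ln z v)) z.1 (R * A E (ln z v)) (by positivity)
    calc ENNReal.ofReal (R ^ d) * ENNReal.ofReal (A E (ln z v) ^ (d + 1))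
        = 4 * (ENNReal.ofReal ((R * A E (ln z v)) ^ d) * ENNReal.ofReal (A E (ln z v) / 4)) := by
          rw [show (4 : ℝ≥0∞) = ENNReal.ofReal 4 by simp, ← ENNReal.ofReal_mul (by positivity),
            ← ENNReal.ofReal_mul (by positivity), ← ENNReal.ofReal_mul (by positivity)]
          congr 1; ring
      _ ≤ 4 * (ENNReal.ofReal ((R * A E (ln z v)) ^ d) *
            volume (Sec E (ln z v) ∩ {t | R * A E (ln z v) ≤ |t - z.1|})) := by
          gcongr
          refine h3.trans (measure_mono ?_)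
          refine inter_subset_inter_right _ fun t ht => ?_
          simp only [mem_ofPred_eq] at ht ⊢
          exact ht.le
      _ ≤ _ := by gcongr
  · rw [indicator_of_notMem h]; simp

/-- the quantity to be bounded -/
noncomputable def Phi (E : Set (ℝ × V d)) (G : Set (V d × V d)) : ℝ≥0∞ :=
  ∫⁻ ℓ : V d × V d, wt E G (d + 2) ℓ

/-- incidences -/
def Inc (E : Set (ℝ × V d)) (G : Set (V d × V d)) : Set ((V d × V d) × ℝ) :=
  {p | p.1 ∈ G ∧ pt p.1 p.2 ∈ E}

lemma measurableSet_Inc (hE : MeasurableSet E) (hG : MeasurableSet G) :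
    MeasurableSet (Inc E G) :=
  MeasurableSet.inter (measurable_fst hG) (measurable_pt hE)

lemma inc_mass (hE : MeasurableSet E)
    (hGF : ∀ ℓ ∈ G, F E ℓ ≠ 0 ∧ F E ℓ ≠ ∞) :
    ∫⁻ ℓ : V d × V d, ∫⁻ t : ℝ, (Inc E G).indicator (fun p => wt E G (d + 1) p.1) (ℓ, t)
      = Phi E G := by
  unfold Phi
  refine lintegral_congr fun ℓ => ?_
  by_cases h : ℓ ∈ G
  · have : ∀ t : ℝ, (Inc E G).indicator (fun p => wt E G (d + 1) p.1) (ℓ, t) =
        (Sec E ℓ).indicator (fun _ => ENNReal.ofReal (A E ℓ ^ (d + 1))) t := by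
      intro t
      by_cases ht : pt ℓ t ∈ E
      · rw [indicator_of_mem (show (ℓ, t) ∈ Inc E G from ⟨h, ht⟩),
          indicator_of_mem (show t ∈ Sec E ℓ from ht)]
        simp only [wt, indicator_of_mem h]
      · rw [indicator_of_notMem (fun hh => ht hh.2), indicator_of_notMem (show t ∉ Sec E ℓ from ht)]
    simp_rw [this]
    rw [lintegral_indicator_const (measurableSet_Sec hE _)]
    simp only [wt, indicator_of_mem h]
    rw [show volume (Sec E ℓ) = ENNReal.ofReal (A E ℓ) from F_eq (hGF _ h).2,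
      ← ENNReal.ofReal_mul (by have := A_nonneg E ℓ; positivity), ← pow_succ]
  · have : ∀ t : ℝ, (Inc E G).indicator (fun p => wt E G (d + 1) p.1) (ℓ, t) = 0 := by
      intro t
      rw [indicator_of_notMem (fun hh => h hh.1)]
    simp_rw [this]
    simp [wt, indicator_of_notMem h]

/-- good incidences carry half of the mass -/
lemma good_mass (hE : MeasurableSet E) (hG : MeasurableSet G)
    (hGF : ∀ ℓ ∈ G, F E ℓ ≠ 0 ∧ F E ℓ ≠ ∞) (hPf : Phi E G ≠ ∞)
    (R : ℝ) (hR : 0 < R)
    (hR2 : 8 * volume E ^ 2 ≤ ENNReal.ofReal (R ^ d) * Phi E G) :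
    Phi E G ≤ 2 * ∫⁻ ℓ : V d × V d, ∫⁻ t : ℝ,
      (Good E G R).indicator (fun p => wt E G (d + 1) p.1) (ℓ, t) := by
  have hw := measurable_wt hE hG (d + 1)
  have hB : Measurable ((Bad E G R).indicator (fun p => wt E G (d + 1) p.1)) :=
    Measurable.indicator (by fun_prop) (measurableSet_Bad hE hG R)
  have hGd : Measurable ((Good E G R).indicator (fun p => wt E G (d + 1) p.1)) :=
    Measurable.indicator (by fun_prop) (measurableSet_Good hE hG R)
  set X := ∫⁻ ℓ : V d × V d, ∫⁻ t : ℝ,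
      (Good E G R).indicator (fun p => wt E G (d + 1) p.1) (ℓ, t) with hX
  set Y := ∫⁻ ℓ : V d × V d, ∫⁻ t : ℝ,
      (Bad E G R).indicator (fun p => wt E G (d + 1) p.1) (ℓ, t) with hY
  have h1 : Phi E G ≤ X + Y := by
    rw [← inc_mass hE hGF, hX, hY, ← lintegral_add_left (by fun_prop)]
    refine lintegral_mono fun ℓ => ?_
    rw [← lintegral_add_left (by fun_prop)]
    refine lintegral_mono fun t => ?_
    by_cases h : (ℓ, t) ∈ Inc E G
    · rw [indicator_of_mem h]
      by_cases h' : ENNReal.ofReal (A E ℓ / 4) ≤ volume (Far E R ℓ t)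
      · rw [indicator_of_mem (show (ℓ, t) ∈ Bad E G R from ⟨h.1, h.2, h'⟩)]
        exact le_add_self
      · rw [indicator_of_mem (show (ℓ, t) ∈ Good E G R from ⟨h.1, h.2, not_le.1 h'⟩)]
        exact le_self_add
    · rw [indicator_of_notMem h]; exact zero_le
  have h2 : ENNReal.ofReal (R ^ d) * Y ≤ 4 * volume E ^ 2 := by
    have hYz : Y = ∫⁻ z : ℝ × V d, E.indicator (fun z => ∫⁻ v : V d,
        (Bad E G R).indicator (fun p => wt E G (d + 1) p.1) (ln z v, z.1)) z := by
      rw [hY, ← lintegral_inc _ hB]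
      refine lintegral_congr fun z => ?_
      by_cases hz : z ∈ E
      · rw [indicator_of_mem hz]
      · rw [indicator_of_notMem hz]
        have : ∀ v : V d, (Bad E G R).indicator (fun p => wt E G (d + 1) p.1) (ln z v, z.1) = 0 := by
          intro v
          rw [indicator_of_notMem]
          intro hh
          apply hz
          have := hh.2.1
          simp only [pt_ln_self] at this
          exact this
        simp_rw [this]; simp
    rw [hYz, ← lintegral_const_mul' _ _ ENNReal.ofReal_ne_top]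
    calc _ ≤ ∫⁻ z : ℝ × V d, E.indicator (fun _ => 4 * volume E) z := by
          refine lintegral_mono fun z => ?_
          by_cases hz : z ∈ E
          · rw [indicator_of_mem hz, indicator_of_mem hz]
            exact bad_bound hE R hR.le z
          · rw [indicator_of_notMem hz, indicator_of_notMem hz]; simp
      _ = 4 * volume E ^ 2 := by
          rw [lintegral_indicator_const hE]; ring
  have hRd : ENNReal.ofReal (R ^ d) ≠ 0 := by
    simp only [ne_eq, ENNReal.ofReal_eq_zero, not_le]; positivity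
  have h3 : 2 * Y ≤ Phi E G := by
    have : ENNReal.ofReal (R ^ d) * (2 * Y) ≤ ENNReal.ofReal (R ^ d) * Phi E G := by
      calc ENNReal.ofReal (R ^ d) * (2 * Y) = 2 * (ENNReal.ofReal (R ^ d) * Y) := by ring
        _ ≤ 2 * (4 * volume E ^ 2) := by gcongr
        _ = 8 * volume E ^ 2 := by rw [← mul_assoc]; norm_num
        _ ≤ _ := hR2
    exact (ENNReal.mul_le_mul_iff_right hRd ENNReal.ofReal_ne_top).1 this
  have h4 : Phi E G + Phi E G ≤ 2 * X + Phi E G := by
    calc Phi E G + Phi E G ≤ (X + Y) + (X + Y) := by gcongr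
      _ = 2 * X + 2 * Y := by ring
      _ ≤ 2 * X + Phi E G := by gcongr
  exact (ENNReal.add_le_add_iff_right hPf).1 h4

end

end Run7.h567
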