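import Mathlib

set_option autoImplicit false

open MeasureTheory ENNReal Set

namespace Run7.h567

lemma rpow_sum_le {ι : Type*} (s : Finset ι) (f : ι → ℝ≥0∞) (q : ℝ) (hq0 : 0 < q) (hq1 : q ≤ 1) :
    (∑ i ∈ s, f i) ^ q ≤ ∑ i ∈ s, f i ^ q := by
  classical
  induction s using Finset.induction_on with
  | empty => simp [ENNReal.zero_rpow_of_pos hq0]
  | insert i s hi ih =>
    rw [Finset.sum_insert hi, Finset.sum_insert hi]
    exact (ENNReal.rpow_add_le_add_rpow _ _ hq0.le hq1).trans (add_le_add le_rfl ih)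

lemma rpow_tsum_le {ι : Type*} (f : ι → ℝ≥0∞) (q : ℝ) (hq0 : 0 < q) (hq1 : q ≤ 1) :
    (∑' i, f i) ^ q ≤ ∑' i, f i ^ q := by
  have h1 : ∑' i, f i ≤ (∑' i, f i ^ q) ^ (1 / q) := by
    rw [ENNReal.tsum_eq_iSup_sum]
    refine iSup_le fun s => ?_
    calc ∑ i ∈ s, f i = ((∑ i ∈ s, f i) ^ q) ^ (1 / q) := by
          rw [← ENNReal.rpow_mul, mul_one_div_cancel hq0.ne', ENNReal.rpow_one]
      _ ≤ (∑ i ∈ s, f i ^ q) ^ (1 / q) := by
          gcongr
          exact rpow_sum_le s f q hq0 hq1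
      _ ≤ _ := by
          gcongr
          exact ENNReal.sum_le_tsum s
  calc (∑' i, f i) ^ q ≤ ((∑' i, f i ^ q) ^ (1 / q)) ^ q := by gcongr
    _ = _ := by rw [← ENNReal.rpow_mul, one_div_mul_cancel hq0.ne', ENNReal.rpow_one]

lemma tsum_rpow_le {ι : Type*} (f : ι → ℝ≥0∞) (q : ℝ) (hq0 : 0 ≤ q) :
    ∑' i, f i ^ (1 + q) ≤ (∑' i, f i) ^ (1 + q) := by
  calc ∑' i, f i ^ (1 + q) ≤ ∑' i, f i * (∑' i, f i) ^ q := by
        refine ENNReal.tsum_le_tsum fun i => ?_
        rw [ENNReal.rpow_add_of_nonneg _ _ zero_le_one hq0, ENNReal.rpow_one]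
        gcongr
        exact ENNReal.le_tsum i
    _ = _ := by
        rw [ENNReal.tsum_mul_right, ENNReal.rpow_add_of_nonneg _ _ zero_le_one hq0, ENNReal.rpow_one]

/-- the two sided geometric series -/
noncomputable def geo (r : ℝ) : ℝ≥0∞ := ∑' j : ℤ, ENNReal.ofReal r ^ j.natAbs

lemma geo_ne_top (r : ℝ) (hr : r < 1) : geo r ≠ ∞ := by
  have hr' : ENNReal.ofReal r < 1 := by rwa [ENNReal.ofReal_lt_one]
  have hg : ∑' n : ℕ, ENNReal.ofReal r ^ n ≠ ∞ := by
    rw [ENNReal.tsum_geometric, ne_eq, ENNReal.inv_eq_top, tsub_eq_zero_iff_le, not_le]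
    exact hr'
  unfold geo
  rw [tsum_of_nat_of_neg_add_one ENNReal.summable ENNReal.summable]
  refine ENNReal.add_ne_top.2 ⟨?_, ?_⟩
  · simpa using hg
  · refine ne_top_of_le_ne_top hg (ENNReal.tsum_le_tsum fun n => ?_)
    have : (-((n : ℤ) + 1)).natAbs = n + 1 := by omega
    rw [this]
    exact pow_le_pow_of_le_one zero_le hr'.le (Nat.le_succ n)

lemma geo_shift (r : ℝ) (j0 : ℤ) : ∑' j : ℤ, ENNReal.ofReal r ^ (j - j0).natAbs = geo r := by
  unfold geo
  exact (Equiv.subRight j0).tsum_eq (fun j : ℤ => ENNReal.ofReal r ^ j.natAbs)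

/-- Carlson type inequality -/
lemma carlson (σ θ : ℝ) (hσ : 0 < σ) (hθ0 : 0 < θ) (hθ1 : θ < 1) :
    ∃ C : NNReal, ∀ (u : ℤ → ℝ≥0∞) (S0 S1 : ℝ≥0∞),
      (∀ j, u j ≤ ENNReal.ofReal (2 ^ (σ * θ * (j : ℝ))) * S0) →
      (∀ j, u j ≤ ENNReal.ofReal (2 ^ (-(σ * (1 - θ) * (j : ℝ)))) * S1) →
      ∑' j, u j ≤ C * (S0 ^ (1 - θ) * S1 ^ θ) := by
  have hθ1' : 0 < 1 - θ := by linarith
  set ω : ℝ := min (σ * θ) (σ * (1 - θ)) with hω
  have hω0 : 0 < ω := lt_min (by positivity) (by positivity)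
  set r : ℝ := 2 ^ (-ω) with hr
  have hr0 : 0 < r := by positivity
  have hr1 : r < 1 := Real.rpow_lt_one_of_one_lt_of_neg (by norm_num) (by linarith)
  have hgeo := geo_ne_top r hr1
  have hCt : ENNReal.ofReal (2 ^ σ) * geo r ≠ ∞ := ENNReal.mul_ne_top ENNReal.ofReal_ne_top hgeo
  refine ⟨(ENNReal.ofReal (2 ^ σ) * geo r + 1).toNNReal, fun u S0 S1 h0 h1 => ?_⟩
  rw [ENNReal.coe_toNNReal (ENNReal.add_ne_top.2 ⟨hCt, ENNReal.one_ne_top⟩)]
  by_cases hS0 : S0 = 0
  · have : ∀ j, u j = 0 := fun j => by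
      have := h0 j
      rw [hS0, mul_zero] at this
      exact le_antisymm this zero_le
    simp [this]
  by_cases hS1 : S1 = 0
  · have : ∀ j, u j = 0 := fun j => by
      have := h1 j
      rw [hS1, mul_zero] at this
      exact le_antisymm this zero_le
    simp [this]
  have hne1 : ENNReal.ofReal (2 ^ σ) * geo r + 1 ≠ 0 := by simp
  by_cases hS0t : S0 = ∞
  · rw [hS0t, ENNReal.top_rpow_of_pos hθ1', ENNReal.top_mul (by
      simp only [ne_eq, ENNReal.rpow_eq_zero_iff, not_or, not_and]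
      exact ⟨fun h => absurd h hS1, fun _ h => by linarith⟩), ENNReal.mul_top hne1]
    exact le_top
  by_cases hS1t : S1 = ∞
  · rw [hS1t, ENNReal.top_rpow_of_pos hθ0, ENNReal.mul_top (by
      simp only [ne_eq, ENNReal.rpow_eq_zero_iff, not_or, not_and]
      exact ⟨fun h => absurd h hS0, fun _ h => by linarith⟩), ENNReal.mul_top hne1]
    exact le_top
  set s0 := S0.toReal with hs0
  set s1 := S1.toReal with hs1
  have hs00 : 0 < s0 := ENNReal.toReal_pos hS0 hS0t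
  have hs10 : 0 < s1 := ENNReal.toReal_pos hS1 hS1t
  have hS0e : S0 = ENNReal.ofReal s0 := (ENNReal.ofReal_toReal hS0t).symm
  have hS1e : S1 = ENNReal.ofReal s1 := (ENNReal.ofReal_toReal hS1t).symm
  set L : ℝ := Real.logb 2 (s1 / s0) with hL
  have hLe : (2:ℝ) ^ L = s1 / s0 := Real.rpow_logb (by norm_num) (by norm_num) (by positivity)
  set j0 : ℤ := ⌊L / σ⌋ with hj0
  have hj0a : σ * (j0 : ℝ) ≤ L := by
    have := Int.floor_le (L / σ)
    rw [le_div_iff₀ hσ] at this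
    rw [hj0]; linarith
  have hj0b : L < σ * ((j0 : ℝ) + 1) := by
    have := Int.lt_floor_add_one (L / σ)
    rw [div_lt_iff₀ hσ] at this
    rw [hj0]; linarith
  set K : ℝ := s0 ^ (1 - θ) * s1 ^ θ with hK
  have hK0 : 0 < K := by positivity
  have e0 : s0 = K * 2 ^ (-(θ * L)) := by
    rw [show -(θ * L) = L * (-θ) by ring, Real.rpow_mul (by norm_num), hLe, Real.rpow_neg (by positivity),
      Real.div_rpow hs10.le hs00.le, hK, Real.rpow_sub hs00, Real.rpow_one]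
    field_simp
  have e1 : s1 = K * 2 ^ ((1 - θ) * L) := by
    rw [show (1 - θ) * L = L * (1 - θ) by ring, Real.rpow_mul (by norm_num), hLe,
      Real.div_rpow hs10.le hs00.le, hK, Real.rpow_sub hs10, Real.rpow_one]
    field_simp
  have hu : ∀ j : ℤ, u j ≤ ENNReal.ofReal (K * 2 ^ σ) * ENNReal.ofReal r ^ (j - j0).natAbs := by
    intro j
    rw [← ENNReal.ofReal_pow hr0.le, ← ENNReal.ofReal_mul (by positivity)]
    have hrp : r ^ (j - j0).natAbs = 2 ^ (-(ω * |(j : ℝ) - j0|)) := by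
      rw [hr, ← Real.rpow_natCast, ← Real.rpow_mul (by norm_num)]
      congr 1
      have : (((j - j0).natAbs : ℕ) : ℝ) = |(j : ℝ) - j0| := by
        rw [Nat.cast_natAbs]; push_cast; rfl
      rw [this]; ring
    rw [hrp]
    rcases le_or_gt j j0 with hj | hj
    · refine (h0 j).trans ?_
      rw [hS0e, ← ENNReal.ofReal_mul (by positivity)]
      apply ENNReal.ofReal_le_ofReal
      rw [e0]
      have hj' : (j : ℝ) ≤ j0 := by exact_mod_cast hj
      rw [abs_of_nonpos (by linarith)]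
      calc 2 ^ (σ * θ * (j : ℝ)) * (K * 2 ^ (-(θ * L)))
          = K * (2 ^ (σ * θ * (j : ℝ)) * 2 ^ (-(θ * L))) := by ring
        _ = K * 2 ^ (σ * θ * (j : ℝ) + -(θ * L)) := by rw [← Real.rpow_add (by norm_num)]
        _ ≤ K * 2 ^ (σ + -(ω * -((j : ℝ) - j0))) := by
            apply mul_le_mul_of_nonneg_left _ hK0.le
            apply Real.rpow_le_rpow_of_exponent_le (by norm_num)
            have h2 : ω ≤ σ * θ := min_le_left _ _
            have h3 : θ * (σ * (j0 : ℝ)) ≤ θ * L := by gcongr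
            nlinarith [mul_nonneg (sub_nonneg.2 h2) (sub_nonneg.2 hj')]
        _ = _ := by rw [Real.rpow_add (by norm_num)]; ring
    · refine (h1 j).trans ?_
      rw [hS1e, ← ENNReal.ofReal_mul (by positivity)]
      apply ENNReal.ofReal_le_ofReal
      rw [e1]
      have hj' : (j0 : ℝ) + 1 ≤ j := by exact_mod_cast hj
      rw [abs_of_nonneg (by linarith)]
      calc 2 ^ (-(σ * (1 - θ) * (j : ℝ))) * (K * 2 ^ ((1 - θ) * L))
          = K * (2 ^ (-(σ * (1 - θ) * (j : ℝ))) * 2 ^ ((1 - θ) * L)) := by ring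
        _ = K * 2 ^ (-(σ * (1 - θ) * (j : ℝ)) + (1 - θ) * L) := by
            rw [← Real.rpow_add (by norm_num)]
        _ ≤ K * 2 ^ (σ + -(ω * ((j : ℝ) - j0))) := by
            apply mul_le_mul_of_nonneg_left _ hK0.le
            apply Real.rpow_le_rpow_of_exponent_le (by norm_num)
            have h2 : ω ≤ σ * (1 - θ) := min_le_right _ _
            have h3 : (1 - θ) * L ≤ (1 - θ) * (σ * ((j0 : ℝ) + 1)) := by gcongr
            have h4 : 0 ≤ σ * θ := by positivity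
            nlinarith [mul_nonneg (sub_nonneg.2 h2) (by linarith : (0:ℝ) ≤ (j:ℝ) - j0)]
        _ = _ := by rw [Real.rpow_add (by norm_num)]; ring
  calc ∑' j, u j ≤ ∑' j : ℤ, ENNReal.ofReal (K * 2 ^ σ) * ENNReal.ofReal r ^ (j - j0).natAbs :=
        ENNReal.tsum_le_tsum hu
    _ = ENNReal.ofReal (K * 2 ^ σ) * geo r := by rw [ENNReal.tsum_mul_left, geo_shift]
    _ = ENNReal.ofReal (2 ^ σ) * geo r * (S0 ^ (1 - θ) * S1 ^ θ) := by
        rw [hS0e, hS1e, ENNReal.ofReal_rpow_of_pos hs00, ENNReal.ofReal_rpow_of_pos hs10,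
          ← ENNReal.ofReal_mul (by positivity), ← hK, ENNReal.ofReal_mul hK0.le]
        ring
    _ ≤ _ := by
        gcongr
        exact le_self_add

end Run7.h567
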