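import Mathlib

set_option autoImplicit false

open MeasureTheory ENNReal Set

namespace Run7.h567

/-- the ambient space -/
abbrev V (d : ℕ) := Fin d → ℝ

instance isHaar0 (d : ℕ) : (volume : Measure (V d)).IsAddHaarMeasure := inferInstance

instance isHaar1 (d : ℕ) : (volume : Measure (ℝ × V d)).IsAddHaarMeasure :=
  Measure.prod.instIsAddHaarMeasure _ _

instance isHaar2 (d : ℕ) : (volume : Measure ((ℝ × V d) × (ℝ × V d))).IsAddHaarMeasure :=
  Measure.prod.instIsAddHaarMeasure _ _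

lemma lintegral_smul_add {d : ℕ} {s : ℝ} (hs : s ≠ 0) (y0 : V d) (h : V d → ℝ≥0∞)
    (hm : Measurable h) :
    ENNReal.ofReal (|s| ^ d) * ∫⁻ v : V d, h (y0 + s • v) = ∫⁻ y : V d, h y := by
  have h1 : ∫⁻ v : V d, h (y0 + s • v) = ∫⁻ y : V d, h (y0 + y) ∂(Measure.map (fun v : V d => s • v) volume) := by
    rw [lintegral_map (by fun_prop) (by fun_prop)]
  rw [h1, Measure.map_addHaar_smul volume hs]
  simp only [Module.finrank_fin_fun, lintegral_smul_measure, smul_eq_mul]
  rw [lintegral_add_left_eq_self (μ := (volume : Measure (V d))) h y0, ← mul_assoc,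
    ← ENNReal.ofReal_mul (by positivity)]
  have : |s| ^ d * |(s ^ d)⁻¹| = 1 := by
    rw [abs_inv, abs_pow]
    exact mul_inv_cancel₀ (by positivity)
  rw [this]; simp

/-- polar-like (cone) coordinates around a space-time point -/
lemma lintegral_cone {d : ℕ} (z : ℝ × V d) (h : ℝ × V d → ℝ≥0∞) (hm : Measurable h) :
    ∫⁻ s : ℝ, ∫⁻ v : V d, ENNReal.ofReal (|s| ^ d) * h (z.1 + s, z.2 + s • v) =
      ∫⁻ z' : ℝ × V d, h z' := by
  have h1 : ∀ᵐ s : ℝ, ∫⁻ v : V d, ENNReal.ofReal (|s| ^ d) * h (z.1 + s, z.2 + s • v)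
      = ∫⁻ y : V d, h (z.1 + s, y) := by
    have : ∀ᵐ s : ℝ, s ≠ 0 := by
      simp [ae_iff]
    filter_upwards [this] with s hs
    rw [lintegral_const_mul _ (by fun_prop)]
    exact lintegral_smul_add hs z.2 (fun y => h (z.1 + s, y)) (by fun_prop)
  rw [lintegral_congr_ae h1, Measure.volume_eq_prod, lintegral_prod _ (by fun_prop)]
  exact lintegral_add_left_eq_self (μ := (volume : Measure ℝ)) (fun t => ∫⁻ y : V d, h (t, y)) z.1

/-- incidence coordinates: points `(t, x + t v)` on lines -/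
lemma lintegral_shear {d : ℕ} (v : V d) (h : ℝ × V d → ℝ≥0∞) (hm : Measurable h) :
    ∫⁻ x : V d, ∫⁻ t : ℝ, h (t, x + t • v) = ∫⁻ z : ℝ × V d, h z := by
  rw [lintegral_lintegral_swap (by fun_prop), Measure.volume_eq_prod, lintegral_prod _ (by fun_prop)]
  refine lintegral_congr fun t => ?_
  exact lintegral_add_right_eq_self (μ := (volume : Measure (V d))) (fun y => h (t, y)) (t • v)

end Run7.h567
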