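import Pool.Agent.Run7.h567.Up

set_option autoImplicit false

open MeasureTheory ENNReal Set

namespace Run7.h567

variable {d : ℕ} {E : Set (ℝ × V d)} {G : Set (V d × V d)} (R τ : ℝ)

/-- the a priori bound -/
lemma Phi_le (hE : MeasurableSet E) (hG : MeasurableSet G)
    (hGF : ∀ ℓ ∈ G, F E ℓ ≠ 0 ∧ F E ℓ ≠ ∞) :
    Phi E G ≤ ENNReal.ofReal (2 * 4 ^ d) * volume E ^ 2 := by
  have hw := measurable_wt hE hG (d + 1)
  have hI : Measurable ((Inc E G).indicator (fun p => wt E G (d + 1) p.1)) :=
    Measurable.indicator (by fun_prop) (measurableSet_Inc hE hG)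
  rw [← inc_mass hE hGF, ← lintegral_inc _ hI]
  calc _ ≤ ∫⁻ z : ℝ × V d, E.indicator (fun _ => ENNReal.ofReal (2 * 4 ^ d) * volume E) z := by
        refine lintegral_mono fun z => ?_
        by_cases hz : z ∈ E
        · rw [indicator_of_mem hz]
          refine le_trans (lintegral_mono fun v => ?_) (bush hE hGF z)
          exact indicator_le_self' (fun _ _ => zero_le) _
        · rw [indicator_of_notMem hz]
          have : ∀ v : V d, (Inc E G).indicator (fun p => wt E G (d + 1) p.1) (ln z v, z.1) = 0 := by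
            intro v
            rw [indicator_of_notMem]
            intro hh
            have := hh.2
            simp only [pt_ln_self] at this
            exact hz this
          simp [this]
    _ = _ := by
        rw [lintegral_indicator_const hE]; ring

lemma NN_upper (hE : MeasurableSet E) (hG : MeasurableSet G)
    (hGF : ∀ ℓ ∈ G, F E ℓ ≠ 0 ∧ F E ℓ ≠ ∞) (hR : 0 < R) (hτ : 0 < τ) (κ : ℝ≥0∞)
    (hstar : ∀ v : V d, ∀ a : ℝ, 0 < a →
      ENNReal.ofReal a * volume {x : V d | (x, v) ∈ G ∧ a ≤ A E (x, v)} ≤ κ * volume E) :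
    NN E G R τ ≤ ENNReal.ofReal ((2 * R) ^ (d + 1) / τ) * (κ * volume E * Phi E G) := by
  have hk := measurable_kap R τ hE hG
  have m1 : Measurable (fun q : ((ℝ × V d) × ℝ) × ((ℝ × V d) × (ℝ × V d)) =>
      kap E G R τ q.1.1 q.2 * kap E G R τ q.1.1 (q.1.2 • q.2)) := by
    refine Measurable.mul ?_ ?_
    · exact hk.comp (f := fun q : ((ℝ × V d) × ℝ) × ((ℝ × V d) × (ℝ × V d)) => (q.1.1, q.2)) (by fun_prop)
    · exact hk.comp (f := fun q : ((ℝ × V d) × ℝ) × ((ℝ × V d) × (ℝ × V d)) => (q.1.1, q.1.2 • q.2)) (by fun_prop)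
  have m2 : Measurable (fun q : (ℝ × V d) × ℝ => corr volume (kap E G R τ q.1) q.2) := by
    unfold corr
    exact m1.lintegral_prod_right'
  unfold NN
  rw [lintegral_lintegral_swap (by fun_prop)]
  set U := ENNReal.ofReal ((2 * R) ^ (d + 1) / τ) * (κ * volume E * Phi E G) with hU
  calc _ ≤ ∫⁻ r in Icc (1 / 2 : ℝ) 1, U := by
        refine setLIntegral_mono' measurableSet_Icc fun r hr => ?_
        have mr : Measurable (fun w : ℝ × V d => corr volume (kap E G R τ w) r) :=
          m2.comp (f := fun w : ℝ × V d => (w, r)) (by fun_prop)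
        rw [lintegral_const_mul _ mr]
        rcases lt_or_eq_of_le hr.2 with h | h
        · exact ratio_bound R τ hE hG hGF hR hτ κ hstar r (by linarith [hr.1]) h
        · rw [h]; simp
    _ = U * ENNReal.ofReal (1 - 1 / 2) := by
        rw [setLIntegral_const, Real.volume_Icc]
    _ ≤ U * 1 := by
        gcongr
        rw [ENNReal.ofReal_le_one]; norm_num
    _ = U := mul_one _

lemma Tn_le (hE : MeasurableSet E)
    (hGF : ∀ ℓ ∈ G, F E ℓ ≠ 0 ∧ F E ℓ ≠ ∞) : Tn E G R τ ≤ volume E ^ 3 := by
  unfold Tn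
  calc _ ≤ ∫⁻ w : ℝ × V d, ∫⁻ z : ℝ × V d, ∫⁻ z' : ℝ × V d,
        E.indicator 1 w * (E.indicator 1 z * E.indicator 1 z') := by
        refine lintegral_mono fun w => lintegral_mono fun z => lintegral_mono fun z' => ?_
        by_cases h1 : K1 E G R w z = 0
        · simp [h1]
        by_cases h2 : K1 E G R w z' = 0
        · simp [h2]
        have k1 := K1_ne R hGF h1
        have k2 := K1_ne R hGF h2
        rw [indicator_of_mem k1.2.1, indicator_of_mem k1.2.2.1, indicator_of_mem k2.2.2.1]
        calc _ ≤ (1 : ℝ≥0∞) * 1 * 1 := by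
              gcongr
              · exact K1_le_one R _ _
              · exact K1_le_one R _ _
              · unfold K2
                exact (indicator_le_self' (by simp) _).trans (by simp)
          _ = _ := by simp
    _ = volume E ^ 3 := by
        have hi : Measurable (E.indicator (1 : ℝ × V d → ℝ≥0∞)) := measurable_one.indicator hE
        have e1 : ∀ w z : ℝ × V d, ∫⁻ z' : ℝ × V d, E.indicator 1 w * (E.indicator 1 z * E.indicator 1 z')
            = E.indicator 1 w * (E.indicator 1 z * volume E) := by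
          intro w z
          rw [lintegral_const_mul _ (by fun_prop), lintegral_const_mul _ hi, lintegral_indicator_one hE]
        have e2 : ∀ w : ℝ × V d, ∫⁻ z : ℝ × V d, (E.indicator 1 w : ℝ≥0∞) * (E.indicator 1 z * volume E)
            = E.indicator 1 w * volume E ^ 2 := by
          intro w
          rw [lintegral_const_mul _ (by fun_prop), lintegral_mul_const _ hi, lintegral_indicator_one hE]
          ring
        simp_rw [e1, e2]
        rw [lintegral_mul_const _ hi, lintegral_indicator_one hE]; ring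

/-- the core estimate with exponent `e` -/
def CoreBound (d : ℕ) (e : ℝ) : Prop :=
  ∃ C : NNReal, ∀ (E : Set (ℝ × V d)) (G : Set (V d × V d)) (κ : ℝ≥0∞),
    MeasurableSet E → MeasurableSet G → volume E ≠ ∞ →
    (∀ ℓ ∈ G, F E ℓ ≠ 0 ∧ F E ℓ ≠ ∞) →
    (∀ v : V d, ∀ a : ℝ, 0 < a →
      ENNReal.ofReal a * volume {x : V d | (x, v) ∈ G ∧ a ≤ A E (x, v)} ≤ κ * volume E) →
    Phi E G ≤ C * κ ^ e * volume E ^ 2

end Run7.h567
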