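import Pool.Agent.Run7.h567.Core

set_option autoImplicit false

open MeasureTheory ENNReal Set

namespace Run7.h567

variable {d : ℕ}

lemma coreBound_of (M : ℝ) (hM : 0 < M) (c : ℝ) (hc : 0 < c)
    (h : ∀ (E : Set (ℝ × V d)) (G : Set (V d × V d)), MeasurableSet E → MeasurableSet G →
      (∀ ℓ ∈ G, F E ℓ ≠ 0 ∧ F E ℓ ≠ ∞) → ∀ mu φ k : ℝ, 0 < mu → 0 < φ → φ ≤ 2 * 4 ^ d → 0 ≤ k →
      volume E = ENNReal.ofReal mu → Phi E G = ENNReal.ofReal (φ * mu ^ 2) →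
      (∀ v : V d, ∀ a : ℝ, 0 < a →
        ENNReal.ofReal a * volume {x : V d | (x, v) ∈ G ∧ a ≤ A E (x, v)} ≤
          ENNReal.ofReal k * volume E) → c * φ ^ M ≤ k) : CoreBound d (1 / M) := by
  refine ⟨Real.toNNReal ((1 / c) ^ (1 / M)) + 1, fun E G κ hE hG hEf hGF hstar => ?_⟩
  have hPle := Phi_le hE hG hGF
  by_cases hm0 : volume E = 0
  · rw [hm0] at hPle
    have : Phi E G = 0 := by
      have : Phi E G ≤ 0 := by simpa using hPle
      exact le_antisymm this zero_le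
    rw [this]; exact zero_le
  by_cases hP0 : Phi E G = 0
  · rw [hP0]; exact zero_le
  have hPf : Phi E G ≠ ∞ :=
    ne_top_of_le_ne_top (ENNReal.mul_ne_top ENNReal.ofReal_ne_top (ENNReal.pow_ne_top hEf)) hPle
  by_cases hκ : κ = ∞
  · rw [hκ, ENNReal.top_rpow_of_pos (by positivity)]
    have h2 : volume E ^ 2 ≠ 0 := pow_ne_zero _ hm0
    have h3 : (((Real.toNNReal ((1 / c) ^ (1 / M)) + 1 : NNReal) : ℝ≥0∞)) ≠ 0 := by
      simp
    rw [ENNReal.mul_top h3, ENNReal.top_mul h2]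
    exact le_top
  set mu := (volume E).toReal with hmu
  have hmu0 : 0 < mu := ENNReal.toReal_pos hm0 hEf
  set φ := (Phi E G).toReal / mu ^ 2 with hφ
  have hP0' : 0 < (Phi E G).toReal := ENNReal.toReal_pos hP0 hPf
  have hφ0 : 0 < φ := by positivity
  have hEe : volume E = ENNReal.ofReal mu := (ENNReal.ofReal_toReal hEf).symm
  have hPe : Phi E G = ENNReal.ofReal (φ * mu ^ 2) := by
    rw [hφ, div_mul_cancel₀ _ (by positivity), ENNReal.ofReal_toReal hPf]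
  have hφle : φ ≤ 2 * 4 ^ d := by
    rw [hEe, hPe, ← ENNReal.ofReal_pow hmu0.le, ← ENNReal.ofReal_mul (by positivity)] at hPle
    have := (ENNReal.ofReal_le_ofReal_iff (by positivity)).1 hPle
    exact le_of_mul_le_mul_right this (by positivity)
  have hκe : κ = ENNReal.ofReal κ.toReal := (ENNReal.ofReal_toReal hκ).symm
  have hk0 : 0 ≤ κ.toReal := ENNReal.toReal_nonneg
  rw [hκe] at hstar
  have key := h E G hE hG hGF mu φ κ.toReal hmu0 hφ0 hφle hk0 hEe hPe hstar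
  have h4 : φ ≤ (1 / c) ^ (1 / M) * κ.toReal ^ (1 / M) := by
    rw [← Real.mul_rpow (by positivity) hk0]
    have h5 : φ ^ M ≤ 1 / c * κ.toReal := by
      rw [one_div, ← div_eq_inv_mul, le_div_iff₀ hc]; linarith
    calc φ = (φ ^ M) ^ (1 / M) := by
          rw [← Real.rpow_mul hφ0.le, mul_one_div_cancel hM.ne', Real.rpow_one]
      _ ≤ _ := Real.rpow_le_rpow (by positivity) h5 (by positivity)
  rw [hPe, hκe, ENNReal.ofReal_rpow_of_nonneg hk0 (by positivity), hEe, ← ENNReal.ofReal_pow hmu0.le,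
    ENNReal.ofReal_mul hφ0.le]
  gcongr
  calc ENNReal.ofReal φ ≤ ENNReal.ofReal ((1 / c) ^ (1 / M) * κ.toReal ^ (1 / M)) :=
        ENNReal.ofReal_le_ofReal h4
    _ = ENNReal.ofReal ((1 / c) ^ (1 / M)) * ENNReal.ofReal (κ.toReal ^ (1 / M)) :=
        ENNReal.ofReal_mul (by positivity)
    _ ≤ _ := by
        gcongr
        rw [ENNReal.ofReal]
        exact_mod_cast le_self_add

/-- the exponent of the base core estimate -/
def MM (d : ℕ) : ℕ := 3 * d ^ 2 + 13 * d + 14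

lemma core_base (hd : 1 ≤ d) : CoreBound d (1 / (MM d : ℝ)) := by
  set Cd : ℝ := 2 * 4 ^ d with hCd
  set D : ℝ := 8 * 8 ^ d with hD
  set a0 : ℝ := (1 / D / 4) ^ d * ((1 / D) ^ 2 / 2) with ha0
  set a1 : ℝ := 16 * 4 ^ d * (4 * 4 ^ d * (2 * (8 * Cd)) ^ (d + 1)) ^ 2 with ha1
  set c : ℝ := a0 ^ (d + 3) / (2 * 2 ^ (d + 1) * a1 ^ (d + 2) * (2 * (8 * Cd)) ^ (d + 1) * (4 * D)) with hc
  have hCd0 : 0 < Cd := by positivity
  have hD0 : 0 < D := by positivity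
  have ha00 : 0 < a0 := by positivity
  have ha10 : 0 < a1 := by positivity
  have hc0 : 0 < c := by positivity
  have hM0 : (0 : ℝ) < (MM d : ℝ) := by
    have : 0 < MM d := by unfold MM; positivity
    exact_mod_cast this
  refine coreBound_of (MM d : ℝ) hM0 c hc0 ?_
  intro E G hE hG hGF mu φ k hmu hφ hφle hk hEe hPe hstar
  rw [Real.rpow_natCast]
  have hPf : Phi E G ≠ ∞ := by rw [hPe]; exact ENNReal.ofReal_ne_top
  have hEf : volume E ≠ ∞ := by rw [hEe]; exact ENNReal.ofReal_ne_top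
  set R : ℝ := 8 * Cd / φ with hR
  have hR0 : 0 < R := by positivity
  have hRφ : R * φ = 8 * Cd := by rw [hR]; field_simp
  have hR1 : 1 ≤ R := by
    rw [hR, le_div_iff₀ hφ, one_mul]; linarith
  have hCd1 : 1 ≤ Cd := by
    have : (1:ℝ) ≤ 4 ^ d := one_le_pow₀ (by norm_num)
    rw [hCd]; linarith
  have hR2 : 8 * volume E ^ 2 ≤ ENNReal.ofReal (R ^ d) * Phi E G := by
    rw [hEe, hPe, ← ENNReal.ofReal_pow hmu.le, ← ENNReal.ofReal_mul (by positivity),
      show (8 : ℝ≥0∞) = ENNReal.ofReal 8 by simp, ← ENNReal.ofReal_mul (by positivity)]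
    apply ENNReal.ofReal_le_ofReal
    rw [← mul_assoc]
    gcongr
    calc (8 : ℝ) ≤ 8 * Cd := by linarith
      _ = R * φ := hRφ.symm
      _ ≤ R ^ d * φ := by
          gcongr
          exact le_self_pow₀ hR1 (by omega)
  have h1 := Phi_sq_le R hE hG hGF hPf hR0 hR2
  set l : ℝ := φ / D with hl
  have hl0 : 0 < l := by positivity
  have hm0 : volume E ≠ 0 := by
    rw [hEe]; simp only [ne_eq, ENNReal.ofReal_eq_zero, not_le]; exact hmu
  have hlQ : ENNReal.ofReal l * (volume E * Phi E G) ≤ Qg E G R := by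
    have h2 : volume E * (ENNReal.ofReal D * (ENNReal.ofReal l * (volume E * Phi E G))) ≤
        volume E * (ENNReal.ofReal D * Qg E G R) := by
      calc _ = Phi E G ^ 2 := by
            rw [← mul_assoc (ENNReal.ofReal D), ← ENNReal.ofReal_mul hD0.le]
            have : D * l = φ := by rw [hl]; field_simp
            rw [this, sq, hEe, hPe]
            rw [← ENNReal.ofReal_mul (by positivity), ← ENNReal.ofReal_mul (by positivity),
              ← ENNReal.ofReal_mul (by positivity), ← ENNReal.ofReal_mul (by positivity)]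
            congr 1; ring
        _ ≤ _ := h1
        _ = _ := by ring
    have h3 := (ENNReal.mul_le_mul_iff_right hm0 hEf).1 h2
    have hDne : ENNReal.ofReal D ≠ 0 := by
      simp only [ne_eq, ENNReal.ofReal_eq_zero, not_le]; exact hD0
    exact (ENNReal.mul_le_mul_iff_right hDne ENNReal.ofReal_ne_top).1 h3
  have hT := Tn_ge R hE hG hGF hPf hEf l hl0 hlQ
  set τ : ℝ := l / 4 with hτ
  have hτ0 : 0 < τ := by positivity
  set t0 : ℝ := (l / 4) ^ d * (l ^ 2 / 2) * φ with ht0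
  have ht00 : 0 < t0 := by positivity
  have ht0e : t0 = a0 * φ ^ (d + 3) := by
    rw [ht0, ha0, hl]
    rw [show φ / D / 4 = 1 / D / 4 * φ by ring, show φ / D = 1 / D * φ by ring, mul_pow, mul_pow]
    ring
  have hTle := Tn_le R τ hE hGF
  have hTf : Tn E G R τ ≠ ∞ := ne_top_of_le_ne_top (ENNReal.pow_ne_top hEf) hTle
  set T : ℝ := (Tn E G R τ).toReal with hTT
  have hTe : Tn E G R τ = ENNReal.ofReal T := (ENNReal.ofReal_toReal hTf).symm
  have hT0 : 0 ≤ T := ENNReal.toReal_nonneg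
  have hTge : t0 * mu ^ 3 ≤ T := by
    rw [hTe, hEe, hPe, ← ENNReal.ofReal_mul hmu.le, ← ENNReal.ofReal_mul (by positivity)] at hT
    have := (ENNReal.ofReal_le_ofReal_iff hT0).1 hT
    calc t0 * mu ^ 3 = (l / 4) ^ d * (l ^ 2 / 2) * (mu * (φ * mu ^ 2)) := by rw [ht0]; ring
      _ ≤ T := this
  have hNle := NN_upper R τ hE hG hGF hR0 hτ0 (ENNReal.ofReal k) hstar
  have hNe' : ENNReal.ofReal ((2 * R) ^ (d + 1) / τ) * (ENNReal.ofReal k * volume E * Phi E G) =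
      ENNReal.ofReal ((2 * R) ^ (d + 1) / τ * (k * φ * mu ^ 3)) := by
    rw [hEe, hPe, ← ENNReal.ofReal_mul hk, ← ENNReal.ofReal_mul (by positivity),
      ← ENNReal.ofReal_mul (by positivity)]
    congr 1; ring
  rw [hNe'] at hNle
  have hNf : NN E G R τ ≠ ∞ := ne_top_of_le_ne_top ENNReal.ofReal_ne_top hNle
  set N : ℝ := (NN E G R τ).toReal with hNN
  have hNe : NN E G R τ = ENNReal.ofReal N := (ENNReal.ofReal_toReal hNf).symm
  have hN0 : 0 ≤ N := ENNReal.toReal_nonneg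
  have hNle' : N ≤ (2 * R) ^ (d + 1) / τ * (k * φ * mu ^ 3) := by
    rw [hNe] at hNle
    exact (ENNReal.ofReal_le_ofReal_iff (by positivity)).1 hNle
  set c1 : ℝ := 16 * 4 ^ d * bb d R ^ 2 with hc1
  have hbb : 0 < bb d R := by unfold bb; positivity
  have hc10 : 0 < c1 := by positivity
  have hc1e : c1 * (φ ^ (d + 1)) ^ 2 = a1 := by
    rw [hc1, ha1, ← hRφ]
    unfold bb
    rw [show 2 * (R * φ) = 2 * R * φ by ring, mul_pow (2 * R) φ]
    ring
  set η : ℝ := t0 / (2 * c1) with hη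
  have hη0 : 0 < η := by positivity
  have hNl := NN_lower R τ hE hG hGF hR0 η hη0
  rw [hTe, hNe, hEe, ← ENNReal.ofReal_pow hT0, ← ENNReal.ofReal_pow hmu.le,
    ← ENNReal.ofReal_mul (by positivity), ← ENNReal.ofReal_mul (by positivity),
    ← ENNReal.ofReal_mul (by positivity), ← ENNReal.ofReal_add hN0 (by positivity),
    ← ENNReal.ofReal_mul (by positivity), ENNReal.ofReal_le_ofReal_iff (by positivity), ← hc1] at hNl
  -- absorb
  have h5 : c1 * mu ^ 3 * (η ^ (d + 2) * T) ≤ η ^ (d + 1) * T ^ 2 / 2 := by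
    have e1 : c1 * mu ^ 3 * (η ^ (d + 2) * T) = η ^ (d + 1) * T * (t0 * mu ^ 3) / 2 := by
      have : c1 * η = t0 / 2 := by rw [hη]; field_simp
      calc _ = (c1 * η) * mu ^ 3 * η ^ (d + 1) * T := by ring
        _ = _ := by rw [this]; ring
    rw [e1]
    have : η ^ (d + 1) * T * (t0 * mu ^ 3) ≤ η ^ (d + 1) * T * T := by gcongr
    nlinarith [this]
  have h6 : η ^ (d + 1) * T ^ 2 / 2 ≤ c1 * mu ^ 3 * N := by
    have : c1 * mu ^ 3 * (N + η ^ (d + 2) * T) = c1 * mu ^ 3 * N + c1 * mu ^ 3 * (η ^ (d + 2) * T) := by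
      ring
    linarith
  have h7 : η ^ (d + 1) * (t0 * mu ^ 3) ^ 2 / 2 ≤ c1 * mu ^ 3 * ((2 * R) ^ (d + 1) / τ * (k * φ * mu ^ 3)) := by
    calc η ^ (d + 1) * (t0 * mu ^ 3) ^ 2 / 2 ≤ η ^ (d + 1) * T ^ 2 / 2 := by gcongr
      _ ≤ c1 * mu ^ 3 * N := h6
      _ ≤ _ := by gcongr
  have h8 : η ^ (d + 1) * t0 ^ 2 / 2 ≤ c1 * ((2 * R) ^ (d + 1) / τ * (k * φ)) := by
    have hmu6 : 0 < mu ^ 6 := by positivity
    refine le_of_mul_le_mul_right ?_ hmu6
    calc η ^ (d + 1) * t0 ^ 2 / 2 * mu ^ 6 = η ^ (d + 1) * (t0 * mu ^ 3) ^ 2 / 2 := by ring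
      _ ≤ _ := h7
      _ = _ := by ring
  have h9 : t0 ^ (d + 3) / 2 ≤ 2 ^ (d + 1) * c1 ^ (d + 2) * ((2 * R) ^ (d + 1) * (4 * D * k)) := by
    have e1 : (2 * c1) ^ (d + 1) * (η ^ (d + 1) * t0 ^ 2 / 2) = t0 ^ (d + 3) / 2 := by
      have : 2 * c1 * η = t0 := by rw [hη]; field_simp
      calc _ = (2 * c1 * η) ^ (d + 1) * t0 ^ 2 / 2 := by rw [mul_pow (2 * c1) η]; ring
        _ = _ := by rw [this]; ring
    have e2 : (2 * c1) ^ (d + 1) * (c1 * ((2 * R) ^ (d + 1) / τ * (k * φ))) =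
        2 ^ (d + 1) * c1 ^ (d + 2) * ((2 * R) ^ (d + 1) * (4 * D * k)) := by
      have : φ / τ = 4 * D := by rw [hτ, hl]; field_simp
      rw [← this, mul_pow 2 c1]; ring
    rw [← e1, ← e2]
    gcongr
  have h10 : a0 ^ (d + 3) * φ ^ (MM d) ≤
      k * (2 * 2 ^ (d + 1) * a1 ^ (d + 2) * (2 * (8 * Cd)) ^ (d + 1) * (4 * D)) := by
    have h11 : t0 ^ (d + 3) / 2 * (((φ ^ (d + 1)) ^ 2) ^ (d + 2) * φ ^ (d + 1)) ≤
        2 ^ (d + 1) * c1 ^ (d + 2) * ((2 * R) ^ (d + 1) * (4 * D * k)) *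
        (((φ ^ (d + 1)) ^ 2) ^ (d + 2) * φ ^ (d + 1)) := by gcongr
    have e3 : 2 ^ (d + 1) * c1 ^ (d + 2) * ((2 * R) ^ (d + 1) * (4 * D * k)) *
        (((φ ^ (d + 1)) ^ 2) ^ (d + 2) * φ ^ (d + 1)) =
        2 ^ (d + 1) * (c1 * (φ ^ (d + 1)) ^ 2) ^ (d + 2) * (2 * (R * φ)) ^ (d + 1) * (4 * D * k) := by
      rw [mul_pow c1, show 2 * (R * φ) = 2 * R * φ by ring, mul_pow (2 * R) φ]; ring
    have e4 : t0 ^ (d + 3) / 2 * (((φ ^ (d + 1)) ^ 2) ^ (d + 2) * φ ^ (d + 1)) =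
        a0 ^ (d + 3) * φ ^ (MM d) / 2 := by
      rw [ht0e]; unfold MM; ring
    rw [e3, e4, hc1e, hRφ] at h11
    nlinarith [h11]
  rw [hc, div_mul_eq_mul_div, div_le_iff₀ (by positivity)]
  exact h10

end Run7.h567
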