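import Pool.Agent.Run7.h567.Hold2

set_option autoImplicit false

open MeasureTheory ENNReal Set

namespace Run7.h567

variable {d : ℕ} {E : Set (ℝ × V d)} {G : Set (V d × V d)}

/-- product weight -/
noncomputable def S1 (E : Set (ℝ × V d)) (G : Set (V d × V d)) (p : (ℝ × V d) × (V d × V d)) : ℝ≥0∞ :=
  (PT E G).indicator (fun p => ENNReal.ofReal (A E (ln p.1 p.2.1) ^ (d + 1)) *
    ENNReal.ofReal (A E (ln p.1 p.2.2) ^ (d + 1))) p

lemma measurable_S1 (hE : MeasurableSet E) (hG : MeasurableSet G) : Measurable (S1 E G) := by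
  have hA := measurable_A hE
  have m1 : Measurable (fun p : (ℝ × V d) × (V d × V d) => A E (ln p.1 p.2.1)) := hA.comp (by fun_prop)
  have m2 : Measurable (fun p : (ℝ × V d) × (V d × V d) => A E (ln p.1 p.2.2)) := hA.comp (by fun_prop)
  exact Measurable.indicator (by fun_prop) (measurableSet_PT hE hG)

lemma int_S1 (hE : MeasurableSet E) (hG : MeasurableSet G) :
    ∫⁻ p : (ℝ × V d) × (V d × V d), S1 E G p = S2 E G := by
  have hS := measurable_S1 hE hG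
  have hw := measurable_wt hE hG (d + 1)
  rw [Measure.volume_eq_prod (ℝ × V d) (V d × V d), lintegral_prod _ hS.aemeasurable, S2]
  refine lintegral_congr fun z => ?_
  have hwz : Measurable (fun v : V d => wt E G (d + 1) (ln z v)) := hw.comp (by fun_prop)
  by_cases hz : z ∈ E
  · rw [indicator_of_mem hz, sq, Measure.volume_eq_prod (V d) (V d),
      ← lintegral_prod_mul hwz.aemeasurable hwz.aemeasurable]
    refine lintegral_congr fun v => ?_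
    unfold S1 wt
    by_cases h1 : ln z v.1 ∈ G
    · by_cases h2 : ln z v.2 ∈ G
      · have : (z, v) ∈ PT E G := ⟨hz, h1, h2⟩
        rw [indicator_of_mem this, indicator_of_mem h1, indicator_of_mem h2]
      · rw [indicator_of_notMem h2, indicator_of_notMem (fun h : (z, v) ∈ PT E G => h2 h.2.2), mul_zero]
    · rw [indicator_of_notMem h1, indicator_of_notMem (fun h : (z, v) ∈ PT E G => h1 h.2.1), zero_mul]
  · rw [indicator_of_notMem hz]
    have : ∀ v : V d × V d, S1 E G (z, v) = 0 := by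
      intro v
      unfold S1
      rw [indicator_of_notMem (fun h : (z, v) ∈ PT E G => hz h.1)]
    simp only [this]; simp

lemma kf_le (ℓ : V d × V d) (v : V d) (c : ℝ) : kf E G ℓ v c ≤ F E ℓ :=
  measure_mono fun _ hs => hs.1

lemma PP_le (hd : 2 ≤ d) (ε θ' x : ℝ) (hε0 : 0 < ε) (hε1 : ε ≤ 1 / (8 * ((d:ℝ) + 2)))
    (hθ' : θ' = (1 - ε) / ((d:ℝ) - 1 + ε)) (hx : x = ((d:ℝ) + ε) / ((d:ℝ) + 1 + ε))
    (hθ0 : 0 ≤ θ') (hθ1 : θ' ≤ 1) (hx0 : 0 ≤ x) (hx1 : x ≤ 1)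
    (hGF : ∀ ℓ ∈ G, F E ℓ ≠ 0 ∧ F E ℓ ≠ ∞) (p : (ℝ × V d) × (V d × V d))
    (hp : p ∈ PT E G → N1 E G p ≠ 0 ∧ N2 E G p ≠ 0) :
    PP E G (1 - ε) p ≤ S1 E G p ^ (1 - θ') *
      (JF E G ε (p.1, (p.2.2, p.2.1)) ^ x * JF E G ε p ^ (1 - x)) ^ θ' := by
  by_cases hPS : p ∈ PS E G
  swap
  · unfold PP
    rw [indicator_of_notMem hPS]; exact zero_le
  obtain ⟨g1, g2, g3, g4⟩ := hPS
  have hPS : p ∈ PS E G := ⟨g1, g2, g3, g4⟩
  have hPT : p ∈ PT E G := ⟨g1, g2, g3⟩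
  have hPT' : (p.1, (p.2.2, p.2.1)) ∈ PT E G := ⟨g1, g3, g2⟩
  obtain ⟨hN1, hN2⟩ := hp hPT
  have hA0 := A_pos (hGF _ g2)
  have hA1 := A_pos (hGF _ g3)
  have hF0 := F_eq (hGF _ g2).2
  have hF1 := F_eq (hGF _ g3).2
  have hN1le : N1 E G p ≤ ENNReal.ofReal (A E (ln p.1 p.2.1)) := by
    rw [← hF0]; exact kf_le _ _ _
  have hN2le : N2 E G p ≤ ENNReal.ofReal (A E (ln p.1 p.2.2)) := by
    rw [← hF1]; exact kf_le _ _ _
  have hN1t : N1 E G p ≠ ∞ := ne_top_of_le_ne_top ENNReal.ofReal_ne_top hN1le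
  have hN2t : N2 E G p ≠ ∞ := ne_top_of_le_ne_top ENNReal.ofReal_ne_top hN2le
  obtain ⟨a0, ha0⟩ : ∃ a0, a0 = A E (ln p.1 p.2.1) := ⟨_, rfl⟩
  obtain ⟨a1, ha1⟩ : ∃ a1, a1 = A E (ln p.1 p.2.2) := ⟨_, rfl⟩
  obtain ⟨k1, hk1⟩ : ∃ k1, k1 = (N1 E G p).toReal := ⟨_, rfl⟩
  obtain ⟨k2, hk2⟩ : ∃ k2, k2 = (N2 E G p).toReal := ⟨_, rfl⟩
  have e1 : N1 E G p = ENNReal.ofReal k1 := by rw [hk1, ENNReal.ofReal_toReal hN1t]
  have e2 : N2 E G p = ENNReal.ofReal k2 := by rw [hk2, ENNReal.ofReal_toReal hN2t]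
  have k10 : 0 < k1 := by rw [hk1]; exact ENNReal.toReal_pos hN1 hN1t
  have k20 : 0 < k2 := by rw [hk2]; exact ENNReal.toReal_pos hN2 hN2t
  rw [← ha0] at hA0 hN1le g4
  rw [← ha1] at hA1 hN2le g4
  rw [e1] at hN1le
  rw [e2] at hN2le
  have k1a : k1 ≤ a0 := (ENNReal.ofReal_le_ofReal_iff hA0.le).1 hN1le
  have k2a : k2 ≤ a1 := (ENNReal.ofReal_le_ofReal_iff hA1.le).1 hN2le
  have key := ptw hd ε θ' x hε0 hε1 hθ' hx a0 a1 k1 k2 hA0 k10 k20 k1a g4 k2a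
  have hNs1 : N1 E G (p.1, (p.2.2, p.2.1)) = N2 E G p := rfl
  have hNs2 : N2 E G (p.1, (p.2.2, p.2.1)) = N1 E G p := rfl
  unfold PP S1 JF
  rw [indicator_of_mem hPS, indicator_of_mem hPT, indicator_of_mem hPT, indicator_of_mem hPT']
  simp only
  rw [hNs1, hNs2, ← ha0, ← ha1]
  have hN1' : kf E G (ln p.1 p.2.1) p.2.2 (a1 / 2) = ENNReal.ofReal k1 := by
    rw [← e1, ha1]; rfl
  rw [hN1', e1, e2, ENNReal.toReal_ofReal k10.le, ENNReal.toReal_ofReal k20.le,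
    ← ENNReal.ofReal_inv_of_pos k10, ← ENNReal.ofReal_inv_of_pos k20]
  have hx1' : 0 ≤ 1 - x := by linarith
  have hθ1' : 0 ≤ 1 - θ' := by linarith
  have hε1' : ε ≤ 1 := hε1.trans (by
    rw [div_le_one (by positivity)]
    have : (0:ℝ) ≤ d := Nat.cast_nonneg d
    linarith)
  have hε1'' : 0 ≤ 1 - ε := by linarith
  have hK1 : 0 ≤ Kf d ε a1 k1 := by
    unfold Kf
    exact mul_nonneg (by positivity) (le_min (by positivity) (by positivity))
  have hK2 : 0 ≤ Kf d ε a0 k2 := by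
    unfold Kf
    exact mul_nonneg (by positivity) (le_min (by positivity) (by positivity))
  have hm1 : 0 ≤ min (a1 / a0) (a0 / a1) := le_min (by positivity) (by positivity)
  have hm2 : 0 ≤ min (a0 / a1) (a1 / a0) := le_min (by positivity) (by positivity)
  have L : ENNReal.ofReal (a0 ^ d) * ENNReal.ofReal (a1 ^ ((d:ℝ) + 2 - (1 - ε))) * ENNReal.ofReal k1 ^ (1 - ε)
      = ENNReal.ofReal (a0 ^ d * a1 ^ ((d:ℝ) + 2 - (1 - ε)) * k1 ^ (1 - ε)) := by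
    rw [ENNReal.ofReal_mul (by positivity), ENNReal.ofReal_mul (by positivity),
      ENNReal.ofReal_rpow_of_nonneg k10.le hε1'']
  have R1 : (ENNReal.ofReal (a0 ^ (d + 1)) * ENNReal.ofReal (a1 ^ (d + 1))) ^ (1 - θ') =
      ENNReal.ofReal ((a0 ^ (d + 1) * a1 ^ (d + 1)) ^ (1 - θ')) := by
    rw [← ENNReal.ofReal_mul (by positivity), ENNReal.ofReal_rpow_of_nonneg (by positivity) hθ1']
  have R2 : ∀ a K k mn y : ℝ, 0 ≤ a → 0 ≤ K → 0 ≤ k → 0 ≤ mn → 0 ≤ y →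
      (ENNReal.ofReal (a ^ (d + 3)) * (ENNReal.ofReal K * (ENNReal.ofReal k⁻¹ * ENNReal.ofReal (mn ^ ε)))) ^ y =
      ENNReal.ofReal ((a ^ (d + 3) * (K * (k⁻¹ * mn ^ ε))) ^ y) := by
    intro a K k mn y ha hK hk hmn hy
    rw [← ENNReal.ofReal_mul (by positivity), ← ENNReal.ofReal_mul hK, ← ENNReal.ofReal_mul (by positivity),
      ENNReal.ofReal_rpow_of_nonneg (by positivity) hy]
  rw [L, R1, R2 a1 (Kf d ε a1 k1) k2 _ x hA1.le hK1 k20.le hm1 hx0,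
    R2 a0 (Kf d ε a0 k2) k1 _ (1 - x) hA0.le hK2 k10.le hm2 hx1',
    ← ENNReal.ofReal_mul (by positivity), ENNReal.ofReal_rpow_of_nonneg (by positivity) hθ0,
    ← ENNReal.ofReal_mul (by positivity)]
  exact ENNReal.ofReal_le_ofReal key

/-- Hoelder -/
lemma PP_int (hd : 2 ≤ d) (ε : ℝ) (hε0 : 0 < ε) (hε1 : ε ≤ 1 / (8 * ((d:ℝ) + 2))) (θ' : ℝ)
    (hθ' : θ' = (1 - ε) / ((d:ℝ) - 1 + ε)) (hθ0 : 0 < θ') (hθ1 : θ' ≤ 1) :
    ∃ C : NNReal, ∀ (E : Set (ℝ × V d)) (G : Set (V d × V d)) (κ : ℝ≥0∞),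
      MeasurableSet E → MeasurableSet G → (∀ ℓ ∈ G, F E ℓ ≠ 0 ∧ F E ℓ ≠ ∞) →
      (∀ v : V d, ∀ a : ℝ, 0 < a →
        ENNReal.ofReal a * volume {x : V d | (x, v) ∈ G ∧ a ≤ A E (x, v)} ≤ κ * volume E) →
      ∫⁻ p : (ℝ × V d) × (V d × V d), PP E G (1 - ε) p ≤
        S2 E G ^ (1 - θ') * (C * (κ * volume E * Phi E G)) ^ θ' := by
  have hd' : (2:ℝ) ≤ d := by exact_mod_cast hd
  have hε1' : ε ≤ 1 := hε1.trans (by
    rw [div_le_one (by positivity)]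
    linarith)
  obtain ⟨C, hC⟩ := JF_int hd ε hε0 hε1'
  refine ⟨C, fun E G κ hE hG hGF hstar => ?_⟩
  set x : ℝ := ((d:ℝ) + ε) / ((d:ℝ) + 1 + ε) with hx
  have hx0 : 0 ≤ x := by positivity
  have hx1 : x ≤ 1 := by
    rw [hx, div_le_one (by positivity)]; linarith
  have hx1' : 0 ≤ 1 - x := by linarith
  have hJ := hC E G κ hE hG hGF hstar
  have hJm := measurable_JF hE hG ε
  have hJm' : Measurable (fun p : (ℝ × V d) × (V d × V d) => JF E G ε (p.1, (p.2.2, p.2.1))) :=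
    hJm.comp (by fun_prop)
  have hJs := swap_v (JF E G ε) hJm
  have hSm := measurable_S1 hE hG
  -- almost everywhere positivity
  have hae1 := ae_N1 hE hG hGF
  have hN1m := measurable_N1 hE hG
  have hS : MeasurableSet (PT E G ∩ {p | N1 E G p = 0}) :=
    (measurableSet_PT hE hG).inter (hN1m (measurableSet_singleton 0))
  have him : Measurable ((PT E G ∩ {p | N1 E G p = 0}).indicator (1 : (ℝ × V d) × (V d × V d) → ℝ≥0∞)) :=
    measurable_one.indicator hS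
  have hae2 := swap_v _ him
  rw [hae1] at hae2
  have him' : Measurable (fun p : (ℝ × V d) × (V d × V d) =>
      (PT E G ∩ {p | N1 E G p = 0}).indicator (1 : (ℝ × V d) × (V d × V d) → ℝ≥0∞) (p.1, (p.2.2, p.2.1))) :=
    him.comp (by fun_prop)
  have h1 := (lintegral_eq_zero_iff him).1 hae1
  have h2 := (lintegral_eq_zero_iff him').1 hae2
  have hae : ∀ᵐ p : (ℝ × V d) × (V d × V d), p ∈ PT E G → N1 E G p ≠ 0 ∧ N2 E G p ≠ 0 := by
    filter_upwards [h1, h2] with p hp1 hp2 hpT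
    constructor
    · intro h0
      rw [indicator_of_mem (show p ∈ PT E G ∩ {p | N1 E G p = 0} from ⟨hpT, h0⟩)] at hp1
      simp at hp1
    · intro h0
      have : (p.1, (p.2.2, p.2.1)) ∈ PT E G ∩ {p | N1 E G p = 0} :=
        ⟨⟨hpT.1, hpT.2.2, hpT.2.1⟩, h0⟩
      rw [indicator_of_mem this] at hp2
      simp at hp2
  calc _ ≤ ∫⁻ p : (ℝ × V d) × (V d × V d), S1 E G p ^ (1 - θ') *
        (JF E G ε (p.1, (p.2.2, p.2.1)) ^ x * JF E G ε p ^ (1 - x)) ^ θ' := by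
        refine lintegral_mono_ae ?_
        filter_upwards [hae] with p hp
        exact PP_le hd ε θ' x hε0 hε1 hθ' hx hθ0.le hθ1 hx0 hx1 hGF p hp
    _ ≤ (∫⁻ p, S1 E G p) ^ (1 - θ') *
        (∫⁻ p : (ℝ × V d) × (V d × V d), JF E G ε (p.1, (p.2.2, p.2.1)) ^ x * JF E G ε p ^ (1 - x)) ^ θ' := by
        refine ENNReal.lintegral_mul_norm_pow_le hSm.aemeasurable ?_ (by linarith) hθ0.le (by ring)
        exact ((hJm'.pow_const _).mul (hJm.pow_const _)).aemeasurable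
    _ ≤ (∫⁻ p, S1 E G p) ^ (1 - θ') *
        ((∫⁻ p : (ℝ × V d) × (V d × V d), JF E G ε (p.1, (p.2.2, p.2.1))) ^ x *
          (∫⁻ p, JF E G ε p) ^ (1 - x)) ^ θ' := by
        gcongr
        exact ENNReal.lintegral_mul_norm_pow_le hJm'.aemeasurable hJm.aemeasurable hx0 hx1' (by ring)
    _ = S2 E G ^ (1 - θ') * (∫⁻ p, JF E G ε p) ^ θ' := by
        rw [int_S1 hE hG, hJs, ← ENNReal.rpow_add_of_nonneg _ _ hx0 hx1', add_sub_cancel, ENNReal.rpow_one]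
    _ ≤ _ := by gcongr

lemma S2_le (hE : MeasurableSet E) (hGF : ∀ ℓ ∈ G, F E ℓ ≠ 0 ∧ F E ℓ ≠ ∞) :
    S2 E G ≤ (ENNReal.ofReal (2 * 4 ^ d) * volume E) ^ 2 * volume E := by
  unfold S2
  calc _ ≤ ∫⁻ z : ℝ × V d, E.indicator (fun _ => (ENNReal.ofReal (2 * 4 ^ d) * volume E) ^ 2) z := by
        refine lintegral_mono fun z => ?_
        by_cases hz : z ∈ E
        · rw [indicator_of_mem hz, indicator_of_mem hz]
          gcongr
          exact bush hE hGF z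
        · rw [indicator_of_notMem hz]; exact zero_le
    _ = _ := by rw [lintegral_indicator_const hE]

/-- the improved core bound -/
theorem core_half (hd : 2 ≤ d) (ε : ℝ) (hε0 : 0 < ε) (hε1 : ε ≤ 1 / (8 * ((d:ℝ) + 2))) :
    CoreBound d ((1 - ε) / (d:ℝ)) := by
  have hd' : (2:ℝ) ≤ d := by exact_mod_cast hd
  have hε8 : 8 * ((d:ℝ) + 2) * ε ≤ 1 := by
    rw [le_div_iff₀ (by positivity)] at hε1; linarith
  have hε1' : ε < 1 := by nlinarith
  set θ' : ℝ := (1 - ε) / ((d:ℝ) - 1 + ε) with hθ'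
  have hD : 0 < (d:ℝ) - 1 + ε := by linarith
  have hθ0 : 0 < θ' := by
    rw [hθ']; apply div_pos (by linarith) hD
  have hθ1 : θ' ≤ 1 := by
    rw [hθ', div_le_one hD]; linarith
  obtain ⟨C1, hC1⟩ := X3_le hd (1 - ε) (by linarith) (by linarith)
  obtain ⟨C2, hC2⟩ := PP_int hd ε hε0 hε1 θ' hθ' hθ0 hθ1
  set K : ℝ := 64 / 9 * ((C1:ℝ) + 1) * ((C2:ℝ) + 1) ^ θ' with hK
  have hK0 : 0 < K := by positivity
  have hM : (1 - ε) / (d:ℝ) = 1 / ((1 + θ') / θ') := by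
    have e : θ' * ((d:ℝ) - 1 + ε) = 1 - ε := by rw [hθ']; field_simp
    rw [one_div_div, div_eq_div_iff (by positivity) (by positivity)]
    linear_combination -e
  rw [hM]
  refine coreBound_of ((1 + θ') / θ') (by positivity) ((K ^ (1 / θ'))⁻¹) (by positivity) ?_
  intro E G hE hG hGF mu φ k hmu hφ hφle hk hEe hPe hstar
  have hX := hC1 E G hE hG hGF
  have hP := hC2 E G (ENNReal.ofReal k) hE hG hGF hstar
  have hQ := Q3_sq hE hG hGF
  have hQg := Q3_ge hE hG hGF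
  have hPS := Phi_sq_le_S2 hE hG hGF
  have hS2f : S2 E G ≠ ∞ := by
    refine ne_top_of_le_ne_top ?_ (S2_le hE hGF)
    rw [hEe]
    exact ENNReal.mul_ne_top (ENNReal.pow_ne_top (ENNReal.mul_ne_top ENNReal.ofReal_ne_top
      ENNReal.ofReal_ne_top)) ENNReal.ofReal_ne_top
  obtain ⟨s, hs⟩ : ∃ s, s = (S2 E G).toReal := ⟨_, rfl⟩
  have hse : S2 E G = ENNReal.ofReal s := by rw [hs, ENNReal.ofReal_toReal hS2f]
  have hs0 : 0 ≤ s := by rw [hs]; exact ENNReal.toReal_nonneg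
  -- lower bound for s
  have h1 : φ ^ 2 * mu ^ 3 ≤ s := by
    rw [hPe, hse, hEe, ← ENNReal.ofReal_pow (by positivity), ← ENNReal.ofReal_mul hmu.le] at hPS
    have h2 := (ENNReal.ofReal_le_ofReal_iff (by positivity)).1 hPS
    have h3 : mu * (φ ^ 2 * mu ^ 3) ≤ mu * s := by nlinarith
    exact le_of_mul_le_mul_left h3 hmu
  have hspos : 0 < s := lt_of_lt_of_le (by positivity) h1
  -- main chain
  have h4 : (ENNReal.ofReal (3 / 8) * S2 E G) ^ 2 ≤ volume E * Phi E G * (C1 * (S2 E G ^ (1 - θ') *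
      (C2 * (ENNReal.ofReal k * volume E * Phi E G)) ^ θ')) := by
    calc (ENNReal.ofReal (3 / 8) * S2 E G) ^ 2 ≤ Q3 E G ^ 2 := by gcongr
      _ ≤ volume E * Phi E G * X3 E G := hQ
      _ ≤ _ := by
          gcongr
          exact hX.trans (by gcongr)
  have hθ1' : 0 ≤ 1 - θ' := by linarith
  have h5 : (3 / 8 * s) ^ 2 ≤ mu * (φ * mu ^ 2) * (((C1:ℝ) + 1) * (s ^ (1 - θ') *
      (((C2:ℝ) + 1) * (k * mu * (φ * mu ^ 2))) ^ θ')) := by
    have h6 : (ENNReal.ofReal (3 / 8) * S2 E G) ^ 2 = ENNReal.ofReal ((3 / 8 * s) ^ 2) := by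
      rw [hse, ← ENNReal.ofReal_mul (by norm_num), ← ENNReal.ofReal_pow (by positivity)]
    have h7 : volume E * Phi E G * (C1 * (S2 E G ^ (1 - θ') *
      (C2 * (ENNReal.ofReal k * volume E * Phi E G)) ^ θ')) ≤ ENNReal.ofReal (mu * (φ * mu ^ 2) *
        (((C1:ℝ) + 1) * (s ^ (1 - θ') * (((C2:ℝ) + 1) * (k * mu * (φ * mu ^ 2))) ^ θ'))) := by
      have c1 : (C1 : ℝ≥0∞) ≤ ENNReal.ofReal ((C1:ℝ) + 1) := by
        rw [← ENNReal.ofReal_coe_nnreal]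
        exact ENNReal.ofReal_le_ofReal (by linarith)
      have c2 : (C2 : ℝ≥0∞) ≤ ENNReal.ofReal ((C2:ℝ) + 1) := by
        rw [← ENNReal.ofReal_coe_nnreal]
        exact ENNReal.ofReal_le_ofReal (by linarith)
      have d1 : volume E * Phi E G = ENNReal.ofReal (mu * (φ * mu ^ 2)) := by
        rw [hEe, hPe, ← ENNReal.ofReal_mul hmu.le]
      have d2 : S2 E G ^ (1 - θ') = ENNReal.ofReal (s ^ (1 - θ')) := by
        rw [hse, ENNReal.ofReal_rpow_of_nonneg hs0 hθ1']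
      have d3 : (C2 * (ENNReal.ofReal k * volume E * Phi E G)) ^ θ' ≤
          ENNReal.ofReal ((((C2:ℝ) + 1) * (k * mu * (φ * mu ^ 2))) ^ θ') := by
        rw [← ENNReal.ofReal_rpow_of_nonneg (by positivity) hθ0.le, ENNReal.ofReal_mul (by positivity),
          show k * mu * (φ * mu ^ 2) = k * (mu * (φ * mu ^ 2)) by ring, ENNReal.ofReal_mul hk, ← d1,
          mul_assoc (ENNReal.ofReal k)]
        gcongr
      rw [ENNReal.ofReal_mul (p := mu * (φ * mu ^ 2)) (by positivity),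
        ENNReal.ofReal_mul (p := (C1:ℝ) + 1) (by positivity),
        ENNReal.ofReal_mul (p := s ^ (1 - θ')) (by positivity), ← d1, ← d2]
      gcongr
    have h8 := h6 ▸ h4.trans h7
    exact (ENNReal.ofReal_le_ofReal_iff (by positivity)).1 h8
  -- real computation
  have h9 : s ^ (1 + θ') ≤ K * (k ^ θ' * (φ * mu ^ 3) ^ (1 + θ')) := by
    have e1 : (3 / 8 * s) ^ 2 = 9 / 64 * (s ^ (1 + θ') * s ^ (1 - θ')) := by
      rw [← Real.rpow_add hspos, show (1 + θ' + (1 - θ')) = (2:ℝ) by ring, Real.rpow_two]; ring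
    have e2 : (((C2:ℝ) + 1) * (k * mu * (φ * mu ^ 2))) ^ θ' = ((C2:ℝ) + 1) ^ θ' * (k ^ θ' * (φ * mu ^ 3) ^ θ') := by
      rw [Real.mul_rpow (by positivity) (by positivity),
        show k * mu * (φ * mu ^ 2) = k * (φ * mu ^ 3) by ring, Real.mul_rpow hk (by positivity)]
    have e3 : (φ * mu ^ 3) ^ (1 + θ') = (φ * mu ^ 3) * (φ * mu ^ 3) ^ θ' := by
      rw [Real.rpow_add (by positivity), Real.rpow_one]
    rw [e1, e2] at h5
    rw [e3]
    have hsp : 0 < s ^ (1 - θ') := by positivity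
    have h10 : s ^ (1 - θ') * (9 / 64 * s ^ (1 + θ')) ≤ s ^ (1 - θ') * (mu * (φ * mu ^ 2) * ((C1:ℝ) + 1) *
        (((C2:ℝ) + 1) ^ θ' * (k ^ θ' * (φ * mu ^ 3) ^ θ'))) := by
      calc _ = 9 / 64 * (s ^ (1 + θ') * s ^ (1 - θ')) := by ring
        _ ≤ _ := h5
        _ = _ := by ring
    have h11 := le_of_mul_le_mul_left h10 hsp
    rw [hK]
    calc s ^ (1 + θ') = 64 / 9 * (9 / 64 * s ^ (1 + θ')) := by ring
      _ ≤ 64 / 9 * (mu * (φ * mu ^ 2) * ((C1:ℝ) + 1) *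
        (((C2:ℝ) + 1) ^ θ' * (k ^ θ' * (φ * mu ^ 3) ^ θ'))) := by gcongr
      _ = _ := by ring
  have h12 : (φ ^ 2 * mu ^ 3) ^ (1 + θ') ≤ K * (k ^ θ' * (φ * mu ^ 3) ^ (1 + θ')) :=
    (Real.rpow_le_rpow (by positivity) h1 (by positivity)).trans h9
  have h13 : φ ^ (1 + θ') ≤ K * k ^ θ' := by
    have e : (φ ^ 2 * mu ^ 3) ^ (1 + θ') = φ ^ (1 + θ') * (φ * mu ^ 3) ^ (1 + θ') := by
      rw [← Real.mul_rpow (by positivity) (by positivity)]
      congr 1; ring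
    rw [e] at h12
    have hp : 0 < (φ * mu ^ 3) ^ (1 + θ') := by positivity
    have h14 : φ ^ (1 + θ') * (φ * mu ^ 3) ^ (1 + θ') ≤ (K * k ^ θ') * (φ * mu ^ 3) ^ (1 + θ') := by
      linarith
    exact le_of_mul_le_mul_right h14 hp
  have h15 : φ ^ ((1 + θ') / θ') ≤ K ^ (1 / θ') * k := by
    have h16 := Real.rpow_le_rpow (by positivity) h13 (show 0 ≤ 1 / θ' by positivity)
    rw [← Real.rpow_mul hφ.le, Real.mul_rpow hK0.le (by positivity), ← Real.rpow_mul hk,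
      mul_one_div_cancel hθ0.ne', Real.rpow_one] at h16
    rw [div_eq_mul_one_div (1 + θ') θ']
    exact h16
  rw [inv_mul_le_iff₀ (by positivity)]
  exact h15

end Run7.h567
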