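import Pool.Agent.Run7.h567.Cone

set_option autoImplicit false

open MeasureTheory ENNReal Set

namespace Run7.h567

variable {d : ℕ}

/-- a line is `ℓ = (x, v)`; its point at time `t` -/
def pt (ℓ : V d × V d) (t : ℝ) : ℝ × V d := (t, ℓ.1 + t • ℓ.2)

/-- the line through `z` with velocity `v` -/
def ln (z : ℝ × V d) (v : V d) : V d × V d := (z.2 - z.1 • v, v)

/-- velocity of the line through two points -/
noncomputable def vel (z z' : ℝ × V d) : V d := (z'.1 - z.1)⁻¹ • (z'.2 - z.2)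

lemma pt_ln (z : ℝ × V d) (v : V d) (t : ℝ) : pt (ln z v) t = (t, z.2 + (t - z.1) • v) := by
  simp only [pt, ln, Prod.mk.injEq, true_and]
  module

lemma pt_ln_self (z : ℝ × V d) (v : V d) : pt (ln z v) z.1 = z := by
  rw [pt_ln]; simp

lemma ln_pt (ℓ : V d × V d) (t : ℝ) : ln (pt ℓ t) ℓ.2 = ℓ := by
  simp [pt, ln]

lemma vel_add (z : ℝ × V d) {s : ℝ} (hs : s ≠ 0) (v : V d) :
    vel z (z.1 + s, z.2 + s • v) = v := by
  simp [vel, smul_smul, inv_mul_cancel₀ hs]

lemma vel_comm (z z' : ℝ × V d) : vel z z' = vel z' z := by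
  simp only [vel]
  rw [← neg_sub z.1 z'.1, ← neg_sub z.2 z'.2, inv_neg, neg_smul, smul_neg, neg_neg]

lemma ln_vel_comm {z z' : ℝ × V d} (h : z.1 ≠ z'.1) : ln z (vel z z') = ln z' (vel z' z) := by
  rw [vel_comm z' z]
  simp only [ln, Prod.mk.injEq, and_true]
  have h' : z'.1 - z.1 ≠ 0 := sub_ne_zero.2 (Ne.symm h)
  have : (z'.1 - z.1) • vel z z' = z'.2 - z.2 := by
    simp only [vel, smul_smul, mul_inv_cancel₀ h', one_smul]
  have e : z'.1 • vel z z' = z.1 • vel z z' + (z'.2 - z.2) := by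
    rw [← this]; module
  rw [e]; module

@[fun_prop]
lemma measurable_pt : Measurable (fun p : (V d × V d) × ℝ => pt p.1 p.2) := by
  unfold pt; fun_prop

@[fun_prop]
lemma measurable_ln : Measurable (fun p : (ℝ × V d) × V d => ln p.1 p.2) := by
  unfold ln; fun_prop

@[fun_prop]
lemma measurable_vel : Measurable (fun p : (ℝ × V d) × (ℝ × V d) => vel p.1 p.2) := by
  unfold vel; fun_prop

@[fun_prop]
lemma Measurable.pt {α : Type*} [MeasurableSpace α] {f : α → V d × V d} {g : α → ℝ}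
    (hf : Measurable f) (hg : Measurable g) : Measurable (fun a => pt (f a) (g a)) :=
  measurable_pt.comp (hf.prodMk hg)

@[fun_prop]
lemma Measurable.ln {α : Type*} [MeasurableSpace α] {f : α → ℝ × V d} {g : α → V d}
    (hf : Measurable f) (hg : Measurable g) : Measurable (fun a => ln (f a) (g a)) :=
  measurable_ln.comp (hf.prodMk hg)

@[fun_prop]
lemma Measurable.vel {α : Type*} [MeasurableSpace α] {f g : α → ℝ × V d}
    (hf : Measurable f) (hg : Measurable g) : Measurable (fun a => vel (f a) (g a)) :=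
  measurable_vel.comp (hf.prodMk hg)

/-- incidence formula -/
lemma lintegral_inc (H : (V d × V d) × ℝ → ℝ≥0∞) (hm : Measurable H) :
    ∫⁻ z : ℝ × V d, ∫⁻ v : V d, H (ln z v, z.1) = ∫⁻ ℓ : V d × V d, ∫⁻ t : ℝ, H (ℓ, t) := by
  rw [lintegral_lintegral_swap (by fun_prop)]
  rw [Measure.volume_eq_prod (V d) (V d), lintegral_prod_symm _ (by fun_prop)]
  refine lintegral_congr fun v => ?_
  rw [← lintegral_shear v (fun z => H (ln z v, z.1)) (by fun_prop)]
  refine lintegral_congr fun x => lintegral_congr fun t => ?_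
  have := ln_pt (x, v) t
  simp only [pt] at this
  simp only [this]

/-- two point formula, one point fixed -/
lemma lintegral_two (z : ℝ × V d) (H : (V d × V d) × ℝ → ℝ≥0∞) (hm : Measurable H) :
    ∫⁻ z' : ℝ × V d, H (ln z (vel z z'), z'.1) =
      ∫⁻ v : V d, ∫⁻ t : ℝ, ENNReal.ofReal (|t - z.1| ^ d) * H (ln z v, t) := by
  rw [← lintegral_cone z _ (by fun_prop), lintegral_lintegral_swap (by fun_prop)]
  refine lintegral_congr fun v => ?_
  rw [← lintegral_add_left_eq_self (μ := (volume : Measure ℝ))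
    (fun t => ENNReal.ofReal (|t - z.1| ^ d) * H (ln z v, t)) z.1]
  have : ∀ᵐ s : ℝ, s ≠ 0 := by
    simp [ae_iff]
  refine lintegral_congr_ae ?_
  filter_upwards [this] with s hs
  rw [vel_add z hs]
  simp

/-- two point formula -/
lemma lintegral_two_two (H : (V d × V d) × ℝ × ℝ → ℝ≥0∞) (hm : Measurable H) :
    ∫⁻ z : ℝ × V d, ∫⁻ z' : ℝ × V d, H (ln z (vel z z'), z.1, z'.1) =
      ∫⁻ ℓ : V d × V d, ∫⁻ t : ℝ, ∫⁻ t' : ℝ, ENNReal.ofReal (|t' - t| ^ d) * H (ℓ, t, t') := by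
  have h1 : ∀ z : ℝ × V d, ∫⁻ z' : ℝ × V d, H (ln z (vel z z'), z.1, z'.1) =
      ∫⁻ v : V d, ∫⁻ t : ℝ, ENNReal.ofReal (|t - z.1| ^ d) * H (ln z v, z.1, t) := by
    intro z
    exact lintegral_two z (fun p => H (p.1, z.1, p.2)) (by fun_prop)
  simp_rw [h1]
  exact lintegral_inc (fun p => ∫⁻ t : ℝ, ENNReal.ofReal (|t - p.2| ^ d) * H (p.1, p.2, t))
    (by fun_prop)

end Run7.h567
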