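import Pool.Agent.Run7.h567.Tri3

set_option autoImplicit false

open MeasureTheory ENNReal Set

namespace Run7.h567

section
variable {W : Type*} [NormedAddCommGroup W] [NormedSpace ℝ W] [FiniteDimensional ℝ W]
  [MeasurableSpace W] [BorelSpace W] (μ : Measure W) [μ.IsAddHaarMeasure]

lemma lintegral_dil {c : ℝ} (hc : c ≠ 0) (h : W → ℝ≥0∞) (hm : Measurable h) :
    ENNReal.ofReal (|c| ^ Module.finrank ℝ W) * ∫⁻ z, h (c • z) ∂μ = ∫⁻ z, h z ∂μ := by
  have h1 : ∫⁻ z, h (c • z) ∂μ = ∫⁻ y, h y ∂(Measure.map (fun v : W => c • v) μ) := by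
    rw [lintegral_map (by fun_prop) (by fun_prop)]
  rw [h1, Measure.map_addHaar_smul μ hc]
  simp only [lintegral_smul_measure, smul_eq_mul]
  rw [← mul_assoc, ← ENNReal.ofReal_mul (by positivity)]
  have : |c| ^ Module.finrank ℝ W * |(c ^ Module.finrank ℝ W)⁻¹| = 1 := by
    rw [abs_inv, abs_pow]
    exact mul_inv_cancel₀ (by positivity)
  rw [this]; simp

/-- correlation of a function with its dilate -/
noncomputable def corr (k : W → ℝ≥0∞) (r : ℝ) : ℝ≥0∞ := ∫⁻ z, k z * k (r • z) ∂μ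

lemma measurable_corr (k : W → ℝ≥0∞) (hk : Measurable k) : Measurable (corr μ k) := by
  unfold corr
  have : Measurable (fun p : ℝ × W => k p.2 * k (p.1 • p.2)) := by fun_prop
  exact this.lintegral_prod_right'

lemma dil_aux (k : W → ℝ≥0∞) (hk : Measurable k) {s s' : ℝ} (hs : s ∈ Icc (1 : ℝ) 2)
    (hs' : s' ∈ Icc (1 : ℝ) 2) :
    ∫⁻ z, k (s⁻¹ • z) * k (s'⁻¹ • z) ∂μ ≤
      ENNReal.ofReal (2 ^ Module.finrank ℝ W) * corr μ k (s' / s) := by
  have hs0 : s' ≠ 0 := by have := hs'.1; positivity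
  rw [← lintegral_dil μ hs0 (fun z => k (s⁻¹ • z) * k (s'⁻¹ • z)) (by fun_prop)]
  have : ∀ z : W, k (s⁻¹ • s' • z) * k (s'⁻¹ • s' • z) = k z * k ((s' / s) • z) := by
    intro z
    rw [smul_smul, smul_smul, inv_mul_cancel₀ hs0, one_smul, mul_comm, div_eq_inv_mul]
  simp_rw [this]
  unfold corr
  gcongr
  rw [abs_of_pos (by linarith [hs'.1])]; exact hs'.2

/-- the dilation Cauchy-Schwarz inequality -/
lemma dil_main (k : W → ℝ≥0∞) (hk : Measurable k) (Ω : Set W) (hΩ : MeasurableSet Ω)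
    (hsupp : ∀ z, k z ≠ 0 → ∀ s ∈ Icc (1 : ℝ) 2, s • z ∈ Ω) :
    (∫⁻ z, k z ∂μ) ^ 2 ≤ μ Ω * (ENNReal.ofReal (4 * 2 ^ Module.finrank ℝ W) *
      ∫⁻ r in Icc (1 / 2 : ℝ) 1, corr μ k r) := by
  set N := Module.finrank ℝ W with hN
  set I : Set ℝ := Icc (1 : ℝ) 2 with hI
  have hIm : MeasurableSet I := measurableSet_Icc
  set h : W → ℝ≥0∞ := fun z => ∫⁻ s in I, k (s⁻¹ • z) with hh
  have hjoint : Measurable (fun p : W × ℝ => k (p.2⁻¹ • p.1)) := by fun_prop
  have hhm : Measurable h := hjoint.lintegral_prod_right'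
  have h1 : ∫⁻ z, k z ∂μ ≤ ∫⁻ z, h z ∂μ := by
    rw [hh, lintegral_lintegral_swap hjoint.aemeasurable]
    have : ∀ s ∈ I, ∫⁻ z, k z ∂μ ≤ ∫⁻ z, k (s⁻¹ • z) ∂μ := by
      intro s hs
      have hs1 : (1 : ℝ) ≤ s := hs.1
      have hs0 : s⁻¹ ≠ 0 := by positivity
      rw [← lintegral_dil μ hs0 k hk]
      refine mul_le_of_le_one_left zero_le ?_
      rw [ENNReal.ofReal_le_one]
      apply pow_le_one₀ (abs_nonneg _)
      rw [abs_of_pos (by positivity)]
      exact inv_le_one_of_one_le₀ hs1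
    calc ∫⁻ z, k z ∂μ = ∫⁻ s in I, ∫⁻ z, k z ∂μ := by
          rw [setLIntegral_const, hI, Real.volume_Icc]; norm_num
      _ ≤ _ := setLIntegral_mono' hIm this
  have h2 : (∫⁻ z, h z ∂μ) ^ 2 ≤ μ Ω * ∫⁻ z, h z ^ 2 ∂μ := by
    refine cs μ hΩ hhm fun z hz => ?_
    rw [hh]
    simp only
    have : ∀ s ∈ I, k (s⁻¹ • z) = 0 := by
      intro s hs
      by_contra hne
      apply hz
      have := hsupp _ hne s hs
      have hs0 : s ≠ 0 := by have : (1:ℝ) ≤ s := hs.1; positivity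
      rwa [smul_smul, mul_inv_cancel₀ hs0, one_smul] at this
    rw [setLIntegral_congr_fun hIm this]; simp
  have hJ3 : Measurable (fun p : (W × ℝ) × ℝ => k (p.1.2⁻¹ • p.1.1) * k (p.2⁻¹ • p.1.1)) := by fun_prop
  set J : ℝ → ℝ → ℝ≥0∞ := fun s s' => ∫⁻ z, k (s⁻¹ • z) * k (s'⁻¹ • z) ∂μ with hJ
  have hJm : Measurable (fun p : ℝ × ℝ => J p.1 p.2) := by
    have : Measurable (fun p : (ℝ × ℝ) × W => k (p.1.1⁻¹ • p.2) * k (p.1.2⁻¹ • p.2)) := by fun_prop
    exact this.lintegral_prod_right'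
  have hJs : ∀ s s', J s s' = J s' s := by
    intro s s'
    simp only [hJ]
    exact lintegral_congr fun z => mul_comm _ _
  have h3 : ∫⁻ z, h z ^ 2 ∂μ = ∫⁻ s in I, ∫⁻ s' in I, J s s' := by
    have e1 : ∀ z, h z ^ 2 = ∫⁻ s in I, ∫⁻ s' in I, k (s⁻¹ • z) * k (s'⁻¹ • z) := by
      intro z
      rw [sq, hh]
      simp only
      rw [← lintegral_mul_const _ (by fun_prop)]
      refine lintegral_congr fun s => ?_
      rw [← lintegral_const_mul _ (by fun_prop)]
    simp_rw [e1]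
    rw [lintegral_lintegral_swap hJ3.lintegral_prod_right'.aemeasurable]
    refine lintegral_congr fun s => ?_
    rw [lintegral_lintegral_swap (by fun_prop)]
  -- reduce to s' ≤ s
  set L : ℝ → ℝ → ℝ≥0∞ := fun s s' => {p : ℝ × ℝ | p.2 ≤ p.1}.indicator (fun p => J p.1 p.2) (s, s') with hL
  have hLm : Measurable (fun p : ℝ × ℝ => L p.1 p.2) := by
    have : MeasurableSet {p : ℝ × ℝ | p.2 ≤ p.1} :=
      measurableSet_le (f := fun p : ℝ × ℝ => p.2) (g := fun p : ℝ × ℝ => p.1) (by fun_prop) (by fun_prop)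
    exact hJm.indicator this
  have h4 : ∫⁻ s in I, ∫⁻ s' in I, J s s' ≤ 2 * ∫⁻ s in I, ∫⁻ s' in I, L s s' := by
    have e1 : ∀ s s', J s s' ≤ L s s' + L s' s := by
      intro s s'
      rcases le_total s' s with hle | hle
      · have : (s, s') ∈ {p : ℝ × ℝ | p.2 ≤ p.1} := hle
        simp only [hL, indicator_of_mem this]; exact le_self_add
      · have : (s', s) ∈ {p : ℝ × ℝ | p.2 ≤ p.1} := hle
        simp only [hL, indicator_of_mem this]
        rw [hJs s s']; exact le_add_self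
    have e2 : ∫⁻ s in I, ∫⁻ s' in I, L s' s = ∫⁻ s in I, ∫⁻ s' in I, L s s' := by
      rw [lintegral_lintegral_swap]
      exact (hLm.comp measurable_swap).aemeasurable
    calc _ ≤ ∫⁻ s in I, ∫⁻ s' in I, (L s s' + L s' s) :=
          lintegral_mono fun s => lintegral_mono fun s' => e1 s s'
      _ = ∫⁻ s in I, ((∫⁻ s' in I, L s s') + ∫⁻ s' in I, L s' s) := by
          refine lintegral_congr fun s => ?_
          exact lintegral_add_left (hLm.comp (f := fun s' : ℝ => (s, s')) (by fun_prop)) _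
      _ = (∫⁻ s in I, ∫⁻ s' in I, L s s') + ∫⁻ s in I, ∫⁻ s' in I, L s' s := by
          exact lintegral_add_left hLm.lintegral_prod_right' _
      _ = _ := by rw [e2, two_mul]
  have hcm := measurable_corr μ k hk
  have h5 : ∀ s ∈ I, ∫⁻ s' in I, L s s' ≤ ENNReal.ofReal (2 ^ N) * (ENNReal.ofReal 2 *
      ∫⁻ r in Icc (1 / 2 : ℝ) 1, corr μ k r) := by
    intro s hs
    have hs1 : (1 : ℝ) ≤ s := hs.1
    have hs2 : s ≤ 2 := hs.2
    have hs0 : s ≠ 0 := by positivity
    set g : ℝ → ℝ≥0∞ := fun s' => (Icc 1 s).indicator (fun s' => corr μ k (s' / s)) s' with hg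
    have hgm : Measurable g := Measurable.indicator (by fun_prop) measurableSet_Icc
    calc ∫⁻ s' in I, L s s' ≤ ∫⁻ s' in I, ENNReal.ofReal (2 ^ N) * g s' := by
          refine setLIntegral_mono' hIm fun s' hs' => ?_
          by_cases hle : s' ≤ s
          · have m1 : (s, s') ∈ {p : ℝ × ℝ | p.2 ≤ p.1} := hle
            have m2 : s' ∈ Icc 1 s := ⟨hs'.1, hle⟩
            simp only [hL, hg, indicator_of_mem m1, indicator_of_mem m2]
            exact dil_aux μ k hk hs hs'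
          · have m1 : (s, s') ∉ {p : ℝ × ℝ | p.2 ≤ p.1} := hle
            simp only [hL, indicator_of_notMem m1]; exact zero_le
      _ ≤ ∫⁻ s', ENNReal.ofReal (2 ^ N) * g s' := setLIntegral_le_lintegral _ _
      _ = ENNReal.ofReal (2 ^ N) * ∫⁻ s', g s' := lintegral_const_mul _ hgm
      _ ≤ _ := by
          gcongr
          rw [← lintegral_dil (volume : Measure ℝ) hs0 g hgm, ← lintegral_indicator measurableSet_Icc]
          simp only [Module.finrank_self, pow_one, smul_eq_mul]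
          refine mul_le_mul' ?_ (lintegral_mono fun r => ?_)
          · apply ENNReal.ofReal_le_ofReal
            rw [abs_of_pos (by positivity)]; exact hs2
          · by_cases hr : s * r ∈ Icc 1 s
            · have m3 : r ∈ Icc (1 / 2 : ℝ) 1 := by
                refine ⟨?_, ?_⟩
                · have := hr.1
                  by_contra hcon
                  push Not at hcon
                  nlinarith
                · have := hr.2
                  by_contra hcon
                  push Not at hcon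
                  nlinarith
              simp only [hg, indicator_of_mem hr, indicator_of_mem m3]
              rw [mul_div_cancel_left₀ _ hs0]
            · simp only [hg, indicator_of_notMem hr]; exact zero_le
  have h6 : ∫⁻ s in I, ∫⁻ s' in I, L s s' ≤ ENNReal.ofReal (2 ^ N) * (ENNReal.ofReal 2 *
      ∫⁻ r in Icc (1 / 2 : ℝ) 1, corr μ k r) := by
    calc _ ≤ ∫⁻ s in I, (ENNReal.ofReal (2 ^ N) * (ENNReal.ofReal 2 *
      ∫⁻ r in Icc (1 / 2 : ℝ) 1, corr μ k r)) := setLIntegral_mono' hIm h5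
      _ = _ := by
        rw [setLIntegral_const, hI, Real.volume_Icc]; norm_num
  calc (∫⁻ z, k z ∂μ) ^ 2 ≤ (∫⁻ z, h z ∂μ) ^ 2 := by gcongr
    _ ≤ μ Ω * ∫⁻ z, h z ^ 2 ∂μ := h2
    _ ≤ μ Ω * (2 * (ENNReal.ofReal (2 ^ N) * (ENNReal.ofReal 2 *
      ∫⁻ r in Icc (1 / 2 : ℝ) 1, corr μ k r))) := by
        gcongr
        rw [h3]
        exact h4.trans (by gcongr)
    _ = _ := by
        congr 1
        rw [show (4 * 2 ^ N : ℝ) = 2 * (2 ^ N) * 2 by ring, ENNReal.ofReal_mul (by positivity),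
          ENNReal.ofReal_mul (by positivity), show ENNReal.ofReal 2 = 2 by simp]
        ring

end

end Run7.h567
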