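import Pool.Agent.Run7.h567.Dil

set_option autoImplicit false

open MeasureTheory ENNReal Set

namespace Run7.h567

variable {d : ℕ} {E : Set (ℝ × V d)} {G : Set (V d × V d)} (R τ : ℝ)

/-- indicator of triangles with apex `w`, as a function of the two sides -/
noncomputable def kap (E : Set (ℝ × V d)) (G : Set (V d × V d)) (R τ : ℝ) (w : ℝ × V d)
    (p : (ℝ × V d) × (ℝ × V d)) : ℝ≥0∞ :=
  K1 E G R w (w + p.1) * K1 E G R w (w + p.2) * K2 E G R τ (w + p.1) (w + p.2)

lemma measurable_kap (hE : MeasurableSet E) (hG : MeasurableSet G) :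
    Measurable (fun q : (ℝ × V d) × ((ℝ × V d) × (ℝ × V d)) => kap E G R τ q.1 q.2) := by
  have h1 := measurable_K1 R hE hG
  have h2 := measurable_K2 R τ hE hG
  unfold kap
  refine Measurable.mul (Measurable.mul ?_ ?_) ?_
  · exact h1.comp (g := fun p : (ℝ × V d) × (ℝ × V d) => K1 E G R p.1 p.2)
      (f := fun q : (ℝ × V d) × ((ℝ × V d) × (ℝ × V d)) => (q.1, q.1 + q.2.1)) (by fun_prop)
  · exact h1.comp (g := fun p : (ℝ × V d) × (ℝ × V d) => K1 E G R p.1 p.2)
      (f := fun q : (ℝ × V d) × ((ℝ × V d) × (ℝ × V d)) => (q.1, q.1 + q.2.2)) (by fun_prop)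
  · exact h2.comp (g := fun p : (ℝ × V d) × (ℝ × V d) => K2 E G R τ p.1 p.2)
      (f := fun q : (ℝ × V d) × ((ℝ × V d) × (ℝ × V d)) => (q.1 + q.2.1, q.1 + q.2.2)) (by fun_prop)

lemma measurable_kap' (hE : MeasurableSet E) (hG : MeasurableSet G) (w : ℝ × V d) :
    Measurable (kap E G R τ w) :=
  (measurable_kap R τ hE hG).comp (f := fun p => (w, p)) (by fun_prop)

lemma Tn_eq (hE : MeasurableSet E) (hG : MeasurableSet G) :
    Tn E G R τ = ∫⁻ w : ℝ × V d, ∫⁻ p, kap E G R τ w p := by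
  unfold Tn
  refine lintegral_congr fun w => ?_
  rw [Measure.volume_eq_prod (ℝ × V d) (ℝ × V d),
    lintegral_prod _ (measurable_kap' R τ hE hG w).aemeasurable]
  unfold kap
  rw [← lintegral_add_left_eq_self (μ := (volume : Measure (ℝ × V d))) _ w]
  refine lintegral_congr fun a => ?_
  rw [← lintegral_add_left_eq_self (μ := (volume : Measure (ℝ × V d))) _ w]

lemma kap_le_one (w : ℝ × V d) (p : (ℝ × V d) × (ℝ × V d)) : kap E G R τ w p ≤ 1 := by
  unfold kap
  calc _ ≤ (1 : ℝ≥0∞) * 1 * 1 := by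
        gcongr
        · exact K1_le_one R _ _
        · exact K1_le_one R _ _
        · unfold K2
          exact (indicator_le_self' (by simp) _).trans (by simp)
    _ = 1 := by simp

/-- truncated cone with vertex `w` -/
def Om (E : Set (ℝ × V d)) (G : Set (V d × V d)) (R : ℝ) (w : ℝ × V d) : Set (ℝ × V d) :=
  {a | a.1 ≠ 0 ∧ ln w (a.1⁻¹ • a.2) ∈ G ∧ |a.1| ≤ 2 * R * A E (ln w (a.1⁻¹ • a.2))}

lemma measurableSet_Om (hE : MeasurableSet E) (hG : MeasurableSet G) (w : ℝ × V d) :
    MeasurableSet (Om E G R w) := by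
  have hA := measurable_A hE
  have hf : Measurable (fun a : ℝ × V d => ln w (a.1⁻¹ • a.2)) := by fun_prop
  refine MeasurableSet.inter ?_ (MeasurableSet.inter (hf hG) ?_)
  · exact (measurable_fst (measurableSet_singleton (0:ℝ))).compl
  · exact measurableSet_le (f := fun a : ℝ × V d => |a.1|)
      (g := fun a : ℝ × V d => 2 * R * A E (ln w (a.1⁻¹ • a.2))) (by fun_prop) (by fun_prop)

lemma vol_Om (hE : MeasurableSet E) (hG : MeasurableSet G)
    (hGF : ∀ ℓ ∈ G, F E ℓ ≠ 0 ∧ F E ℓ ≠ ∞) (hR : 0 < R) (w : ℝ × V d) :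
    volume (Om E G R w) ≤ ENNReal.ofReal (4 * 4 ^ d * (2 * R) ^ (d + 1)) * volume E := by
  have hOm := measurableSet_Om R hE hG w
  have hmi : Measurable ((Om E G R w).indicator (1 : ℝ × V d → ℝ≥0∞)) :=
    measurable_one.indicator hOm
  rw [← lintegral_indicator_one hOm, ← lintegral_cone (0 : ℝ × V d) _ hmi]
  simp only [Prod.fst_zero, zero_add, Prod.snd_zero]
  rw [lintegral_lintegral_swap (by
    refine (Measurable.mul (by fun_prop) ?_).aemeasurable
    exact hmi.comp (f := fun p : ℝ × V d => (p.1, p.1 • p.2)) (by fun_prop))]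
  have key : ∀ v : V d, ∫⁻ s : ℝ, ENNReal.ofReal (|s| ^ d) *
      (Om E G R w).indicator 1 (s, s • v) ≤ ENNReal.ofReal (2 * (2 * R) ^ (d + 1)) *
      wt E G (d + 1) (ln w v) := by
    intro v
    by_cases hv : ln w v ∈ G
    · have hA := A_nonneg E (ln w v)
      simp only [wt, indicator_of_mem hv]
      set c : ℝ := 2 * R * A E (ln w v) with hc
      have hc0 : 0 ≤ c := by positivity
      calc _ ≤ ∫⁻ s : ℝ, {s : ℝ | |s - 0| ≤ c}.indicator (fun _ => ENNReal.ofReal (c ^ d)) s := by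
            refine lintegral_mono fun s => ?_
            by_cases hs : (s, s • v) ∈ Om E G R w
            · have hs' := hs
              obtain ⟨h1, h2, h3⟩ := hs
              simp only at h1 h2 h3
              have e : s⁻¹ • s • v = v := by rw [smul_smul, inv_mul_cancel₀ h1, one_smul]
              rw [e] at h3
              have hmem : s ∈ {s : ℝ | |s - 0| ≤ c} := by
                simp only [mem_ofPred_eq, sub_zero]; exact h3
              rw [indicator_of_mem hmem, indicator_of_mem hs']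
              simp only [Pi.one_apply, mul_one]
              exact ENNReal.ofReal_le_ofReal (pow_le_pow_left₀ (abs_nonneg _) h3 _)
            · rw [indicator_of_notMem hs]; simp
        _ = ENNReal.ofReal (c ^ d) * ENNReal.ofReal (2 * c) := by
            rw [lintegral_indicator_const (measurableSet_le (g := fun _ : ℝ => c)
              (f := fun s : ℝ => |s - 0|) (by fun_prop) (by fun_prop)), vol_abs_le]
        _ = _ := by
            rw [← ENNReal.ofReal_mul (by positivity), ← ENNReal.ofReal_mul (by positivity)]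
            congr 1
            rw [hc]; ring
    · have : ∀ s : ℝ, ENNReal.ofReal (|s| ^ d) * (Om E G R w).indicator 1 (s, s • v) = 0 := by
        intro s
        rw [indicator_of_notMem]
        · simp
        · rintro ⟨h1, h2, -⟩
          apply hv
          simp only at h1 h2
          rwa [smul_smul, inv_mul_cancel₀ h1, one_smul] at h2
      simp_rw [this]; simp
  calc _ ≤ ∫⁻ v : V d, ENNReal.ofReal (2 * (2 * R) ^ (d + 1)) * wt E G (d + 1) (ln w v) :=
        lintegral_mono key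
    _ = ENNReal.ofReal (2 * (2 * R) ^ (d + 1)) * ∫⁻ v : V d, wt E G (d + 1) (ln w v) :=
        lintegral_const_mul' _ _ ENNReal.ofReal_ne_top
    _ ≤ ENNReal.ofReal (2 * (2 * R) ^ (d + 1)) * (ENNReal.ofReal (2 * 4 ^ d) * volume E) := by
        gcongr; exact bush hE hGF w
    _ = _ := by
        rw [← mul_assoc, ← ENNReal.ofReal_mul (by positivity)]
        congr 2; ring

lemma supp_kap (hGF : ∀ ℓ ∈ G, F E ℓ ≠ 0 ∧ F E ℓ ≠ ∞) (hR : 0 < R) (w : ℝ × V d)
    (p : (ℝ × V d) × (ℝ × V d)) (h : kap E G R τ w p ≠ 0) (s : ℝ) (hs : s ∈ Icc (1 : ℝ) 2) :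
    s • p ∈ Om E G R w ×ˢ Om E G R w := by
  have key : ∀ a : ℝ × V d, K1 E G R w (w + a) ≠ 0 → s • a ∈ Om E G R w := by
    intro a ha
    have h1 := K1_ne R hGF ha
    unfold K1 at ha
    have h2 := mem_of_indicator_ne_zero ha
    have hs0 : s ≠ 0 := by have : (1:ℝ) ≤ s := hs.1; positivity
    have ha0 : a.1 ≠ 0 := by
      intro h0
      apply h1.1
      simp [h0]
    have e1 : vel w (w + a) = a.1⁻¹ • a.2 := by
      simp [vel]
    have e2 : (s • a).1⁻¹ • (s • a).2 = a.1⁻¹ • a.2 := by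
      simp only [Prod.smul_fst, Prod.smul_snd, smul_eq_mul, smul_smul]
      congr 1
      field_simp
    refine ⟨?_, ?_, ?_⟩
    · simp only [Prod.smul_fst, smul_eq_mul]; exact mul_ne_zero hs0 ha0
    · rw [e2, ← e1]; exact h2.1
    · rw [e2, ← e1]
      have h5 := h2.2.2.2.2
      simp only [Prod.fst_add, add_sub_cancel_left] at h5
      simp only [Prod.smul_fst, smul_eq_mul, abs_mul]
      rw [abs_of_pos (by linarith [hs.1] : (0:ℝ) < s)]
      have := hs.2
      have h6 := abs_nonneg a.1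
      have hA := A_nonneg E (ln w (vel w (w + a)))
      nlinarith
  have h' : K1 E G R w (w + p.1) ≠ 0 ∧ K1 E G R w (w + p.2) ≠ 0 := by
    unfold kap at h
    constructor
    · intro h0; apply h; rw [h0]; simp
    · intro h0; apply h; rw [h0]; simp
  exact ⟨key _ h'.1, key _ h'.2⟩

/-- the number of parallel configurations -/
noncomputable def NN (E : Set (ℝ × V d)) (G : Set (V d × V d)) (R τ : ℝ) : ℝ≥0∞ :=
  ∫⁻ w : ℝ × V d, ∫⁻ r in Icc (1 / 2 : ℝ) 1,
    ENNReal.ofReal ((1 - r) ^ (d + 1)) * corr volume (kap E G R τ w) r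

lemma eta_bound (hE : MeasurableSet E) (hG : MeasurableSet G) (η : ℝ) (hη : 0 < η) (w : ℝ × V d) :
    ENNReal.ofReal (η ^ (d + 1)) * ∫⁻ r in Icc (1 / 2 : ℝ) 1, corr volume (kap E G R τ w) r ≤
      (∫⁻ r in Icc (1 / 2 : ℝ) 1, ENNReal.ofReal ((1 - r) ^ (d + 1)) *
        corr volume (kap E G R τ w) r) + ENNReal.ofReal (η ^ (d + 2)) * ∫⁻ p, kap E G R τ w p := by
  set T := ∫⁻ p, kap E G R τ w p with hT
  have hc := measurable_corr volume (kap E G R τ w) (measurable_kap' R τ hE hG w)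
  have hcT : ∀ r, corr volume (kap E G R τ w) r ≤ T := by
    intro r
    unfold corr
    refine lintegral_mono fun p => ?_
    exact mul_le_of_le_one_right zero_le (kap_le_one R τ w _)
  rw [← lintegral_const_mul _ hc]
  calc _ ≤ ∫⁻ r in Icc (1 / 2 : ℝ) 1, (ENNReal.ofReal ((1 - r) ^ (d + 1)) *
        corr volume (kap E G R τ w) r +
        (Icc (1 - η) 1).indicator (fun _ => ENNReal.ofReal (η ^ (d + 1)) * T) r) := by
        refine setLIntegral_mono' measurableSet_Icc fun r hr => ?_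
        by_cases h : 1 - η ≤ r
        · have : r ∈ Icc (1 - η) 1 := ⟨h, hr.2⟩
          rw [indicator_of_mem this]
          refine le_trans ?_ le_add_self
          gcongr
          exact hcT r
        · refine le_trans ?_ le_self_add
          gcongr
          linarith
    _ = (∫⁻ r in Icc (1 / 2 : ℝ) 1, ENNReal.ofReal ((1 - r) ^ (d + 1)) *
        corr volume (kap E G R τ w) r) + ∫⁻ r in Icc (1 / 2 : ℝ) 1,
        (Icc (1 - η) 1).indicator (fun _ => ENNReal.ofReal (η ^ (d + 1)) * T) r :=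
        lintegral_add_left (by fun_prop) _
    _ ≤ (∫⁻ r in Icc (1 / 2 : ℝ) 1, ENNReal.ofReal ((1 - r) ^ (d + 1)) *
        corr volume (kap E G R τ w) r) + ∫⁻ r,
        (Icc (1 - η) 1).indicator (fun _ => ENNReal.ofReal (η ^ (d + 1)) * T) r := by
        gcongr; exact Measure.restrict_le_self
    _ = _ := by
        congr 1
        rw [lintegral_indicator_const measurableSet_Icc, Real.volume_Icc]
        rw [show 1 - (1 - η) = η by ring, pow_succ η (d + 1),
          ENNReal.ofReal_mul (by positivity : (0:ℝ) ≤ η ^ (d + 1))]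
        ring

/-- the constant in the size of the cone -/
noncomputable def bb (d : ℕ) (R : ℝ) : ℝ := 4 * 4 ^ d * (2 * R) ^ (d + 1)

/-- lower bound for the number of parallel configurations -/
lemma NN_lower (hE : MeasurableSet E) (hG : MeasurableSet G)
    (hGF : ∀ ℓ ∈ G, F E ℓ ≠ 0 ∧ F E ℓ ≠ ∞) (hR : 0 < R) (η : ℝ) (hη : 0 < η) :
    ENNReal.ofReal (η ^ (d + 1)) * Tn E G R τ ^ 2 ≤
      (ENNReal.ofReal (16 * 4 ^ d * bb d R ^ 2) * volume E ^ 3) *
      (NN E G R τ + ENNReal.ofReal (η ^ (d + 2)) * Tn E G R τ) := by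
  have hk := measurable_kap R τ hE hG
  have hkw := measurable_kap' R τ hE hG
  have hTm : Measurable (fun w : ℝ × V d => ∫⁻ p, kap E G R τ w p) := hk.lintegral_prod_right'
  have h1 : (∫⁻ w : ℝ × V d, ∫⁻ p, kap E G R τ w p) ^ 2 ≤
      volume E * ∫⁻ w : ℝ × V d, (∫⁻ p, kap E G R τ w p) ^ 2 := by
    refine cs volume hE hTm fun w hw => ?_
    have : ∀ p, kap E G R τ w p = 0 := by
      intro p
      unfold kap
      have : K1 E G R w (w + p.1) = 0 := by
        by_contra hne
        exact hw (K1_ne R hGF hne).2.1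
      rw [this]; simp
    simp_rw [this]; simp
  have hfr : Module.finrank ℝ ((ℝ × V d) × (ℝ × V d)) = 2 * (d + 1) := by
    simp only [Module.finrank_prod, Module.finrank_self, Module.finrank_fin_fun]; ring
  have hb0 : 0 ≤ bb d R := by unfold bb; positivity
  have h2 : ∀ w : ℝ × V d, (∫⁻ p, kap E G R τ w p) ^ 2 ≤
      (ENNReal.ofReal (16 * 4 ^ d * bb d R ^ 2) * volume E ^ 2) *
      ∫⁻ r in Icc (1 / 2 : ℝ) 1, corr volume (kap E G R τ w) r := by
    intro w
    have h3 := dil_main volume (kap E G R τ w) (hkw w) (Om E G R w ×ˢ Om E G R w)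
      ((measurableSet_Om R hE hG w).prod (measurableSet_Om R hE hG w))
      (fun p hp s hs => supp_kap R τ hGF hR w p hp s hs)
    refine h3.trans ?_
    rw [hfr, ← mul_assoc]
    refine mul_le_mul' ?_ le_rfl
    rw [Measure.volume_eq_prod, Measure.prod_prod]
    have h4 : volume (Om E G R w) ≤ ENNReal.ofReal (bb d R) * volume E := vol_Om R hE hG hGF hR w
    calc volume (Om E G R w) * volume (Om E G R w) * ENNReal.ofReal (4 * 2 ^ (2 * (d + 1)))
        ≤ (ENNReal.ofReal (bb d R) * volume E) * (ENNReal.ofReal (bb d R) * volume E) *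
          ENNReal.ofReal (4 * 2 ^ (2 * (d + 1))) := by gcongr
      _ = ENNReal.ofReal (bb d R) * ENNReal.ofReal (bb d R) * ENNReal.ofReal (4 * 2 ^ (2 * (d + 1)))
            * volume E ^ 2 := by ring
      _ = _ := by
          rw [← ENNReal.ofReal_mul hb0, ← ENNReal.ofReal_mul (by positivity)]
          congr 2
          rw [pow_mul]; norm_num; ring
  have hcm : Measurable (fun w : ℝ × V d => ∫⁻ r in Icc (1 / 2 : ℝ) 1,
      corr volume (kap E G R τ w) r) := by
    have m1 : Measurable (fun q : ((ℝ × V d) × ℝ) × ((ℝ × V d) × (ℝ × V d)) =>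
        kap E G R τ q.1.1 q.2 * kap E G R τ q.1.1 (q.1.2 • q.2)) := by
      refine Measurable.mul ?_ ?_
      · exact hk.comp (f := fun q : ((ℝ × V d) × ℝ) × ((ℝ × V d) × (ℝ × V d)) => (q.1.1, q.2)) (by fun_prop)
      · exact hk.comp (f := fun q : ((ℝ × V d) × ℝ) × ((ℝ × V d) × (ℝ × V d)) => (q.1.1, q.1.2 • q.2)) (by fun_prop)
    have m2 : Measurable (fun q : (ℝ × V d) × ℝ => corr volume (kap E G R τ q.1) q.2) := by
      unfold corr
      exact m1.lintegral_prod_right'
    exact m2.lintegral_prod_right'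
  calc ENNReal.ofReal (η ^ (d + 1)) * Tn E G R τ ^ 2
      ≤ ENNReal.ofReal (η ^ (d + 1)) * (volume E * ∫⁻ w : ℝ × V d, (∫⁻ p, kap E G R τ w p) ^ 2) := by
        rw [Tn_eq R τ hE hG]; gcongr
    _ ≤ ENNReal.ofReal (η ^ (d + 1)) * (volume E * ∫⁻ w : ℝ × V d,
        ((ENNReal.ofReal (16 * 4 ^ d * bb d R ^ 2) * volume E ^ 2) *
        ∫⁻ r in Icc (1 / 2 : ℝ) 1, corr volume (kap E G R τ w) r)) := by
        gcongr with w; exact h2 w
    _ = (ENNReal.ofReal (16 * 4 ^ d * bb d R ^ 2) * volume E ^ 3) *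
        ∫⁻ w : ℝ × V d, ENNReal.ofReal (η ^ (d + 1)) *
        ∫⁻ r in Icc (1 / 2 : ℝ) 1, corr volume (kap E G R τ w) r := by
        rw [lintegral_const_mul _ hcm, lintegral_const_mul _ hcm]
        ring
    _ ≤ (ENNReal.ofReal (16 * 4 ^ d * bb d R ^ 2) * volume E ^ 3) *
        ∫⁻ w : ℝ × V d, ((∫⁻ r in Icc (1 / 2 : ℝ) 1, ENNReal.ofReal ((1 - r) ^ (d + 1)) *
        corr volume (kap E G R τ w) r) + ENNReal.ofReal (η ^ (d + 2)) * ∫⁻ p, kap E G R τ w p) := by
        gcongr with w; exact eta_bound R τ hE hG η hη w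
    _ = _ := by
        rw [lintegral_add_right _ (by fun_prop), lintegral_const_mul _ hTm, Tn_eq R τ hE hG]
        rfl

end Run7.h567
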