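import Pool.Agent.Run7.h567.Upp3

set_option autoImplicit false

open MeasureTheory ENNReal Set

namespace Run7.h567

variable {d : ℕ}

/-- the one-dimensional level set estimate -/
lemma inner_le (ε : ℝ) (hε : 0 < ε) (a : ℝ) (ha : 0 < a) (g : ℝ → ℝ) (hg : Measurable g)
    (N : ℝ → ℝ≥0∞) (hN : ∀ t i, t ∈ Fd g i → volume (Fd g i) ≤ N t) :
    ∫⁻ t : ℝ, {t | 0 < g t}.indicator
      (fun t => (N t)⁻¹ * ENNReal.ofReal ((min (a / g t) (g t / a)) ^ ε)) t ≤
      ENNReal.ofReal (2 ^ ε) * (ENNReal.ofReal (2 ^ ε) * geo (2 ^ (-ε))) := by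
  have hFm := fun i => measurableSet_Fd hg i
  set c := Real.logb 2 a with hc
  have hac : a = 2 ^ c := (Real.rpow_logb (by norm_num) (by norm_num) ha).symm
  set q : ℤ → ℝ≥0∞ := fun i => (volume (Fd g i))⁻¹ * (ENNReal.ofReal (2 ^ ε) *
    ENNReal.ofReal (2 ^ (-(ε * |(i:ℝ) - c|)))) with hq
  calc _ ≤ ∫⁻ t : ℝ, ∑' i : ℤ, (Fd g i).indicator (fun _ => q i) t := by
        refine lintegral_mono fun t => ?_
        by_cases h : 0 < g t
        swap
        · have : t ∉ {t | 0 < g t} := h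
          rw [indicator_of_notMem this]; exact zero_le
        have hmem : t ∈ {t | 0 < g t} := h
        rw [indicator_of_mem hmem]
        obtain ⟨i, hi⟩ := Fd_exists h
        refine le_trans ?_ (ENNReal.le_tsum i)
        rw [indicator_of_mem hi]
        refine mul_le_mul' (ENNReal.inv_le_inv.2 (hN t i hi)) ?_
        rw [← ENNReal.ofReal_mul (by positivity)]
        apply ENNReal.ofReal_le_ofReal
        have e1 : (2:ℝ) ^ ε * 2 ^ (-(ε * |(i:ℝ) - c|)) = (2 ^ (1 - |(i:ℝ) - c|)) ^ ε := by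
          rw [← Real.rpow_add (by norm_num), ← Real.rpow_mul (by norm_num)]
          congr 1; ring
        rw [e1]
        refine Real.rpow_le_rpow (le_min (by positivity) (by positivity)) ?_ hε.le
        rcases le_total c (i:ℝ) with h1 | h1
        · refine (min_le_left _ _).trans ?_
          rw [abs_of_nonneg (by linarith)]
          calc a / g t ≤ 2 ^ c / 2 ^ (i:ℝ) := by
                rw [← hac]; gcongr; exact hi.1
            _ = 2 ^ (c - i) := by rw [Real.rpow_sub (by norm_num)]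
            _ ≤ _ := Real.rpow_le_rpow_of_exponent_le (by norm_num) (by linarith)
        · refine (min_le_right _ _).trans ?_
          rw [abs_of_nonpos (by linarith)]
          calc g t / a ≤ 2 ^ ((i:ℝ) + 1) / 2 ^ c := by
                rw [← hac]; gcongr; exact hi.2.le
            _ = 2 ^ ((i:ℝ) + 1 - c) := by rw [Real.rpow_sub (by norm_num)]
            _ ≤ _ := Real.rpow_le_rpow_of_exponent_le (by norm_num) (by linarith)
    _ = ∑' i : ℤ, q i * volume (Fd g i) := by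
        rw [lintegral_tsum fun i => (Measurable.indicator (by fun_prop) (hFm i)).aemeasurable]
        congr 1; ext i
        rw [lintegral_indicator_const (hFm i)]
    _ ≤ ∑' i : ℤ, ENNReal.ofReal (2 ^ ε) * ENNReal.ofReal (2 ^ (-(ε * |(i:ℝ) - c|))) := by
        refine ENNReal.tsum_le_tsum fun i => ?_
        rw [hq]
        simp only
        calc _ = ((volume (Fd g i))⁻¹ * volume (Fd g i)) * (ENNReal.ofReal (2 ^ ε) *
              ENNReal.ofReal (2 ^ (-(ε * |(i:ℝ) - c|)))) := by ring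
          _ ≤ 1 * (ENNReal.ofReal (2 ^ ε) * ENNReal.ofReal (2 ^ (-(ε * |(i:ℝ) - c|)))) := by
              gcongr; exact ENNReal.inv_mul_le_one _
          _ = _ := one_mul _
    _ ≤ _ := by
        rw [ENNReal.tsum_mul_left]
        gcongr
        exact geo_real ε hε c

/-- a null set -/
lemma inner_null (g : ℝ → ℝ)
    (N : ℝ → ℝ≥0∞) (hN : ∀ t i, t ∈ Fd g i → volume (Fd g i) ≤ N t) :
    volume {t : ℝ | 0 < g t ∧ N t = 0} = 0 := by
  have hsub : {t : ℝ | 0 < g t ∧ N t = 0} ⊆ ⋃ i : {i : ℤ // volume (Fd g i) = 0}, Fd g i := by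
    rintro t ⟨h1, h2⟩
    obtain ⟨i, hi⟩ := Fd_exists h1
    have h3 : volume (Fd g i) = 0 := by
      have := hN t i hi
      rw [h2] at this
      exact le_antisymm this zero_le
    exact mem_iUnion.2 ⟨⟨i, h3⟩, hi⟩
  refine measure_mono_null hsub ?_
  exact measure_iUnion_null fun i => i.2

variable {E : Set (ℝ × V d)} {G : Set (V d × V d)}

/-- transfer between points with two velocities and lines with a time and a velocity -/
lemma transfer (H : (ℝ × V d) × (V d × V d) → ℝ≥0∞) (hm : Measurable H) :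
    ∫⁻ p : (ℝ × V d) × (V d × V d), H p =
      ∫⁻ ℓ : V d × V d, ∫⁻ t : ℝ, ∫⁻ v : V d, H (pt ℓ t, (ℓ.2, v)) := by
  have m1 : Measurable (fun q : ((V d × V d) × ℝ) × V d => H (pt q.1.1 q.1.2, (q.1.1.2, q.2))) :=
    hm.comp (by fun_prop)
  have h2 := lintegral_inc (fun p => ∫⁻ v : V d, H (pt p.1 p.2, (p.1.2, v))) m1.lintegral_prod_right'
  rw [← h2, Measure.volume_eq_prod (ℝ × V d) (V d × V d), lintegral_prod _ hm.aemeasurable]
  refine lintegral_congr fun z => ?_
  have m3 : Measurable (fun p : V d × V d => H (z, p)) := hm.comp (by fun_prop)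
  rw [Measure.volume_eq_prod (V d) (V d), lintegral_prod _ m3.aemeasurable]
  refine lintegral_congr fun v => lintegral_congr fun v1 => ?_
  simp only [pt_ln_self]
  rfl

lemma swap_v (H : (ℝ × V d) × (V d × V d) → ℝ≥0∞) (hm : Measurable H) :
    ∫⁻ p : (ℝ × V d) × (V d × V d), H (p.1, (p.2.2, p.2.1)) =
      ∫⁻ p : (ℝ × V d) × (V d × V d), H p := by
  have hm' : Measurable (fun p : (ℝ × V d) × (V d × V d) => H (p.1, (p.2.2, p.2.1))) :=
    hm.comp (by fun_prop)
  rw [Measure.volume_eq_prod (ℝ × V d) (V d × V d), lintegral_prod _ hm.aemeasurable,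
    lintegral_prod _ hm'.aemeasurable]
  refine lintegral_congr fun z => ?_
  have m3 : Measurable (fun p : V d × V d => H (z, p)) := hm.comp (by fun_prop)
  have m4 : Measurable (fun p : V d × V d => H (z, (p.2, p.1))) := hm.comp (by fun_prop)
  rw [Measure.volume_eq_prod (V d) (V d), lintegral_prod _ m3.aemeasurable,
    lintegral_prod _ m4.aemeasurable]
  exact lintegral_lintegral_swap (f := fun v v' => H (z, (v', v))) m4.aemeasurable

/-- the set of configurations, without order -/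
def PT (E : Set (ℝ × V d)) (G : Set (V d × V d)) : Set ((ℝ × V d) × (V d × V d)) :=
  {p | p.1 ∈ E ∧ ln p.1 p.2.1 ∈ G ∧ ln p.1 p.2.2 ∈ G}

lemma measurableSet_PT (hE : MeasurableSet E) (hG : MeasurableSet G) : MeasurableSet (PT E G) := by
  have m1 : Measurable (fun p : (ℝ × V d) × (V d × V d) => ln p.1 p.2.1) := by fun_prop
  have m2 : Measurable (fun p : (ℝ × V d) × (V d × V d) => ln p.1 p.2.2) := by fun_prop
  exact (measurable_fst hE).inter ((m1 hG).inter (m2 hG))

/-- measure of the times at which the first line meets the long lines parallel to the second -/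
noncomputable def N1 (E : Set (ℝ × V d)) (G : Set (V d × V d)) (p : (ℝ × V d) × (V d × V d)) : ℝ≥0∞ :=
  kf E G (ln p.1 p.2.1) p.2.2 (A E (ln p.1 p.2.2) / 2)

/-- measure of the times at which the second line meets the long lines parallel to the first -/
noncomputable def N2 (E : Set (ℝ × V d)) (G : Set (V d × V d)) (p : (ℝ × V d) × (V d × V d)) : ℝ≥0∞ :=
  kf E G (ln p.1 p.2.2) p.2.1 (A E (ln p.1 p.2.1) / 2)

lemma measurable_N1 (hE : MeasurableSet E) (hG : MeasurableSet G) : Measurable (N1 E G) := by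
  have hA := measurable_A hE
  exact Measurable.kf hE hG (by fun_prop) (by fun_prop) (by fun_prop)

lemma measurable_N2 (hE : MeasurableSet E) (hG : MeasurableSet G) : Measurable (N2 E G) := by
  have hA := measurable_A hE
  exact Measurable.kf hE hG (by fun_prop) (by fun_prop) (by fun_prop)

/-- the weight to which the parallel estimate applies -/
noncomputable def JF (E : Set (ℝ × V d)) (G : Set (V d × V d)) (ε : ℝ) (p : (ℝ × V d) × (V d × V d)) : ℝ≥0∞ :=
  (PT E G).indicator (fun p => ENNReal.ofReal (A E (ln p.1 p.2.1) ^ (d + 3)) *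
    (ENNReal.ofReal (Kf d ε (A E (ln p.1 p.2.1)) (N2 E G p).toReal) *
      ((N1 E G p)⁻¹ * ENNReal.ofReal ((min (A E (ln p.1 p.2.1) / A E (ln p.1 p.2.2))
        (A E (ln p.1 p.2.2) / A E (ln p.1 p.2.1))) ^ ε)))) p

lemma measurable_JF (hE : MeasurableSet E) (hG : MeasurableSet G) (ε : ℝ) : Measurable (JF E G ε) := by
  have hA := measurable_A hE
  have m1 : Measurable (fun p : (ℝ × V d) × (V d × V d) => A E (ln p.1 p.2.1)) := hA.comp (by fun_prop)
  have m2 : Measurable (fun p : (ℝ × V d) × (V d × V d) => A E (ln p.1 p.2.2)) := hA.comp (by fun_prop)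
  have m3 := measurable_N1 hE hG
  have m4 := (measurable_N2 hE hG).ennreal_toReal
  have m5 : Measurable (fun p : (ℝ × V d) × (V d × V d) =>
      Kf d ε (A E (ln p.1 p.2.1)) (N2 E G p).toReal) := by
    unfold Kf; fun_prop
  exact Measurable.indicator (by fun_prop) (measurableSet_PT hE hG)

/-- the meeting function on a line -/
noncomputable def gg (E : Set (ℝ × V d)) (G : Set (V d × V d)) (ℓ : V d × V d) (v : V d) (t : ℝ) : ℝ :=
  {t : ℝ | pt ℓ t ∈ E ∧ ln (pt ℓ t) v ∈ G}.indicator (fun t => A E (ln (pt ℓ t) v)) t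

lemma measurable_gg (hE : MeasurableSet E) (hG : MeasurableSet G) (ℓ : V d × V d) (v : V d) :
    Measurable (gg E G ℓ v) := by
  have hA := measurable_A hE
  have m1 : Measurable (fun t : ℝ => pt ℓ t) := by fun_prop
  have m2 : Measurable (fun t : ℝ => ln (pt ℓ t) v) := by fun_prop
  exact Measurable.indicator (hA.comp m2) ((m1 hE).inter (m2 hG))

lemma gg_pos (hGF : ∀ ℓ ∈ G, F E ℓ ≠ 0 ∧ F E ℓ ≠ ∞) (ℓ : V d × V d) (v : V d) (t : ℝ) :
    0 < gg E G ℓ v t ↔ pt ℓ t ∈ E ∧ ln (pt ℓ t) v ∈ G := by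
  unfold gg
  by_cases h : pt ℓ t ∈ E ∧ ln (pt ℓ t) v ∈ G
  · have hm : t ∈ {t : ℝ | pt ℓ t ∈ E ∧ ln (pt ℓ t) v ∈ G} := h
    rw [indicator_of_mem hm]
    exact ⟨fun _ => h, fun _ => A_pos (hGF _ h.2)⟩
  · have hm : t ∉ {t : ℝ | pt ℓ t ∈ E ∧ ln (pt ℓ t) v ∈ G} := h
    rw [indicator_of_notMem hm]
    exact ⟨fun h0 => absurd h0 (lt_irrefl _), fun h0 => absurd h0 h⟩

lemma gg_eq (ℓ : V d × V d) (v : V d) (t : ℝ) (h : pt ℓ t ∈ E ∧ ln (pt ℓ t) v ∈ G) :
    gg E G ℓ v t = A E (ln (pt ℓ t) v) := by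
  unfold gg
  have hm : t ∈ {t : ℝ | pt ℓ t ∈ E ∧ ln (pt ℓ t) v ∈ G} := h
  rw [indicator_of_mem hm]

lemma gg_level (hGF : ∀ ℓ ∈ G, F E ℓ ≠ 0 ∧ F E ℓ ≠ ∞) (ℓ : V d × V d) (v : V d) (t : ℝ) (i : ℤ)
    (ht : t ∈ Fd (gg E G ℓ v) i) :
    volume (Fd (gg E G ℓ v) i) ≤ kf E G ℓ v (A E (ln (pt ℓ t) v) / 2) := by
  have h0 : (0:ℝ) < 2 ^ (i:ℝ) := by positivity
  have ht1 : 0 < gg E G ℓ v t := lt_of_lt_of_le h0 ht.1
  have ht2 := (gg_pos hGF ℓ v t).1 ht1
  unfold kf
  refine measure_mono fun s hs => ?_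
  have hs1 : 0 < gg E G ℓ v s := lt_of_lt_of_le h0 hs.1
  have hs2 := (gg_pos hGF ℓ v s).1 hs1
  refine ⟨hs2.1, hs2.2, ?_⟩
  rw [← gg_eq ℓ v t ht2, ← gg_eq ℓ v s hs2]
  have h3 := ht.2
  have h4 := hs.1
  rw [Real.rpow_add (by norm_num), Real.rpow_one] at h3
  linarith

/-- almost every configuration has positive meeting measure -/
lemma ae_N1 (hE : MeasurableSet E) (hG : MeasurableSet G)
    (hGF : ∀ ℓ ∈ G, F E ℓ ≠ 0 ∧ F E ℓ ≠ ∞) :
    ∫⁻ p : (ℝ × V d) × (V d × V d), (PT E G ∩ {p | N1 E G p = 0}).indicator 1 p = 0 := by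
  have hN := measurable_N1 hE hG
  have hS : MeasurableSet (PT E G ∩ {p | N1 E G p = 0}) :=
    (measurableSet_PT hE hG).inter (hN (measurableSet_singleton 0))
  have hm : Measurable ((PT E G ∩ {p | N1 E G p = 0}).indicator (1 : (ℝ × V d) × (V d × V d) → ℝ≥0∞)) :=
    measurable_one.indicator hS
  rw [transfer _ hm]
  have h1 : ∀ ℓ : V d × V d, ∫⁻ t : ℝ, ∫⁻ v : V d,
      (PT E G ∩ {p | N1 E G p = 0}).indicator (1 : (ℝ × V d) × (V d × V d) → ℝ≥0∞) (pt ℓ t, (ℓ.2, v)) = 0 := by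
    intro ℓ
    have m2 : Measurable (fun q : ℝ × V d =>
        (PT E G ∩ {p | N1 E G p = 0}).indicator (1 : (ℝ × V d) × (V d × V d) → ℝ≥0∞) (pt ℓ q.1, (ℓ.2, q.2))) :=
      hm.comp (f := fun q : ℝ × V d => (pt ℓ q.1, (ℓ.2, q.2))) (by fun_prop)
    rw [lintegral_lintegral_swap (f := fun t v => (PT E G ∩ {p | N1 E G p = 0}).indicator
      (1 : (ℝ × V d) × (V d × V d) → ℝ≥0∞) (pt ℓ t, (ℓ.2, v))) m2.aemeasurable]
    have hv : ∀ v : V d, ∫⁻ t : ℝ, (PT E G ∩ {p | N1 E G p = 0}).indicator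
      (1 : (ℝ × V d) × (V d × V d) → ℝ≥0∞) (pt ℓ t, (ℓ.2, v)) = 0 := fun v => by
     have hnull := inner_null (gg E G ℓ v)
       (fun t => kf E G ℓ v (A E (ln (pt ℓ t) v) / 2)) (gg_level hGF ℓ v)
     refine le_antisymm ?_ zero_le
     calc _ ≤ ∫⁻ t : ℝ, {t : ℝ | 0 < gg E G ℓ v t ∧ kf E G ℓ v (A E (ln (pt ℓ t) v) / 2) = 0}.indicator 1 t := by
           refine lintegral_mono fun t => ?_
           by_cases h : (pt ℓ t, (ℓ.2, v)) ∈ PT E G ∩ {p | N1 E G p = 0}
           · rw [indicator_of_mem h, indicator_of_mem]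
             · rfl
             · obtain ⟨⟨h2, h3, h4⟩, h5⟩ := h
               refine ⟨(gg_pos hGF ℓ v t).2 ⟨h2, h4⟩, ?_⟩
               simp only [N1, mem_ofPred_eq, ln_pt] at h5
               exact h5
           · rw [indicator_of_notMem h]; exact zero_le
       _ ≤ volume {t : ℝ | 0 < gg E G ℓ v t ∧ kf E G ℓ v (A E (ln (pt ℓ t) v) / 2) = 0} :=
           lintegral_indicator_one_le _
       _ = 0 := hnull
    simp_rw [hv]
    simp
  simp_rw [h1]
  simp

end Run7.h567
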