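import Pool.Agent.Run7.h567.Hold

set_option autoImplicit false

open MeasureTheory ENNReal Set

namespace Run7.h567

variable {d : ℕ} {E : Set (ℝ × V d)} {G : Set (V d × V d)}

/-- the relative positions of the long parallel lines -/
def Bp (E : Set (ℝ × V d)) (G : Set (V d × V d)) (ℓ : V d × V d) : Set (V d) :=
  {y | (ℓ.1 + y, ℓ.2) ∈ G ∧ A E ℓ / 2 ≤ A E (ℓ.1 + y, ℓ.2)}

lemma measurableSet_Bp (hE : MeasurableSet E) (hG : MeasurableSet G) (ℓ : V d × V d) :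
    MeasurableSet (Bp E G ℓ) := by
  have hA := measurable_A hE
  have m1 : Measurable (fun y : V d => (ℓ.1 + y, ℓ.2)) := by fun_prop
  exact (m1 hG).inter (measurableSet_le measurable_const (hA.comp m1))

/-- meeting long parallel lines along another line -/
lemma N2_le (ℓ : V d × V d) (t : ℝ) (v : V d) :
    N2 E G (pt ℓ t, (ℓ.2, v)) ≤ volume {τ : ℝ | τ • (v - ℓ.2) ∈ Bp E G ℓ} := by
  unfold N2 kf
  simp only [ln_pt]
  have h1 : volume {τ : ℝ | τ • (v - ℓ.2) ∈ Bp E G ℓ} =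
      volume ((fun s : ℝ => s + (-t)) ⁻¹' {τ : ℝ | τ • (v - ℓ.2) ∈ Bp E G ℓ}) :=
    (measure_preimage_add_right volume (-t) _).symm
  rw [h1]
  refine measure_mono fun s hs => ?_
  obtain ⟨h2, h3, h4⟩ := hs
  have e : ln (pt (ln (pt ℓ t) v) s) ℓ.2 = (ℓ.1 + (s + -t) • (v - ℓ.2), ℓ.2) := by
    rw [pt_ln]
    simp only [ln, pt, Prod.mk.injEq, and_true]
    module
  rw [e] at h3 h4
  exact ⟨h3, h4⟩

/-- the estimate that uses the sparsity of long parallel lines -/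
lemma JF_int (hd : 2 ≤ d) (ε : ℝ) (hε0 : 0 < ε) (hε1 : ε ≤ 1) :
    ∃ C : NNReal, ∀ (E : Set (ℝ × V d)) (G : Set (V d × V d)) (κ : ℝ≥0∞),
      MeasurableSet E → MeasurableSet G → (∀ ℓ ∈ G, F E ℓ ≠ 0 ∧ F E ℓ ≠ ∞) →
      (∀ v : V d, ∀ a : ℝ, 0 < a →
        ENNReal.ofReal a * volume {x : V d | (x, v) ∈ G ∧ a ≤ A E (x, v)} ≤ κ * volume E) →
      ∫⁻ p : (ℝ × V d) × (V d × V d), JF E G ε p ≤ C * (κ * volume E * Phi E G) := by
  set c1 : ℝ≥0∞ := ENNReal.ofReal (2 ^ ε) * (ENNReal.ofReal (2 ^ ε) * geo (2 ^ (-ε))) with hc1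
  have hc1t : c1 ≠ ∞ := ENNReal.mul_ne_top ENNReal.ofReal_ne_top (ENNReal.mul_ne_top ENNReal.ofReal_ne_top
    (geo_ne_top _ (Real.rpow_lt_one_of_one_lt_of_neg (by norm_num) (by linarith))))
  set c2 : ℝ≥0∞ := ENNReal.ofReal (2 * 4 ^ d) with hc2
  set K : ℝ≥0∞ := c2 * c1 * Cw ε * 2 with hK
  have hKt : K ≠ ∞ := ENNReal.mul_ne_top (ENNReal.mul_ne_top (ENNReal.mul_ne_top ENNReal.ofReal_ne_top hc1t)
    (Cw_ne_top ε hε0)) (by norm_num)
  refine ⟨K.toNNReal, fun E G κ hE hG hGF hstar => ?_⟩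
  rw [ENNReal.coe_toNNReal hKt]
  have hA := measurable_A hE
  have hJ := measurable_JF hE hG ε
  rw [transfer _ hJ]
  have hw2 := measurable_wt hE hG (d + 2)
  have key : ∀ ℓ : V d × V d, ∫⁻ t : ℝ, ∫⁻ v : V d, JF E G ε (pt ℓ t, (ℓ.2, v)) ≤
      K * (κ * volume E) * wt E G (d + 2) ℓ := by
    intro ℓ
    by_cases hℓ : ℓ ∈ G
    swap
    · have : ∀ (t : ℝ) (v : V d), JF E G ε (pt ℓ t, (ℓ.2, v)) = 0 := by
        intro t v
        unfold JF
        rw [indicator_of_notMem]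
        intro h
        apply hℓ
        have := h.2.1
        simp only [ln_pt] at this
        exact this
      simp only [this]; simp
    have hAp := A_pos (hGF _ hℓ)
    have hBm := measurableSet_Bp hE hG ℓ
    have m2 : Measurable (fun q : ℝ × V d => JF E G ε (pt ℓ q.1, (ℓ.2, q.2))) :=
      hJ.comp (f := fun q : ℝ × V d => (pt ℓ q.1, (ℓ.2, q.2))) (by fun_prop)
    rw [lintegral_lintegral_swap (f := fun t v => JF E G ε (pt ℓ t, (ℓ.2, v))) m2.aemeasurable]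
    set U : V d → ℝ≥0∞ := fun v => ENNReal.ofReal (A E ℓ ^ (d + 3)) *
      (c2 * WB (Bp E G ℓ) ε (A E ℓ) (v - ℓ.2)) with hU
    have h1 : ∀ v : V d, ∫⁻ t : ℝ, JF E G ε (pt ℓ t, (ℓ.2, v)) ≤ U v * c1 := by
      intro v
      have hgm := measurable_gg hE hG ℓ v
      have hin := inner_le ε hε0 (A E ℓ) hAp (gg E G ℓ v) hgm
        (fun t => kf E G ℓ v (A E (ln (pt ℓ t) v) / 2)) (gg_level hGF ℓ v)
      set gi : ℝ → ℝ≥0∞ := {t | 0 < gg E G ℓ v t}.indicator
          (fun t => (kf E G ℓ v (A E (ln (pt ℓ t) v) / 2))⁻¹ *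
            ENNReal.ofReal ((min (A E ℓ / gg E G ℓ v t) (gg E G ℓ v t / A E ℓ)) ^ ε)) with hgi
      have m6 : Measurable gi := by
        have m7 : Measurable (fun t : ℝ => kf E G ℓ v (A E (ln (pt ℓ t) v) / 2)) :=
          Measurable.kf hE hG (by fun_prop) (by fun_prop) (by fun_prop)
        exact Measurable.indicator (by fun_prop) (measurableSet_lt measurable_const hgm)
      calc _ ≤ ∫⁻ t : ℝ, U v * gi t := by
            refine lintegral_mono fun t => ?_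
            by_cases hmem : (pt ℓ t, (ℓ.2, v)) ∈ PT E G
            swap
            · unfold JF
              rw [indicator_of_notMem hmem]; exact zero_le
            have hmem' := hmem
            obtain ⟨h2, h3, h4⟩ := hmem
            simp only at h2 h4
            have hpos := (gg_pos hGF ℓ v t).2 ⟨h2, h4⟩
            have hms : t ∈ {t | 0 < gg E G ℓ v t} := hpos
            rw [hgi, indicator_of_mem hms]
            unfold JF
            rw [indicator_of_mem hmem']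
            simp only [N1, ln_pt]
            rw [gg_eq ℓ v t ⟨h2, h4⟩, hU]
            simp only
            rw [mul_assoc]
            refine mul_le_mul' le_rfl (mul_le_mul' ?_ le_rfl)
            refine WB_ge hd _ hBm ε _ hAp hε0 hε1 _ _ ENNReal.toReal_nonneg ?_
            exact (ENNReal.ofReal_toReal_le).trans (N2_le ℓ t v)
        _ = U v * ∫⁻ t : ℝ, gi t := by
            rw [lintegral_const_mul _ m6]
        _ ≤ _ := by gcongr
    have hWBm : Measurable (fun u : V d => WB (Bp E G ℓ) ε (A E ℓ) u) := by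
      have hi : Measurable ((Bp E G ℓ).indicator (1 : V d → ℝ≥0∞)) := measurable_one.indicator hBm
      have hw := measurable_ww (d := d) ε (A E ℓ)
      have hj : Measurable (fun p : V d × ℝ => ENNReal.ofReal (ww d ε (A E ℓ) p.2) *
          (Bp E G ℓ).indicator 1 (p.2 • p.1)) := by
        refine Measurable.mul (by fun_prop) ?_
        exact hi.comp (f := fun p : V d × ℝ => p.2 • p.1) (by fun_prop)
      exact hj.lintegral_prod_right'
    have h5 : ∫⁻ v : V d, WB (Bp E G ℓ) ε (A E ℓ) (v - ℓ.2) ≤ Cw ε * volume (Bp E G ℓ) := by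
      have := lintegral_add_right_eq_self (μ := (volume : Measure (V d)))
        (fun v => WB (Bp E G ℓ) ε (A E ℓ) v) (-ℓ.2)
      simp only [← sub_eq_add_neg] at this
      rw [this]
      exact WB_int (by omega) _ hBm ε _ hAp
    have h6 : ENNReal.ofReal (A E ℓ / 2) * volume (Bp E G ℓ) ≤ κ * volume E := by
      have h7 := hstar ℓ.2 (A E ℓ / 2) (by positivity)
      have h8 : volume (Bp E G ℓ) = volume {x : V d | (x, ℓ.2) ∈ G ∧ A E ℓ / 2 ≤ A E (x, ℓ.2)} := by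
        have := measure_preimage_add (volume : Measure (V d)) ℓ.1
          {x : V d | (x, ℓ.2) ∈ G ∧ A E ℓ / 2 ≤ A E (x, ℓ.2)}
        rw [← this]
        rfl
      rw [h8]; exact h7
    calc _ ≤ ∫⁻ v : V d, U v * c1 := lintegral_mono h1
      _ = ENNReal.ofReal (A E ℓ ^ (d + 3)) * (c2 * ∫⁻ v : V d, WB (Bp E G ℓ) ε (A E ℓ) (v - ℓ.2)) * c1 := by
          rw [lintegral_mul_const' _ _ hc1t, hU]
          simp only
          rw [lintegral_const_mul' _ _ ENNReal.ofReal_ne_top, lintegral_const_mul' _ _ ENNReal.ofReal_ne_top]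
      _ ≤ ENNReal.ofReal (A E ℓ ^ (d + 3)) * (c2 * (Cw ε * volume (Bp E G ℓ))) * c1 := by gcongr
      _ = K * (ENNReal.ofReal (A E ℓ / 2) * volume (Bp E G ℓ)) * ENNReal.ofReal (A E ℓ ^ (d + 2)) := by
          have e1 : ENNReal.ofReal (A E ℓ ^ (d + 3)) =
              2 * ENNReal.ofReal (A E ℓ / 2) * ENNReal.ofReal (A E ℓ ^ (d + 2)) := by
            rw [show (2 : ℝ≥0∞) = ENNReal.ofReal 2 by simp, ← ENNReal.ofReal_mul (by norm_num),
              ← ENNReal.ofReal_mul (by positivity)]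
            congr 1
            rw [pow_succ _ (d + 2)]; ring
          rw [e1, hK]; ring
      _ ≤ K * (κ * volume E) * ENNReal.ofReal (A E ℓ ^ (d + 2)) := by gcongr
      _ = _ := by rw [wt, indicator_of_mem hℓ]
  calc _ ≤ ∫⁻ ℓ : V d × V d, K * (κ * volume E) * wt E G (d + 2) ℓ := lintegral_mono key
    _ = K * (κ * volume E) * Phi E G := by
        rw [lintegral_const_mul _ hw2]; rfl
    _ = _ := by ring

/-- the pointwise inequality between monomials -/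
lemma ptw (hd : 2 ≤ d) (ε θ' x : ℝ) (hε0 : 0 < ε) (hε1 : ε ≤ 1 / (8 * ((d:ℝ) + 2)))
    (hθ' : θ' = (1 - ε) / ((d:ℝ) - 1 + ε)) (hx : x = ((d:ℝ) + ε) / ((d:ℝ) + 1 + ε))
    (a0 a1 k1 k2 : ℝ) (h0 : 0 < a0) (h1 : 0 < k1) (h2 : 0 < k2) (h3 : k1 ≤ a0) (h4 : a0 ≤ a1)
    (h5 : k2 ≤ a1) :
    a0 ^ d * a1 ^ ((d:ℝ) + 2 - (1 - ε)) * k1 ^ (1 - ε) ≤
      (a0 ^ (d + 1) * a1 ^ (d + 1)) ^ (1 - θ') *
      ((a1 ^ (d + 3) * (Kf d ε a1 k1 * (k2⁻¹ * (min (a1 / a0) (a0 / a1)) ^ ε))) ^ x *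
        (a0 ^ (d + 3) * (Kf d ε a0 k2 * (k1⁻¹ * (min (a0 / a1) (a1 / a0)) ^ ε))) ^ (1 - x)) ^ θ' := by
  have ha1 : 0 < a1 := by linarith
  have hd' : (2:ℝ) ≤ d := by exact_mod_cast hd
  obtain ⟨α, hα⟩ : ∃ α, a0 = Real.exp α := ⟨Real.log a0, (Real.exp_log h0).symm⟩
  obtain ⟨β, hβ⟩ : ∃ β, a1 = Real.exp β := ⟨Real.log a1, (Real.exp_log ha1).symm⟩
  obtain ⟨γ, hγ⟩ : ∃ γ, k1 = Real.exp γ := ⟨Real.log k1, (Real.exp_log h1).symm⟩
  obtain ⟨η, hη⟩ : ∃ η, k2 = Real.exp η := ⟨Real.log k2, (Real.exp_log h2).symm⟩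
  have hj : γ ≤ α := by rw [hα, hγ] at h3; exact Real.exp_le_exp.1 h3
  have hi : α ≤ β := by rw [hα, hβ] at h4; exact Real.exp_le_exp.1 h4
  have hl : η ≤ β := by rw [hη, hβ] at h5; exact Real.exp_le_exp.1 h5
  have hx0 : 0 ≤ x := by rw [hx]; positivity
  have hx1 : x ≤ 1 := by
    rw [hx, div_le_one (by positivity)]; linarith
  have hε8 : 8 * ((d:ℝ) + 2) * ε ≤ 1 := by
    rw [le_div_iff₀ (by positivity)] at hε1; linarith
  have hε1' : ε ≤ 1 := by nlinarith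
  have hθ'0 : 0 < θ' := by
    rw [hθ']
    apply div_pos
    · nlinarith
    · linarith
  have hmin1 : Real.exp (ε * (α - β)) ≤ (min (a1 / a0) (a0 / a1)) ^ ε := by
    have : Real.exp (α - β) ≤ min (a1 / a0) (a0 / a1) := by
      rw [hα, hβ, ← Real.exp_sub, ← Real.exp_sub]
      exact le_min (Real.exp_le_exp.2 (by linarith)) le_rfl
    calc Real.exp (ε * (α - β)) = (Real.exp (α - β)) ^ ε := by
          rw [← Real.exp_mul]; congr 1; ring
      _ ≤ _ := Real.rpow_le_rpow (by positivity) this hε0.le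
  have hmin2 : Real.exp (ε * (α - β)) ≤ (min (a0 / a1) (a1 / a0)) ^ ε := by
    rw [min_comm]; exact hmin1
  have hK1 : Real.exp ((d:ℝ) * γ + ε * (γ - β)) ≤ Kf d ε a1 k1 := by
    unfold Kf
    rw [Real.exp_add]
    refine mul_le_mul ?_ ?_ (by positivity) (by positivity)
    · rw [hγ, ← Real.exp_nat_mul]
    · refine le_min ?_ ?_
      · rw [hγ, hβ, ← Real.exp_sub, ← Real.exp_mul, mul_comm]
      · rw [hγ, hβ, ← Real.exp_sub, ← Real.exp_mul]
        apply Real.exp_le_exp.2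
        nlinarith
  have hK2 : Real.exp ((d:ℝ) * η - ε * ((β - α) + (β - η))) ≤ Kf d ε a0 k2 := by
    unfold Kf
    rw [sub_eq_add_neg, Real.exp_add]
    refine mul_le_mul ?_ ?_ (by positivity) (by positivity)
    · rw [hη, ← Real.exp_nat_mul]
    · refine le_min ?_ ?_
      · rw [hη, hα, ← Real.exp_sub, ← Real.exp_mul]
        apply Real.exp_le_exp.2
        nlinarith
      · rw [hη, hα, ← Real.exp_sub, ← Real.exp_mul]
        apply Real.exp_le_exp.2
        nlinarith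
  have hKn1 : 0 ≤ Kf d ε a1 k1 := (Real.exp_pos _).le.trans hK1
  have hKn2 : 0 ≤ Kf d ε a0 k2 := (Real.exp_pos _).le.trans hK2
  have hP1 : (a0 ^ (d + 1) * a1 ^ (d + 1)) ^ (1 - θ') =
      Real.exp ((((d:ℝ) + 1) * α + ((d:ℝ) + 1) * β) * (1 - θ')) := by
    rw [hα, hβ, ← Real.exp_nat_mul, ← Real.exp_nat_mul, ← Real.exp_add, ← Real.exp_mul]
    push_cast; rfl
  have hL : a0 ^ d * a1 ^ ((d:ℝ) + 2 - (1 - ε)) * k1 ^ (1 - ε) =
      Real.exp ((d:ℝ) * α + β * ((d:ℝ) + 2 - (1 - ε)) + γ * (1 - ε)) := by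
    rw [hα, hβ, hγ, ← Real.exp_nat_mul, ← Real.exp_mul, ← Real.exp_mul, ← Real.exp_add, ← Real.exp_add]
  have hP2 : Real.exp (((d:ℝ) + 3) * β + ((d:ℝ) * γ + ε * (γ - β)) - η + ε * (α - β)) ≤
      a1 ^ (d + 3) * (Kf d ε a1 k1 * (k2⁻¹ * (min (a1 / a0) (a0 / a1)) ^ ε)) := by
    have e : Real.exp (((d:ℝ) + 3) * β + ((d:ℝ) * γ + ε * (γ - β)) - η + ε * (α - β)) =
        Real.exp (((d:ℝ) + 3) * β) * (Real.exp ((d:ℝ) * γ + ε * (γ - β)) *
          (Real.exp (-η) * Real.exp (ε * (α - β)))) := by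
      rw [← Real.exp_add, ← Real.exp_add, ← Real.exp_add]; congr 1; ring
    rw [e]
    have e1 : Real.exp (((d:ℝ) + 3) * β) = a1 ^ (d + 3) := by
      rw [hβ, ← Real.exp_nat_mul]; push_cast; rfl
    have e2 : Real.exp (-η) = k2⁻¹ := by rw [hη, Real.exp_neg]
    rw [e1, e2]
    gcongr
  have hP3 : Real.exp (((d:ℝ) + 3) * α + ((d:ℝ) * η - ε * ((β - α) + (β - η))) - γ + ε * (α - β)) ≤
      a0 ^ (d + 3) * (Kf d ε a0 k2 * (k1⁻¹ * (min (a0 / a1) (a1 / a0)) ^ ε)) := by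
    have e : Real.exp (((d:ℝ) + 3) * α + ((d:ℝ) * η - ε * ((β - α) + (β - η))) - γ + ε * (α - β)) =
        Real.exp (((d:ℝ) + 3) * α) * (Real.exp ((d:ℝ) * η - ε * ((β - α) + (β - η))) *
          (Real.exp (-γ) * Real.exp (ε * (α - β)))) := by
      rw [← Real.exp_add, ← Real.exp_add, ← Real.exp_add]; congr 1; ring
    rw [e]
    have e1 : Real.exp (((d:ℝ) + 3) * α) = a0 ^ (d + 3) := by
      rw [hα, ← Real.exp_nat_mul]; push_cast; rfl
    have e2 : Real.exp (-γ) = k1⁻¹ := by rw [hγ, Real.exp_neg]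
    rw [e1, e2]
    gcongr
  rw [hL, hP1]
  calc Real.exp ((d:ℝ) * α + β * ((d:ℝ) + 2 - (1 - ε)) + γ * (1 - ε))
      ≤ Real.exp ((((d:ℝ) + 1) * α + ((d:ℝ) + 1) * β) * (1 - θ')) *
        ((Real.exp (((d:ℝ) + 3) * β + ((d:ℝ) * γ + ε * (γ - β)) - η + ε * (α - β))) ^ x *
          (Real.exp (((d:ℝ) + 3) * α + ((d:ℝ) * η - ε * ((β - α) + (β - η))) - γ + ε * (α - β))) ^ (1 - x)) ^ θ' := by
        rw [← Real.exp_mul, ← Real.exp_mul, ← Real.exp_add, ← Real.exp_mul, ← Real.exp_add]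
        apply Real.exp_le_exp.2
        -- coefficients
        obtain ⟨i, hi'⟩ : ∃ i, i = β - α := ⟨_, rfl⟩
        obtain ⟨j, hj'⟩ : ∃ j, j = α - γ := ⟨_, rfl⟩
        obtain ⟨l, hl'⟩ : ∃ l, l = β - η := ⟨_, rfl⟩
        have hi0 : 0 ≤ i := by rw [hi']; linarith
        have hj0 : 0 ≤ j := by rw [hj']; linarith
        have hl0 : 0 ≤ l := by rw [hl']; linarith
        have eβ : β = α + i := by rw [hi']; ring
        have eγ : γ = α - j := by rw [hj']; ring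
        have eη : η = α + i - l := by rw [hl', hi']; ring
        rw [eγ, eη, eβ]
        have hD : (0:ℝ) < (d:ℝ) - 1 + ε := by linarith
        have hD2 : (0:ℝ) < (d:ℝ) + 1 + ε := by linarith
        have q1 : θ' * ((d:ℝ) - 1 + ε) = 1 - ε := by rw [hθ']; field_simp
        have q2 : x * ((d:ℝ) + 1 + ε) = (d:ℝ) + ε := by rw [hx]; field_simp
        have ci : (1 - (1 - ε)) ≤ θ' * (2 * x - 1 - 2 * ε) := by
          have hx2 : 2 * x - 1 = ((d:ℝ) - 1 + ε) / ((d:ℝ) + 1 + ε) := by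
            rw [hx]; field_simp; ring
          have : θ' * (2 * x - 1 - 2 * ε) = (1 - ε) / ((d:ℝ) + 1 + ε) - 2 * ε * ((1 - ε) / ((d:ℝ) - 1 + ε)) := by
            rw [mul_sub θ', hx2, hθ']; field_simp
          rw [this]
          have b1 : 7 * ε ≤ (1 - ε) / ((d:ℝ) + 1 + ε) := by
            rw [le_div_iff₀ hD2]
            nlinarith
          have b2 : (1 - ε) / ((d:ℝ) - 1 + ε) ≤ 1 := by
            rw [div_le_one hD]; linarith
          nlinarith
        have cj : θ' * (x * ((d:ℝ) + 1 + ε) - 1) = 1 - ε := by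
          rw [q2]; linarith
        have cl : (1 - x) * ((d:ℝ) + ε) = x := by
          have : x * ((d:ℝ) + ε) + x = (d:ℝ) + ε := by linarith
          linarith
        have expand : ((((d:ℝ) + 1) * α + ((d:ℝ) + 1) * (α + i)) * (1 - θ') +
            ((((d:ℝ) + 3) * (α + i) + ((d:ℝ) * (α - j) + ε * ((α - j) - (α + i))) - (α + i - l) +
              ε * (α - (α + i))) * x +
            (((d:ℝ) + 3) * α + ((d:ℝ) * (α + i - l) - ε * (((α + i) - α) + ((α + i) - (α + i - l)))) -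
              (α - j) + ε * (α - (α + i))) * (1 - x)) * θ') -
            ((d:ℝ) * α + (α + i) * ((d:ℝ) + 2 - (1 - ε)) + (α - j) * (1 - ε)) =
            i * (θ' * (2 * x - 1 - 2 * ε) - (1 - (1 - ε))) +
              j * ((1 - ε) - θ' * (x * ((d:ℝ) + 1 + ε) - 1)) +
              l * θ' * (x - (1 - x) * ((d:ℝ) + ε)) := by ring
        have hfin : 0 ≤ i * (θ' * (2 * x - 1 - 2 * ε) - (1 - (1 - ε))) +
              j * ((1 - ε) - θ' * (x * ((d:ℝ) + 1 + ε) - 1)) +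
              l * θ' * (x - (1 - x) * ((d:ℝ) + ε)) := by
          rw [cj, cl]
          have := mul_nonneg hi0 (sub_nonneg.2 ci)
          linarith
        rw [← expand] at hfin
        linarith
    _ ≤ _ := by
        have hx1' : 0 ≤ 1 - x := by linarith
        gcongr

end Run7.h567
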