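import Pool.Agent.Run7.h567.Lor
import Pool.Agent.Run7.h567.Carl

set_option autoImplicit false

open MeasureTheory ENNReal Set

namespace Run7.h567

variable {d : ℕ}

/-- X-ray transform in the `(x, v)` coordinates -/
noncomputable def Xr (g : ℝ × V d → ℝ≥0∞) (ℓ : V d × V d) : ℝ≥0∞ := ∫⁻ t : ℝ, g (pt ℓ t)

lemma measurable_Xr {g : ℝ × V d → ℝ≥0∞} (hg : Measurable g) : Measurable (Xr g) := by
  unfold Xr
  have : Measurable (fun p : (V d × V d) × ℝ => g (pt p.1 p.2)) := by fun_prop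
  exact this.lintegral_prod_right'

/-- dyadic level set -/
def Lv (g : ℝ × V d → ℝ≥0∞) (j : ℤ) : Set (ℝ × V d) :=
  {z | ENNReal.ofReal (2 ^ (j : ℝ)) ≤ g z ∧ g z < ENNReal.ofReal (2 ^ ((j : ℝ) + 1))}

lemma measurableSet_Lv {g : ℝ × V d → ℝ≥0∞} (hg : Measurable g) (j : ℤ) :
    MeasurableSet (Lv g j) :=
  (measurableSet_le measurable_const hg).inter (measurableSet_lt hg measurable_const)

lemma Lv_exists {g : ℝ × V d → ℝ≥0∞} {z : ℝ × V d} (h0 : g z ≠ 0) (ht : g z ≠ ∞) :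
    ∃ j : ℤ, z ∈ Lv g j := by
  obtain ⟨n, hn1, hn2⟩ := exists_mem_Ico_zpow (x := (g z).toReal) (y := 2)
    (ENNReal.toReal_pos h0 ht) (by norm_num)
  refine ⟨n, ?_, ?_⟩
  · rw [Real.rpow_intCast]
    exact ENNReal.ofReal_le_of_le_toReal hn1
  · rw [show ((n : ℝ) + 1) = ((n + 1 : ℤ) : ℝ) by push_cast; ring, Real.rpow_intCast]
    exact (ENNReal.lt_ofReal_iff_toReal_lt ht).2 hn2

lemma Lv_unique {g : ℝ × V d → ℝ≥0∞} {z : ℝ × V d} {i j : ℤ} (hi : z ∈ Lv g i) (hj : z ∈ Lv g j) :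
    i = j := by
  have key : ∀ i j : ℤ, z ∈ Lv g i → z ∈ Lv g j → i ≤ j := by
    intro i j hi hj
    have h := lt_of_le_of_lt hi.1 hj.2
    rw [ENNReal.ofReal_lt_ofReal_iff (by positivity)] at h
    have h2 : (i : ℝ) < j + 1 := (Real.rpow_lt_rpow_left_iff (by norm_num)).1 h
    have : i < j + 1 := by exact_mod_cast h2
    omega
  exact le_antisymm (key _ _ hi hj) (key _ _ hj hi)

lemma Xr_le {g : ℝ × V d → ℝ≥0∞} (hg : Measurable g) (hgt : ∀ z, g z ≠ ∞) (ℓ : V d × V d) :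
    Xr g ℓ ≤ 2 * ∑' j : ℤ, ENNReal.ofReal (2 ^ (j : ℝ)) * F (Lv g j) ℓ := by
  have h1 : ∀ z, g z ≤ ∑' j : ℤ, 2 * (ENNReal.ofReal (2 ^ (j : ℝ)) * (Lv g j).indicator 1 z) := by
    intro z
    by_cases h0 : g z = 0
    · rw [h0]; exact zero_le
    obtain ⟨j, hj⟩ := Lv_exists h0 (hgt z)
    refine le_trans ?_ (ENNReal.le_tsum j)
    rw [indicator_of_mem hj]
    refine hj.2.le.trans ?_
    rw [Pi.one_apply, mul_one, Real.rpow_add (by norm_num), Real.rpow_one,
      ENNReal.ofReal_mul (by positivity)]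
    simp [mul_comm]
  have hm : ∀ j : ℤ, Measurable (fun t : ℝ => ((Lv g j).indicator 1 (pt ℓ t) : ℝ≥0∞)) := fun j =>
    (measurable_one.indicator (measurableSet_Lv hg j)).comp (f := fun t : ℝ => pt ℓ t) (by fun_prop)
  unfold Xr
  calc ∫⁻ t : ℝ, g (pt ℓ t) ≤ ∫⁻ t : ℝ, ∑' j : ℤ, 2 * (ENNReal.ofReal (2 ^ (j : ℝ)) *
        (Lv g j).indicator 1 (pt ℓ t)) := lintegral_mono fun t => h1 _
    _ = ∑' j : ℤ, ∫⁻ t : ℝ, 2 * (ENNReal.ofReal (2 ^ (j : ℝ)) * (Lv g j).indicator 1 (pt ℓ t)) :=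
        lintegral_tsum fun j => (((hm j).const_mul _).const_mul _).aemeasurable
    _ = ∑' j : ℤ, 2 * (ENNReal.ofReal (2 ^ (j : ℝ)) * F (Lv g j) ℓ) := by
        congr 1
        ext j
        rw [lintegral_const_mul _ ((hm j).const_mul _), lintegral_const_mul _ (hm j)]
        congr 2
        unfold F
        rw [← lintegral_indicator_one (measurableSet_Sec (measurableSet_Lv hg j) ℓ)]
        rfl
    _ = _ := by rw [ENNReal.tsum_mul_left]

lemma Lv_mass {g : ℝ × V d → ℝ≥0∞} (hg : Measurable g) (P : ℝ) (hP : 0 < P) :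
    ∑' j : ℤ, ENNReal.ofReal (2 ^ (P * (j : ℝ))) * volume (Lv g j) ≤ ∫⁻ z, g z ^ P := by
  have e : ∀ j : ℤ, ENNReal.ofReal (2 ^ (P * (j : ℝ))) * volume (Lv g j) =
      ∫⁻ z, ENNReal.ofReal (2 ^ (P * (j : ℝ))) * (Lv g j).indicator 1 z := by
    intro j
    rw [lintegral_const_mul _ (measurable_one.indicator (measurableSet_Lv hg j)),
      lintegral_indicator_one (measurableSet_Lv hg j)]
  simp_rw [e]
  rw [← lintegral_tsum fun j =>
    ((measurable_one.indicator (measurableSet_Lv hg j)).const_mul _).aemeasurable]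
  refine lintegral_mono fun z => ?_
  by_cases h : ∃ j : ℤ, z ∈ Lv g j
  · obtain ⟨j, hj⟩ := h
    have h2 : ∀ i : ℤ, i ≠ j → ENNReal.ofReal (2 ^ (P * (i : ℝ))) * (Lv g i).indicator 1 z = 0 := by
      intro i hi
      rw [indicator_of_notMem (fun hh => hi (Lv_unique hh hj)), mul_zero]
    rw [tsum_eq_single j h2, indicator_of_mem hj, Pi.one_apply, mul_one]
    calc ENNReal.ofReal (2 ^ (P * (j : ℝ))) = ENNReal.ofReal (2 ^ (j : ℝ)) ^ P := by
          rw [ENNReal.ofReal_rpow_of_pos (by positivity), ← Real.rpow_mul (by norm_num), mul_comm]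
      _ ≤ _ := by gcongr; exact hj.1
  · push Not at h
    have : ∀ i : ℤ, ENNReal.ofReal (2 ^ (P * (i : ℝ))) * (Lv g i).indicator 1 z = 0 := by
      intro i
      rw [indicator_of_notMem (h i), mul_zero]
    simp [this]

/-- from indicator functions to general functions, all larger exponents -/
theorem interp (hd : 1 ≤ d) (q0 : ℝ) (hq0 : 0 < q0) (hq1 : q0 ≤ 1) (C0 : NNReal)
    (hres : ∀ E : Set (ℝ × V d), MeasurableSet E → volume E ≠ ∞ →
      ∫⁻ v : V d, (∫⁻ x : V d, F E (x, v) ^ (((d : ℝ) + 1 + q0) / q0)) ^ q0 ≤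
        C0 * volume E ^ (1 + q0))
    (a : ℝ) (ha : (d : ℝ) + 1 + q0 < a) :
    ∃ C : NNReal, ∀ g : ℝ × V d → ℝ≥0∞, Measurable g → (∀ z, g z ≠ ∞) →
      ∫⁻ v : V d, (∫⁻ x : V d, Xr g (x, v) ^ (a / (a - d - 1))) ^ (a - d - 1) ≤
        C * (∫⁻ z, g z ^ (a / (a - d))) ^ (a - d) := by
  have hd' : (1 : ℝ) ≤ d := by exact_mod_cast hd
  set a0 : ℝ := (d : ℝ) + 1 + q0 with ha0
  set b0 : ℝ := a0 / q0 with hb0
  set q : ℝ := a - d - 1 with hq
  set b : ℝ := a / q with hb
  set P : ℝ := a / (a - d) with hP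
  set θ : ℝ := 1 - a0 / a with hθ
  set σ : ℝ := P * d / a0 with hσ
  have ha00 : 0 < a0 := by rw [ha0]; linarith
  have ha' : 0 < a := by linarith
  have hqpos : 0 < q := by rw [hq]; linarith
  have had : 0 < a - d := by linarith
  have hb00 : 0 < b0 := by positivity
  have hbpos : 0 < b := by positivity
  have hPpos : 0 < P := by positivity
  have hθ0 : 0 < θ := by rw [hθ, sub_pos, div_lt_one ha']; exact ha
  have hθ1 : θ < 1 := by rw [hθ]; have : 0 < a0 / a := by positivity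
                         linarith
  have hθe : 1 - θ = a0 / a := by rw [hθ]; ring
  have hσ0 : 0 < σ := by positivity
  obtain ⟨Cc, hCc⟩ := carlson σ θ hσ0 hθ0 hθ1
  refine ⟨(2 * Cc) ^ a * C0 + 1, fun g hg hgt => ?_⟩
  set M := ∫⁻ z, g z ^ P with hM
  have hCne : (((2 * Cc) ^ a * C0 + 1 : NNReal) : ℝ≥0∞) ≠ 0 := by
    norm_cast
    positivity
  by_cases hMt : M = ∞
  · rw [hMt, ENNReal.top_rpow_of_pos had, ENNReal.mul_top hCne]
    exact le_top
  set m : ℤ → ℝ≥0∞ := fun j => ENNReal.ofReal (2 ^ (P * (j : ℝ))) * volume (Lv g j) with hm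
  have hmM : ∑' j, m j ≤ M := Lv_mass hg P hPpos
  have hLvt : ∀ j, volume (Lv g j) ≠ ∞ := by
    intro j h
    have h1 : m j ≤ M := (ENNReal.le_tsum j).trans hmM
    rw [hm] at h1
    simp only [h] at h1
    rw [ENNReal.mul_top (by simp only [ne_eq, ENNReal.ofReal_eq_zero, not_le]; positivity)] at h1
    exact hMt (top_le_iff.1 h1)
  have hFm : ∀ j, Measurable (F (Lv g j)) := fun j => measurable_F (measurableSet_Lv hg j)
  set u : V d × V d → ℤ → ℝ≥0∞ := fun ℓ j => ENNReal.ofReal (2 ^ (j : ℝ)) * F (Lv g j) ℓ with hu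
  set c0 : ℤ → ℝ≥0∞ := fun j => ENNReal.ofReal (2 ^ (-(σ * θ * (j : ℝ)))) with hc0
  set c1 : ℤ → ℝ≥0∞ := fun j => ENNReal.ofReal (2 ^ (σ * (1 - θ) * (j : ℝ))) with hc1
  set T0 : V d × V d → ℝ≥0∞ := fun ℓ => ∑' j, (c0 j * u ℓ j) ^ b0 with hT0
  set S1 : V d × V d → ℝ≥0∞ := fun ℓ => ∑' j, c1 j * u ℓ j with hS1
  have hum : ∀ j, Measurable (fun ℓ => u ℓ j) := fun j => (hFm j).const_mul _
  have hT0m : Measurable T0 := Measurable.tsum fun j => ((hum j).const_mul _).pow_const _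
  have hS1m : Measurable S1 := Measurable.tsum fun j => (hum j).const_mul _
  -- pointwise bound
  have hpt : ∀ ℓ, Xr g ℓ ≤ (2 * Cc : NNReal) * ((T0 ℓ ^ (1 / b0)) ^ (1 - θ) * S1 ℓ ^ θ) := by
    intro ℓ
    refine (Xr_le hg hgt ℓ).trans ?_
    rw [ENNReal.coe_mul, mul_assoc]
    refine mul_le_mul' (by norm_num) ?_
    refine hCc (u ℓ) (T0 ℓ ^ (1 / b0)) (S1 ℓ) (fun j => ?_) (fun j => ?_)
    · have h1 : (c0 j * u ℓ j) ^ b0 ≤ T0 ℓ := ENNReal.le_tsum j
      have h2 : c0 j * u ℓ j ≤ T0 ℓ ^ (1 / b0) := by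
        calc c0 j * u ℓ j = ((c0 j * u ℓ j) ^ b0) ^ (1 / b0) := by
              rw [← ENNReal.rpow_mul, mul_one_div_cancel hb00.ne', ENNReal.rpow_one]
          _ ≤ _ := by gcongr
      calc u ℓ j = ENNReal.ofReal (2 ^ (σ * θ * (j : ℝ))) * (c0 j * u ℓ j) := by
            rw [hc0, ← mul_assoc, ← ENNReal.ofReal_mul (by positivity), ← Real.rpow_add (by norm_num)]
            simp
        _ ≤ _ := by gcongr
    · have h1 : c1 j * u ℓ j ≤ S1 ℓ := ENNReal.le_tsum (f := fun j => c1 j * u ℓ j) j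
      calc u ℓ j = ENNReal.ofReal (2 ^ (-(σ * (1 - θ) * (j : ℝ)))) * (c1 j * u ℓ j) := by
            rw [hc1, ← mul_assoc, ← ENNReal.ofReal_mul (by positivity), ← Real.rpow_add (by norm_num)]
            simp
        _ ≤ _ := by gcongr
  -- the easy endpoint
  have hS1i : ∀ v : V d, ∫⁻ x : V d, S1 (x, v) ≤ M := by
    intro v
    refine le_trans (le_of_eq ?_) hmM
    simp only [hS1, hu]
    rw [lintegral_tsum fun j => by
      exact ((((hFm j).comp (f := fun x : V d => (x, v)) (by fun_prop)).const_mul _).const_mul _).aemeasurable]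
    congr 1
    ext j
    have m1 : Measurable (fun x : V d => F (Lv g j) (x, v)) :=
      (hFm j).comp (f := fun x : V d => (x, v)) (by fun_prop)
    rw [lintegral_const_mul _ (m1.const_mul _), lintegral_const_mul _ m1,
      lintegral_F (measurableSet_Lv hg j), hm, hc1, ← mul_assoc, ← ENNReal.ofReal_mul (by positivity),
      ← Real.rpow_add (by norm_num)]
    congr 3
    rw [hθe, hσ, hP]
    field_simp
    ring
  -- the main endpoint
  have hT0i : ∫⁻ v : V d, (∫⁻ x : V d, T0 (x, v)) ^ q0 ≤ C0 * M ^ (1 + q0) := by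
    have h1 : ∀ v : V d, (∫⁻ x : V d, T0 (x, v)) ^ q0 ≤
        ∑' j, (c0 j * ENNReal.ofReal (2 ^ (j : ℝ))) ^ a0 *
          (∫⁻ x : V d, F (Lv g j) (x, v) ^ b0) ^ q0 := by
      intro v
      have m1 : ∀ j, Measurable (fun x : V d => F (Lv g j) (x, v)) := fun j =>
        (hFm j).comp (f := fun x : V d => (x, v)) (by fun_prop)
      simp only [hT0, hu]
      rw [lintegral_tsum fun j => by
        exact ((((m1 j).const_mul _).const_mul _).pow_const _).aemeasurable]
      refine (rpow_tsum_le _ q0 hq0 hq1).trans (le_of_eq ?_)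
      congr 1
      ext j
      have e1 : ∀ x : V d, (c0 j * (ENNReal.ofReal (2 ^ (j : ℝ)) * F (Lv g j) (x, v))) ^ b0 =
          (c0 j * ENNReal.ofReal (2 ^ (j : ℝ))) ^ b0 * F (Lv g j) (x, v) ^ b0 := by
        intro x
        rw [← mul_assoc, ENNReal.mul_rpow_of_nonneg _ _ hb00.le]
      simp_rw [e1]
      rw [lintegral_const_mul _ ((m1 j).pow_const _), ENNReal.mul_rpow_of_nonneg _ _ hq0.le,
        ← ENNReal.rpow_mul]
      congr 2
      rw [hb0]; field_simp
    have m2 : ∀ j, Measurable (fun v : V d => (∫⁻ x : V d, F (Lv g j) (x, v) ^ b0) ^ q0) := by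
      intro j
      have : Measurable (fun p : V d × V d => F (Lv g j) (p.2, p.1) ^ b0) :=
        ((hFm j).comp (f := fun p : V d × V d => (p.2, p.1)) (by fun_prop)).pow_const _
      exact (this.lintegral_prod_right').pow_const _
    calc _ ≤ ∫⁻ v : V d, ∑' j, (c0 j * ENNReal.ofReal (2 ^ (j : ℝ))) ^ a0 *
          (∫⁻ x : V d, F (Lv g j) (x, v) ^ b0) ^ q0 := lintegral_mono h1
      _ = ∑' j, (c0 j * ENNReal.ofReal (2 ^ (j : ℝ))) ^ a0 * ∫⁻ v : V d,
          (∫⁻ x : V d, F (Lv g j) (x, v) ^ b0) ^ q0 := by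
          rw [lintegral_tsum fun j => ((m2 j).const_mul _).aemeasurable]
          congr 1
          ext j
          rw [lintegral_const_mul _ (m2 j)]
      _ ≤ ∑' j, (c0 j * ENNReal.ofReal (2 ^ (j : ℝ))) ^ a0 *
          (C0 * volume (Lv g j) ^ (1 + q0)) := by
          gcongr with j
          exact hres _ (measurableSet_Lv hg j) (hLvt j)
      _ = ∑' j, C0 * m j ^ (1 + q0) := by
          congr 1
          ext j
          have e2 : (c0 j * ENNReal.ofReal (2 ^ (j : ℝ))) ^ a0 =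
              ENNReal.ofReal (2 ^ (P * (j : ℝ))) ^ (1 + q0) := by
            rw [hc0, ← ENNReal.ofReal_mul (by positivity), ← Real.rpow_add (by norm_num),
              ENNReal.ofReal_rpow_of_pos (by positivity), ENNReal.ofReal_rpow_of_pos (by positivity),
              ← Real.rpow_mul (by norm_num), ← Real.rpow_mul (by norm_num)]
            congr 2
            rw [hσ, hθ, hP, ha0]
            have h5 : (d : ℝ) + 1 + q0 ≠ 0 := by positivity
            field_simp
            ring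
          rw [e2, hm]
          simp only
          rw [ENNReal.mul_rpow_of_nonneg _ _ (by positivity)]
          ring
      _ = C0 * ∑' j, m j ^ (1 + q0) := ENNReal.tsum_mul_left
      _ ≤ C0 * (∑' j, m j) ^ (1 + q0) := by
          gcongr
          exact tsum_rpow_le m q0 hq0.le
      _ ≤ _ := by gcongr
  -- combination
  have hx : ∀ v : V d, (∫⁻ x : V d, Xr g (x, v) ^ b) ^ q ≤
      ((2 * Cc : NNReal) : ℝ≥0∞) ^ a * M ^ (a - a0) * (∫⁻ x : V d, T0 (x, v)) ^ q0 := by
    intro v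
    have hb1 : (1 - θ) * b / b0 + θ * b = 1 := by
      rw [hθe, hθ, hb, hb0, hq, ha0]
      have h5 : (d : ℝ) + 1 + q0 ≠ 0 := by positivity
      have h6 : a - d - 1 ≠ 0 := by rw [← hq]; positivity
      field_simp
      ring
    have mT : Measurable (fun x : V d => T0 (x, v)) :=
      hT0m.comp (f := fun x : V d => (x, v)) (by fun_prop)
    have mS : Measurable (fun x : V d => S1 (x, v)) :=
      hS1m.comp (f := fun x : V d => (x, v)) (by fun_prop)
    have h1 : ∫⁻ x : V d, Xr g (x, v) ^ b ≤ ((2 * Cc : NNReal) : ℝ≥0∞) ^ b *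
        ∫⁻ x : V d, T0 (x, v) ^ ((1 - θ) * b / b0) * S1 (x, v) ^ (θ * b) := by
      have mTS : Measurable (fun x : V d => T0 (x, v) ^ ((1 - θ) * b / b0) * S1 (x, v) ^ (θ * b)) :=
        (mT.pow_const _).mul (mS.pow_const _)
      rw [← lintegral_const_mul _ mTS]
      refine lintegral_mono fun x => ?_
      calc Xr g (x, v) ^ b ≤ ((2 * Cc : NNReal) *
            ((T0 (x, v) ^ (1 / b0)) ^ (1 - θ) * S1 (x, v) ^ θ)) ^ b := by
            gcongr; exact hpt _
        _ = _ := by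
            rw [ENNReal.mul_rpow_of_nonneg _ _ hbpos.le, ENNReal.mul_rpow_of_nonneg _ _ hbpos.le,
              ← ENNReal.rpow_mul, ← ENNReal.rpow_mul, ← ENNReal.rpow_mul]
            congr 3
            ring
    have h2 := ENNReal.lintegral_mul_norm_pow_le (μ := (volume : Measure (V d)))
      mT.aemeasurable mS.aemeasurable (p := (1 - θ) * b / b0) (q := θ * b)
      (by rw [hθe]; positivity) (by positivity) hb1
    calc (∫⁻ x : V d, Xr g (x, v) ^ b) ^ q
        ≤ (((2 * Cc : NNReal) : ℝ≥0∞) ^ b * ((∫⁻ x : V d, T0 (x, v)) ^ ((1 - θ) * b / b0) *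
            M ^ (θ * b))) ^ q := by
          gcongr
          refine h1.trans ?_
          gcongr
          refine h2.trans ?_
          gcongr
          exact hS1i v
      _ = ((2 * Cc : NNReal) : ℝ≥0∞) ^ (b * q) * ((∫⁻ x : V d, T0 (x, v)) ^ ((1 - θ) * b / b0 * q) *
            M ^ (θ * b * q)) := by
          rw [ENNReal.mul_rpow_of_nonneg _ _ hqpos.le, ENNReal.mul_rpow_of_nonneg _ _ hqpos.le,
            ← ENNReal.rpow_mul, ← ENNReal.rpow_mul, ← ENNReal.rpow_mul]
      _ = _ := by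
          have e1 : b * q = a := by rw [hb]; field_simp
          have e2 : (1 - θ) * b / b0 * q = q0 := by
            rw [show (1 - θ) * b / b0 * q = (1 - θ) * (b * q) / b0 by ring, e1, hθe, hb0]
            field_simp
          have e3 : θ * b * q = a - a0 := by
            rw [mul_assoc, e1, hθ]; field_simp
          rw [e1, e2, e3]; ring
  have mT0 : Measurable (fun v : V d => (∫⁻ x : V d, T0 (x, v)) ^ q0) := by
    have : Measurable (fun p : V d × V d => T0 (p.2, p.1)) :=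
      hT0m.comp (f := fun p : V d × V d => (p.2, p.1)) (by fun_prop)
    exact (this.lintegral_prod_right').pow_const _
  calc _ ≤ ∫⁻ v : V d, ((2 * Cc : NNReal) : ℝ≥0∞) ^ a * M ^ (a - a0) *
        (∫⁻ x : V d, T0 (x, v)) ^ q0 := lintegral_mono hx
    _ = ((2 * Cc : NNReal) : ℝ≥0∞) ^ a * M ^ (a - a0) * ∫⁻ v : V d, (∫⁻ x : V d, T0 (x, v)) ^ q0 :=
        lintegral_const_mul _ mT0
    _ ≤ ((2 * Cc : NNReal) : ℝ≥0∞) ^ a * M ^ (a - a0) * (C0 * M ^ (1 + q0)) := by gcongr
    _ = ((2 * Cc : NNReal) : ℝ≥0∞) ^ a * C0 * M ^ (a - d) := by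
        have : M ^ (a - d) = M ^ (a - a0) * M ^ (1 + q0) := by
          rw [← ENNReal.rpow_add_of_nonneg _ _ (by linarith) (by positivity)]
          congr 1
          rw [ha0]; ring
        rw [this]; ring
    _ ≤ _ := by
        refine mul_le_mul' ?_ le_rfl
        push_cast
        rw [ENNReal.coe_rpow_of_nonneg _ ha'.le]
        push_cast
        exact le_self_add

end Run7.h567
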