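import Pool.Agent.Run7.h567.One

set_option autoImplicit false

open MeasureTheory ENNReal Set

namespace Run7.h567

lemma lint_inv {τ : ℝ} (hτ : τ ≠ 0) (g : ℝ → ℝ≥0∞) :
    ∫⁻ y : ℝ, g y = ∫⁻ b : ℝ, ENNReal.ofReal (|τ| / b ^ 2) * g (τ / b) := by
  have himg : (fun b : ℝ => τ / b) '' {0}ᶜ = {0}ᶜ := by
    ext y
    simp only [mem_image, mem_compl_iff, mem_singleton_iff]
    constructor
    · rintro ⟨b, hb, rfl⟩
      exact div_ne_zero hτ hb
    · intro hy
      exact ⟨τ / y, div_ne_zero hτ hy, by field_simp⟩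
  have hd : ∀ x ∈ ({0}ᶜ : Set ℝ), HasDerivWithinAt (fun b : ℝ => τ / b) (-τ / x ^ 2) {0}ᶜ x := by
    intro x hx
    have h := (hasDerivAt_inv (show x ≠ 0 from hx)).const_mul τ
    have e : (fun b : ℝ => τ / b) = fun b => τ * b⁻¹ := by
      ext b; rw [div_eq_mul_inv]
    rw [e, show -τ / x ^ 2 = τ * -(x ^ 2)⁻¹ by rw [div_eq_mul_inv]; ring]
    exact h.hasDerivWithinAt
  have hinj : InjOn (fun b : ℝ => τ / b) {0}ᶜ := by
    intro x hx y hy h
    simp only [mem_compl_iff, mem_singleton_iff] at hx hy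
    simp only at h
    rw [div_eq_div_iff hx hy] at h
    exact (mul_left_cancel₀ hτ h).symm
  have h1 := lintegral_image_eq_lintegral_abs_deriv_mul (measurableSet_singleton (0:ℝ)).compl hd hinj g
  rw [himg, restrict_compl_singleton] at h1
  rw [h1]
  refine lintegral_congr fun b => ?_
  rw [abs_div, abs_neg, abs_of_nonneg (sq_nonneg b)]

lemma pow_near0 (s : ℝ) (hs : -1 < s) (R : ℝ) (hR : 0 < R) :
    ∫⁻ x : ℝ, (Iio R).indicator (fun x => ENNReal.ofReal (x ^ s)) |x| ≠ ∞ := by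
  refine ne_top_of_le_ne_top ?_ (lint_abs _)
  refine ENNReal.mul_ne_top (by norm_num) ?_
  have : ∫⁻ x in Ioi (0 : ℝ), (Iio R).indicator (fun x => ENNReal.ofReal (x ^ s)) x =
      ∫⁻ x in Ioo 0 R, ENNReal.ofReal (x ^ s) := by
    rw [setLIntegral_indicator measurableSet_Iio, inter_comm, Ioi_inter_Iio]
  rw [this]
  exact pow_near s hs R hR

lemma pow_far0 (s : ℝ) (hs : s < -1) (R : ℝ) (hR : 0 < R) :
    ∫⁻ x : ℝ, (Ioi R).indicator (fun x => ENNReal.ofReal (x ^ s)) |x| ≠ ∞ := by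
  refine ne_top_of_le_ne_top ?_ (lint_abs _)
  refine ENNReal.mul_ne_top (by norm_num) ?_
  have : ∫⁻ x in Ioi (0 : ℝ), (Ioi R).indicator (fun x => ENNReal.ofReal (x ^ s)) x =
      ∫⁻ x in Ioi R, ENNReal.ofReal (x ^ s) := by
    rw [setLIntegral_indicator measurableSet_Ioi, Ioi_inter_Ioi, max_eq_left hR.le]
  rw [this]
  exact pow_far s hs R hR

/-- the final one-dimensional integral -/
lemma bint (θ : ℝ) (hθ0 : 0 < θ) (hθ1 : θ < 1) :
    ∫⁻ b : ℝ, ENNReal.ofReal (|b| ^ (-θ) * |1 + b| ^ (θ / 2 - 1)) ≠ ∞ := by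
  set h1 : ℝ → ℝ≥0∞ := (Iio 3).indicator (fun x => ENNReal.ofReal (x ^ (-θ))) with hh1
  set h2 : ℝ → ℝ≥0∞ := (Iio 4).indicator (fun x => ENNReal.ofReal (x ^ (θ / 2 - 1))) with hh2
  set h3 : ℝ → ℝ≥0∞ := (Ioi 1).indicator (fun x => ENNReal.ofReal (x ^ (-1 - θ / 2))) with hh3
  have hm1 : Measurable (fun b : ℝ => h1 |b|) :=
    (Measurable.indicator (by fun_prop) measurableSet_Iio).comp (by fun_prop)
  have hm2 : Measurable (fun b : ℝ => h2 |b|) :=
    (Measurable.indicator (by fun_prop) measurableSet_Iio).comp (by fun_prop)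
  have hm2' : Measurable (fun b : ℝ => h2 |1 + b|) :=
    (Measurable.indicator (by fun_prop) measurableSet_Iio).comp (by fun_prop)
  have key : ∀ b : ℝ, ENNReal.ofReal (|b| ^ (-θ) * |1 + b| ^ (θ / 2 - 1)) ≤
      2 * h1 |b| + 2 * h2 |1 + b| + 2 * h3 |b| := by
    intro b
    have h2' : (2 : ℝ≥0∞) = ENNReal.ofReal 2 := by simp
    have p2 : (2:ℝ) ^ (1 - θ / 2) ≤ 2 := by
      calc (2:ℝ) ^ (1 - θ / 2) ≤ 2 ^ (1:ℝ) := Real.rpow_le_rpow_of_exponent_le (by norm_num) (by linarith)
        _ = 2 := Real.rpow_one _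
    have p3 : (2:ℝ) ^ θ ≤ 2 := by
      calc (2:ℝ) ^ θ ≤ 2 ^ (1:ℝ) := Real.rpow_le_rpow_of_exponent_le (by norm_num) (by linarith)
        _ = 2 := Real.rpow_one _
    by_cases hb2 : 2 ≤ |b|
    · refine le_trans ?_ le_add_self
      rw [hh3, indicator_of_mem (show |b| ∈ Ioi (1:ℝ) by simp only [mem_Ioi]; linarith), h2',
        ← ENNReal.ofReal_mul (by norm_num)]
      apply ENNReal.ofReal_le_ofReal
      have hb0 : 0 < |b| := by linarith
      have h4 : |b| / 2 ≤ |1 + b| := by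
        have := abs_sub_abs_le_abs_sub b (-1)
        rw [abs_neg, abs_one, sub_neg_eq_add, add_comm b 1] at this
        linarith
      have h5 : |1 + b| ^ (θ / 2 - 1) ≤ (|b| / 2) ^ (θ / 2 - 1) :=
        Real.rpow_le_rpow_of_nonpos (by positivity) h4 (by linarith)
      have h6 : (|b| / 2) ^ (θ / 2 - 1) = 2 ^ (1 - θ / 2) * |b| ^ (θ / 2 - 1) := by
        rw [Real.div_rpow (by positivity) (by norm_num), show (1 - θ / 2) = -(θ / 2 - 1) by ring,
          Real.rpow_neg (by norm_num)]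
        field_simp
      calc |b| ^ (-θ) * |1 + b| ^ (θ / 2 - 1) ≤ |b| ^ (-θ) * (2 * |b| ^ (θ / 2 - 1)) := by
            gcongr
            rw [h6] at h5
            refine h5.trans ?_
            gcongr
        _ = 2 * |b| ^ (-1 - θ / 2) := by
            rw [show (-1 - θ / 2) = -θ + (θ / 2 - 1) by ring, Real.rpow_add hb0]; ring
    · push Not at hb2
      by_cases hb1 : |b| ≤ 1 / 2
      · refine le_trans ?_ (le_trans le_self_add le_self_add)
        rw [hh1, indicator_of_mem (show |b| ∈ Iio (3:ℝ) by simp only [mem_Iio]; linarith), h2',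
          ← ENNReal.ofReal_mul (by norm_num)]
        apply ENNReal.ofReal_le_ofReal
        have h4 : 1 / 2 ≤ |1 + b| := by
          have := abs_sub_abs_le_abs_sub 1 (-b)
          rw [abs_neg, abs_one, sub_neg_eq_add] at this
          linarith
        have h5 : |1 + b| ^ (θ / 2 - 1) ≤ (1 / 2 : ℝ) ^ (θ / 2 - 1) :=
          Real.rpow_le_rpow_of_nonpos (by positivity) h4 (by linarith)
        have h6 : (1 / 2 : ℝ) ^ (θ / 2 - 1) = 2 ^ (1 - θ / 2) := by
          rw [one_div, Real.inv_rpow (by norm_num), ← Real.rpow_neg (by norm_num)]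
          congr 1; ring
        have h7 : 0 ≤ |b| ^ (-θ) := by positivity
        rw [h6] at h5
        nlinarith
      · push Not at hb1
        refine le_trans ?_ (le_trans le_add_self le_self_add)
        have h4 : |1 + b| < 4 := by
          have := abs_add_le 1 b
          rw [abs_one] at this
          linarith
        rw [hh2, indicator_of_mem (show |1 + b| ∈ Iio (4:ℝ) from h4), h2',
          ← ENNReal.ofReal_mul (by norm_num)]
        apply ENNReal.ofReal_le_ofReal
        have h5 : |b| ^ (-θ) ≤ (1 / 2 : ℝ) ^ (-θ) :=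
          Real.rpow_le_rpow_of_nonpos (by positivity) hb1.le (by linarith)
        have h6 : (1 / 2 : ℝ) ^ (-θ) = 2 ^ θ := by
          rw [one_div, Real.inv_rpow (by norm_num), ← Real.rpow_neg (by norm_num)]
          congr 1; ring
        have h7 : 0 ≤ |1 + b| ^ (θ / 2 - 1) := by positivity
        rw [h6] at h5
        nlinarith
  refine ne_top_of_le_ne_top ?_ (lintegral_mono key)
  have hn1 : Measurable (fun b : ℝ => 2 * h1 |b|) := measurable_const.mul hm1
  have hn2 : Measurable (fun b : ℝ => 2 * h2 |1 + b|) := measurable_const.mul hm2'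
  have hn3 : Measurable (fun b : ℝ => 2 * h1 |b| + 2 * h2 |1 + b|) := hn1.add hn2
  rw [lintegral_add_left hn3, lintegral_add_left hn1, lintegral_const_mul _ hm1, lintegral_const_mul _ hm2', lintegral_const_mul' _ _ (by norm_num),
    lintegral_add_left_eq_self (μ := (volume : Measure ℝ)) (fun b => h2 |b|) 1]
  refine ENNReal.add_ne_top.2 ⟨ENNReal.add_ne_top.2 ⟨?_, ?_⟩, ?_⟩
  · exact ENNReal.mul_ne_top (by norm_num) (pow_near0 _ (by linarith) 3 (by norm_num))
  · exact ENNReal.mul_ne_top (by norm_num) (pow_near0 _ (by linarith) 4 (by norm_num))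
  · exact ENNReal.mul_ne_top (by norm_num) (pow_far0 _ (by linarith) 1 (by norm_num))

end Run7.h567
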