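import Mathlib

set_option autoImplicit false

open MeasureTheory ENNReal Set

namespace Run7.h567

lemma lint_abs (h : ℝ → ℝ≥0∞) :
    ∫⁻ x : ℝ, h |x| ≤ 2 * ∫⁻ x in Ioi (0 : ℝ), h x := by
  have h1 : ∫⁻ x : ℝ, h |x| = (∫⁻ x in Iio (0 : ℝ), h |x|) + ∫⁻ x in Ici (0 : ℝ), h |x| := by
    have := lintegral_add_compl (μ := (volume : Measure ℝ)) (fun x => h |x|)
      (measurableSet_Iio (a := (0 : ℝ)))
    rw [compl_Iio] at this
    exact this.symm
  have h2 : ∫⁻ x in Ici (0 : ℝ), h |x| = ∫⁻ x in Ioi (0 : ℝ), h x := by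
    rw [setLIntegral_congr Ioi_ae_eq_Ici.symm]
    refine setLIntegral_congr_fun measurableSet_Ioi fun x hx => ?_
    rw [abs_of_pos hx]
  have h3 : ∫⁻ x in Iio (0 : ℝ), h |x| = ∫⁻ x in Ioi (0 : ℝ), h x := by
    have hmp : MeasurePreserving (fun x : ℝ => -x) volume volume :=
      Measure.measurePreserving_neg volume
    have hme : MeasurableEmbedding (fun x : ℝ => -x) := (Homeomorph.neg ℝ).measurableEmbedding
    have h4 := hmp.setLIntegral_comp_preimage_emb hme (fun x => h |x|) (Iio (0 : ℝ))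
    simp only [neg_preimage, neg_Iio, neg_zero, abs_neg] at h4
    rw [← h4]
    refine setLIntegral_congr_fun measurableSet_Ioi fun x hx => ?_
    rw [abs_of_pos hx]
  rw [h1, h2, h3, two_mul]

lemma pow_near (s : ℝ) (hs : -1 < s) (R : ℝ) (hR : 0 < R) :
    ∫⁻ x in Ioo 0 R, ENNReal.ofReal (x ^ s) ≠ ∞ := by
  have := (intervalIntegral.integrableOn_Ioo_rpow_iff hR).2 hs
  exact this.lintegral_lt_top.ne

lemma pow_far (s : ℝ) (hs : s < -1) (R : ℝ) (hR : 0 < R) :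
    ∫⁻ x in Ioi R, ENNReal.ofReal (x ^ s) ≠ ∞ := by
  have := integrableOn_Ioi_rpow_of_lt hs hR
  exact this.lintegral_lt_top.ne

/-- scale invariant weight -/
noncomputable def Cw (ε : ℝ) : ℝ≥0∞ :=
  ∫⁻ σ : ℝ, ENNReal.ofReal (|σ|⁻¹ * min (|σ| ^ ε) ((|σ|⁻¹) ^ ε))

lemma Cw_ne_top (ε : ℝ) (hε : 0 < ε) : Cw ε ≠ ∞ := by
  unfold Cw
  set h : ℝ → ℝ≥0∞ := fun x => ENNReal.ofReal (x⁻¹ * min (x ^ ε) ((x⁻¹) ^ ε)) with hh
  refine ne_top_of_le_ne_top ?_ (lint_abs h)
  refine ENNReal.mul_ne_top (by norm_num) ?_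
  have hsub : Ioi (0 : ℝ) ⊆ Ioo 0 2 ∪ Ioi 1 := by
    intro x hx
    rcases lt_or_ge x 2 with h | h
    · exact Or.inl ⟨hx, h⟩
    · exact Or.inr (lt_of_lt_of_le (by norm_num) h)
  have h1 : ∫⁻ x in Ioi (0 : ℝ), h x ≤ (∫⁻ x in Ioo (0 : ℝ) 2, h x) + ∫⁻ x in Ioi (1 : ℝ), h x :=
    (lintegral_mono_set (μ := (volume : Measure ℝ)) hsub).trans
      (lintegral_union_le (μ := (volume : Measure ℝ)) _ _ _)
  refine ne_top_of_le_ne_top ?_ h1
  refine ENNReal.add_ne_top.2 ⟨?_, ?_⟩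
  · refine ne_top_of_le_ne_top (pow_near (ε - 1) (by linarith) 2 (by norm_num)) ?_
    refine setLIntegral_mono' measurableSet_Ioo fun x hx => ?_
    apply ENNReal.ofReal_le_ofReal
    rw [Real.rpow_sub_one hx.1.ne', div_eq_inv_mul]
    have := hx.1
    gcongr
    exact min_le_left _ _
  · refine ne_top_of_le_ne_top (pow_far (-ε - 1) (by linarith) 1 (by norm_num)) ?_
    refine setLIntegral_mono' measurableSet_Ioi fun x hx => ?_
    have hx0 : (0 : ℝ) < x := lt_trans (by norm_num) hx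
    apply ENNReal.ofReal_le_ofReal
    rw [Real.rpow_sub_one hx0.ne', div_eq_inv_mul]
    gcongr
    rw [Real.rpow_neg hx0.le, Real.inv_rpow hx0.le]
    exact min_le_right _ _

/-- half of a large set is far away -/
lemma half_far' {S : Set ℝ} {x : ℝ} (hx : ENNReal.ofReal x ≤ volume S) :
    ENNReal.ofReal (x / 2) ≤ volume (S ∩ {t | x / 4 ≤ |t|}) := by
  by_contra hcon
  push Not at hcon
  have e : {t : ℝ | |t| < x / 4} = Metric.ball 0 (x / 4) := by
    ext t; simp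
  have h1 : volume S ≤ volume (S ∩ {t | x / 4 ≤ |t|}) + volume {t : ℝ | |t| < x / 4} := by
    refine (measure_mono ?_).trans (measure_union_le _ _)
    intro t ht
    by_cases h : x / 4 ≤ |t|
    · exact Or.inl ⟨ht, h⟩
    · exact Or.inr (not_le.1 h)
  rw [e, Real.volume_ball, show 2 * (x / 4) = x / 2 by ring] at h1
  have hx0 : 0 < x := by
    by_contra h
    have : x / 2 ≤ 0 := by linarith
    rw [ENNReal.ofReal_of_nonpos this] at hcon
    exact absurd hcon (not_lt.2 zero_le)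
  have h2 : ENNReal.ofReal x < ENNReal.ofReal (x / 2) + ENNReal.ofReal (x / 2) :=
    lt_of_le_of_lt (hx.trans h1) (ENNReal.add_lt_add_right ENNReal.ofReal_ne_top hcon)
  rw [← ENNReal.ofReal_add (by positivity) (by positivity), add_halves] at h2
  exact lt_irrefl _ h2

end Run7.h567
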