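import Pool.Agent.Run7.h567.Dil
import Pool.Agent.Run7.h567.One

set_option autoImplicit false

open MeasureTheory ENNReal Set

namespace Run7.h567

variable {d : ℕ}

/-- scale invariant modification of the power `d - 1` -/
noncomputable def ww (d : ℕ) (ε a τ : ℝ) : ℝ := |τ| ^ (d - 1) * min ((|τ| / a) ^ ε) ((a / |τ|) ^ ε)

/-- scale invariant modification of the power `d` -/
noncomputable def Kf (d : ℕ) (ε a x : ℝ) : ℝ := x ^ d * min ((x / a) ^ ε) ((a / x) ^ ε)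

/-- weighted length of the section of a set by a ray -/
noncomputable def WB (B : Set (V d)) (ε a : ℝ) (u : V d) : ℝ≥0∞ :=
  ∫⁻ τ : ℝ, ENNReal.ofReal (ww d ε a τ) * B.indicator 1 (τ • u)

lemma measurable_ww (ε a : ℝ) : Measurable (fun τ : ℝ => ww d ε a τ) := by
  unfold ww; fun_prop

lemma WB_int (hd : 1 ≤ d) (B : Set (V d)) (hB : MeasurableSet B) (ε a : ℝ) (ha : 0 < a) :
    ∫⁻ u : V d, WB B ε a u ≤ Cw ε * volume B := by
  have hi : Measurable (B.indicator (1 : V d → ℝ≥0∞)) := measurable_one.indicator hB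
  have hw := measurable_ww (d := d) ε a
  have hj : Measurable (fun p : V d × ℝ => ENNReal.ofReal (ww d ε a p.2) *
      B.indicator 1 (p.2 • p.1)) := by
    refine Measurable.mul (by fun_prop) ?_
    exact hi.comp (f := fun p : V d × ℝ => p.2 • p.1) (by fun_prop)
  unfold WB
  rw [lintegral_lintegral_swap hj.aemeasurable]
  have h1 : ∀ᵐ τ : ℝ, ∫⁻ u : V d, ENNReal.ofReal (ww d ε a τ) * B.indicator 1 (τ • u) =
      ENNReal.ofReal (|τ|⁻¹ * min ((|τ| / a) ^ ε) ((a / |τ|) ^ ε)) * volume B := by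
    have : ∀ᵐ s : ℝ, s ≠ 0 := by simp [ae_iff]
    filter_upwards [this] with τ hτ
    have hτ' : 0 < |τ| := abs_pos.2 hτ
    have m1 : Measurable (fun u : V d => (B.indicator 1 (τ • u) : ℝ≥0∞)) :=
      hi.comp (f := fun u : V d => τ • u) (by fun_prop)
    rw [lintegral_const_mul _ m1]
    have h2 := lintegral_smul_add hτ (0 : V d) (B.indicator 1) hi
    simp only [zero_add] at h2
    rw [lintegral_indicator_one hB] at h2
    have h3 : ENNReal.ofReal (ww d ε a τ) =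
        ENNReal.ofReal (|τ|⁻¹ * min ((|τ| / a) ^ ε) ((a / |τ|) ^ ε)) * ENNReal.ofReal (|τ| ^ d) := by
      rw [← ENNReal.ofReal_mul (by positivity)]
      congr 1
      unfold ww
      obtain ⟨n, rfl⟩ : ∃ n, d = n + 1 := ⟨d - 1, by omega⟩
      rw [Nat.add_sub_cancel, pow_succ]
      field_simp
    rw [h3, mul_assoc, h2]
  rw [lintegral_congr_ae h1, lintegral_mul_const _ (by fun_prop)]
  gcongr
  have h4 := lintegral_dil (volume : Measure ℝ) ha.ne'
    (fun τ => ENNReal.ofReal (|τ|⁻¹ * min ((|τ| / a) ^ ε) ((a / |τ|) ^ ε))) (by fun_prop)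
  rw [← h4]
  unfold Cw
  rw [← lintegral_const_mul' _ _ ENNReal.ofReal_ne_top]
  refine lintegral_mono fun σ => ?_
  rw [← ENNReal.ofReal_mul (by positivity)]
  apply ENNReal.ofReal_le_ofReal
  simp only [Module.finrank_self, pow_one, smul_eq_mul, abs_mul, abs_of_pos ha]
  rw [show a * |σ| / a = |σ| by field_simp]
  have e2 : a / (a * |σ|) = |σ|⁻¹ := by
    by_cases h : |σ| = 0
    · rw [h]; simp
    · field_simp
  rw [e2, mul_inv]
  apply le_of_eq
  field_simp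

lemma rpow_helper (y z a ε : ℝ) (hy : 0 < y) (hyz : y ≤ z) (ha : 0 < a) (hε0 : 0 < ε) (hε1 : ε ≤ 1)
    (n : ℕ) (hn : 1 ≤ n) :
    y ^ n * min ((y / a) ^ ε) ((a / y) ^ ε) ≤ z ^ n * min ((z / a) ^ ε) ((a / z) ^ ε) := by
  have hz : 0 < z := lt_of_lt_of_le hy hyz
  rw [mul_min_of_nonneg _ _ (by positivity : (0:ℝ) ≤ z ^ n)]
  refine le_min ?_ ?_
  · calc y ^ n * min ((y / a) ^ ε) ((a / y) ^ ε) ≤ y ^ n * (y / a) ^ ε := by
          gcongr; exact min_le_left _ _
      _ ≤ _ := by gcongr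
  · calc y ^ n * min ((y / a) ^ ε) ((a / y) ^ ε) ≤ y ^ n * (a / y) ^ ε := by
          gcongr; exact min_le_right _ _
      _ ≤ z ^ n * (a / z) ^ ε := by
          have key : ∀ w : ℝ, 0 < w → w ^ n * (a / w) ^ ε = a ^ ε * w ^ ((n : ℝ) - ε) := by
            intro w hw
            rw [Real.div_rpow ha.le hw.le, Real.rpow_sub hw, Real.rpow_natCast]
            ring
          rw [key y hy, key z hz]
          have hnε : 0 ≤ (n : ℝ) - ε := by
            have : (1 : ℝ) ≤ n := by exact_mod_cast hn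
            linarith
          gcongr

lemma Kf_le (hd : 1 ≤ d) (ε a x : ℝ) (ha : 0 < a) (hx : 0 < x) (hε0 : 0 < ε) (hε1 : ε ≤ 1) :
    Kf d ε a x ≤ 2 * 4 ^ d * (((x / 4) ^ (d - 1) * min ((x / 4 / a) ^ ε) ((a / (x / 4)) ^ ε)) * (x / 2)) := by
  unfold Kf
  have h4 : (4 : ℝ) ^ ε ≤ 4 := by
    calc (4 : ℝ) ^ ε ≤ 4 ^ (1 : ℝ) := Real.rpow_le_rpow_of_exponent_le (by norm_num) hε1
      _ = 4 := Real.rpow_one _
  have h41 : 1 ≤ (4 : ℝ) ^ ε := Real.one_le_rpow (by norm_num) hε0.le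
  have e1 : (x / a) ^ ε = (x / 4 / a) ^ ε * 4 ^ ε := by
    rw [← Real.mul_rpow (by positivity) (by norm_num)]
    congr 1; field_simp
  have e2 : (a / (x / 4)) ^ ε = (a / x) ^ ε * 4 ^ ε := by
    rw [← Real.mul_rpow (by positivity) (by norm_num)]
    congr 1; field_simp
  have h5 : min ((x / a) ^ ε) ((a / x) ^ ε) ≤ 4 * min ((x / 4 / a) ^ ε) ((a / (x / 4)) ^ ε) := by
    rw [mul_min_of_nonneg _ _ (by norm_num : (0:ℝ) ≤ 4)]
    refine le_min ?_ ?_
    · refine (min_le_left _ _).trans ?_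
      rw [e1, mul_comm]
      gcongr
    · refine (min_le_right _ _).trans ?_
      rw [e2]
      have : 0 ≤ (a / x) ^ ε := by positivity
      nlinarith
  obtain ⟨n, rfl⟩ : ∃ n, d = n + 1 := ⟨d - 1, by omega⟩
  rw [Nat.add_sub_cancel]
  calc x ^ (n + 1) * min ((x / a) ^ ε) ((a / x) ^ ε)
      ≤ x ^ (n + 1) * (4 * min ((x / 4 / a) ^ ε) ((a / (x / 4)) ^ ε)) := by gcongr
    _ = _ := by
        rw [div_pow x 4 n, pow_succ x n, pow_succ (4 : ℝ) n]
        field_simp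

lemma WB_ge (hd : 2 ≤ d) (B : Set (V d)) (hB : MeasurableSet B) (ε a : ℝ) (ha : 0 < a)
    (hε0 : 0 < ε) (hε1 : ε ≤ 1) (u : V d) (x : ℝ) (hx0 : 0 ≤ x)
    (hx : ENNReal.ofReal x ≤ volume {τ : ℝ | τ • u ∈ B}) :
    ENNReal.ofReal (Kf d ε a x) ≤ ENNReal.ofReal (2 * 4 ^ d) * WB B ε a u := by
  rcases eq_or_lt_of_le hx0 with h0 | h0
  · rw [← h0]
    have : Kf d ε a 0 = 0 := by
      unfold Kf
      rw [zero_pow (by omega), zero_mul]
    rw [this, ENNReal.ofReal_zero]; exact zero_le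
  set S : Set ℝ := {τ : ℝ | τ • u ∈ B} with hS
  have hSm : MeasurableSet S := (by fun_prop : Measurable (fun τ : ℝ => τ • u)) hB
  have h1 := half_far' hx
  have hTm : MeasurableSet (S ∩ {t : ℝ | x / 4 ≤ |t|}) :=
    hSm.inter (measurableSet_le measurable_const (by fun_prop))
  set W : ℝ := (x / 4) ^ (d - 1) * min ((x / 4 / a) ^ ε) ((a / (x / 4)) ^ ε) with hW
  have hW0 : 0 ≤ W := by positivity
  have h2 : ENNReal.ofReal (W * (x / 2)) ≤ WB B ε a u := by
    calc ENNReal.ofReal (W * (x / 2)) = ENNReal.ofReal W * ENNReal.ofReal (x / 2) :=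
          ENNReal.ofReal_mul hW0
      _ ≤ ENNReal.ofReal W * volume (S ∩ {t : ℝ | x / 4 ≤ |t|}) := by gcongr
      _ = ∫⁻ τ : ℝ in S ∩ {t : ℝ | x / 4 ≤ |t|}, ENNReal.ofReal W := by rw [setLIntegral_const]
      _ ≤ ∫⁻ τ : ℝ in S ∩ {t : ℝ | x / 4 ≤ |t|}, ENNReal.ofReal (ww d ε a τ) := by
          refine setLIntegral_mono' hTm fun τ hτ => ?_
          apply ENNReal.ofReal_le_ofReal
          have h3 : x / 4 ≤ |τ| := hτ.2
          exact rpow_helper (x / 4) |τ| a ε (by positivity) h3 ha hε0 hε1 (d - 1) (by omega)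
      _ = ∫⁻ τ : ℝ, (S ∩ {t : ℝ | x / 4 ≤ |t|}).indicator (fun τ => ENNReal.ofReal (ww d ε a τ)) τ := by
          rw [lintegral_indicator hTm]
      _ ≤ WB B ε a u := by
          unfold WB
          refine lintegral_mono fun τ => ?_
          by_cases hτ : τ ∈ S ∩ {t : ℝ | x / 4 ≤ |t|}
          · rw [indicator_of_mem hτ, indicator_of_mem (show τ • u ∈ B from hτ.1)]
            simp
          · rw [indicator_of_notMem hτ]; exact zero_le
  calc ENNReal.ofReal (Kf d ε a x) ≤ ENNReal.ofReal (2 * 4 ^ d * (W * (x / 2))) :=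
        ENNReal.ofReal_le_ofReal (Kf_le (by omega) ε a x ha h0 hε0 hε1)
    _ = ENNReal.ofReal (2 * 4 ^ d) * ENNReal.ofReal (W * (x / 2)) := ENNReal.ofReal_mul (by positivity)
    _ ≤ _ := by gcongr

end Run7.h567
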