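import Pool.Agent.Run7.h567.Core

set_option autoImplicit false

open MeasureTheory ENNReal Set

namespace Run7.h567

section
variable {α : Type*} [MeasurableSpace α] (μ : Measure α)

/-- if `f x * μ {f ≥ f x} ≤ c` on a subset `S` of `{f ≥ a}`, then `a * μ S ≤ c` -/
lemma star_aux (f : α → ℝ) (c : ℝ≥0∞) (a : ℝ) (S : Set α)
    (hS : ∀ x ∈ S, a ≤ f x ∧ ENNReal.ofReal (f x) * μ {y | f x ≤ f y} ≤ c) :
    ENNReal.ofReal a * μ S ≤ c := by
  rcases S.eq_empty_or_nonempty with rfl | hne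
  · simp
  have hne' : (f '' S).Nonempty := hne.image f
  have hbdd : BddBelow (f '' S) := ⟨a, by rintro _ ⟨x, hx, rfl⟩; exact (hS x hx).1⟩
  have key : ∀ u ∈ f '' S, ENNReal.ofReal a * μ {y | u ≤ f y} ≤ c := by
    rintro _ ⟨x, hx, rfl⟩
    refine le_trans ?_ (hS x hx).2
    gcongr
    exact (hS x hx).1
  by_cases hmem : sInf (f '' S) ∈ f '' S
  · refine le_trans ?_ (key _ hmem)
    refine mul_le_mul' le_rfl (measure_mono ?_)
    intro x hx
    exact csInf_le hbdd ⟨x, hx, rfl⟩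
  · obtain ⟨u, hu, hlim, hmu⟩ := exists_seq_tendsto_sInf hne' hbdd
    have hsub : S ⊆ ⋃ n, {y | u n ≤ f y} := by
      intro x hx
      have h1 : sInf (f '' S) < f x := lt_of_le_of_ne (csInf_le hbdd ⟨x, hx, rfl⟩)
        (fun h => hmem (h ▸ ⟨x, hx, rfl⟩))
      obtain ⟨n, hn⟩ := (hlim.eventually (gt_mem_nhds h1)).exists
      exact mem_iUnion.2 ⟨n, le_of_lt hn⟩
    have hmono : Monotone (fun n => {y | u n ≤ f y}) := fun i j hij y hy => (hu hij).trans hy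
    calc ENNReal.ofReal a * μ S ≤ ENNReal.ofReal a * μ (⋃ n, {y | u n ≤ f y}) := by gcongr
      _ = ENNReal.ofReal a * ⨆ n, μ {y | u n ≤ f y} := by rw [hmono.measure_iUnion]
      _ = ⨆ n, ENNReal.ofReal a * μ {y | u n ≤ f y} := ENNReal.mul_iSup _ _
      _ ≤ c := iSup_le fun n => key _ (hmu n)

/-- almost everywhere the super-level set is not null -/
lemma ae_N (f : α → ℝ) (f0 : ∀ x, 0 ≤ f x) (N : α → ℝ≥0∞)
    (hN : ∀ x, N x = μ {y | f x ≤ f y}) : ∀ᵐ x ∂μ, f x = 0 ∨ N x ≠ 0 := by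
  rw [ae_iff]
  have h1 : ∀ n : ℕ, μ {x | 1 / ((n : ℝ) + 1) ≤ f x ∧ N x = 0} = 0 := by
    intro n
    have h2 := star_aux μ f 0 (1 / ((n : ℝ) + 1)) {x | 1 / ((n : ℝ) + 1) ≤ f x ∧ N x = 0}
      (fun x hx => ⟨hx.1, by rw [← hN x, hx.2, mul_zero]⟩)
    have h3 : ENNReal.ofReal (1 / ((n : ℝ) + 1)) ≠ 0 := by
      simp only [ne_eq, ENNReal.ofReal_eq_zero, not_le]; positivity
    rcases mul_eq_zero.1 (le_antisymm h2 zero_le) with h | h
    · exact absurd h h3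
    · exact h
  refine measure_mono_null ?_ (measure_iUnion_null h1)
  intro x hx
  simp only [mem_ofPred_eq, not_or, not_not] at hx
  have hpos : 0 < f x := lt_of_le_of_ne (f0 x) (Ne.symm hx.1)
  obtain ⟨n, hn⟩ := exists_nat_one_div_lt hpos
  exact mem_iUnion.2 ⟨n, hn.le, hx.2⟩

/-- embedding of a Lorentz space into a Lebesgue space, with constant one -/
lemma lorentz (f : α → ℝ) (hf : Measurable f) (f0 : ∀ x, 0 ≤ f x) (N : α → ℝ≥0∞)
    (hN : ∀ x, N x = μ {y | f x ≤ f y}) (hNfin : ∀ x, 0 < f x → N x ≠ ∞) (ε q r : ℝ)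
    (hq : q = 1 - ε) (hq0 : 0 < q) (hε : 0 ≤ ε) (hr : 0 < r) :
    (∫⁻ x, ENNReal.ofReal (f x) ^ (r / q) ∂μ) ^ q ≤
      ∫⁻ x, ENNReal.ofReal (f x) ^ r * (N x ^ ε)⁻¹ ∂μ := by
  set I := ∫⁻ x, ENNReal.ofReal (f x) ^ r * (N x ^ ε)⁻¹ ∂μ with hI
  by_cases hIt : I = ∞
  · rw [hIt]; exact le_top
  have step1 : ∀ x0, 0 < f x0 → N x0 ≠ 0 → ENNReal.ofReal (f x0) ^ r * N x0 ^ q ≤ I := by
    intro x0 h0 hN0
    have hms : MeasurableSet {y | f x0 ≤ f y} := measurableSet_le measurable_const hf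
    calc ENNReal.ofReal (f x0) ^ r * N x0 ^ q
        = ENNReal.ofReal (f x0) ^ r * (N x0 ^ ε)⁻¹ * N x0 := by
          rw [hq, ENNReal.rpow_sub _ _ hN0 (hNfin x0 h0), ENNReal.rpow_one, div_eq_mul_inv]
          ring
      _ = ∫⁻ x in {y | f x0 ≤ f y}, ENNReal.ofReal (f x0) ^ r * (N x0 ^ ε)⁻¹ ∂μ := by
          rw [setLIntegral_const, ← hN x0]
      _ ≤ ∫⁻ x in {y | f x0 ≤ f y}, ENNReal.ofReal (f x) ^ r * (N x ^ ε)⁻¹ ∂μ := by
          refine setLIntegral_mono' hms fun x hx => ?_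
          have h1 : f x0 ≤ f x := hx
          have h2 : N x ≤ N x0 := by
            rw [hN, hN]
            exact measure_mono fun y hy => h1.trans hy
          gcongr
      _ ≤ I := setLIntegral_le_lintegral _ _
  have step2 : ∀ᵐ x ∂μ, f x = 0 ∨ N x ≠ 0 := ae_N μ f f0 N hN
  have step3 : ∀ᵐ x ∂μ, ENNReal.ofReal (f x) ^ (r / q) ≤
      ENNReal.ofReal (f x) ^ r * (N x ^ ε)⁻¹ * I ^ (ε / q) := by
    filter_upwards [step2] with x hx
    by_cases h0 : f x = 0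
    · rw [h0]
      simp only [ENNReal.ofReal_zero]
      rw [ENNReal.zero_rpow_of_pos (by positivity)]
      exact zero_le
    have hN0 : N x ≠ 0 := hx.resolve_left h0
    have hpos : 0 < f x := lt_of_le_of_ne (f0 x) (Ne.symm h0)
    have hNt := hNfin x hpos
    have ha0 : ENNReal.ofReal (f x) ≠ 0 := by
      simp only [ne_eq, ENNReal.ofReal_eq_zero, not_le]; exact hpos
    have hNe0 : N x ^ ε ≠ 0 := by
      simp only [ne_eq, ENNReal.rpow_eq_zero_iff, not_or, not_and]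
      exact ⟨fun h => absurd h hN0, fun h => absurd h hNt⟩
    have hNet : N x ^ ε ≠ ∞ := ENNReal.rpow_ne_top_of_nonneg hε hNt
    calc ENNReal.ofReal (f x) ^ (r / q)
        = ENNReal.ofReal (f x) ^ r * (N x ^ ε)⁻¹ * (ENNReal.ofReal (f x) ^ r * N x ^ q) ^ (ε / q) := by
          rw [ENNReal.mul_rpow_of_nonneg _ _ (by positivity), ← ENNReal.rpow_mul, ← ENNReal.rpow_mul,
            show q * (ε / q) = ε by field_simp]
          have e1 : r / q = r + r * (ε / q) := by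
            field_simp; rw [hq]; ring
          rw [e1, ENNReal.rpow_add _ _ ha0 ENNReal.ofReal_ne_top]
          calc _ = ENNReal.ofReal (f x) ^ r * ENNReal.ofReal (f x) ^ (r * (ε / q)) * 1 := by ring
            _ = ENNReal.ofReal (f x) ^ r * ENNReal.ofReal (f x) ^ (r * (ε / q)) *
                ((N x ^ ε)⁻¹ * N x ^ ε) := by rw [ENNReal.inv_mul_cancel hNe0 hNet]
            _ = _ := by ring
      _ ≤ _ := by
          gcongr
          exact step1 x hpos hN0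
  calc (∫⁻ x, ENNReal.ofReal (f x) ^ (r / q) ∂μ) ^ q
      ≤ (∫⁻ x, ENNReal.ofReal (f x) ^ r * (N x ^ ε)⁻¹ * I ^ (ε / q) ∂μ) ^ q := by
        gcongr ?_ ^ q
        exact lintegral_mono_ae step3
    _ = (I * I ^ (ε / q)) ^ q := by
        rw [lintegral_mul_const' _ _ (ENNReal.rpow_ne_top_of_nonneg (by positivity) hIt)]
    _ = I ^ q * I ^ ε := by
        rw [ENNReal.mul_rpow_of_nonneg _ _ hq0.le, ← ENNReal.rpow_mul,
          show ε / q * q = ε by field_simp]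
    _ = I := by
        rw [← ENNReal.rpow_add_of_nonneg _ _ hq0.le hε, hq, sub_add_cancel, ENNReal.rpow_one]

end

variable {d : ℕ}

/-- number of parallel lines that are at least as long -/
noncomputable def Nl (E : Set (ℝ × V d)) (ℓ : V d × V d) : ℝ≥0∞ :=
  volume {y : V d | A E ℓ ≤ A E (y, ℓ.2)}

lemma measurable_Nl {E : Set (ℝ × V d)} (hE : MeasurableSet E) : Measurable (Nl E) := by
  have hA := measurable_A hE
  have h : MeasurableSet {p : (V d × V d) × V d | A E p.1 ≤ A E (p.2, p.1.2)} :=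
    measurableSet_le (f := fun p : (V d × V d) × V d => A E p.1)
      (g := fun p : (V d × V d) × V d => A E (p.2, p.1.2)) (by fun_prop)
      (hA.comp (f := fun p : (V d × V d) × V d => (p.2, p.1.2)) (by fun_prop))
  exact measurable_measure_prodMk_left h

lemma lintegral_F {E : Set (ℝ × V d)} (hE : MeasurableSet E) (v : V d) :
    ∫⁻ x : V d, F E (x, v) = volume E := by
  have h := lintegral_shear v (E.indicator 1) (measurable_one.indicator hE)
  rw [lintegral_indicator_one hE] at h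
  rw [← h]
  refine lintegral_congr fun x => ?_
  unfold F
  rw [← lintegral_indicator_one (measurableSet_Sec hE _)]
  refine lintegral_congr fun t => ?_
  by_cases ht : (t, x + t • v) ∈ E
  · rw [indicator_of_mem ht, indicator_of_mem (show t ∈ Sec E (x, v) from ht)]; rfl
  · rw [indicator_of_notMem ht, indicator_of_notMem (show t ∉ Sec E (x, v) from ht)]

lemma A_mul_Nl {E : Set (ℝ × V d)} (hE : MeasurableSet E) (ℓ : V d × V d) :
    ENNReal.ofReal (A E ℓ) * Nl E ℓ ≤ volume E := by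
  have hA := measurable_A hE
  have hms : MeasurableSet {y : V d | A E ℓ ≤ A E (y, ℓ.2)} :=
    measurableSet_le (f := fun _ : V d => A E ℓ) (g := fun y : V d => A E (y, ℓ.2)) (by fun_prop)
      (hA.comp (f := fun y : V d => (y, ℓ.2)) (by fun_prop))
  calc _ = ∫⁻ y in {y : V d | A E ℓ ≤ A E (y, ℓ.2)}, ENNReal.ofReal (A E ℓ) := by
        rw [setLIntegral_const, Nl]
    _ ≤ ∫⁻ y in {y : V d | A E ℓ ≤ A E (y, ℓ.2)}, F E (y, ℓ.2) := by
        refine setLIntegral_mono' hms fun y hy => ?_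
        refine le_trans (ENNReal.ofReal_le_ofReal hy) ?_
        exact ENNReal.ofReal_toReal_le
    _ ≤ ∫⁻ y : V d, F E (y, ℓ.2) := setLIntegral_le_lintegral _ _
    _ = volume E := lintegral_F hE ℓ.2

/-- the sets on which the core bound is applied -/
def Gk (E : Set (ℝ × V d)) (κ : ℝ≥0∞) : Set (V d × V d) :=
  {ℓ | 0 < A E ℓ ∧ ENNReal.ofReal (A E ℓ) * Nl E ℓ ≤ κ * volume E}

lemma measurableSet_Gk {E : Set (ℝ × V d)} (hE : MeasurableSet E) (κ : ℝ≥0∞) :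
    MeasurableSet (Gk E κ) := by
  have hA := measurable_A hE
  have hN := measurable_Nl hE
  exact (measurableSet_lt measurable_const hA).inter
    (measurableSet_le (hA.ennreal_ofReal.mul hN) measurable_const)

lemma Gk_F {E : Set (ℝ × V d)} (κ : ℝ≥0∞) : ∀ ℓ ∈ Gk E κ, F E ℓ ≠ 0 ∧ F E ℓ ≠ ∞ := by
  intro ℓ hℓ
  have := ENNReal.toReal_pos_iff.1 hℓ.1
  exact ⟨this.1.ne', this.2.ne⟩

lemma Gk_star {E : Set (ℝ × V d)} (κ : ℝ≥0∞) (v : V d) (a : ℝ) :
    ENNReal.ofReal a * volume {x : V d | (x, v) ∈ Gk E κ ∧ a ≤ A E (x, v)} ≤ κ * volume E := by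
  refine star_aux volume (fun x : V d => A E (x, v)) _ a _ ?_
  intro x hx
  exact ⟨hx.2, hx.1.2⟩

/-- pointwise dyadic bound -/
lemma dyadic_bound (X m : ℝ≥0∞) (hX : X ≠ 0) (hXm : X ≤ m) (hm : m ≠ ∞) (ε : ℝ) (hε : 0 ≤ ε) :
    (X ^ ε)⁻¹ ≤ (m ^ ε)⁻¹ * ∑' k : ℕ, ENNReal.ofReal (2 ^ ε * ((2:ℝ) ^ ε) ^ k) *
      {Y : ℝ≥0∞ | Y ≤ ENNReal.ofReal ((1 / 2) ^ k) * m}.indicator 1 X := by
  have hXt : X ≠ ∞ := ne_top_of_le_ne_top hm hXm
  have hm0 : m ≠ 0 := fun h => hX (le_antisymm (h ▸ hXm) zero_le)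
  set x := X.toReal with hx
  set mu := m.toReal with hmu
  have hx0 : 0 < x := ENNReal.toReal_pos hX hXt
  have hmu0 : 0 < mu := ENNReal.toReal_pos hm0 hm
  have hXe : X = ENNReal.ofReal x := (ENNReal.ofReal_toReal hXt).symm
  have hme : m = ENNReal.ofReal mu := (ENNReal.ofReal_toReal hm).symm
  have hle : x / mu ≤ 1 := by
    rw [div_le_one hmu0]
    exact ENNReal.toReal_mono hm hXm
  obtain ⟨k, hk1, hk2⟩ := exists_nat_pow_near_of_lt_one (x := x / mu) (y := (1 / 2 : ℝ))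
    (by positivity) hle (by norm_num) (by norm_num)
  have hmem : X ∈ {Y : ℝ≥0∞ | Y ≤ ENNReal.ofReal ((1 / 2) ^ k) * m} := by
    simp only [mem_ofPred_eq]
    rw [hXe, hme, ← ENNReal.ofReal_mul (by positivity)]
    apply ENNReal.ofReal_le_ofReal
    rwa [div_le_iff₀ hmu0] at hk2
  refine le_trans ?_ (mul_le_mul' le_rfl (ENNReal.le_tsum k))
  rw [indicator_of_mem hmem, Pi.one_apply, mul_one, hXe, hme,
    ENNReal.ofReal_rpow_of_pos hx0, ENNReal.ofReal_rpow_of_pos hmu0,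
    ← ENNReal.ofReal_inv_of_pos (by positivity), ← ENNReal.ofReal_inv_of_pos (by positivity),
    ← ENNReal.ofReal_mul (by positivity)]
  apply ENNReal.ofReal_le_ofReal
  have h1 : (1 / 2 : ℝ) ^ (k + 1) * mu ≤ x := by
    rw [lt_div_iff₀ hmu0] at hk1; exact hk1.le
  have h2 : ((1 / 2 : ℝ) ^ (k + 1) * mu) ^ ε ≤ x ^ ε := Real.rpow_le_rpow (by positivity) h1 hε
  have h3 : ((1 / 2 : ℝ) ^ (k + 1) * mu) ^ ε = (2 ^ ε * ((2:ℝ) ^ ε) ^ k)⁻¹ * mu ^ ε := by
    rw [Real.mul_rpow (by positivity) hmu0.le]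
    congr 1
    rw [one_div, inv_pow, Real.inv_rpow (by positivity), ← Real.rpow_natCast, ← Real.rpow_mul (by norm_num),
      mul_comm, Real.rpow_mul (by norm_num), Real.rpow_natCast, pow_succ]
    rw [mul_comm]
  rw [h3] at h2
  have h4 : 0 < x ^ ε := by positivity
  have h5 : 0 < mu ^ ε := by positivity
  have h6 : 0 < 2 ^ ε * ((2:ℝ) ^ ε) ^ k := by positivity
  rw [inv_le_iff_one_le_mul₀ h4]
  rw [inv_mul_le_iff₀ h6] at h2
  calc (1 : ℝ) = (mu ^ ε)⁻¹ * mu ^ ε := by field_simp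
    _ ≤ (mu ^ ε)⁻¹ * (2 ^ ε * (2 ^ ε) ^ k * x ^ ε) := by gcongr
    _ = _ := by ring

end Run7.h567
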