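import Pool.Agent.Run7.h567.Lor

set_option autoImplicit false

open MeasureTheory ENNReal Set

namespace Run7.h567

variable {d : ℕ}

lemma geom_finite (e ε : ℝ) (h : ε < e) :
    ∑' k : ℕ, ENNReal.ofReal (2 ^ ε * ((2:ℝ) ^ ε) ^ k) * ENNReal.ofReal ((1 / 2) ^ k) ^ e ≠ ∞ := by
  have e1 : ∀ k : ℕ, ENNReal.ofReal (2 ^ ε * ((2:ℝ) ^ ε) ^ k) * ENNReal.ofReal ((1 / 2) ^ k) ^ e =
      ENNReal.ofReal (2 ^ ε) * ENNReal.ofReal (2 ^ (ε - e)) ^ k := by
    intro k
    rw [ENNReal.ofReal_rpow_of_pos (by positivity), ← ENNReal.ofReal_pow (by positivity),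
      ← ENNReal.ofReal_mul (by positivity), ← ENNReal.ofReal_mul (by positivity), mul_assoc]
    congr 2
    rw [one_div, inv_pow, Real.inv_rpow (by positivity), Real.rpow_sub (by norm_num), div_pow,
      div_eq_mul_inv]
    congr 2
    rw [← Real.rpow_natCast, ← Real.rpow_natCast, ← Real.rpow_mul (by norm_num),
      ← Real.rpow_mul (by norm_num), mul_comm]
  simp_rw [e1]
  rw [ENNReal.tsum_mul_left, ENNReal.tsum_geometric]
  refine ENNReal.mul_ne_top ENNReal.ofReal_ne_top ?_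
  rw [ne_eq, ENNReal.inv_eq_top, tsub_eq_zero_iff_le, not_le]
  rw [ENNReal.ofReal_lt_one]
  exact Real.rpow_lt_one_of_one_lt_of_neg (by norm_num) (by linarith)

/-- mixed norm estimate for indicator functions -/
theorem restricted (e ε : ℝ) (hcore : CoreBound d e) (hε0 : 0 ≤ ε) (hεe : ε < e) (hε1 : ε < 1) :
    ∃ C : NNReal, ∀ E : Set (ℝ × V d), MeasurableSet E → volume E ≠ ∞ →
      ∫⁻ v : V d, (∫⁻ x : V d, F E (x, v) ^ (((d : ℝ) + 2 - ε) / (1 - ε))) ^ (1 - ε) ≤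
        C * volume E ^ (2 - ε) := by
  obtain ⟨C0, hC0⟩ := hcore
  set q : ℝ := 1 - ε with hq
  set r : ℝ := (d : ℝ) + 2 - ε with hr
  have hq0 : 0 < q := by rw [hq]; linarith
  have hr0 : 0 < r := by
    have : (0:ℝ) ≤ d := Nat.cast_nonneg d
    rw [hr]; linarith
  set S : ℝ≥0∞ := ∑' k : ℕ, ENNReal.ofReal (2 ^ ε * ((2:ℝ) ^ ε) ^ k) * ENNReal.ofReal ((1 / 2) ^ k) ^ e with hS
  have hSf : S ≠ ∞ := geom_finite e ε hεe
  have hCf : (C0 : ℝ≥0∞) * S ≠ ∞ := ENNReal.mul_ne_top ENNReal.coe_ne_top hSf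
  refine ⟨((C0 : ℝ≥0∞) * S).toNNReal, fun E hE hEf => ?_⟩
  rw [ENNReal.coe_toNNReal hCf]
  have hFm : ∀ v : V d, Measurable (fun x : V d => F E (x, v)) := fun v =>
    (measurable_F hE).comp (f := fun x : V d => (x, v)) (by fun_prop)
  have hAm := measurable_A hE
  have hNm := measurable_Nl hE
  by_cases hm0 : volume E = 0
  · have h1 : ∀ v : V d, (∫⁻ x : V d, F E (x, v) ^ (r / q)) ^ q = 0 := by
      intro v
      have h2 : (fun x : V d => F E (x, v)) =ᵐ[volume] 0 :=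
        (lintegral_eq_zero_iff (hFm v)).1 ((lintegral_F hE v).trans hm0)
      have h3 : ∫⁻ x : V d, F E (x, v) ^ (r / q) = 0 := by
        rw [lintegral_eq_zero_iff ((hFm v).pow_const _)]
        filter_upwards [h2] with x hx
        simp only [Pi.zero_apply] at hx ⊢
        rw [hx, ENNReal.zero_rpow_of_pos (by positivity)]
      rw [h3, ENNReal.zero_rpow_of_pos hq0]
    simp [h1]
  set m := volume E with hm
  set w : ℕ → ℝ≥0∞ := fun k => ENNReal.ofReal (2 ^ ε * ((2:ℝ) ^ ε) ^ k) with hw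
  set κ : ℕ → ℝ≥0∞ := fun k => ENNReal.ofReal ((1 / 2) ^ k) with hκ
  have hwt : ∀ k, Measurable (wt E (Gk E (κ k)) (d + 2)) := fun k =>
    measurable_wt hE (measurableSet_Gk hE _) _
  have hv : ∀ v : V d, (∫⁻ x : V d, F E (x, v) ^ (r / q)) ^ q ≤
      ∫⁻ x : V d, (m ^ ε)⁻¹ * ∑' k : ℕ, w k * wt E (Gk E (κ k)) (d + 2) (x, v) := by
    intro v
    have h1 : ∀ᵐ x : V d, F E (x, v) < ∞ :=
      ae_lt_top (hFm v) (by rw [lintegral_F hE v]; exact hEf)
    have h2 : ∫⁻ x : V d, F E (x, v) ^ (r / q) = ∫⁻ x : V d, ENNReal.ofReal (A E (x, v)) ^ (r / q) := by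
      refine lintegral_congr_ae ?_
      filter_upwards [h1] with x hx
      rw [← F_eq hx.ne]
    have hNfin : ∀ x : V d, 0 < A E (x, v) → Nl E (x, v) ≠ ∞ := by
      intro x hx h
      have := A_mul_Nl hE (x, v)
      rw [h, ENNReal.mul_top (by simpa using hx)] at this
      exact hEf (top_le_iff.1 this)
    rw [h2]
    refine (lorentz volume (fun x : V d => A E (x, v)) (hAm.comp (by fun_prop)) (fun x => A_nonneg _ _)
      (fun x : V d => Nl E (x, v)) (fun x => rfl) hNfin ε q r hq hq0 hε0 hr0).trans ?_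
    refine lintegral_mono_ae ?_
    filter_upwards [ae_N volume (fun x : V d => A E (x, v)) (fun x => A_nonneg _ _)
      (fun x : V d => Nl E (x, v)) (fun x => rfl)] with x hx
    by_cases h0 : A E (x, v) = 0
    · rw [h0, ENNReal.ofReal_zero, ENNReal.zero_rpow_of_pos hr0, zero_mul]
      exact zero_le
    have hpos : 0 < A E (x, v) := lt_of_le_of_ne (A_nonneg _ _) (Ne.symm h0)
    have hN0 : Nl E (x, v) ≠ 0 := hx.resolve_left h0
    have hNt := hNfin x hpos
    set a := ENNReal.ofReal (A E (x, v)) with ha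
    have ha0 : a ≠ 0 := by
      rw [ha]; simp only [ne_eq, ENNReal.ofReal_eq_zero, not_le]; exact hpos
    have hat : a ≠ ∞ := ENNReal.ofReal_ne_top
    have hae0 : a ^ ε ≠ 0 := by
      simp only [ne_eq, ENNReal.rpow_eq_zero_iff, not_or, not_and]
      exact ⟨fun h => absurd h ha0, fun h => absurd h hat⟩
    have haet : a ^ ε ≠ ∞ := ENNReal.rpow_ne_top_of_nonneg hε0 hat
    have hX := dyadic_bound (a * Nl E (x, v)) m (mul_ne_zero ha0 hN0) (A_mul_Nl hE (x, v)) hEf ε hε0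
    have e1 : a ^ r * (Nl E (x, v) ^ ε)⁻¹ = a ^ (d + 2) * ((a * Nl E (x, v)) ^ ε)⁻¹ := by
      rw [ENNReal.mul_rpow_of_nonneg _ _ hε0, ENNReal.mul_inv (Or.inl hae0) (Or.inl haet)]
      have : a ^ (d + 2) = a ^ r * a ^ ε := by
        rw [← ENNReal.rpow_add _ _ ha0 hat, hr, ← ENNReal.rpow_natCast]
        congr 1; push_cast; ring
      rw [this]
      calc _ = a ^ r * 1 * (Nl E (x, v) ^ ε)⁻¹ := by ring
        _ = a ^ r * (a ^ ε * (a ^ ε)⁻¹) * (Nl E (x, v) ^ ε)⁻¹ := by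
            rw [ENNReal.mul_inv_cancel hae0 haet]
        _ = _ := by ring
    rw [e1]
    calc a ^ (d + 2) * ((a * Nl E (x, v)) ^ ε)⁻¹
        ≤ a ^ (d + 2) * ((m ^ ε)⁻¹ * ∑' k : ℕ, w k *
          {Y : ℝ≥0∞ | Y ≤ κ k * m}.indicator 1 (a * Nl E (x, v))) := by gcongr
      _ = (m ^ ε)⁻¹ * ∑' k : ℕ, w k * (a ^ (d + 2) *
          {Y : ℝ≥0∞ | Y ≤ κ k * m}.indicator 1 (a * Nl E (x, v))) := by
          rw [← mul_assoc, mul_comm (a ^ (d + 2)), mul_assoc, ← ENNReal.tsum_mul_left]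
          congr 2
          ext k
          ring
      _ ≤ _ := by
          gcongr with k
          by_cases hk : a * Nl E (x, v) ≤ κ k * m
          · have h5 : a * Nl E (x, v) ∈ {Y : ℝ≥0∞ | Y ≤ κ k * m} := hk
            have h6 : (x, v) ∈ Gk E (κ k) := ⟨hpos, hk⟩
            rw [indicator_of_mem h5]
            simp only [wt, indicator_of_mem h6, Pi.one_apply, mul_one]
            rw [ha, ENNReal.ofReal_pow hpos.le]
          · have h5 : a * Nl E (x, v) ∉ {Y : ℝ≥0∞ | Y ≤ κ k * m} := hk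
            rw [indicator_of_notMem h5, mul_zero]
            exact zero_le
  have hsum : Measurable (fun p : V d × V d => ∑' k : ℕ, w k * wt E (Gk E (κ k)) (d + 2) p) :=
    Measurable.ennreal_tsum fun k => (hwt k).const_mul _
  calc ∫⁻ v : V d, (∫⁻ x : V d, F E (x, v) ^ (r / q)) ^ q
      ≤ ∫⁻ v : V d, ∫⁻ x : V d, (m ^ ε)⁻¹ * ∑' k : ℕ, w k * wt E (Gk E (κ k)) (d + 2) (x, v) :=
        lintegral_mono hv
    _ = ∫⁻ p : V d × V d, (m ^ ε)⁻¹ * ∑' k : ℕ, w k * wt E (Gk E (κ k)) (d + 2) p := by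
        rw [Measure.volume_eq_prod (V d) (V d), lintegral_prod_symm _ (by fun_prop)]
    _ = (m ^ ε)⁻¹ * ∑' k : ℕ, w k * Phi E (Gk E (κ k)) := by
        rw [lintegral_const_mul _ hsum, lintegral_tsum (fun k => ((hwt k).const_mul _).aemeasurable)]
        congr 2
        ext k
        rw [lintegral_const_mul _ (hwt k)]
        rfl
    _ ≤ (m ^ ε)⁻¹ * ∑' k : ℕ, w k * (C0 * κ k ^ e * m ^ 2) := by
        gcongr with k
        exact hC0 E (Gk E (κ k)) (κ k) hE (measurableSet_Gk hE _) hEf (Gk_F _)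
          (fun v a _ => Gk_star _ v a)
    _ = (C0 * S) * ((m ^ ε)⁻¹ * m ^ 2) := by
        have : ∀ k, w k * (C0 * κ k ^ e * m ^ 2) = (w k * κ k ^ e) * (C0 * m ^ 2) := by
          intro k; ring
        simp_rw [this]
        rw [ENNReal.tsum_mul_right, ← hS]
        ring
    _ = (C0 * S) * m ^ (2 - ε) := by
        congr 1
        rw [ENNReal.rpow_sub _ _ hm0 hEf, div_eq_mul_inv, mul_comm]
        norm_num

end Run7.h567
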