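import Pool.Agent.Run7.h567.Dil
import Pool.Agent.Run7.h567.One
import Pool.Agent.Run7.h567.Carl

set_option autoImplicit false

open MeasureTheory ENNReal Set

namespace Run7.h567

/-- truncated kernel -/
noncomputable def kern (d : ℕ) (M t s : ℝ) : ℝ≥0∞ :=
  {p : ℝ × ℝ | M ≤ |p.2 - p.1|}.indicator (fun p => ENNReal.ofReal ((|p.2 - p.1|⁻¹) ^ (d - 1))) (t, s)

lemma measurable_kern (d : ℕ) (M : ℝ) : Measurable (fun p : ℝ × ℝ => kern d M p.1 p.2) := by
  unfold kern
  refine Measurable.indicator (by fun_prop) ?_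
  exact measurableSet_le (f := fun _ : ℝ × ℝ => M) (g := fun p : ℝ × ℝ => |p.2 - p.1|)
    (by fun_prop) (by fun_prop)

lemma kern_symm (d : ℕ) (M t s : ℝ) : kern d M t s = kern d M s t := by
  unfold kern
  by_cases h : M ≤ |s - t|
  · have h1 : (t, s) ∈ {p : ℝ × ℝ | M ≤ |p.2 - p.1|} := h
    have h2 : (s, t) ∈ {p : ℝ × ℝ | M ≤ |p.2 - p.1|} := by
      simp only [mem_ofPred_eq]; rwa [abs_sub_comm]
    rw [indicator_of_mem h1, indicator_of_mem h2]
    simp only [abs_sub_comm s t]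
  · have h1 : (t, s) ∉ {p : ℝ × ℝ | M ≤ |p.2 - p.1|} := h
    have h2 : (s, t) ∉ {p : ℝ × ℝ | M ≤ |p.2 - p.1|} := by
      simp only [mem_ofPred_eq]; rwa [abs_sub_comm]
    rw [indicator_of_notMem h1, indicator_of_notMem h2]

/-- tail integral -/
noncomputable def C1 (r : ℝ) : ℝ≥0∞ :=
  ∫⁻ σ : ℝ, {σ : ℝ | 1 ≤ |σ|}.indicator (fun σ => ENNReal.ofReal (|σ| ^ (-r))) σ

lemma C1_ne_top (r : ℝ) (hr : 1 < r) : C1 r ≠ ∞ := by
  unfold C1
  set h : ℝ → ℝ≥0∞ := fun x => (Ici (1:ℝ)).indicator (fun x => ENNReal.ofReal (x ^ (-r))) x with hh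
  have h1 : ∫⁻ σ : ℝ, {σ : ℝ | 1 ≤ |σ|}.indicator (fun σ => ENNReal.ofReal (|σ| ^ (-r))) σ ≤
      ∫⁻ σ : ℝ, h |σ| := by
    refine lintegral_mono fun σ => ?_
    by_cases hσ : 1 ≤ |σ|
    · have m1 : σ ∈ {σ : ℝ | 1 ≤ |σ|} := hσ
      have m2 : |σ| ∈ Ici (1:ℝ) := hσ
      rw [indicator_of_mem m1, hh]
      simp only [indicator_of_mem m2]; exact le_rfl
    · have m1 : σ ∉ {σ : ℝ | 1 ≤ |σ|} := hσ
      rw [indicator_of_notMem m1]; exact zero_le
  refine ne_top_of_le_ne_top ?_ (h1.trans (lint_abs h))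
  refine ENNReal.mul_ne_top (by norm_num) ?_
  have hI : ∫⁻ x in Ioi (0:ℝ), h x ≤ ∫⁻ x in Ioi (1/2 : ℝ), ENNReal.ofReal (x ^ (-r)) := by
    rw [← lintegral_indicator measurableSet_Ioi, ← lintegral_indicator measurableSet_Ioi]
    refine lintegral_mono fun x => ?_
    by_cases hx : x ∈ Ici (1:ℝ)
    · have m2 : x ∈ Ioi (1/2:ℝ) := lt_of_lt_of_le (by norm_num) (mem_Ici.1 hx)
      have m3 : x ∈ Ioi (0:ℝ) := lt_of_lt_of_le (by norm_num) (mem_Ici.1 hx)
      rw [indicator_of_mem m2, indicator_of_mem m3, hh]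
      simp only [indicator_of_mem hx]; exact le_rfl
    · have : h x = 0 := by rw [hh]; simp only [indicator_of_notMem hx]
      have h3 : (Ioi (0:ℝ)).indicator (fun a => h a) x = 0 := by
        by_cases m3 : x ∈ Ioi (0:ℝ)
        · rw [indicator_of_mem m3, this]
        · rw [indicator_of_notMem m3]
      rw [h3]; exact zero_le
  exact ne_top_of_le_ne_top (pow_far (-r) (by linarith) (1/2) (by norm_num)) hI

lemma schur1 (d : ℕ) (hd : 2 ≤ d) (θ : ℝ) (hθ0 : 0 < θ) (hθ1 : θ < 1) :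
    ∃ C : NNReal, ∀ (Θ : Set ℝ), MeasurableSet Θ → ∀ (t M : ℝ), 0 < M →
      ∫⁻ s : ℝ, Θ.indicator 1 s * kern d M t s ≤
        C * ENNReal.ofReal (M ^ (2 - (d:ℝ) - θ)) * volume Θ ^ θ := by
  have hθ' : 0 < 1 - θ := by linarith
  set r : ℝ := ((d : ℝ) - 1) / (1 - θ) with hr
  have hd' : (2 : ℝ) ≤ d := by exact_mod_cast hd
  have hr1 : 1 < r := by
    rw [hr, lt_div_iff₀ hθ']; linarith
  refine ⟨(C1 r ^ (1 - θ)).toNNReal, fun Θ hΘ t M hM => ?_⟩
  have hC1 := C1_ne_top r hr1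
  rw [ENNReal.coe_toNNReal (ENNReal.rpow_ne_top_of_nonneg hθ'.le hC1)]
  set g : ℝ → ℝ≥0∞ := fun s => {s : ℝ | M ≤ |s - t|}.indicator
    (fun s => ENNReal.ofReal (|s - t| ^ (-r))) s with hg
  have hms : MeasurableSet {s : ℝ | M ≤ |s - t|} :=
    measurableSet_le (f := fun _ : ℝ => M) (g := fun s : ℝ => |s - t|) (by fun_prop) (by fun_prop)
  have hgm : Measurable g := Measurable.indicator (by fun_prop) hms
  have hfm : Measurable (Θ.indicator (1 : ℝ → ℝ≥0∞)) := measurable_one.indicator hΘ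
  have h1 : ∀ s, Θ.indicator 1 s * kern d M t s = (Θ.indicator 1 s) ^ θ * g s ^ (1 - θ) := by
    intro s
    by_cases hs : s ∈ Θ
    swap
    · rw [indicator_of_notMem hs, ENNReal.zero_rpow_of_pos hθ0]; simp
    rw [indicator_of_mem hs]
    simp only [Pi.one_apply, one_mul, ENNReal.one_rpow]
    unfold kern
    by_cases hm : M ≤ |s - t|
    · have m1 : (t, s) ∈ {p : ℝ × ℝ | M ≤ |p.2 - p.1|} := hm
      have m2 : s ∈ {s : ℝ | M ≤ |s - t|} := hm
      rw [indicator_of_mem m1, hg]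
      simp only [indicator_of_mem m2]
      have hpos : 0 < |s - t| := lt_of_lt_of_le hM hm
      rw [ENNReal.ofReal_rpow_of_pos (by positivity), ← Real.rpow_mul hpos.le]
      congr 1
      have e1 : -r * (1 - θ) = -((d - 1 : ℕ) : ℝ) := by
        rw [hr, Nat.cast_sub (by omega)]
        push_cast
        field_simp
      rw [e1, Real.rpow_neg hpos.le, Real.rpow_natCast, inv_pow]
    · have m1 : (t, s) ∉ {p : ℝ × ℝ | M ≤ |p.2 - p.1|} := hm
      have m2 : s ∉ {s : ℝ | M ≤ |s - t|} := hm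
      rw [indicator_of_notMem m1, hg]
      simp only [indicator_of_notMem m2]
      rw [ENNReal.zero_rpow_of_pos hθ']
  simp_rw [h1]
  have h2 := ENNReal.lintegral_mul_norm_pow_le (μ := (volume : Measure ℝ)) hfm.aemeasurable
    hgm.aemeasurable (p := θ) (q := 1 - θ) hθ0.le hθ'.le (by ring)
  refine h2.trans ?_
  rw [lintegral_indicator_one hΘ]
  have h3 : ∫⁻ s, g s = ENNReal.ofReal (M ^ (1 - r)) * C1 r := by
    have e1 : ∫⁻ s, g s = ∫⁻ s : ℝ, {s : ℝ | M ≤ |s|}.indicator (fun s => ENNReal.ofReal (|s| ^ (-r))) s := by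
      rw [← lintegral_add_right_eq_self (μ := (volume : Measure ℝ)) g t]
      refine lintegral_congr fun s => ?_
      rw [hg]
      by_cases hm : M ≤ |s|
      · have m1 : s + t ∈ {s : ℝ | M ≤ |s - t|} := by simp only [mem_ofPred_eq, add_sub_cancel_right]; exact hm
        have m2 : s ∈ {s : ℝ | M ≤ |s|} := hm
        simp only [indicator_of_mem m1, indicator_of_mem m2, add_sub_cancel_right]
      · have m1 : s + t ∉ {s : ℝ | M ≤ |s - t|} := by simp only [mem_ofPred_eq, add_sub_cancel_right]; exact hm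
        have m2 : s ∉ {s : ℝ | M ≤ |s|} := hm
        simp only [indicator_of_notMem m1, indicator_of_notMem m2]
    have hms2 : MeasurableSet {s : ℝ | M ≤ |s|} :=
      measurableSet_le (f := fun _ : ℝ => M) (g := fun s : ℝ => |s|) (by fun_prop) (by fun_prop)
    rw [e1, ← lintegral_dil (volume : Measure ℝ) hM.ne' _ (Measurable.indicator (by fun_prop) hms2)]
    unfold C1
    have e2 : M ^ (1 - r) = |M| ^ Module.finrank ℝ ℝ * M ^ (-r) := by
      rw [Module.finrank_self, pow_one, abs_of_pos hM, show 1 - r = 1 + -r by ring,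
        Real.rpow_add hM, Real.rpow_one]
    rw [e2, ENNReal.ofReal_mul (by positivity), mul_assoc,
      ← lintegral_const_mul' (ENNReal.ofReal (M ^ (-r))) _ ENNReal.ofReal_ne_top]
    congr 1
    refine lintegral_congr fun σ => ?_
    simp only [smul_eq_mul]
    by_cases hσ : 1 ≤ |σ|
    · have m1 : M * σ ∈ {s : ℝ | M ≤ |s|} := by
        simp only [mem_ofPred_eq, abs_mul, abs_of_pos hM]
        nlinarith
      have m2 : σ ∈ {σ : ℝ | 1 ≤ |σ|} := hσ
      rw [indicator_of_mem m1, indicator_of_mem m2, ← ENNReal.ofReal_mul (by positivity)]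
      congr 1
      rw [abs_mul, abs_of_pos hM, Real.mul_rpow hM.le (abs_nonneg _)]
    · have m1 : M * σ ∉ {s : ℝ | M ≤ |s|} := by
        simp only [mem_ofPred_eq, abs_mul, abs_of_pos hM, not_le]
        push Not at hσ
        nlinarith
      have m2 : σ ∉ {σ : ℝ | 1 ≤ |σ|} := hσ
      rw [indicator_of_notMem m1, indicator_of_notMem m2, mul_zero]
  rw [h3, ENNReal.mul_rpow_of_nonneg _ _ hθ'.le, ENNReal.ofReal_rpow_of_pos (by positivity),
    ← Real.rpow_mul hM.le]
  have e3 : (1 - r) * (1 - θ) = 2 - (d:ℝ) - θ := by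
    rw [hr]; field_simp; ring
  rw [e3]
  apply le_of_eq
  ring

/-- block estimate -/
lemma schur2 (d : ℕ) (hd : 2 ≤ d) (θ : ℝ) (hθ0 : 0 < θ) (hθ1 : θ < 1) :
    ∃ C : NNReal, ∀ (S T : Set ℝ), MeasurableSet S → MeasurableSet T → ∀ (M lam : ℝ), 0 < M → 0 < lam →
      ∫⁻ t : ℝ, ∫⁻ s : ℝ, S.indicator 1 t * T.indicator 1 s * kern d M t s ≤
        C * ENNReal.ofReal (M ^ (2 - (d:ℝ) - θ)) *
          (ENNReal.ofReal lam * volume S ^ (1 + θ) + ENNReal.ofReal lam⁻¹ * volume T ^ (1 + θ)) := by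
  obtain ⟨C, hC⟩ := schur1 d hd θ hθ0 hθ1
  refine ⟨C, fun S T hS hT M lam hM hlam => ?_⟩
  have hk := measurable_kern d M
  have hSm : Measurable (S.indicator (1 : ℝ → ℝ≥0∞)) := measurable_one.indicator hS
  have hTm : Measurable (T.indicator (1 : ℝ → ℝ≥0∞)) := measurable_one.indicator hT
  set X := ∫⁻ t : ℝ, ∫⁻ s : ℝ, S.indicator 1 t * T.indicator 1 s * kern d M t s with hX
  set c := (C : ℝ≥0∞) * ENNReal.ofReal (M ^ (2 - (d:ℝ) - θ)) with hc
  have b1 : X ≤ c * (volume S * volume T ^ θ) := by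
    calc X ≤ ∫⁻ t : ℝ, S.indicator 1 t * (c * volume T ^ θ) := by
          refine lintegral_mono fun t => ?_
          have m1 : Measurable (fun s : ℝ => T.indicator 1 s * kern d M t s) :=
            hTm.mul (hk.comp (g := fun p : ℝ × ℝ => kern d M p.1 p.2) (f := fun s : ℝ => (t, s)) (by fun_prop))
          simp only [mul_assoc]
          rw [lintegral_const_mul _ m1]
          gcongr
          exact hC T hT t M hM
      _ = _ := by
          rw [lintegral_mul_const _ hSm, lintegral_indicator_one hS]; ring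
  have b2 : X ≤ c * (volume T * volume S ^ θ) := by
    have hsw : X = ∫⁻ s : ℝ, ∫⁻ t : ℝ, S.indicator 1 t * T.indicator 1 s * kern d M t s := by
      rw [hX, lintegral_lintegral_swap]
      exact (((hSm.comp measurable_fst).mul (hTm.comp measurable_snd)).mul hk).aemeasurable
    rw [hsw]
    calc _ ≤ ∫⁻ s : ℝ, T.indicator 1 s * (c * volume S ^ θ) := by
          refine lintegral_mono fun s => ?_
          have m1 : Measurable (fun t : ℝ => S.indicator 1 t * kern d M s t) :=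
            hSm.mul (hk.comp (g := fun p : ℝ × ℝ => kern d M p.1 p.2) (f := fun t : ℝ => (s, t)) (by fun_prop))
          have e : ∀ t : ℝ, (S.indicator 1 t * T.indicator 1 s * kern d M t s : ℝ≥0∞) =
              T.indicator 1 s * (S.indicator 1 t * kern d M s t) := by
            intro t
            rw [kern_symm d M s t]; ring
          simp only [e]
          rw [lintegral_const_mul _ m1]
          gcongr
          exact hC S hS s M hM
      _ = _ := by
          rw [lintegral_mul_const _ hTm, lintegral_indicator_one hT]; ring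
  have hh : 0 ≤ (1 + θ) / 2 := by positivity
  have hh' : 0 ≤ (1 - θ) / 2 := by linarith
  have b3 : X ≤ c * (volume S ^ ((1 + θ) / 2) * volume T ^ ((1 + θ) / 2)) := by
    rcases le_total (volume S) (volume T) with h | h
    · refine b1.trans (mul_le_mul' le_rfl ?_)
      calc volume S * volume T ^ θ = volume S ^ ((1 + θ) / 2) * volume S ^ ((1 - θ) / 2) * volume T ^ θ := by
            rw [← ENNReal.rpow_add_of_nonneg _ _ hh hh', show (1 + θ) / 2 + (1 - θ) / 2 = 1 by ring,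
              ENNReal.rpow_one]
        _ ≤ volume S ^ ((1 + θ) / 2) * volume T ^ ((1 - θ) / 2) * volume T ^ θ := by gcongr
        _ = _ := by
            rw [mul_assoc, ← ENNReal.rpow_add_of_nonneg _ _ hh' hθ0.le,
              show (1 - θ) / 2 + θ = (1 + θ) / 2 by ring]
    · refine b2.trans (mul_le_mul' le_rfl ?_)
      calc volume T * volume S ^ θ = volume T ^ ((1 + θ) / 2) * volume T ^ ((1 - θ) / 2) * volume S ^ θ := by
            rw [← ENNReal.rpow_add_of_nonneg _ _ hh hh', show (1 + θ) / 2 + (1 - θ) / 2 = 1 by ring,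
              ENNReal.rpow_one]
        _ ≤ volume T ^ ((1 + θ) / 2) * volume S ^ ((1 - θ) / 2) * volume S ^ θ := by gcongr
        _ = _ := by
            rw [mul_assoc, ← ENNReal.rpow_add_of_nonneg _ _ hh' hθ0.le,
              show (1 - θ) / 2 + θ = (1 + θ) / 2 by ring, mul_comm]
  refine b3.trans ?_
  gcongr
  set a := ENNReal.ofReal (lam ^ (1/2 : ℝ)) * volume S ^ ((1 + θ) / 2) with ha
  set b := ENNReal.ofReal (lam ^ (-(1/2) : ℝ)) * volume T ^ ((1 + θ) / 2) with hb
  have e1 : volume S ^ ((1 + θ) / 2) * volume T ^ ((1 + θ) / 2) = a * b := by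
    have : ENNReal.ofReal (lam ^ (1/2 : ℝ)) * ENNReal.ofReal (lam ^ (-(1/2) : ℝ)) = 1 := by
      rw [← ENNReal.ofReal_mul (by positivity), ← Real.rpow_add hlam]; norm_num
    calc _ = (ENNReal.ofReal (lam ^ (1/2 : ℝ)) * ENNReal.ofReal (lam ^ (-(1/2) : ℝ))) *
          (volume S ^ ((1 + θ) / 2) * volume T ^ ((1 + θ) / 2)) := by rw [this, one_mul]
      _ = _ := by rw [ha, hb]; ring
  have e2 : a ^ 2 = ENNReal.ofReal lam * volume S ^ (1 + θ) := by
    rw [ha, mul_pow, ← ENNReal.ofReal_pow (by positivity), ← ENNReal.rpow_natCast (volume S ^ _),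
      ← ENNReal.rpow_mul, ← Real.rpow_natCast, ← Real.rpow_mul hlam.le]
    norm_num
  have e3 : b ^ 2 = ENNReal.ofReal lam⁻¹ * volume T ^ (1 + θ) := by
    rw [hb, mul_pow, ← ENNReal.ofReal_pow (by positivity), ← ENNReal.rpow_natCast (volume T ^ _),
      ← ENNReal.rpow_mul, ← Real.rpow_natCast, ← Real.rpow_mul hlam.le]
    norm_num
    rw [Real.rpow_neg_one]
  rw [e1, ← e2, ← e3]
  rcases le_total a b with h | h
  · calc a * b ≤ b * b := by gcongr
      _ = b ^ 2 := (sq b).symm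
      _ ≤ _ := le_add_self
  · calc a * b ≤ a * a := by gcongr
      _ = a ^ 2 := (sq a).symm
      _ ≤ _ := le_self_add

end Run7.h567
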