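import Pool.Agent.Run7.h567.Schur

set_option autoImplicit false

open MeasureTheory ENNReal Set

namespace Run7.h567

/-- dyadic level set of a function on the line -/
def Fd (f : ℝ → ℝ) (i : ℤ) : Set ℝ := {t | (2:ℝ) ^ (i : ℝ) ≤ f t ∧ f t < 2 ^ ((i : ℝ) + 1)}

lemma measurableSet_Fd {f : ℝ → ℝ} (hf : Measurable f) (i : ℤ) : MeasurableSet (Fd f i) :=
  (measurableSet_le measurable_const hf).inter (measurableSet_lt hf measurable_const)

lemma Fd_exists {f : ℝ → ℝ} {t : ℝ} (h : 0 < f t) : ∃ i : ℤ, t ∈ Fd f i := by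
  obtain ⟨n, hn1, hn2⟩ := exists_mem_Ico_zpow h (one_lt_two)
  refine ⟨n, ?_, ?_⟩
  · rw [Real.rpow_intCast]; exact hn1
  · rw [show ((n : ℝ) + 1) = ((n + 1 : ℤ) : ℝ) by push_cast; ring, Real.rpow_intCast]
    exact hn2

lemma Fd_unique {f : ℝ → ℝ} {t : ℝ} {i j : ℤ} (hi : t ∈ Fd f i) (hj : t ∈ Fd f j) : i = j := by
  have key : ∀ i j : ℤ, t ∈ Fd f i → t ∈ Fd f j → i ≤ j := by
    intro i j hi hj
    have h := lt_of_le_of_lt hi.1 hj.2
    have h2 : (i : ℝ) < j + 1 := (Real.rpow_lt_rpow_left_iff (by norm_num)).1 h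
    have : i < j + 1 := by exact_mod_cast h2
    omega
  exact le_antisymm (key _ _ hi hj) (key _ _ hj hi)

/-- the one-dimensional functional -/
noncomputable def WW (d : ℕ) (θ : ℝ) (f : ℝ → ℝ) : ℝ≥0∞ :=
  ∫⁻ t : ℝ, ENNReal.ofReal (f t ^ ((d:ℝ) + 2 - θ)) * volume {s : ℝ | f t / 2 ≤ f s} ^ θ

/-- the bilinear form -/
noncomputable def JJ (d : ℕ) (c1 c2 : ℝ) (f g : ℝ → ℝ) : ℝ≥0∞ :=
  ∫⁻ t : ℝ, ∫⁻ s : ℝ, ENNReal.ofReal (f t ^ d) * ENNReal.ofReal (g s ^ d) *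
    ({p : ℝ × ℝ | c1 * f p.1 ≤ |p.2 - p.1| ∧ c2 * g p.2 ≤ |p.2 - p.1|}.indicator
      (fun p => ENNReal.ofReal ((|p.2 - p.1|⁻¹) ^ (d - 1))) (t, s))

lemma geo_real (δ : ℝ) (hδ : 0 < δ) (c : ℝ) :
    ∑' j : ℤ, ENNReal.ofReal (2 ^ (-(δ * |(j:ℝ) - c|))) ≤ ENNReal.ofReal (2 ^ δ) * geo (2 ^ (-δ)) := by
  set j0 : ℤ := ⌊c⌋ with hj0
  have h1 := Int.floor_le c
  have h2 := Int.lt_floor_add_one c
  rw [← geo_shift _ j0, ← ENNReal.tsum_mul_left]
  refine ENNReal.tsum_le_tsum fun j => ?_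
  rw [← ENNReal.ofReal_pow (by positivity), ← ENNReal.ofReal_mul (by positivity)]
  apply ENNReal.ofReal_le_ofReal
  have hrp : ((2:ℝ) ^ (-δ)) ^ (j - j0).natAbs = 2 ^ (-(δ * |(j : ℝ) - j0|)) := by
    rw [← Real.rpow_natCast, ← Real.rpow_mul (by norm_num)]
    congr 1
    have : (((j - j0).natAbs : ℕ) : ℝ) = |(j : ℝ) - j0| := by
      rw [Nat.cast_natAbs]; push_cast; rfl
    rw [this]; ring
  rw [hrp, ← Real.rpow_add (by norm_num)]
  apply Real.rpow_le_rpow_of_exponent_le (by norm_num)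
  have h3 : |(j : ℝ) - j0| ≤ |(j : ℝ) - c| + 1 := by
    have h4 := abs_sub_le (j : ℝ) c j0
    have h5 : |c - (j0 : ℝ)| ≤ 1 := by
      rw [abs_le]; constructor <;> linarith
    linarith
  nlinarith

lemma WW_ge (d : ℕ) (θ : ℝ) (hθ0 : 0 < θ) (hθ1 : θ < 1) {f : ℝ → ℝ} (hf : Measurable f) :
    ∑' i : ℤ, ENNReal.ofReal (2 ^ ((i:ℝ) * ((d:ℝ) + 2 - θ))) * volume (Fd f i) ^ (1 + θ) ≤ WW d θ f := by
  have hFm := fun i => measurableSet_Fd hf i
  have hd2 : 0 < (d:ℝ) + 2 - θ := by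
    have : (0:ℝ) ≤ d := Nat.cast_nonneg d
    linarith
  have e1 : ∀ i : ℤ, ENNReal.ofReal (2 ^ ((i:ℝ) * ((d:ℝ) + 2 - θ))) * volume (Fd f i) ^ (1 + θ) =
      ∫⁻ t : ℝ, (Fd f i).indicator (fun _ => ENNReal.ofReal (2 ^ ((i:ℝ) * ((d:ℝ) + 2 - θ))) *
        volume (Fd f i) ^ θ) t := by
    intro i
    rw [lintegral_indicator_const (hFm i), ENNReal.rpow_add_of_nonneg _ _ zero_le_one hθ0.le,
      ENNReal.rpow_one]
    ring
  simp_rw [e1]
  rw [← lintegral_tsum (fun i => (Measurable.indicator (by fun_prop) (hFm i)).aemeasurable)]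
  refine lintegral_mono fun t => ?_
  by_cases h : 0 < f t
  · obtain ⟨i, hi⟩ := Fd_exists h
    rw [tsum_eq_single i (fun j hj => by
      rw [indicator_of_notMem (fun hh => hj (Fd_unique hh hi))]), indicator_of_mem hi]
    refine mul_le_mul' ?_ ?_
    · apply ENNReal.ofReal_le_ofReal
      rw [Real.rpow_mul (by norm_num)]
      exact Real.rpow_le_rpow (by positivity) hi.1 hd2.le
    · gcongr
      intro s hs
      simp only [mem_ofPred_eq]
      have h3 := hi.2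
      have h4 := hs.1
      rw [Real.rpow_add (by norm_num), Real.rpow_one] at h3
      linarith
  · have : ∀ i : ℤ, (Fd f i).indicator (fun _ => ENNReal.ofReal (2 ^ ((i:ℝ) * ((d:ℝ) + 2 - θ))) *
        volume (Fd f i) ^ θ) t = 0 := by
      intro i
      rw [indicator_of_notMem]
      intro hh
      exact h (lt_of_lt_of_le (by positivity) hh.1)
    simp [this]

lemma schur_coef (d : ℕ) (θ lam c1 c2 : ℝ) (hlam : 0 < lam) (hc1 : 0 < c1) (hc2 : 0 < c2)
    (i j : ℝ) :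
    2 ^ ((i + 1) * (d:ℝ)) * 2 ^ ((j + 1) * (d:ℝ)) * (max (c1 * 2 ^ i) (c2 * 2 ^ j)) ^ (2 - (d:ℝ) - θ) *
      (lam * 2 ^ ((i - j) * ((d:ℝ) + 2 - θ) / 2)) =
    4 ^ (d:ℝ) * (c1 * c2) ^ (-(((d:ℝ) - 2 + θ) / 2)) *
      (2 ^ (-(((d:ℝ) - 2 + θ) / 2 * |j - (i + Real.logb 2 c1 - Real.logb 2 c2)|)) *
        (lam * 2 ^ (i * ((d:ℝ) + 2 - θ)))) := by
  have e1 : c1 = 2 ^ Real.logb 2 c1 := (Real.rpow_logb (by norm_num) (by norm_num) hc1).symm
  have e2 : c2 = 2 ^ Real.logb 2 c2 := (Real.rpow_logb (by norm_num) (by norm_num) hc2).symm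
  obtain ⟨l1, hl1⟩ : ∃ l1, l1 = Real.logb 2 c1 := ⟨_, rfl⟩
  obtain ⟨l2, hl2⟩ : ∃ l2, l2 = Real.logb 2 c2 := ⟨_, rfl⟩
  rw [← hl1] at e1 ⊢
  rw [← hl2] at e2 ⊢
  have hmax : max (c1 * (2:ℝ) ^ i) (c2 * 2 ^ j) = 2 ^ (max (l1 + i) (l2 + j)) := by
    rw [e1, e2, ← Real.rpow_add (by norm_num), ← Real.rpow_add (by norm_num)]
    rcases le_total (l1 + i) (l2 + j) with h | h
    · rw [max_eq_right h, max_eq_right]
      exact Real.rpow_le_rpow_of_exponent_le (by norm_num) h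
    · rw [max_eq_left h, max_eq_left]
      exact Real.rpow_le_rpow_of_exponent_le (by norm_num) h
  have h12 : c1 * c2 = (2:ℝ) ^ (l1 + l2) := by
    rw [Real.rpow_add (by norm_num), ← e1, ← e2]
  have h4 : (4:ℝ) ^ (d:ℝ) = 2 ^ (2 * (d:ℝ)) := by
    rw [Real.rpow_mul (by norm_num)]; norm_num
  rw [hmax, h12, h4, ← Real.rpow_mul (by norm_num), ← Real.rpow_mul (by norm_num)]
  have e5 : ∀ x y z w : ℝ, (2:ℝ) ^ x * 2 ^ y * 2 ^ z * (lam * 2 ^ w) = lam * 2 ^ (x + y + z + w) := by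
    intro x y z w
    rw [Real.rpow_add (by norm_num), Real.rpow_add (by norm_num), Real.rpow_add (by norm_num)]; ring
  have e6 : ∀ x y z w : ℝ, (2:ℝ) ^ x * 2 ^ y * (2 ^ z * (lam * 2 ^ w)) = lam * 2 ^ (x + y + z + w) := by
    intro x y z w
    rw [Real.rpow_add (by norm_num), Real.rpow_add (by norm_num), Real.rpow_add (by norm_num)]; ring
  rw [e5, e6]
  congr 2
  rcases le_total (l1 + i) (l2 + j) with h | h
  · rw [max_eq_right h, abs_of_nonneg (by linarith)]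
    ring
  · rw [max_eq_left h, abs_of_nonpos (by linarith)]
    ring

/-- the Schur type inequality -/
lemma schur3 (d : ℕ) (hd : 2 ≤ d) (θ : ℝ) (hθ0 : 0 < θ) (hθ1 : θ < 1) :
    ∃ C : NNReal, ∀ (f g : ℝ → ℝ), Measurable f → Measurable g → (∀ t, 0 ≤ f t) → (∀ t, 0 ≤ g t) →
      ∀ (c1 c2 lam : ℝ), 0 < c1 → 0 < c2 → 0 < lam →
      JJ d c1 c2 f g ≤ C * ENNReal.ofReal ((c1 * c2) ^ (-(((d:ℝ) - 2 + θ) / 2))) *
        (ENNReal.ofReal lam * WW d θ f + ENNReal.ofReal lam⁻¹ * WW d θ g) := by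
  obtain ⟨C, hC⟩ := schur2 d hd θ hθ0 hθ1
  have hd' : (2:ℝ) ≤ d := by exact_mod_cast hd
  set δ : ℝ := ((d:ℝ) - 2 + θ) / 2 with hδ
  have hδ0 : 0 < δ := by rw [hδ]; linarith
  set Γ : ℝ≥0∞ := ENNReal.ofReal (2 ^ δ) * geo (2 ^ (-δ)) with hΓ
  have hΓt : Γ ≠ ∞ := ENNReal.mul_ne_top ENNReal.ofReal_ne_top
    (geo_ne_top _ (Real.rpow_lt_one_of_one_lt_of_neg (by norm_num) (by linarith)))
  have hCC : (C : ℝ≥0∞) * ENNReal.ofReal (4 ^ (d:ℝ)) * Γ ≠ ∞ :=
    ENNReal.mul_ne_top (ENNReal.mul_ne_top ENNReal.coe_ne_top ENNReal.ofReal_ne_top) hΓt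
  refine ⟨((C : ℝ≥0∞) * ENNReal.ofReal (4 ^ (d:ℝ)) * Γ).toNNReal, fun f g hf hg hf0 hg0 c1 c2 lam hc1 hc2 hlam => ?_⟩
  rw [ENNReal.coe_toNNReal hCC]
  set M : ℤ → ℤ → ℝ := fun i j => max (c1 * 2 ^ (i:ℝ)) (c2 * 2 ^ (j:ℝ)) with hM
  have hM0 : ∀ i j, 0 < M i j := fun i j => lt_max_of_lt_left (by positivity)
  have hFm := fun i => measurableSet_Fd hf i
  have hGm := fun i => measurableSet_Fd hg i
  set a : ℤ → ℝ≥0∞ := fun i => ENNReal.ofReal (2 ^ (((i:ℝ) + 1) * (d:ℝ))) with ha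
  have hblock : ∀ i j : ℤ, Measurable (fun p : ℝ × ℝ => a i * a j *
      ((Fd f i).indicator 1 p.1 * (Fd g j).indicator 1 p.2 * kern d (M i j) p.1 p.2)) := by
    intro i j
    refine Measurable.const_mul (Measurable.mul (Measurable.mul ?_ ?_) (measurable_kern d _)) _
    · exact (measurable_one.indicator (hFm i)).comp measurable_fst
    · exact (measurable_one.indicator (hGm j)).comp measurable_snd
  -- pointwise domination
  have hpt : ∀ t s : ℝ, ENNReal.ofReal (f t ^ d) * ENNReal.ofReal (g s ^ d) *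
      ({p : ℝ × ℝ | c1 * f p.1 ≤ |p.2 - p.1| ∧ c2 * g p.2 ≤ |p.2 - p.1|}.indicator
      (fun p => ENNReal.ofReal ((|p.2 - p.1|⁻¹) ^ (d - 1))) (t, s)) ≤
      ∑' i : ℤ, ∑' j : ℤ, a i * a j *
      ((Fd f i).indicator 1 t * (Fd g j).indicator 1 s * kern d (M i j) t s) := by
    intro t s
    rcases eq_or_lt_of_le (hf0 t) with h0 | h0
    · rw [← h0, zero_pow (by omega)]; simp
    rcases eq_or_lt_of_le (hg0 s) with h1 | h1
    · rw [← h1, zero_pow (by omega)]; simp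
    by_cases hp : (t, s) ∈ {p : ℝ × ℝ | c1 * f p.1 ≤ |p.2 - p.1| ∧ c2 * g p.2 ≤ |p.2 - p.1|}
    swap
    · rw [indicator_of_notMem hp]; simp
    rw [indicator_of_mem hp]
    obtain ⟨i, hi⟩ := Fd_exists h0
    obtain ⟨j, hj⟩ := Fd_exists h1
    refine le_trans ?_ (ENNReal.le_tsum i)
    refine le_trans ?_ (ENNReal.le_tsum j)
    rw [indicator_of_mem hi, indicator_of_mem hj]
    have hk : kern d (M i j) t s = ENNReal.ofReal ((|s - t|⁻¹) ^ (d - 1)) := by
      unfold kern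
      have : (t, s) ∈ {p : ℝ × ℝ | M i j ≤ |p.2 - p.1|} := by
        simp only [mem_ofPred_eq]
        refine max_le ?_ ?_
        · exact le_trans (by gcongr; exact hi.1) hp.1
        · exact le_trans (by gcongr; exact hj.1) hp.2
      rw [indicator_of_mem this]
    rw [hk]
    simp only [Pi.one_apply, one_mul, mul_one]
    refine mul_le_mul' (mul_le_mul' ?_ ?_) le_rfl
    · rw [ha]
      apply ENNReal.ofReal_le_ofReal
      rw [Real.rpow_mul (by norm_num), Real.rpow_natCast]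
      exact pow_le_pow_left₀ (hf0 t) hi.2.le _
    · rw [ha]
      apply ENNReal.ofReal_le_ofReal
      rw [Real.rpow_mul (by norm_num), Real.rpow_natCast]
      exact pow_le_pow_left₀ (hg0 s) hj.2.le _
  set A : ℤ → ℝ≥0∞ := fun i => ENNReal.ofReal (2 ^ ((i:ℝ) * ((d:ℝ) + 2 - θ))) * volume (Fd f i) ^ (1 + θ) with hA
  set B : ℤ → ℝ≥0∞ := fun i => ENNReal.ofReal (2 ^ ((i:ℝ) * ((d:ℝ) + 2 - θ))) * volume (Fd g i) ^ (1 + θ) with hB
  set l1 := Real.logb 2 c1 with hl1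
  set l2 := Real.logb 2 c2 with hl2
  set cc : ℝ≥0∞ := (C : ℝ≥0∞) * ENNReal.ofReal (4 ^ (d:ℝ)) * ENNReal.ofReal ((c1 * c2) ^ (-δ)) with hcc
  have hterm : ∀ i j : ℤ, a i * a j * (∫⁻ t : ℝ, ∫⁻ s : ℝ,
      (Fd f i).indicator 1 t * (Fd g j).indicator 1 s * kern d (M i j) t s) ≤
      cc * (ENNReal.ofReal (2 ^ (-(δ * |(j:ℝ) - ((i:ℝ) + l1 - l2)|))) * (ENNReal.ofReal lam * A i)) +
      cc * (ENNReal.ofReal (2 ^ (-(δ * |(i:ℝ) - ((j:ℝ) + l2 - l1)|))) * (ENNReal.ofReal lam⁻¹ * B j)) := by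
    intro i j
    set lij : ℝ := lam * 2 ^ (((i:ℝ) - j) * ((d:ℝ) + 2 - θ) / 2) with hlij
    have hlij0 : 0 < lij := by positivity
    have h2 := hC (Fd f i) (Fd g j) (hFm i) (hGm j) (M i j) lij (hM0 i j) hlij0
    calc _ ≤ a i * a j * (C * ENNReal.ofReal (M i j ^ (2 - (d:ℝ) - θ)) *
          (ENNReal.ofReal lij * volume (Fd f i) ^ (1 + θ) +
            ENNReal.ofReal lij⁻¹ * volume (Fd g j) ^ (1 + θ))) := by gcongr
      _ = C * (a i * a j * ENNReal.ofReal (M i j ^ (2 - (d:ℝ) - θ)) * ENNReal.ofReal lij) *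
            volume (Fd f i) ^ (1 + θ) +
          C * (a i * a j * ENNReal.ofReal (M i j ^ (2 - (d:ℝ) - θ)) * ENNReal.ofReal lij⁻¹) *
            volume (Fd g j) ^ (1 + θ) := by ring
      _ = _ := by
          congr 1
          · have e := schur_coef d θ lam c1 c2 hlam hc1 hc2 (i:ℝ) (j:ℝ)
            have e' : a i * a j * ENNReal.ofReal (M i j ^ (2 - (d:ℝ) - θ)) * ENNReal.ofReal lij =
                ENNReal.ofReal (4 ^ (d:ℝ)) * ENNReal.ofReal ((c1 * c2) ^ (-δ)) *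
                (ENNReal.ofReal (2 ^ (-(δ * |(j:ℝ) - ((i:ℝ) + l1 - l2)|))) *
                  (ENNReal.ofReal lam * ENNReal.ofReal (2 ^ ((i:ℝ) * ((d:ℝ) + 2 - θ))))) := by
              rw [ha]
              simp only
              rw [← ENNReal.ofReal_mul (by positivity), ← ENNReal.ofReal_mul (by positivity),
                ← ENNReal.ofReal_mul (mul_nonneg (by positivity) (Real.rpow_nonneg (hM0 i j).le _)),
                ← ENNReal.ofReal_mul (by positivity), ← ENNReal.ofReal_mul hlam.le,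
                ← ENNReal.ofReal_mul (by positivity), ← ENNReal.ofReal_mul (by positivity)]
              congr 1
            rw [e', hcc, hA]
            ring
          · have e := schur_coef d θ lam⁻¹ c2 c1 (by positivity) hc2 hc1 (j:ℝ) (i:ℝ)
            have hlinv : lij⁻¹ = lam⁻¹ * 2 ^ (((j:ℝ) - i) * ((d:ℝ) + 2 - θ) / 2) := by
              rw [hlij, mul_inv, ← Real.rpow_neg (by norm_num)]
              congr 2; ring
            have e' : a i * a j * ENNReal.ofReal (M i j ^ (2 - (d:ℝ) - θ)) * ENNReal.ofReal lij⁻¹ =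
                ENNReal.ofReal (4 ^ (d:ℝ)) * ENNReal.ofReal ((c1 * c2) ^ (-δ)) *
                (ENNReal.ofReal (2 ^ (-(δ * |(i:ℝ) - ((j:ℝ) + l2 - l1)|))) *
                  (ENNReal.ofReal lam⁻¹ * ENNReal.ofReal (2 ^ ((j:ℝ) * ((d:ℝ) + 2 - θ))))) := by
              rw [hlinv, ha]
              simp only
              rw [← ENNReal.ofReal_mul (by positivity), ← ENNReal.ofReal_mul (by positivity),
                ← ENNReal.ofReal_mul (mul_nonneg (by positivity) (Real.rpow_nonneg (hM0 i j).le _)),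
                ← ENNReal.ofReal_mul (by positivity), ← ENNReal.ofReal_mul (by positivity : (0:ℝ) ≤ lam⁻¹),
                ← ENNReal.ofReal_mul (by positivity), ← ENNReal.ofReal_mul (by positivity)]
              congr 1
              rw [hM]
              simp only
              rw [max_comm, mul_comm ((2:ℝ) ^ (((i:ℝ) + 1) * (d:ℝ))), mul_comm c1 c2]
              exact e
            rw [e', hcc, hB]
            ring
  unfold JJ
  calc _ ≤ ∫⁻ t : ℝ, ∫⁻ s : ℝ, ∑' i : ℤ, ∑' j : ℤ, a i * a j *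
      ((Fd f i).indicator 1 t * (Fd g j).indicator 1 s * kern d (M i j) t s) :=
        lintegral_mono fun t => lintegral_mono fun s => hpt t s
    _ = ∑' i : ℤ, ∑' j : ℤ, a i * a j * (∫⁻ t : ℝ, ∫⁻ s : ℝ,
      (Fd f i).indicator 1 t * (Fd g j).indicator 1 s * kern d (M i j) t s) := by
        have m1 : ∀ i : ℤ, Measurable (fun p : ℝ × ℝ => ∑' j : ℤ, a i * a j *
            ((Fd f i).indicator 1 p.1 * (Fd g j).indicator 1 p.2 * kern d (M i j) p.1 p.2)) :=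
          fun i => Measurable.tsum fun j => hblock i j
        have m2 : ∀ t : ℝ, ∀ i j : ℤ, Measurable (fun s : ℝ => a i * a j *
            ((Fd f i).indicator 1 t * (Fd g j).indicator 1 s * kern d (M i j) t s)) := fun t i j =>
          (hblock i j).comp (f := fun s : ℝ => (t, s)) (by fun_prop)
        have e1 : ∀ t : ℝ, ∫⁻ s : ℝ, ∑' i : ℤ, ∑' j : ℤ, a i * a j *
            ((Fd f i).indicator 1 t * (Fd g j).indicator 1 s * kern d (M i j) t s) =
            ∑' i : ℤ, ∑' j : ℤ, ∫⁻ s : ℝ, a i * a j *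
            ((Fd f i).indicator 1 t * (Fd g j).indicator 1 s * kern d (M i j) t s) := by
          intro t
          rw [lintegral_tsum fun i => (Measurable.tsum fun j => m2 t i j).aemeasurable]
          congr 1; ext i
          rw [lintegral_tsum fun j => (m2 t i j).aemeasurable]
        simp_rw [e1]
        have m3 : ∀ i j : ℤ, Measurable (fun t : ℝ => ∫⁻ s : ℝ, a i * a j *
            ((Fd f i).indicator 1 t * (Fd g j).indicator 1 s * kern d (M i j) t s)) := fun i j =>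
          (hblock i j).lintegral_prod_right'
        rw [lintegral_tsum fun i => (Measurable.tsum fun j => m3 i j).aemeasurable]
        congr 1; ext i
        rw [lintegral_tsum fun j => (m3 i j).aemeasurable]
        congr 1; ext j
        have hat : a i * a j ≠ ∞ := ENNReal.mul_ne_top ENNReal.ofReal_ne_top ENNReal.ofReal_ne_top
        rw [← lintegral_const_mul' _ _ hat]
        refine lintegral_congr fun t => ?_
        rw [← lintegral_const_mul' _ _ hat]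
    _ ≤ ∑' i : ℤ, ∑' j : ℤ, (cc * (ENNReal.ofReal (2 ^ (-(δ * |(j:ℝ) - ((i:ℝ) + l1 - l2)|))) *
          (ENNReal.ofReal lam * A i)) +
      cc * (ENNReal.ofReal (2 ^ (-(δ * |(i:ℝ) - ((j:ℝ) + l2 - l1)|))) * (ENNReal.ofReal lam⁻¹ * B j))) :=
        ENNReal.tsum_le_tsum fun i => ENNReal.tsum_le_tsum fun j => hterm i j
    _ = (∑' i : ℤ, ∑' j : ℤ, cc * (ENNReal.ofReal (2 ^ (-(δ * |(j:ℝ) - ((i:ℝ) + l1 - l2)|))) *
          (ENNReal.ofReal lam * A i))) +
        (∑' j : ℤ, ∑' i : ℤ, cc * (ENNReal.ofReal (2 ^ (-(δ * |(i:ℝ) - ((j:ℝ) + l2 - l1)|))) *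
          (ENNReal.ofReal lam⁻¹ * B j))) := by
        rw [ENNReal.tsum_comm (f := fun (j i : ℤ) =>
          cc * (ENNReal.ofReal (2 ^ (-(δ * |(i:ℝ) - ((j:ℝ) + l2 - l1)|))) *
          (ENNReal.ofReal lam⁻¹ * B j))), ← ENNReal.tsum_add]
        congr 1; ext i
        rw [ENNReal.tsum_add]
    _ ≤ (∑' i : ℤ, cc * (Γ * (ENNReal.ofReal lam * A i))) +
        (∑' j : ℤ, cc * (Γ * (ENNReal.ofReal lam⁻¹ * B j))) := by
        refine add_le_add (ENNReal.tsum_le_tsum fun i => ?_) (ENNReal.tsum_le_tsum fun j => ?_)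
        · rw [ENNReal.tsum_mul_left, ENNReal.tsum_mul_right]
          gcongr
          exact geo_real δ hδ0 _
        · rw [ENNReal.tsum_mul_left, ENNReal.tsum_mul_right]
          gcongr
          exact geo_real δ hδ0 _
    _ = cc * Γ * (ENNReal.ofReal lam * ∑' i : ℤ, A i + ENNReal.ofReal lam⁻¹ * ∑' j : ℤ, B j) := by
        simp only [ENNReal.tsum_mul_left]
        ring
    _ ≤ cc * Γ * (ENNReal.ofReal lam * WW d θ f + ENNReal.ofReal lam⁻¹ * WW d θ g) := by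
        gcongr
        · exact WW_ge d θ hθ0 hθ1 hf
        · exact WW_ge d θ hθ0 hθ1 hg
    _ = _ := by rw [hcc]; ring

end Run7.h567
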