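import Pool.Agent.Run7.h567.Bush

set_option autoImplicit false

open MeasureTheory ENNReal Set

namespace Run7.h567

variable {d : ℕ}

lemma two_mul_le_sq (a b : ℝ≥0∞) : 2 * a * b ≤ a ^ 2 + b ^ 2 := by
  by_cases ha : a = ∞
  · subst ha; simp
  by_cases hb : b = ∞
  · subst hb; simp
  lift a to NNReal using ha
  lift b to NNReal using hb
  exact_mod_cast two_mul_le_add_sq a b

/-- Cauchy-Schwarz for functions supported in a set -/
lemma cs {α : Type*} [MeasurableSpace α] (μ : Measure α) {S : Set α} (hS : MeasurableSet S)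
    {f : α → ℝ≥0∞} (hf : Measurable f) (h0 : ∀ a, a ∉ S → f a = 0) :
    (∫⁻ a, f a ∂μ) ^ 2 ≤ μ S * ∫⁻ a, f a ^ 2 ∂μ := by
  have h1 : ∫⁻ a, f a ∂μ = ∫⁻ a, (S.indicator 1 a) * f a ∂μ := by
    refine lintegral_congr fun a => ?_
    by_cases ha : a ∈ S
    · simp [ha]
    · simp [ha, h0 a ha]
  have h2 := ENNReal.lintegral_mul_le_Lp_mul_Lq μ (p := 2) (q := 2)
    (Real.HolderConjugate.two_two) (f := S.indicator 1) (g := f)
    (measurable_one.indicator hS).aemeasurable hf.aemeasurable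
  simp only [Pi.mul_apply] at h2
  have h3 : ∫⁻ a, (S.indicator 1 a : ℝ≥0∞) ^ (2 : ℝ) ∂μ = μ S := by
    rw [← lintegral_indicator_one hS]
    refine lintegral_congr fun a => ?_
    by_cases ha : a ∈ S <;> simp [ha]
  rw [h3] at h2
  simp only [ENNReal.rpow_two] at h2
  calc (∫⁻ a, f a ∂μ) ^ 2 ≤ (μ S ^ (1 / 2 : ℝ) * (∫⁻ a, f a ^ 2 ∂μ) ^ (1 / 2 : ℝ)) ^ 2 := by
        rw [h1]; gcongr
    _ = μ S * ∫⁻ a, f a ^ 2 ∂μ := by
        rw [mul_pow, ← ENNReal.rpow_two, ← ENNReal.rpow_two, ← ENNReal.rpow_mul,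
          ← ENNReal.rpow_mul]
        norm_num

section
variable (E : Set (ℝ × V d)) (G : Set (V d × V d)) (R τ : ℝ)

/-- first kernel -/
def H1 : Set ((V d × V d) × ℝ × ℝ) :=
  {p | p.1 ∈ G ∧ pt p.1 p.2.1 ∈ E ∧ pt p.1 p.2.2 ∈ E ∧ A E p.1 / 8 ≤ |p.2.2 - p.2.1| ∧
    |p.2.2 - p.2.1| ≤ R * A E p.1}

/-- second kernel -/
def H2 : Set ((V d × V d) × ℝ × ℝ) :=
  {p | p.1 ∈ G ∧ pt p.1 p.2.1 ∈ E ∧ pt p.1 p.2.2 ∈ E ∧ τ * A E p.1 ≤ |p.2.2 - p.2.1| ∧
    |p.2.2 - p.2.1| ≤ 2 * R * A E p.1}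

/-- first kernel as a function of two points -/
noncomputable def K1 (z w : ℝ × V d) : ℝ≥0∞ := (H1 E G R).indicator 1 (ln z (vel z w), z.1, w.1)

/-- second kernel as a function of two points -/
noncomputable def K2 (z w : ℝ × V d) : ℝ≥0∞ := (H2 E G R τ).indicator 1 (ln z (vel z w), z.1, w.1)

variable {E G}

lemma measurableSet_H (hE : MeasurableSet E) (hG : MeasurableSet G) (a b : ℝ) :
    MeasurableSet {p : (V d × V d) × ℝ × ℝ | p.1 ∈ G ∧ pt p.1 p.2.1 ∈ E ∧ pt p.1 p.2.2 ∈ E ∧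
      a * A E p.1 ≤ |p.2.2 - p.2.1| ∧ |p.2.2 - p.2.1| ≤ b * A E p.1} := by
  have hA := measurable_A hE
  have m1 : Measurable (fun p : (V d × V d) × ℝ × ℝ => pt p.1 p.2.1) := by fun_prop
  have m2 : Measurable (fun p : (V d × V d) × ℝ × ℝ => pt p.1 p.2.2) := by fun_prop
  refine MeasurableSet.inter (measurable_fst hG) (MeasurableSet.inter (m1 hE)
    (MeasurableSet.inter (m2 hE) (MeasurableSet.inter ?_ ?_)))
  · exact measurableSet_le (f := fun p : (V d × V d) × ℝ × ℝ => a * A E p.1)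
      (g := fun p : (V d × V d) × ℝ × ℝ => |p.2.2 - p.2.1|) (by fun_prop) (by fun_prop)
  · exact measurableSet_le (g := fun p : (V d × V d) × ℝ × ℝ => b * A E p.1)
      (f := fun p : (V d × V d) × ℝ × ℝ => |p.2.2 - p.2.1|) (by fun_prop) (by fun_prop)

lemma measurableSet_H1 (hE : MeasurableSet E) (hG : MeasurableSet G) :
    MeasurableSet (H1 E G R) := by
  have := measurableSet_H hE hG (1 / 8) R
  have e : H1 E G R = {p : (V d × V d) × ℝ × ℝ | p.1 ∈ G ∧ pt p.1 p.2.1 ∈ E ∧ pt p.1 p.2.2 ∈ E ∧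
      1 / 8 * A E p.1 ≤ |p.2.2 - p.2.1| ∧ |p.2.2 - p.2.1| ≤ R * A E p.1} := by
    ext p
    simp only [H1, mem_ofPred_eq]
    rw [show A E p.1 / 8 = 1 / 8 * A E p.1 by ring]
  rw [e]; exact this

lemma measurableSet_H2 (hE : MeasurableSet E) (hG : MeasurableSet G) :
    MeasurableSet (H2 E G R τ) := measurableSet_H hE hG τ (2 * R)

lemma measurable_K1 (hE : MeasurableSet E) (hG : MeasurableSet G) :
    Measurable (fun p : (ℝ × V d) × (ℝ × V d) => K1 E G R p.1 p.2) := by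
  unfold K1
  exact (measurable_one.indicator (measurableSet_H1 R hE hG)).comp (by fun_prop)

lemma measurable_K2 (hE : MeasurableSet E) (hG : MeasurableSet G) :
    Measurable (fun p : (ℝ × V d) × (ℝ × V d) => K2 E G R τ p.1 p.2) := by
  unfold K2
  exact (measurable_one.indicator (measurableSet_H2 R τ hE hG)).comp (by fun_prop)

lemma pt_ln_vel {z w : ℝ × V d} (h : z.1 ≠ w.1) : pt (ln z (vel z w)) w.1 = w := by
  rw [ln_vel_comm h, pt_ln_self]

lemma H_symm (hGF : ∀ ℓ ∈ G, F E ℓ ≠ 0 ∧ F E ℓ ≠ ∞) (a b : ℝ) (ha : 0 < a) (z w : ℝ × V d)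
    (h : ln z (vel z w) ∈ G ∧ pt (ln z (vel z w)) z.1 ∈ E ∧ pt (ln z (vel z w)) w.1 ∈ E ∧
      a * A E (ln z (vel z w)) ≤ |w.1 - z.1| ∧ |w.1 - z.1| ≤ b * A E (ln z (vel z w))) :
    z.1 ≠ w.1 ∧ (ln w (vel w z) ∈ G ∧ pt (ln w (vel w z)) w.1 ∈ E ∧ pt (ln w (vel w z)) z.1 ∈ E ∧
      a * A E (ln w (vel w z)) ≤ |z.1 - w.1| ∧ |z.1 - w.1| ≤ b * A E (ln w (vel w z))) := by
  obtain ⟨h1, h2, h3, h4, h5⟩ := h
  have hne : z.1 ≠ w.1 := by
    intro he
    have hA := A_pos (hGF _ h1)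
    rw [he] at h4
    simp only [sub_self, abs_zero] at h4
    have : 0 < a * A E (ln z (vel z w)) := by positivity
    linarith
  refine ⟨hne, ?_⟩
  rw [← ln_vel_comm hne, abs_sub_comm z.1 w.1]
  exact ⟨h1, h3, h2, h4, h5⟩

lemma K1_ne (hGF : ∀ ℓ ∈ G, F E ℓ ≠ 0 ∧ F E ℓ ≠ ∞) {z w : ℝ × V d} (h : K1 E G R z w ≠ 0) :
    z.1 ≠ w.1 ∧ z ∈ E ∧ w ∈ E ∧ ln z (vel z w) ∈ G := by
  unfold K1 at h
  have h' := mem_of_indicator_ne_zero h
  obtain ⟨h1, h2, h3, h4, h5⟩ := h'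
  simp only at h1 h2 h3 h4 h5
  have := H_symm hGF (1/8) R (by norm_num) z w ⟨h1, h2, h3, by linarith, h5⟩
  rw [pt_ln_self] at h2
  rw [pt_ln_vel this.1] at h3
  exact ⟨this.1, h2, h3, h1⟩

lemma K1_symm (hGF : ∀ ℓ ∈ G, F E ℓ ≠ 0 ∧ F E ℓ ≠ ∞) (z w : ℝ × V d) :
    K1 E G R z w = K1 E G R w z := by
  have key : ∀ z w : ℝ × V d, (ln z (vel z w), z.1, w.1) ∈ H1 E G R →
      (ln w (vel w z), w.1, z.1) ∈ H1 E G R := by
    intro z w h
    obtain ⟨h1, h2, h3, h4, h5⟩ := h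
    simp only at h1 h2 h3 h4 h5
    obtain ⟨-, k1, k2, k3, k4, k5⟩ := H_symm hGF (1/8) R (by norm_num) z w ⟨h1, h2, h3, by linarith, h5⟩
    exact ⟨k1, k2, k3, by simp only; linarith, k5⟩
  unfold K1
  by_cases h : (ln z (vel z w), z.1, w.1) ∈ H1 E G R
  · rw [indicator_of_mem h, indicator_of_mem (key _ _ h)]; rfl
  · rw [indicator_of_notMem h, indicator_of_notMem (fun h' => h (key _ _ h'))]

lemma K1_le_one (z w : ℝ × V d) : K1 E G R z w ≤ 1 := by
  unfold K1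
  exact indicator_le_self' (by simp) _ |>.trans (by simp)

/-- neighbourhood measure -/
noncomputable def Nn (E : Set (ℝ × V d)) (G : Set (V d × V d)) (R : ℝ) (z : ℝ × V d) : ℝ≥0∞ :=
  ∫⁻ w : ℝ × V d, K1 E G R z w

/-- weighted degree -/
noncomputable def deg (E : Set (ℝ × V d)) (G : Set (V d × V d)) (R : ℝ) (z : ℝ × V d) : ℝ≥0∞ :=
  ∫⁻ v : V d, (Good E G R).indicator (fun p => wt E G (d + 1) p.1) (ln z v, z.1)

lemma deg_le_Nn (hE : MeasurableSet E) (hG : MeasurableSet G)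
    (hGF : ∀ ℓ ∈ G, F E ℓ ≠ 0 ∧ F E ℓ ≠ ∞) (z : ℝ × V d) :
    deg E G R z ≤ ENNReal.ofReal (2 * 8 ^ d) * Nn E G R z := by
  have h0 : Nn E G R z = ∫⁻ v : V d, ∫⁻ t : ℝ, ENNReal.ofReal (|t - z.1| ^ d) *
      (H1 E G R).indicator 1 (ln z v, z.1, t) := by
    have hm : Measurable (fun p : (V d × V d) × ℝ => ((H1 E G R).indicator 1 (p.1, z.1, p.2) : ℝ≥0∞)) :=
      (measurable_one.indicator (measurableSet_H1 R hE hG)).comp (by fun_prop)
    exact lintegral_two z (fun p => (H1 E G R).indicator 1 (p.1, z.1, p.2)) hm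
  rw [h0, deg, ← lintegral_const_mul' _ _ ENNReal.ofReal_ne_top]
  refine lintegral_mono fun v => ?_
  by_cases h : (ln z v, z.1) ∈ Good E G R
  · rw [indicator_of_mem h]
    obtain ⟨h1, h2, h3⟩ := h
    simp only [pt_ln_self] at h1 h2 h3
    simp only [wt, indicator_of_mem h1]
    set ℓ := ln z v with hℓ
    have hA := A_pos (hGF _ h1)
    have hF := F_eq (hGF _ h1).2
    set S' : Set ℝ := Sec E ℓ ∩ {t | A E ℓ / 8 ≤ |t - z.1| ∧ |t - z.1| ≤ R * A E ℓ} with hS'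
    have hS'm : MeasurableSet S' := by
      refine (measurableSet_Sec hE _).inter (MeasurableSet.inter ?_ ?_)
      · exact measurableSet_le (f := fun _ : ℝ => A E ℓ / 8) (g := fun t : ℝ => |t - z.1|)
          (by fun_prop) (by fun_prop)
      · exact measurableSet_le (g := fun _ : ℝ => R * A E ℓ) (f := fun t : ℝ => |t - z.1|)
          (by fun_prop) (by fun_prop)
    have hvol : ENNReal.ofReal (A E ℓ / 2) ≤ volume S' := by
      have h4 : volume (Sec E ℓ) ≤ volume S' + volume (Far E R ℓ z.1) +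
          volume {t : ℝ | |t - z.1| < A E ℓ / 8} := by
        refine (measure_mono ?_).trans ((measure_union_le _ _).trans
          (add_le_add_left (measure_union_le _ _) _))
        intro t ht
        by_cases ha : A E ℓ / 8 ≤ |t - z.1|
        · by_cases hb : |t - z.1| ≤ R * A E ℓ
          · exact Or.inl (Or.inl ⟨ht, ha, hb⟩)
          · exact Or.inl (Or.inr ⟨ht, not_le.1 hb⟩)
        · exact Or.inr (not_le.1 ha)
      rw [vol_abs_lt, show volume (Sec E ℓ) = ENNReal.ofReal (A E ℓ) from hF,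
        show 2 * (A E ℓ / 8) = A E ℓ / 4 by ring] at h4
      have h5 : ENNReal.ofReal (A E ℓ) ≤ volume S' + ENNReal.ofReal (A E ℓ / 2) := by
        calc ENNReal.ofReal (A E ℓ) ≤ volume S' + volume (Far E R ℓ z.1) + ENNReal.ofReal (A E ℓ / 4) := h4
          _ ≤ volume S' + ENNReal.ofReal (A E ℓ / 4) + ENNReal.ofReal (A E ℓ / 4) := by gcongr
          _ = volume S' + ENNReal.ofReal (A E ℓ / 2) := by
              rw [add_assoc, ← ENNReal.ofReal_add (by positivity) (by positivity)]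
              congr 2; ring
      have h6 : ENNReal.ofReal (A E ℓ) = ENNReal.ofReal (A E ℓ / 2) + ENNReal.ofReal (A E ℓ / 2) := by
        rw [← ENNReal.ofReal_add (by positivity) (by positivity), add_halves]
      rw [h6] at h5
      exact (ENNReal.add_le_add_iff_right ENNReal.ofReal_ne_top).1 h5
    have hc := cheb (d := d) hS'm z.1 (A E ℓ / 8) (by positivity)
    have hsub : S' ∩ {t | A E ℓ / 8 ≤ |t - z.1|} = S' := by
      apply inter_eq_left.2
      intro t ht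
      exact ht.2.1
    rw [hsub, ← lintegral_indicator hS'm] at hc
    have hint : ∫⁻ t : ℝ, S'.indicator (fun t => ENNReal.ofReal (|t - z.1| ^ d)) t ≤
        ∫⁻ t : ℝ, ENNReal.ofReal (|t - z.1| ^ d) * (H1 E G R).indicator 1 (ℓ, z.1, t) := by
      refine lintegral_mono fun t => ?_
      by_cases ht : t ∈ S'
      · have : (ℓ, z.1, t) ∈ H1 E G R := by
          refine ⟨h1, ?_, ht.1, ht.2.1, ht.2.2⟩
          simp only [hℓ, pt_ln_self]; exact h2
        rw [indicator_of_mem ht, indicator_of_mem this]; simp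
      · rw [indicator_of_notMem ht]; simp
    calc ENNReal.ofReal (A E ℓ ^ (d + 1))
        = ENNReal.ofReal (2 * 8 ^ d) * (ENNReal.ofReal ((A E ℓ / 8) ^ d) * ENNReal.ofReal (A E ℓ / 2)) := by
          rw [← ENNReal.ofReal_mul (by positivity), ← ENNReal.ofReal_mul (by positivity)]
          congr 1
          rw [div_pow]
          field_simp
          exact pow_succ _ _
      _ ≤ ENNReal.ofReal (2 * 8 ^ d) * (ENNReal.ofReal ((A E ℓ / 8) ^ d) * volume S') := by gcongr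
      _ ≤ _ := by gcongr; exact hc.trans hint
  · rw [indicator_of_notMem h]; exact zero_le

end

end Run7.h567
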