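import Pool.Agent.Run7.h567.Tri

set_option autoImplicit false

open MeasureTheory ENNReal Set

namespace Run7.h567

variable {d : ℕ} {E : Set (ℝ × V d)} {G : Set (V d × V d)} (R τ : ℝ)

lemma good_good (hGF : ∀ ℓ ∈ G, F E ℓ ≠ 0 ∧ F E ℓ ≠ ∞) {ℓ : V d × V d} {t t' : ℝ}
    (h : (ℓ, t) ∈ Good E G R) (h' : (ℓ, t') ∈ Good E G R) : |t' - t| ≤ 2 * R * A E ℓ := by
  by_contra hcon
  push Not at hcon
  obtain ⟨h1, h2, h3⟩ := h
  obtain ⟨-, h2', h3'⟩ := h'
  simp only at h1 h2 h3 h2' h3'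
  have hA := A_pos (hGF _ h1)
  have hF := F_eq (hGF _ h1).2
  have hsub : Sec E ℓ ⊆ Far E R ℓ t ∪ Far E R ℓ t' := by
    intro s hs
    by_cases ha : R * A E ℓ < |s - t|
    · exact Or.inl ⟨hs, ha⟩
    · refine Or.inr ⟨hs, ?_⟩
      simp only [mem_ofPred_eq]
      have : |t' - t| ≤ |s - t'| + |s - t| := by
        have := abs_sub_le t' s t
        rwa [abs_sub_comm t' s] at this
      push Not at ha
      linarith
  have h4 : volume (Sec E ℓ) < ENNReal.ofReal (A E ℓ / 4) + ENNReal.ofReal (A E ℓ / 4) :=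
    ((measure_mono hsub).trans (measure_union_le _ _)).trans_lt (ENNReal.add_lt_add h3 h3')
  rw [show volume (Sec E ℓ) = ENNReal.ofReal (A E ℓ) from hF,
    ← ENNReal.ofReal_add (by positivity) (by positivity)] at h4
  have h5 : ENNReal.ofReal (A E ℓ / 4 + A E ℓ / 4) ≤ ENNReal.ofReal (A E ℓ) :=
    ENNReal.ofReal_le_ofReal (by linarith)
  exact absurd h4 (not_lt.2 h5)

/-- good times on `ℓ` seen from `w` -/
noncomputable def uu (E : Set (ℝ × V d)) (G : Set (V d × V d)) (R : ℝ) (w : ℝ × V d)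
    (ℓ : V d × V d) (t : ℝ) : ℝ≥0∞ :=
  (Good E G R).indicator 1 (ℓ, t) * K1 E G R w (pt ℓ t)

/-- their measure -/
noncomputable def nn (E : Set (ℝ × V d)) (G : Set (V d × V d)) (R : ℝ) (w : ℝ × V d)
    (ℓ : V d × V d) : ℝ≥0∞ := ∫⁻ t : ℝ, uu E G R w ℓ t

/-- nondegenerate pairs -/
noncomputable def ND (E : Set (ℝ × V d)) (G : Set (V d × V d)) (R τ : ℝ) (w : ℝ × V d)
    (ℓ : V d × V d) : ℝ≥0∞ := ∫⁻ t : ℝ, ∫⁻ t' : ℝ, uu E G R w ℓ t * uu E G R w ℓ t' *
      {s : ℝ | τ * A E ℓ ≤ |s - t|}.indicator 1 t'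

lemma measurable_uu (hE : MeasurableSet E) (hG : MeasurableSet G) :
    Measurable (fun p : (ℝ × V d) × ((V d × V d) × ℝ) => uu E G R p.1 p.2.1 p.2.2) := by
  unfold uu
  refine Measurable.mul ?_ ?_
  · exact (measurable_one.indicator (measurableSet_Good hE hG R)).comp (by fun_prop)
  · exact (measurable_K1 R hE hG).comp (g := fun p : (ℝ × V d) × (ℝ × V d) => K1 E G R p.1 p.2)
      (f := fun p : (ℝ × V d) × ((V d × V d) × ℝ) => (p.1, pt p.2.1 p.2.2)) (by fun_prop)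

lemma measurable_nn (hE : MeasurableSet E) (hG : MeasurableSet G) :
    Measurable (fun p : (ℝ × V d) × (V d × V d) => nn E G R p.1 p.2) := by
  unfold nn
  have h := measurable_uu R hE hG
  have : Measurable (fun p : ((ℝ × V d) × (V d × V d)) × ℝ => uu E G R p.1.1 p.1.2 p.2) :=
    h.comp (f := fun p : ((ℝ × V d) × (V d × V d)) × ℝ => (p.1.1, p.1.2, p.2)) (by fun_prop)
  exact this.lintegral_prod_right'

lemma measurable_ND_aux (hE : MeasurableSet E) (hG : MeasurableSet G) :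
    Measurable (fun p : ((ℝ × V d) × (V d × V d)) × ℝ × ℝ =>
      uu E G R p.1.1 p.1.2 p.2.1 * uu E G R p.1.1 p.1.2 p.2.2 *
      {s : ℝ | τ * A E p.1.2 ≤ |s - p.2.1|}.indicator 1 p.2.2) := by
  have h := measurable_uu R hE hG
  have hA := measurable_A hE
  refine Measurable.mul (Measurable.mul ?_ ?_) ?_
  · exact h.comp (f := fun p : ((ℝ × V d) × (V d × V d)) × ℝ × ℝ => (p.1.1, p.1.2, p.2.1)) (by fun_prop)
  · exact h.comp (f := fun p : ((ℝ × V d) × (V d × V d)) × ℝ × ℝ => (p.1.1, p.1.2, p.2.2)) (by fun_prop)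
  · have hs : MeasurableSet {p : ((ℝ × V d) × (V d × V d)) × ℝ × ℝ | τ * A E p.1.2 ≤ |p.2.2 - p.2.1|} :=
      measurableSet_le (f := fun p : ((ℝ × V d) × (V d × V d)) × ℝ × ℝ => τ * A E p.1.2)
        (g := fun p : ((ℝ × V d) × (V d × V d)) × ℝ × ℝ => |p.2.2 - p.2.1|) (by fun_prop) (by fun_prop)
    exact (measurable_one : Measurable (1 : ((ℝ × V d) × (V d × V d)) × ℝ × ℝ → ℝ≥0∞)).indicator hs

lemma measurable_ND (hE : MeasurableSet E) (hG : MeasurableSet G) :
    Measurable (fun p : (ℝ × V d) × (V d × V d) => ND E G R τ p.1 p.2) := by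
  unfold ND
  have h := measurable_ND_aux R τ hE hG
  have h1 : Measurable (fun p : (((ℝ × V d) × (V d × V d)) × ℝ) × ℝ =>
      uu E G R p.1.1.1 p.1.1.2 p.1.2 * uu E G R p.1.1.1 p.1.1.2 p.2 *
      {s : ℝ | τ * A E p.1.1.2 ≤ |s - p.1.2|}.indicator 1 p.2) :=
    h.comp (f := fun p : (((ℝ × V d) × (V d × V d)) × ℝ) × ℝ => (p.1.1, p.1.2, p.2)) (by fun_prop)
  exact (h1.lintegral_prod_right').lintegral_prod_right'

lemma uu_le_one (w : ℝ × V d) (ℓ : V d × V d) (t : ℝ) : uu E G R w ℓ t ≤ 1 := by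
  unfold uu
  calc _ ≤ (1 : ℝ≥0∞) * 1 := by
        gcongr
        · exact (indicator_le_self' (by simp) _).trans (by simp)
        · exact K1_le_one R w _
    _ = 1 := by simp

lemma sq_le_ND (hE : MeasurableSet E) (hG : MeasurableSet G) (hτ : 0 ≤ τ) (w : ℝ × V d)
    (ℓ : V d × V d) :
    nn E G R w ℓ ^ 2 ≤ ND E G R τ w ℓ + ENNReal.ofReal (2 * τ * A E ℓ) * nn E G R w ℓ := by
  have hu : Measurable (fun t => uu E G R w ℓ t) :=
    (measurable_uu R hE hG).comp (f := fun t : ℝ => (w, ℓ, t)) (by fun_prop)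
  have h1 : ∀ t : ℝ, uu E G R w ℓ t * nn E G R w ℓ ≤
      (∫⁻ t' : ℝ, uu E G R w ℓ t * uu E G R w ℓ t' *
      {s : ℝ | τ * A E ℓ ≤ |s - t|}.indicator 1 t') + ENNReal.ofReal (2 * τ * A E ℓ) * uu E G R w ℓ t := by
    intro t
    have hms : MeasurableSet {s : ℝ | τ * A E ℓ ≤ |s - t|} :=
      measurableSet_le (f := fun _ : ℝ => τ * A E ℓ) (g := fun s : ℝ => |s - t|)
        (by fun_prop) (by fun_prop)
    have hmul : Measurable (fun t' => uu E G R w ℓ t' *
      {s : ℝ | τ * A E ℓ ≤ |s - t|}.indicator 1 t') := hu.mul (measurable_one.indicator hms)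
    have h2 : nn E G R w ℓ ≤ (∫⁻ t' : ℝ, uu E G R w ℓ t' *
      {s : ℝ | τ * A E ℓ ≤ |s - t|}.indicator 1 t') + ENNReal.ofReal (2 * τ * A E ℓ) := by
      rw [show 2 * τ * A E ℓ = 2 * (τ * A E ℓ) by ring, ← vol_abs_lt t (τ * A E ℓ),
        ← lintegral_indicator_one (measurableSet_lt (g := fun _ : ℝ => τ * A E ℓ)
          (f := fun s : ℝ => |s - t|) (by fun_prop) (by fun_prop)), nn,
        ← lintegral_add_left hmul]
      refine lintegral_mono fun t' => ?_
      by_cases h : τ * A E ℓ ≤ |t' - t|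
      · have : t' ∈ {s : ℝ | τ * A E ℓ ≤ |s - t|} := h
        simp [this]
      · have h5 : t' ∉ {s : ℝ | τ * A E ℓ ≤ |s - t|} := h
        have h6 : t' ∈ {s : ℝ | |s - t| < τ * A E ℓ} := not_le.1 h
        rw [indicator_of_notMem h5, indicator_of_mem h6]
        simp only [mul_zero, zero_add, Pi.one_apply]
        exact uu_le_one R w ℓ t'
    calc uu E G R w ℓ t * nn E G R w ℓ ≤ uu E G R w ℓ t * ((∫⁻ t' : ℝ, uu E G R w ℓ t' *
        {s : ℝ | τ * A E ℓ ≤ |s - t|}.indicator 1 t') + ENNReal.ofReal (2 * τ * A E ℓ)) := by gcongr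
      _ = _ := by
        rw [mul_add, ← lintegral_const_mul _ hmul]
        congr 1
        · refine lintegral_congr fun t' => ?_
          ring
        · ring
  calc nn E G R w ℓ ^ 2 = ∫⁻ t : ℝ, uu E G R w ℓ t * nn E G R w ℓ := by
        rw [lintegral_mul_const _ hu, sq]; rfl
    _ ≤ ∫⁻ t : ℝ, ((∫⁻ t' : ℝ, uu E G R w ℓ t * uu E G R w ℓ t' *
      {s : ℝ | τ * A E ℓ ≤ |s - t|}.indicator 1 t') + ENNReal.ofReal (2 * τ * A E ℓ) * uu E G R w ℓ t) :=
        lintegral_mono h1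
    _ = _ := by
        rw [lintegral_add_right _ (by fun_prop), lintegral_const_mul _ hu]
        rfl

lemma nn_zero (hGF : ∀ ℓ ∈ G, F E ℓ ≠ 0 ∧ F E ℓ ≠ ∞) {w : ℝ × V d} {ℓ : V d × V d}
    (h : ¬ (w ∈ E ∧ ℓ ∈ G)) : nn E G R w ℓ = 0 := by
  unfold nn
  have : ∀ t : ℝ, uu E G R w ℓ t = 0 := by
    intro t
    unfold uu
    by_cases h1 : (ℓ, t) ∈ Good E G R
    · by_cases h2 : K1 E G R w (pt ℓ t) = 0
      · rw [h2, mul_zero]
      · exact absurd ⟨(K1_ne R hGF h2).2.1, h1.1⟩ h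
    · rw [indicator_of_notMem h1, zero_mul]
  simp_rw [this]; simp

lemma nn_le (w : ℝ × V d) (hE : MeasurableSet E) (ℓ : V d × V d) : nn E G R w ℓ ≤ F E ℓ := by
  unfold nn F
  rw [← lintegral_indicator_one (measurableSet_Sec hE ℓ)]
  refine lintegral_mono fun t => ?_
  by_cases h : t ∈ Sec E ℓ
  · rw [indicator_of_mem h]; exact uu_le_one R w ℓ t
  · rw [indicator_of_notMem h]
    unfold uu
    rw [indicator_of_notMem (fun hh => h hh.2.1)]
    simp

/-- total weighted number of (line, good point, visible point) -/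
noncomputable def Qg (E : Set (ℝ × V d)) (G : Set (V d × V d)) (R : ℝ) : ℝ≥0∞ :=
  ∫⁻ w : ℝ × V d, ∫⁻ ℓ : V d × V d, wt E G (d + 1) ℓ * nn E G R w ℓ

lemma Qg_eq (hE : MeasurableSet E) (hG : MeasurableSet G)
    (hGF : ∀ ℓ ∈ G, F E ℓ ≠ 0 ∧ F E ℓ ≠ ∞) :
    Qg E G R = ∫⁻ z : ℝ × V d, deg E G R z * Nn E G R z := by
  have hw := measurable_wt hE hG (d + 1)
  have hn := measurable_nn R hE hG
  have hu := measurable_uu R hE hG
  have hK := measurable_K1 R hE hG
  have hNn : Measurable (Nn E G R) := hK.lintegral_prod_right'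
  have hgw : Measurable ((Good E G R).indicator (fun p => wt E G (d + 1) p.1)) :=
    Measurable.indicator (by fun_prop) (measurableSet_Good hE hG R)
  unfold Qg
  rw [lintegral_lintegral_swap (by
    refine (Measurable.mul (f := fun p : (ℝ × V d) × (V d × V d) => wt E G (d + 1) p.2) (by fun_prop) hn).aemeasurable)]
  have h1 : ∀ ℓ : V d × V d, ∫⁻ w : ℝ × V d, wt E G (d + 1) ℓ * nn E G R w ℓ =
      ∫⁻ t : ℝ, (Good E G R).indicator (fun p => wt E G (d + 1) p.1) (ℓ, t) * Nn E G R (pt ℓ t) := by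
    intro ℓ
    have m1 : Measurable (fun p : (ℝ × V d) × ℝ => uu E G R p.1 ℓ p.2) :=
      hu.comp (f := fun p : (ℝ × V d) × ℝ => (p.1, ℓ, p.2)) (by fun_prop)
    have m2 : Measurable (fun w : ℝ × V d => nn E G R w ℓ) :=
      hn.comp (f := fun w : ℝ × V d => (w, ℓ)) (by fun_prop)
    rw [lintegral_const_mul _ m2]
    unfold nn
    rw [lintegral_lintegral_swap m1.aemeasurable, ← lintegral_const_mul _ (by
      exact Measurable.lintegral_prod_left' (f := fun p : (ℝ × V d) × ℝ => uu E G R p.1 ℓ p.2) m1)]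
    refine lintegral_congr fun t => ?_
    unfold uu
    have m3 : Measurable (fun w : ℝ × V d => K1 E G R w (pt ℓ t)) :=
      hK.comp (g := fun p : (ℝ × V d) × (ℝ × V d) => K1 E G R p.1 p.2)
        (f := fun w : ℝ × V d => (w, pt ℓ t)) (by fun_prop)
    rw [lintegral_const_mul _ m3]
    have : ∫⁻ w : ℝ × V d, K1 E G R w (pt ℓ t) = Nn E G R (pt ℓ t) := by
      unfold Nn
      exact lintegral_congr fun w => K1_symm R hGF _ _
    rw [this]
    by_cases h : (ℓ, t) ∈ Good E G R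
    · rw [indicator_of_mem h, indicator_of_mem h]; simp
    · rw [indicator_of_notMem h, indicator_of_notMem h]; simp
  simp_rw [h1]
  rw [← lintegral_inc (fun p => (Good E G R).indicator (fun p => wt E G (d + 1) p.1) p *
    Nn E G R (pt p.1 p.2)) (by fun_prop)]
  refine lintegral_congr fun z => ?_
  unfold deg
  rw [← lintegral_mul_const _ (by
    exact hgw.comp (f := fun v : V d => (ln z v, z.1)) (by fun_prop))]
  refine lintegral_congr fun v => ?_
  simp only [pt_ln_self]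

lemma Phi_sq_le (hE : MeasurableSet E) (hG : MeasurableSet G)
    (hGF : ∀ ℓ ∈ G, F E ℓ ≠ 0 ∧ F E ℓ ≠ ∞) (hPf : Phi E G ≠ ∞) (hR : 0 < R)
    (hR2 : 8 * volume E ^ 2 ≤ ENNReal.ofReal (R ^ d) * Phi E G) :
    Phi E G ^ 2 ≤ ENNReal.ofReal (8 * 8 ^ d) * volume E * Qg E G R := by
  have hgw : Measurable ((Good E G R).indicator (fun p => wt E G (d + 1) p.1)) := by
    have := measurable_wt hE hG (d + 1)
    exact Measurable.indicator (by fun_prop) (measurableSet_Good hE hG R)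
  have hdeg : Measurable (deg E G R) := by
    have : Measurable (fun p : (ℝ × V d) × V d =>
        (Good E G R).indicator (fun p => wt E G (d + 1) p.1) (ln p.1 p.2, p.1.1)) :=
      hgw.comp (f := fun p : (ℝ × V d) × V d => (ln p.1 p.2, p.1.1)) (by fun_prop)
    exact this.lintegral_prod_right'
  have h1 : Phi E G ≤ 2 * ∫⁻ z : ℝ × V d, deg E G R z := by
    have := good_mass hE hG hGF hPf R hR hR2
    rwa [← lintegral_inc _ hgw] at this
  have h2 : (∫⁻ z : ℝ × V d, deg E G R z) ^ 2 ≤ volume E * ∫⁻ z : ℝ × V d, deg E G R z ^ 2 := by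
    refine cs volume hE hdeg fun z hz => ?_
    unfold deg
    have : ∀ v : V d, (Good E G R).indicator (fun p => wt E G (d + 1) p.1) (ln z v, z.1) = 0 := by
      intro v
      rw [indicator_of_notMem]
      intro hh
      have := hh.2.1
      simp only [pt_ln_self] at this
      exact hz this
    simp_rw [this]; simp
  have h3 : ∫⁻ z : ℝ × V d, deg E G R z ^ 2 ≤ ENNReal.ofReal (2 * 8 ^ d) * Qg E G R := by
    rw [Qg_eq R hE hG hGF, ← lintegral_const_mul' _ _ ENNReal.ofReal_ne_top]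
    refine lintegral_mono fun z => ?_
    rw [sq]
    calc deg E G R z * deg E G R z ≤ deg E G R z * (ENNReal.ofReal (2 * 8 ^ d) * Nn E G R z) := by
          gcongr; exact deg_le_Nn R hE hG hGF z
      _ = _ := by ring
  calc Phi E G ^ 2 ≤ (2 * ∫⁻ z : ℝ × V d, deg E G R z) ^ 2 := by gcongr
    _ = 4 * (∫⁻ z : ℝ × V d, deg E G R z) ^ 2 := by rw [mul_pow]; norm_num
    _ ≤ 4 * (volume E * (ENNReal.ofReal (2 * 8 ^ d) * Qg E G R)) := by
        gcongr; exact h2.trans (by gcongr)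
    _ = _ := by
        rw [show (4 : ℝ≥0∞) = ENNReal.ofReal 4 by simp,
          show (8 * 8 ^ d : ℝ) = 4 * (2 * 8 ^ d) by ring, ENNReal.ofReal_mul (by positivity : (0:ℝ) ≤ 4)]
        ring

end Run7.h567
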