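import Pool.Agent.Run7.h567.Tri2

set_option autoImplicit false

open MeasureTheory ENNReal Set

namespace Run7.h567

variable {d : ℕ} {E : Set (ℝ × V d)} {G : Set (V d × V d)} (R τ : ℝ)

/-- number of triangles -/
noncomputable def Tn (E : Set (ℝ × V d)) (G : Set (V d × V d)) (R τ : ℝ) : ℝ≥0∞ :=
  ∫⁻ w : ℝ × V d, ∫⁻ z : ℝ × V d, ∫⁻ z' : ℝ × V d,
    K1 E G R w z * K1 E G R w z' * K2 E G R τ z z'

/-- weighted number of nondegenerate configurations -/
noncomputable def Xx (E : Set (ℝ × V d)) (G : Set (V d × V d)) (R τ : ℝ) : ℝ≥0∞ :=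
  ∫⁻ w : ℝ × V d, ∫⁻ ℓ : V d × V d, wt E G d ℓ * ND E G R τ w ℓ

lemma Xx_le_Tn (hE : MeasurableSet E) (hG : MeasurableSet G)
    (hGF : ∀ ℓ ∈ G, F E ℓ ≠ 0 ∧ F E ℓ ≠ ∞) (hτ : 0 < τ) :
    ENNReal.ofReal (τ ^ d) * Xx E G R τ ≤ Tn E G R τ := by
  unfold Xx Tn
  rw [← lintegral_const_mul' _ _ ENNReal.ofReal_ne_top]
  refine lintegral_mono fun w => ?_
  have hK := measurable_K1 R hE hG
  have hKw : ∀ w : ℝ × V d, Measurable (fun z : ℝ × V d => K1 E G R w z) := fun w =>
    hK.comp (g := fun p : (ℝ × V d) × (ℝ × V d) => K1 E G R p.1 p.2)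
        (f := fun z : ℝ × V d => (w, z)) (by fun_prop)
  have hH2 := measurableSet_H2 R τ hE hG
  have hHm : Measurable ((H2 E G R τ).indicator (1 : (V d × V d) × ℝ × ℝ → ℝ≥0∞)) :=
    measurable_one.indicator hH2
  have hm : Measurable (fun p : (V d × V d) × ℝ × ℝ => K1 E G R w (pt p.1 p.2.1) *
      K1 E G R w (pt p.1 p.2.2) * (H2 E G R τ).indicator 1 p) := by
    refine Measurable.mul (Measurable.mul ?_ ?_) hHm
    · exact (hKw w).comp (by fun_prop)
    · exact (hKw w).comp (by fun_prop)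
  have h1 := lintegral_two_two _ hm
  have h2 : ∀ z z' : ℝ × V d, K1 E G R w (pt (ln z (vel z z')) z.1) *
      K1 E G R w (pt (ln z (vel z z')) z'.1) *
      (H2 E G R τ).indicator 1 (ln z (vel z z'), z.1, z'.1) =
      K1 E G R w z * K1 E G R w z' * K2 E G R τ z z' := by
    intro z z'
    unfold K2
    by_cases h : (ln z (vel z z'), z.1, z'.1) ∈ H2 E G R τ
    · have hne := (H_symm hGF τ (2 * R) hτ z z' h).1
      rw [pt_ln_self, pt_ln_vel hne]
    · rw [indicator_of_notMem h]; simp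
  simp only [h2] at h1
  rw [h1, ← lintegral_const_mul' _ _ ENNReal.ofReal_ne_top]
  refine lintegral_mono fun ℓ => ?_
  by_cases hℓ : ℓ ∈ G
  · have hu : Measurable (fun t => uu E G R w ℓ t) :=
      (measurable_uu R hE hG).comp (f := fun t : ℝ => (w, ℓ, t)) (by fun_prop)
    have hN := (measurable_ND_aux R τ hE hG).comp
      (f := fun p : ℝ × ℝ => ((w, ℓ), p)) (by fun_prop)
    have hN' : Measurable (fun p : ℝ × ℝ => uu E G R w ℓ p.1 * uu E G R w ℓ p.2 *
      {s : ℝ | τ * A E ℓ ≤ |s - p.1|}.indicator 1 p.2) := hN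
    simp only [wt, indicator_of_mem hℓ, ND]
    rw [← mul_assoc, ← lintegral_const_mul _ hN'.lintegral_prod_right']
    refine lintegral_mono fun t => ?_
    have hN2 : Measurable (fun t' : ℝ => uu E G R w ℓ t * uu E G R w ℓ t' *
      {s : ℝ | τ * A E ℓ ≤ |s - t|}.indicator 1 t') := hN'.comp (f := fun t' : ℝ => (t, t')) (by fun_prop)
    rw [← lintegral_const_mul _ hN2]
    refine lintegral_mono fun t' => ?_
    by_cases ht : (ℓ, t) ∈ Good E G R
    swap
    · simp only [uu, indicator_of_notMem ht]; simp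
    by_cases ht' : (ℓ, t') ∈ Good E G R
    swap
    · simp only [uu, indicator_of_notMem ht']; simp
    by_cases hs : τ * A E ℓ ≤ |t' - t|
    swap
    · have : t' ∉ {s : ℝ | τ * A E ℓ ≤ |s - t|} := hs
      rw [indicator_of_notMem this]; simp
    have hs' : t' ∈ {s : ℝ | τ * A E ℓ ≤ |s - t|} := hs
    have hmem : (ℓ, t, t') ∈ H2 E G R τ :=
      ⟨hℓ, ht.2.1, ht'.2.1, hs, good_good R hGF ht ht'⟩
    rw [indicator_of_mem hs', indicator_of_mem hmem]
    simp only [uu, indicator_of_mem ht, indicator_of_mem ht', Pi.one_apply, one_mul, mul_one]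
    gcongr
    rw [← ENNReal.ofReal_mul (by positivity), ← mul_pow]
    have := A_nonneg E ℓ
    exact ENNReal.ofReal_le_ofReal (pow_le_pow_left₀ (by positivity) hs _)
  · simp [wt, indicator_of_notMem hℓ]

lemma Qg_le (hE : MeasurableSet E) (hG : MeasurableSet G)
    (hGF : ∀ ℓ ∈ G, F E ℓ ≠ 0 ∧ F E ℓ ≠ ∞) : Qg E G R ≤ volume E * Phi E G := by
  unfold Qg Phi
  calc _ ≤ ∫⁻ w : ℝ × V d, E.indicator (fun _ => ∫⁻ ℓ : V d × V d, wt E G (d + 2) ℓ) w := by
        refine lintegral_mono fun w => ?_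
        by_cases hw : w ∈ E
        · rw [indicator_of_mem hw]
          refine lintegral_mono fun ℓ => ?_
          by_cases hℓ : ℓ ∈ G
          · simp only [wt, indicator_of_mem hℓ]
            calc _ ≤ ENNReal.ofReal (A E ℓ ^ (d + 1)) * F E ℓ := by
                  gcongr; exact nn_le R w hE ℓ
              _ = _ := by
                  have := A_nonneg E ℓ
                  rw [F_eq (hGF _ hℓ).2, ← ENNReal.ofReal_mul (by positivity), ← pow_succ]
          · simp [wt, indicator_of_notMem hℓ]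
        · have : ∀ ℓ, nn E G R w ℓ = 0 := fun ℓ => nn_zero R hGF (fun h => hw h.1)
          simp [this]
    _ = _ := by
        rw [lintegral_indicator_const hE, mul_comm]

lemma Qg_le_Xx (hE : MeasurableSet E) (hG : MeasurableSet G)
    (hGF : ∀ ℓ ∈ G, F E ℓ ≠ 0 ∧ F E ℓ ≠ ∞) (hPf : Phi E G ≠ ∞) (hEf : volume E ≠ ∞)
    (l : ℝ) (hl : 0 < l) (hlQ : ENNReal.ofReal l * (volume E * Phi E G) ≤ Qg E G R) :
    ENNReal.ofReal (l / 2) * Qg E G R ≤ Xx E G R (l / 4) := by
  have hQf : Qg E G R ≠ ∞ := ne_top_of_le_ne_top (ENNReal.mul_ne_top hEf hPf) (Qg_le R hE hG hGF)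
  have hw1 := measurable_wt hE hG (d + 1)
  have hw0 := measurable_wt hE hG d
  have hw2 := measurable_wt hE hG (d + 2)
  have hn := measurable_nn R hE hG
  have hND := measurable_ND R (l / 4) hE hG
  -- pointwise inequality
  have hpt : ∀ (w : ℝ × V d) (ℓ : V d × V d),
      ENNReal.ofReal (2 * l) * (wt E G (d + 1) ℓ * nn E G R w ℓ) ≤
      wt E G d ℓ * ND E G R (l / 4) w ℓ +
      (ENNReal.ofReal (l / 2) * (wt E G (d + 1) ℓ * nn E G R w ℓ) +
        ENNReal.ofReal (l ^ 2) * (E.indicator 1 w * wt E G (d + 2) ℓ)) := by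
    intro w ℓ
    by_cases hwl : w ∈ E ∧ ℓ ∈ G
    · obtain ⟨hw, hℓ⟩ := hwl
      have hA := A_nonneg E ℓ
      simp only [wt, indicator_of_mem hw, indicator_of_mem hℓ, Pi.one_apply, one_mul]
      have h1 := sq_le_ND R (l / 4) hE hG (by positivity) w ℓ
      have h2 := two_mul_le_sq (nn E G R w ℓ) (ENNReal.ofReal (l * A E ℓ))
      have h3 : ENNReal.ofReal (2 * (l / 4) * A E ℓ) = ENNReal.ofReal (l / 2 * A E ℓ) := by
        congr 1; ring
      rw [h3] at h1
      calc ENNReal.ofReal (2 * l) * (ENNReal.ofReal (A E ℓ ^ (d + 1)) * nn E G R w ℓ)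
          = ENNReal.ofReal (A E ℓ ^ d) * (2 * nn E G R w ℓ * ENNReal.ofReal (l * A E ℓ)) := by
            rw [show (2 : ℝ≥0∞) = ENNReal.ofReal 2 by simp, pow_succ,
              ENNReal.ofReal_mul (by positivity : (0:ℝ) ≤ 2),
              ENNReal.ofReal_mul (by positivity : (0:ℝ) ≤ A E ℓ ^ d),
              ENNReal.ofReal_mul hl.le]
            ring
        _ ≤ ENNReal.ofReal (A E ℓ ^ d) * (nn E G R w ℓ ^ 2 + ENNReal.ofReal (l * A E ℓ) ^ 2) := by
            gcongr
        _ ≤ ENNReal.ofReal (A E ℓ ^ d) * ((ND E G R (l / 4) w ℓ +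
            ENNReal.ofReal (l / 2 * A E ℓ) * nn E G R w ℓ) + ENNReal.ofReal (l * A E ℓ) ^ 2) := by
            gcongr
        _ = _ := by
            rw [← ENNReal.ofReal_pow (by positivity), mul_pow, pow_succ (A E ℓ) d,
              ENNReal.ofReal_mul (by positivity : (0:ℝ) ≤ l ^ 2), ENNReal.ofReal_mul (by positivity : (0:ℝ) ≤ l / 2),
              ENNReal.ofReal_mul (by positivity : (0:ℝ) ≤ A E ℓ ^ d), pow_add (A E ℓ) d 2,
              ENNReal.ofReal_mul (by positivity : (0:ℝ) ≤ A E ℓ ^ d)]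
            ring
    · rw [nn_zero R hGF hwl]; simp
  have hint : ENNReal.ofReal (2 * l) * Qg E G R ≤ Xx E G R (l / 4) +
      (ENNReal.ofReal (l / 2) * Qg E G R + ENNReal.ofReal (l ^ 2) * (volume E * Phi E G)) := by
    have e1 : ENNReal.ofReal (2 * l) * Qg E G R = ∫⁻ w : ℝ × V d, ∫⁻ ℓ : V d × V d,
        ENNReal.ofReal (2 * l) * (wt E G (d + 1) ℓ * nn E G R w ℓ) := by
      unfold Qg
      rw [← lintegral_const_mul' _ _ ENNReal.ofReal_ne_top]
      refine lintegral_congr fun w => ?_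
      rw [← lintegral_const_mul' _ _ ENNReal.ofReal_ne_top]
    have e2 : ENNReal.ofReal (l / 2) * Qg E G R = ∫⁻ w : ℝ × V d, ∫⁻ ℓ : V d × V d,
        ENNReal.ofReal (l / 2) * (wt E G (d + 1) ℓ * nn E G R w ℓ) := by
      unfold Qg
      rw [← lintegral_const_mul' _ _ ENNReal.ofReal_ne_top]
      refine lintegral_congr fun w => ?_
      rw [← lintegral_const_mul' _ _ ENNReal.ofReal_ne_top]
    have e3 : ENNReal.ofReal (l ^ 2) * (volume E * Phi E G) = ∫⁻ w : ℝ × V d, ∫⁻ ℓ : V d × V d,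
        ENNReal.ofReal (l ^ 2) * (E.indicator 1 w * wt E G (d + 2) ℓ) := by
      have : ∀ w : ℝ × V d, ∫⁻ ℓ : V d × V d,
        ENNReal.ofReal (l ^ 2) * (E.indicator 1 w * wt E G (d + 2) ℓ) =
        E.indicator (fun _ => ENNReal.ofReal (l ^ 2) * Phi E G) w := by
        intro w
        rw [lintegral_const_mul' _ _ ENNReal.ofReal_ne_top]
        by_cases hw : w ∈ E
        · rw [indicator_of_mem hw, indicator_of_mem hw]
          simp only [Pi.one_apply, one_mul]
          rfl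
        · rw [indicator_of_notMem hw, indicator_of_notMem hw]; simp
      simp_rw [this]
      rw [lintegral_indicator_const hE]; ring
    have m1 : Measurable (fun p : (ℝ × V d) × (V d × V d) => wt E G d p.2 * ND E G R (l / 4) p.1 p.2) :=
      Measurable.mul (by fun_prop) hND
    have m2 : Measurable (fun p : (ℝ × V d) × (V d × V d) =>
        ENNReal.ofReal (l / 2) * (wt E G (d + 1) p.2 * nn E G R p.1 p.2)) :=
      Measurable.const_mul (Measurable.mul (by fun_prop) hn) _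
    rw [e1, e2, e3, Xx]
    rw [← lintegral_add_left m2.lintegral_prod_right', ← lintegral_add_left m1.lintegral_prod_right']
    refine lintegral_mono fun w => ?_
    have m1' : Measurable (fun ℓ : V d × V d => wt E G d ℓ * ND E G R (l / 4) w ℓ) :=
      m1.comp (f := fun ℓ : V d × V d => (w, ℓ)) (by fun_prop)
    have m2' : Measurable (fun ℓ : V d × V d =>
        ENNReal.ofReal (l / 2) * (wt E G (d + 1) ℓ * nn E G R w ℓ)) :=
      m2.comp (f := fun ℓ : V d × V d => (w, ℓ)) (by fun_prop)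
    rw [← lintegral_add_left m2', ← lintegral_add_left m1']
    exact lintegral_mono fun ℓ => hpt w ℓ
  have h4 : ENNReal.ofReal (l ^ 2) * (volume E * Phi E G) ≤ ENNReal.ofReal l * Qg E G R := by
    rw [sq, ENNReal.ofReal_mul hl.le, mul_assoc]
    gcongr
  have h5 : ENNReal.ofReal (l / 2) * Qg E G R + ENNReal.ofReal (3 * l / 2) * Qg E G R ≤
      Xx E G R (l / 4) + ENNReal.ofReal (3 * l / 2) * Qg E G R := by
    calc ENNReal.ofReal (l / 2) * Qg E G R + ENNReal.ofReal (3 * l / 2) * Qg E G R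
        = ENNReal.ofReal (2 * l) * Qg E G R := by
          rw [← add_mul, ← ENNReal.ofReal_add (by positivity) (by positivity)]
          congr 2; ring
      _ ≤ _ := hint
      _ ≤ Xx E G R (l / 4) + (ENNReal.ofReal (l / 2) * Qg E G R + ENNReal.ofReal l * Qg E G R) := by
          gcongr
      _ = _ := by
          rw [← add_mul, ← ENNReal.ofReal_add (by positivity) (by positivity)]
          congr 3; ring
  exact (ENNReal.add_le_add_iff_right (ENNReal.mul_ne_top ENNReal.ofReal_ne_top hQf)).1 h5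

/-- lower bound for the number of triangles -/
lemma Tn_ge (hE : MeasurableSet E) (hG : MeasurableSet G)
    (hGF : ∀ ℓ ∈ G, F E ℓ ≠ 0 ∧ F E ℓ ≠ ∞) (hPf : Phi E G ≠ ∞) (hEf : volume E ≠ ∞)
    (l : ℝ) (hl : 0 < l) (hlQ : ENNReal.ofReal l * (volume E * Phi E G) ≤ Qg E G R) :
    ENNReal.ofReal ((l / 4) ^ d * (l ^ 2 / 2)) * (volume E * Phi E G) ≤ Tn E G R (l / 4) := by
  refine le_trans ?_ (Xx_le_Tn R (l / 4) hE hG hGF (by positivity))
  rw [ENNReal.ofReal_mul (by positivity), mul_assoc]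
  gcongr
  refine le_trans ?_ (Qg_le_Xx R hE hG hGF hPf hEf l hl hlQ)
  calc ENNReal.ofReal (l ^ 2 / 2) * (volume E * Phi E G)
      = ENNReal.ofReal (l / 2) * (ENNReal.ofReal l * (volume E * Phi E G)) := by
        rw [← mul_assoc (ENNReal.ofReal (l / 2)), ← ENNReal.ofReal_mul (by positivity)]
        congr 2; ring
    _ ≤ _ := by gcongr

end Run7.h567
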