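import Pool.Agent.Run7.h567.CoreA
import Pool.Agent.Run7.h567.Schur2
import Pool.Agent.Run7.h567.Kb

set_option autoImplicit false

open MeasureTheory ENNReal Set

namespace Run7.h567

variable {d : ℕ}

/-- pairs of points of a line at distance at least an eighth of the length, length at least `a` -/
def H3 (E : Set (ℝ × V d)) (G : Set (V d × V d)) : Set (ℝ × ((V d × V d) × ℝ × ℝ)) :=
  {q | q.2.1 ∈ G ∧ pt q.2.1 q.2.2.1 ∈ E ∧ pt q.2.1 q.2.2.2 ∈ E ∧
    A E q.2.1 / 8 ≤ |q.2.2.2 - q.2.2.1| ∧ q.1 ≤ A E q.2.1}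

/-- the weighted kernel on a line -/
noncomputable def kk (E : Set (ℝ × V d)) (G : Set (V d × V d)) (q : ℝ × ((V d × V d) × ℝ × ℝ)) : ℝ≥0∞ :=
  (H3 E G).indicator (fun q => ENNReal.ofReal ((A E q.2.1 / |q.2.2.2 - q.2.2.1|) ^ d)) q

/-- the weighted kernel as a function of two points -/
noncomputable def KK (E : Set (ℝ × V d)) (G : Set (V d × V d)) (a : ℝ) (z w : ℝ × V d) : ℝ≥0∞ :=
  kk E G (a, ln z (vel z w), z.1, w.1)

variable {E : Set (ℝ × V d)} {G : Set (V d × V d)}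

lemma measurableSet_H3 (hE : MeasurableSet E) (hG : MeasurableSet G) : MeasurableSet (H3 E G) := by
  have hA := measurable_A hE
  have m1 : Measurable (fun q : ℝ × ((V d × V d) × ℝ × ℝ) => pt q.2.1 q.2.2.1) := by fun_prop
  have m2 : Measurable (fun q : ℝ × ((V d × V d) × ℝ × ℝ) => pt q.2.1 q.2.2.2) := by fun_prop
  have m3 : Measurable (fun q : ℝ × ((V d × V d) × ℝ × ℝ) => q.2.1) := by fun_prop
  have m4 : Measurable (fun q : ℝ × ((V d × V d) × ℝ × ℝ) => A E q.2.1) := hA.comp m3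
  refine MeasurableSet.inter (m3 hG) (MeasurableSet.inter (m1 hE)
    (MeasurableSet.inter (m2 hE) (MeasurableSet.inter ?_ ?_)))
  · exact measurableSet_le (f := fun q : ℝ × ((V d × V d) × ℝ × ℝ) => A E q.2.1 / 8)
      (g := fun q : ℝ × ((V d × V d) × ℝ × ℝ) => |q.2.2.2 - q.2.2.1|) (by fun_prop) (by fun_prop)
  · exact measurableSet_le (f := fun q : ℝ × ((V d × V d) × ℝ × ℝ) => q.1) (by fun_prop) m4

lemma measurable_kk (hE : MeasurableSet E) (hG : MeasurableSet G) : Measurable (kk E G) := by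
  have hA := measurable_A hE
  have m3 : Measurable (fun q : ℝ × ((V d × V d) × ℝ × ℝ) => q.2.1) := by fun_prop
  have m4 : Measurable (fun q : ℝ × ((V d × V d) × ℝ × ℝ) => A E q.2.1) := hA.comp m3
  exact Measurable.indicator (by fun_prop) (measurableSet_H3 hE hG)

lemma measurable_KK (hE : MeasurableSet E) (hG : MeasurableSet G) :
    Measurable (fun q : ℝ × ((ℝ × V d) × (ℝ × V d)) => KK E G q.1 q.2.1 q.2.2) := by
  unfold KK
  exact (measurable_kk hE hG).comp (by fun_prop)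

lemma Measurable.KK {α : Type*} [MeasurableSpace α] (hE : MeasurableSet E) (hG : MeasurableSet G)
    {f : α → ℝ} {g h : α → ℝ × V d} (hf : Measurable f) (hg : Measurable g) (hh : Measurable h) :
    Measurable (fun a => KK E G (f a) (g a) (h a)) :=
  (measurable_KK hE hG).comp (hf.prodMk (hg.prodMk hh))

/-- if the kernel does not vanish -/
lemma KK_ne (hGF : ∀ ℓ ∈ G, F E ℓ ≠ 0 ∧ F E ℓ ≠ ∞) {a : ℝ} {z w : ℝ × V d} (h : KK E G a z w ≠ 0) :
    z.1 ≠ w.1 ∧ z ∈ E ∧ w ∈ E := by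
  unfold KK kk at h
  obtain ⟨h1, h2, h3, h4, h5⟩ := mem_of_indicator_ne_zero h
  simp only at h1 h2 h3 h4 h5
  have hne : z.1 ≠ w.1 := by
    intro he
    have hA := A_pos (hGF _ h1)
    rw [he] at h4
    simp only [sub_self, abs_zero] at h4
    linarith
  rw [pt_ln_self] at h2
  rw [pt_ln_vel hne] at h3
  exact ⟨hne, h2, h3⟩

/-- weighted number of connections -/
noncomputable def n3 (E : Set (ℝ × V d)) (G : Set (V d × V d)) (w : ℝ × V d) (ℓ : V d × V d) : ℝ≥0∞ :=
  ∫⁻ t : ℝ, KK E G (A E ℓ) (pt ℓ t) w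

lemma measurable_n3 (hE : MeasurableSet E) (hG : MeasurableSet G) :
    Measurable (fun p : (ℝ × V d) × (V d × V d) => n3 E G p.1 p.2) := by
  have hA := measurable_A hE
  have h : Measurable (fun q : ((ℝ × V d) × (V d × V d)) × ℝ => KK E G (A E q.1.2) (pt q.1.2 q.2) q.1.1) :=
    Measurable.KK hE hG (by fun_prop) (by fun_prop) (by fun_prop)
  exact h.lintegral_prod_right'

/-- first moment -/
noncomputable def Q3 (E : Set (ℝ × V d)) (G : Set (V d × V d)) : ℝ≥0∞ :=
  ∫⁻ w : ℝ × V d, ∫⁻ ℓ : V d × V d, wt E G (d + 1) ℓ * n3 E G w ℓ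

/-- second moment -/
noncomputable def X3 (E : Set (ℝ × V d)) (G : Set (V d × V d)) : ℝ≥0∞ :=
  ∫⁻ w : ℝ × V d, ∫⁻ ℓ : V d × V d, wt E G d ℓ * n3 E G w ℓ ^ 2

/-- square function of the multiplicity -/
noncomputable def S2 (E : Set (ℝ × V d)) (G : Set (V d × V d)) : ℝ≥0∞ :=
  ∫⁻ z : ℝ × V d, E.indicator (fun z => (∫⁻ v : V d, wt E G (d + 1) (ln z v)) ^ 2) z

/-- one point mass of the kernel -/
lemma int_KK (hE : MeasurableSet E) (hG : MeasurableSet G)
    (hGF : ∀ ℓ ∈ G, F E ℓ ≠ 0 ∧ F E ℓ ≠ ∞) (a : ℝ) (z : ℝ × V d) (hz : z ∈ E) :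
    ENNReal.ofReal (3 / 4) * ∫⁻ v : V d, {ℓ | a ≤ A E ℓ}.indicator (wt E G (d + 1)) (ln z v) ≤
      ∫⁻ w : ℝ × V d, KK E G a z w := by
  have hk := measurable_kk hE hG
  have h0 : ∫⁻ w : ℝ × V d, KK E G a z w = ∫⁻ v : V d, ∫⁻ t : ℝ, ENNReal.ofReal (|t - z.1| ^ d) *
      kk E G (a, ln z v, z.1, t) :=
    lintegral_two z (fun p => kk E G (a, p.1, z.1, p.2)) (hk.comp (by fun_prop))
  rw [h0, ← lintegral_const_mul' _ _ ENNReal.ofReal_ne_top]
  refine lintegral_mono fun v => ?_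
  by_cases h : ln z v ∈ G
  swap
  · have : {ℓ | a ≤ A E ℓ}.indicator (wt E G (d + 1)) (ln z v) = 0 := by
      unfold indicator
      split_ifs with h1
      · simp [wt, indicator_of_notMem h]
      · rfl
    rw [this]; simp
  by_cases ha : a ≤ A E (ln z v)
  swap
  · have : ln z v ∉ {ℓ | a ≤ A E ℓ} := ha
    rw [indicator_of_notMem this]; simp
  have ha' : ln z v ∈ {ℓ | a ≤ A E ℓ} := ha
  rw [indicator_of_mem ha']
  simp only [wt, indicator_of_mem h]
  obtain ⟨ℓ, hℓ⟩ : ∃ ℓ, ℓ = ln z v := ⟨_, rfl⟩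
  rw [← hℓ] at h ha ⊢
  have hA := A_pos (hGF _ h)
  have hF := F_eq (hGF _ h).2
  have hFar : MeasurableSet (Sec E ℓ ∩ {t : ℝ | A E ℓ / 8 ≤ |t - z.1|}) :=
    (measurableSet_Sec hE ℓ).inter (measurableSet_le measurable_const (by fun_prop))
  have hvol : ENNReal.ofReal (3 / 4 * A E ℓ) ≤ volume (Sec E ℓ ∩ {t : ℝ | A E ℓ / 8 ≤ |t - z.1|}) := by
    have h1 : volume (Sec E ℓ) ≤ volume (Sec E ℓ ∩ {t : ℝ | A E ℓ / 8 ≤ |t - z.1|}) +
        volume {t : ℝ | |t - z.1| < A E ℓ / 8} := by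
      refine (measure_mono ?_).trans (measure_union_le _ _)
      intro t ht
      by_cases h : A E ℓ / 8 ≤ |t - z.1|
      · exact Or.inl ⟨ht, h⟩
      · exact Or.inr (not_le.1 h)
    rw [vol_abs_lt, show volume (Sec E ℓ) = ENNReal.ofReal (A E ℓ) from hF,
      show 2 * (A E ℓ / 8) = A E ℓ / 4 by ring] at h1
    have h2 : ENNReal.ofReal (3 / 4 * A E ℓ) + ENNReal.ofReal (A E ℓ / 4) = ENNReal.ofReal (A E ℓ) := by
      rw [← ENNReal.ofReal_add (by positivity) (by positivity)]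
      congr 1; ring
    rw [← h2] at h1
    exact (ENNReal.add_le_add_iff_right ENNReal.ofReal_ne_top).1 h1
  calc ENNReal.ofReal (3 / 4) * ENNReal.ofReal (A E ℓ ^ (d + 1))
      = ENNReal.ofReal (A E ℓ ^ d) * ENNReal.ofReal (3 / 4 * A E ℓ) := by
        rw [← ENNReal.ofReal_mul (by positivity), ← ENNReal.ofReal_mul (by positivity)]
        congr 1; rw [pow_succ]; ring
    _ ≤ ENNReal.ofReal (A E ℓ ^ d) * volume (Sec E ℓ ∩ {t : ℝ | A E ℓ / 8 ≤ |t - z.1|}) := by gcongr
    _ = ∫⁻ t : ℝ, (Sec E ℓ ∩ {t : ℝ | A E ℓ / 8 ≤ |t - z.1|}).indicator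
          (fun _ => ENNReal.ofReal (A E ℓ ^ d)) t := by rw [lintegral_indicator_const hFar]
    _ ≤ _ := by
        refine lintegral_mono fun t => ?_
        by_cases ht : t ∈ Sec E ℓ ∩ {t : ℝ | A E ℓ / 8 ≤ |t - z.1|}
        · rw [indicator_of_mem ht]
          have hmem : (a, ℓ, z.1, t) ∈ H3 E G := by
            refine ⟨h, ?_, ht.1, ht.2, ha⟩
            simp only [hℓ, pt_ln_self]; exact hz
          unfold kk
          rw [indicator_of_mem hmem, ← ENNReal.ofReal_mul (by positivity)]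
          apply ENNReal.ofReal_le_ofReal
          simp only
          have h5 : 0 < |t - z.1| := lt_of_lt_of_le (by positivity) ht.2
          rw [← mul_pow, mul_div_cancel₀ _ h5.ne']
        · rw [indicator_of_notMem ht]; exact zero_le

lemma Q3_ge (hE : MeasurableSet E) (hG : MeasurableSet G)
    (hGF : ∀ ℓ ∈ G, F E ℓ ≠ 0 ∧ F E ℓ ≠ ∞) : ENNReal.ofReal (3 / 8) * S2 E G ≤ Q3 E G := by
  have hA := measurable_A hE
  have hw := measurable_wt hE hG (d + 1)
  have hn := measurable_n3 hE hG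
  have hKK : Measurable (fun q : (V d × V d) × ((ℝ × V d) × ℝ) =>
      KK E G (A E q.1) (pt q.1 q.2.2) q.2.1) :=
    Measurable.KK hE hG (by fun_prop) (by fun_prop) (by fun_prop)
  have hKK2 : Measurable (fun q : ((V d × V d) × ℝ) × (ℝ × V d) =>
      KK E G (A E q.1.1) (pt q.1.1 q.1.2) q.2) :=
    Measurable.KK hE hG (by fun_prop) (by fun_prop) (by fun_prop)
  have h1 : Q3 E G = ∫⁻ z : ℝ × V d, ∫⁻ v : V d, wt E G (d + 1) (ln z v) *
      ∫⁻ w : ℝ × V d, KK E G (A E (ln z v)) z w := by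
    unfold Q3
    rw [lintegral_lintegral_swap (by
      refine (Measurable.mul (f := fun p : (ℝ × V d) × (V d × V d) => wt E G (d + 1) p.2)
        (by fun_prop) hn).aemeasurable)]
    have h2 := lintegral_inc (fun p => wt E G (d + 1) p.1 * ∫⁻ w : ℝ × V d, KK E G (A E p.1) (pt p.1 p.2) w)
      ((hw.comp measurable_fst).mul hKK2.lintegral_prod_right')
    simp only [pt_ln_self] at h2
    rw [h2]
    refine lintegral_congr fun ℓ => ?_
    have m1 : Measurable (fun w : ℝ × V d => n3 E G w ℓ) :=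
      hn.comp (f := fun w : ℝ × V d => (w, ℓ)) (by fun_prop)
    have m2 : Measurable (fun q : (ℝ × V d) × ℝ => KK E G (A E ℓ) (pt ℓ q.2) q.1) :=
      hKK.comp (f := fun q : (ℝ × V d) × ℝ => (ℓ, q)) (by fun_prop)
    have m3 : Measurable (fun t : ℝ => ∫⁻ w : ℝ × V d, KK E G (A E ℓ) (pt ℓ t) w) :=
      m2.lintegral_prod_left'
    rw [lintegral_const_mul _ m1, lintegral_const_mul _ m3]
    congr 1
    unfold n3
    rw [lintegral_lintegral_swap m2.aemeasurable]
  rw [h1, S2, ← lintegral_const_mul' _ _ ENNReal.ofReal_ne_top]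
  refine lintegral_mono fun z => ?_
  by_cases hz : z ∈ E
  swap
  · rw [indicator_of_notMem hz]; simp
  rw [indicator_of_mem hz]
  have hwz : Measurable (fun v : V d => wt E G (d + 1) (ln z v)) := hw.comp (by fun_prop)
  have hAz : Measurable (fun v : V d => A E (ln z v)) := hA.comp (by fun_prop)
  set ω : V d → ℝ≥0∞ := fun v => wt E G (d + 1) (ln z v) with hω
  set T : Set (V d × V d) := {p | A E (ln z p.1) ≤ A E (ln z p.2)} with hT
  have hTm : MeasurableSet T := measurableSet_le (hAz.comp measurable_fst) (hAz.comp measurable_snd)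
  have hjm : Measurable (fun p : V d × V d => ω p.1 * (T.indicator 1 p * ω p.2)) :=
    (hwz.comp measurable_fst).mul ((measurable_one.indicator hTm).mul (hwz.comp measurable_snd))
  set Y : ℝ≥0∞ := ∫⁻ v : V d, ∫⁻ v' : V d, ω v * (T.indicator 1 (v, v') * ω v') with hY
  have hsym : Y = ∫⁻ v : V d, ∫⁻ v' : V d, ω v' * (T.indicator 1 (v', v) * ω v) := by
    rw [hY, lintegral_lintegral_swap hjm.aemeasurable]
  have hsq : (∫⁻ v : V d, ω v) ^ 2 ≤ 2 * Y := by
    rw [two_mul]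
    nth_rewrite 2 [hsym]
    rw [hY, ← lintegral_add_left hjm.lintegral_prod_right', sq, ← lintegral_mul_const _ hwz]
    refine lintegral_mono fun v => ?_
    have m7 : Measurable (fun v' : V d => (ω v * (T.indicator 1 (v, v') * ω v') : ℝ≥0∞)) :=
      hjm.comp (f := fun v' : V d => (v, v')) (by fun_prop)
    rw [← lintegral_const_mul _ hwz]
    show _ ≤ (∫⁻ v' : V d, ω v * (T.indicator 1 (v, v') * ω v')) + _
    rw [← lintegral_add_left m7]
    refine lintegral_mono fun v' => ?_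
    rcases le_total (A E (ln z v)) (A E (ln z v')) with h | h
    · have : (v, v') ∈ T := h
      rw [indicator_of_mem this]
      simp only [Pi.one_apply, one_mul]
      exact le_self_add
    · have : (v', v) ∈ T := h
      rw [indicator_of_mem this]
      simp only [Pi.one_apply, one_mul]
      rw [mul_comm (ω v) (ω v')]
      exact le_add_self
  have hlow : ENNReal.ofReal (3 / 4) * Y ≤ ∫⁻ v : V d, wt E G (d + 1) (ln z v) *
      ∫⁻ w : ℝ × V d, KK E G (A E (ln z v)) z w := by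
    rw [hY, ← lintegral_const_mul' _ _ ENNReal.ofReal_ne_top]
    refine lintegral_mono fun v => ?_
    have m5 : Measurable (fun v' : V d => (T.indicator 1 (v, v') * ω v' : ℝ≥0∞)) :=
      ((measurable_one.indicator hTm).comp (f := fun v' : V d => (v, v')) (by fun_prop)).mul hwz
    rw [lintegral_const_mul _ m5, mul_left_comm]
    gcongr
    refine le_trans (le_of_eq ?_) (int_KK hE hG hGF (A E (ln z v)) z hz)
    congr 1
    refine lintegral_congr fun v' => ?_
    by_cases h : A E (ln z v) ≤ A E (ln z v')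
    · have h6 : (v, v') ∈ T := h
      have h7 : ln z v' ∈ {ℓ | A E (ln z v) ≤ A E ℓ} := h
      rw [indicator_of_mem h6, indicator_of_mem h7]
      simp [hω]
    · have h6 : (v, v') ∉ T := h
      have h7 : ln z v' ∉ {ℓ | A E (ln z v) ≤ A E ℓ} := h
      rw [indicator_of_notMem h6, indicator_of_notMem h7]
      simp
  calc ENNReal.ofReal (3 / 8) * (∫⁻ v : V d, ω v) ^ 2 ≤ ENNReal.ofReal (3 / 8) * (2 * Y) := by gcongr
    _ = ENNReal.ofReal (3 / 4) * Y := by
        rw [← mul_assoc, show (2 : ℝ≥0∞) = ENNReal.ofReal 2 by simp, ← ENNReal.ofReal_mul (by norm_num)]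
        norm_num
    _ ≤ _ := hlow

/-- Cauchy-Schwarz in product form -/
lemma cs2 {α : Type*} [MeasurableSpace α] (μ : Measure α) {f P R : α → ℝ≥0∞}
    (hP : Measurable P) (hR : Measurable R) (h : ∀ a, f a ^ 2 ≤ P a * R a) :
    (∫⁻ a, f a ∂μ) ^ 2 ≤ (∫⁻ a, P a ∂μ) * ∫⁻ a, R a ∂μ := by
  have h1 : ∀ a, f a ≤ P a ^ (1 / 2 : ℝ) * R a ^ (1 / 2 : ℝ) := by
    intro a
    rw [← ENNReal.mul_rpow_of_nonneg _ _ (by norm_num)]
    calc f a = (f a ^ 2) ^ (1 / 2 : ℝ) := by
          rw [← ENNReal.rpow_natCast, ← ENNReal.rpow_mul]; norm_num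
      _ ≤ _ := by gcongr; exact h a
  have h2 := ENNReal.lintegral_mul_le_Lp_mul_Lq μ (p := 2) (q := 2)
    (Real.HolderConjugate.two_two) (f := fun a => P a ^ (1 / 2 : ℝ)) (g := fun a => R a ^ (1 / 2 : ℝ))
    (hP.pow_const _).aemeasurable (hR.pow_const _).aemeasurable
  simp only [Pi.mul_apply, ← ENNReal.rpow_mul] at h2
  norm_num at h2
  calc (∫⁻ a, f a ∂μ) ^ 2 ≤ ((∫⁻ a, P a ∂μ) ^ (1 / 2 : ℝ) * (∫⁻ a, R a ∂μ) ^ (1 / 2 : ℝ)) ^ 2 := by
        gcongr
        refine (lintegral_mono h1).trans ?_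
        exact h2
    _ = _ := by
        rw [mul_pow, ← ENNReal.rpow_two, ← ENNReal.rpow_two, ← ENNReal.rpow_mul,
          ← ENNReal.rpow_mul]
        norm_num

lemma n3_zero (hGF : ∀ ℓ ∈ G, F E ℓ ≠ 0 ∧ F E ℓ ≠ ∞) {w : ℝ × V d} (hw : w ∉ E) (ℓ : V d × V d) :
    n3 E G w ℓ = 0 := by
  unfold n3
  have : ∀ t : ℝ, KK E G (A E ℓ) (pt ℓ t) w = 0 := by
    intro t
    by_contra h
    exact hw (KK_ne hGF h).2.2
  simp_rw [this]; simp

lemma Q3_sq (hE : MeasurableSet E) (hG : MeasurableSet G)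
    (hGF : ∀ ℓ ∈ G, F E ℓ ≠ 0 ∧ F E ℓ ≠ ∞) :
    Q3 E G ^ 2 ≤ volume E * Phi E G * X3 E G := by
  have hw0 := measurable_wt hE hG d
  have hw1 := measurable_wt hE hG (d + 1)
  have hw2 := measurable_wt hE hG (d + 2)
  have hn := measurable_n3 hE hG
  have hi : Measurable (E.indicator (1 : ℝ × V d → ℝ≥0∞)) := measurable_one.indicator hE
  have mP : Measurable (fun p : (ℝ × V d) × (V d × V d) => E.indicator 1 p.1 * wt E G (d + 2) p.2) :=
    (hi.comp measurable_fst).mul (hw2.comp measurable_snd)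
  have mR : Measurable (fun p : (ℝ × V d) × (V d × V d) => wt E G d p.2 * n3 E G p.1 p.2 ^ 2) :=
    (hw0.comp measurable_snd).mul (hn.pow_const 2)
  have mQ : Measurable (fun p : (ℝ × V d) × (V d × V d) => wt E G (d + 1) p.2 * n3 E G p.1 p.2) :=
    (hw1.comp measurable_snd).mul hn
  have e1 : Q3 E G = ∫⁻ p : (ℝ × V d) × (V d × V d), wt E G (d + 1) p.2 * n3 E G p.1 p.2 := by
    unfold Q3
    rw [Measure.volume_eq_prod (ℝ × V d) (V d × V d), lintegral_prod _ mQ.aemeasurable]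
  have e2 : X3 E G = ∫⁻ p : (ℝ × V d) × (V d × V d), wt E G d p.2 * n3 E G p.1 p.2 ^ 2 := by
    unfold X3
    rw [Measure.volume_eq_prod (ℝ × V d) (V d × V d), lintegral_prod _ mR.aemeasurable]
  have e3 : volume E * Phi E G = ∫⁻ p : (ℝ × V d) × (V d × V d), E.indicator 1 p.1 * wt E G (d + 2) p.2 := by
    rw [Measure.volume_eq_prod (ℝ × V d) (V d × V d), lintegral_prod _ mP.aemeasurable]
    have : ∀ w : ℝ × V d, ∫⁻ ℓ : V d × V d, (E.indicator 1 w : ℝ≥0∞) * wt E G (d + 2) ℓ =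
        E.indicator 1 w * Phi E G := by
      intro w
      rw [lintegral_const_mul _ hw2]; rfl
    simp only [this]
    rw [lintegral_mul_const _ hi, lintegral_indicator_one hE]
  rw [e1, e2, e3]
  refine cs2 _ mP mR fun p => ?_
  by_cases hp : p.1 ∈ E
  · rw [indicator_of_mem hp]
    by_cases hℓ : p.2 ∈ G
    · simp only [wt, indicator_of_mem hℓ, Pi.one_apply, one_mul]
      have hA := A_nonneg E p.2
      apply le_of_eq
      rw [mul_pow, ← ENNReal.ofReal_pow (by positivity), ← mul_assoc, ← ENNReal.ofReal_mul (by positivity)]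
      congr 2
      rw [← pow_mul, ← pow_add]; congr 1; ring
    · simp [wt, indicator_of_notMem hℓ]
  · rw [n3_zero hGF hp]; simp

/-- the multiplicity controls the incidences -/
lemma Phi_sq_le_S2 (hE : MeasurableSet E) (hG : MeasurableSet G)
    (hGF : ∀ ℓ ∈ G, F E ℓ ≠ 0 ∧ F E ℓ ≠ ∞) : Phi E G ^ 2 ≤ volume E * S2 E G := by
  have hw := measurable_wt hE hG (d + 1)
  have hI : Measurable ((Inc E G).indicator (fun p => wt E G (d + 1) p.1)) :=
    Measurable.indicator (by fun_prop) (measurableSet_Inc hE hG)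
  have hwz : Measurable (fun p : (ℝ × V d) × V d => wt E G (d + 1) (ln p.1 p.2)) :=
    hw.comp (by fun_prop)
  have hD : Measurable (fun z : ℝ × V d => ∫⁻ v : V d, wt E G (d + 1) (ln z v)) :=
    hwz.lintegral_prod_right'
  have h1 : Phi E G = ∫⁻ z : ℝ × V d, E.indicator (fun z => ∫⁻ v : V d, wt E G (d + 1) (ln z v)) z := by
    rw [← inc_mass hE hGF, ← lintegral_inc _ hI]
    refine lintegral_congr fun z => ?_
    by_cases hz : z ∈ E
    · rw [indicator_of_mem hz]
      refine lintegral_congr fun v => ?_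
      by_cases h : ln z v ∈ G
      · rw [indicator_of_mem]
        refine ⟨h, ?_⟩
        simp only [pt_ln_self]; exact hz
      · rw [indicator_of_notMem (fun hh => h hh.1)]
        simp [wt, indicator_of_notMem h]
    · rw [indicator_of_notMem hz]
      have : ∀ v : V d, (Inc E G).indicator (fun p => wt E G (d + 1) p.1) (ln z v, z.1) = 0 := by
        intro v
        rw [indicator_of_notMem]
        intro hh
        have := hh.2
        simp only [pt_ln_self] at this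
        exact hz this
      simp_rw [this]; simp
  rw [h1]
  refine (cs volume hE (hD.indicator hE) fun z hz => indicator_of_notMem hz _).trans ?_
  gcongr
  refine le_of_eq ?_
  unfold S2
  refine lintegral_congr fun z => ?_
  by_cases hz : z ∈ E
  · rw [indicator_of_mem hz, indicator_of_mem hz]
  · rw [indicator_of_notMem hz, indicator_of_notMem hz]; simp

end Run7.h567
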