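import Pool.Agent.Run7.h567.Dil2

set_option autoImplicit false

open MeasureTheory ENNReal Set

namespace Run7.h567

variable {d : ℕ} {E : Set (ℝ × V d)} {G : Set (V d × V d)} (R τ : ℝ)

/-- the number of pairs with a given difference -/
noncomputable def Psi (E : Set (ℝ × V d)) (G : Set (V d × V d)) (R τ : ℝ) (q : ℝ × V d) : ℝ≥0∞ :=
  ∫⁻ y : ℝ × V d, K2 E G R τ y (y + q)

lemma measurable_Psi (hE : MeasurableSet E) (hG : MeasurableSet G) :
    Measurable (Psi E G R τ) := by
  unfold Psi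
  have : Measurable (fun p : (ℝ × V d) × (ℝ × V d) => K2 E G R τ p.2 (p.2 + p.1)) :=
    (measurable_K2 R τ hE hG).comp (g := fun p : (ℝ × V d) × (ℝ × V d) => K2 E G R τ p.1 p.2)
      (f := fun p : (ℝ × V d) × (ℝ × V d) => (p.2, p.2 + p.1)) (by fun_prop)
  exact this.lintegral_prod_right'

lemma corr_le (hE : MeasurableSet E) (hG : MeasurableSet G) (w : ℝ × V d) (r : ℝ) :
    corr volume (kap E G R τ w) r ≤
      ∫⁻ z : ℝ × V d, ∫⁻ z' : ℝ × V d, K2 E G R τ z z' *
        K2 E G R τ (w + r • (z - w)) (w + r • (z' - w)) := by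
  have hK := measurable_K2 R τ hE hG
  have h1 : corr volume (kap E G R τ w) r ≤ ∫⁻ p : (ℝ × V d) × (ℝ × V d),
      K2 E G R τ (w + p.1) (w + p.2) * K2 E G R τ (w + r • p.1) (w + r • p.2) := by
    unfold corr
    refine lintegral_mono fun p => ?_
    have key : ∀ p, kap E G R τ w p ≤ K2 E G R τ (w + p.1) (w + p.2) := by
      intro p
      unfold kap
      refine mul_le_of_le_one_left zero_le ?_
      calc _ ≤ (1 : ℝ≥0∞) * 1 := by
            gcongr
            · exact K1_le_one R _ _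
            · exact K1_le_one R _ _
        _ = 1 := by simp
    exact mul_le_mul' (key p) (key (r • p))
  have hm : Measurable (fun p : (ℝ × V d) × (ℝ × V d) =>
      K2 E G R τ (w + p.1) (w + p.2) * K2 E G R τ (w + r • p.1) (w + r • p.2)) := by
    refine Measurable.mul ?_ ?_
    · exact hK.comp (g := fun p : (ℝ × V d) × (ℝ × V d) => K2 E G R τ p.1 p.2)
        (f := fun p : (ℝ × V d) × (ℝ × V d) => (w + p.1, w + p.2)) (by fun_prop)
    · exact hK.comp (g := fun p : (ℝ × V d) × (ℝ × V d) => K2 E G R τ p.1 p.2)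
        (f := fun p : (ℝ × V d) × (ℝ × V d) => (w + r • p.1, w + r • p.2)) (by fun_prop)
  refine h1.trans (le_of_eq ?_)
  rw [Measure.volume_eq_prod (ℝ × V d) (ℝ × V d), lintegral_prod _ hm.aemeasurable]
  rw [← lintegral_add_left_eq_self (μ := (volume : Measure (ℝ × V d)))
    (fun z => ∫⁻ z' : ℝ × V d, K2 E G R τ z z' *
        K2 E G R τ (w + r • (z - w)) (w + r • (z' - w))) w]
  refine lintegral_congr fun a => ?_
  rw [← lintegral_add_left_eq_self (μ := (volume : Measure (ℝ × V d)))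
    (fun z' => K2 E G R τ (w + a) z' *
        K2 E G R τ (w + r • (w + a - w)) (w + r • (z' - w))) w]
  refine lintegral_congr fun b => ?_
  simp

/-- the change of variables `w ↦ w + r (z - w)` -/
lemma shift_w (hE : MeasurableSet E) (hG : MeasurableSet G) (z z' : ℝ × V d) (r : ℝ)
    (hr : r < 1) :
    ENNReal.ofReal ((1 - r) ^ (d + 1)) * ∫⁻ w : ℝ × V d,
      K2 E G R τ (w + r • (z - w)) (w + r • (z' - w)) = Psi E G R τ (r • (z' - z)) := by
  have hK := measurable_K2 R τ hE hG
  have hr' : (1 - r) ≠ 0 := by linarith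
  have hm : Measurable (fun y : ℝ × V d => K2 E G R τ (y + r • z) ((y + r • z) + r • (z' - z))) :=
    hK.comp (g := fun p : (ℝ × V d) × (ℝ × V d) => K2 E G R τ p.1 p.2)
        (f := fun y : (ℝ × V d) => (y + r • z, (y + r • z) + r • (z' - z))) (by fun_prop)
  have h1 := lintegral_dil (volume : Measure (ℝ × V d)) hr' _ hm
  have hfr : Module.finrank ℝ (ℝ × V d) = d + 1 := by
    simp only [Module.finrank_prod, Module.finrank_self, Module.finrank_fin_fun]; ring
  rw [hfr, abs_of_pos (by linarith)] at h1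
  have h2 : ∀ w : ℝ × V d, K2 E G R τ (w + r • (z - w)) (w + r • (z' - w)) =
      K2 E G R τ ((1 - r) • w + r • z) (((1 - r) • w + r • z) + r • (z' - z)) := by
    intro w
    congr 1
    · module
    · module
  simp_rw [h2]
  rw [h1]
  unfold Psi
  exact lintegral_add_right_eq_self (μ := (volume : Measure (ℝ × V d)))
    (fun y => K2 E G R τ y (y + r • (z' - z))) (r • z)

lemma Psi_le (hE : MeasurableSet E) (hG : MeasurableSet G)
    (hGF : ∀ ℓ ∈ G, F E ℓ ≠ 0 ∧ F E ℓ ≠ ∞) (hR : 0 < R) (hτ : 0 < τ) (κ : ℝ≥0∞)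
    (hstar : ∀ v : V d, ∀ a : ℝ, 0 < a →
      ENNReal.ofReal a * volume {x : V d | (x, v) ∈ G ∧ a ≤ A E (x, v)} ≤ κ * volume E)
    (v : V d) (s : ℝ) (hs : s ≠ 0) :
    Psi E G R τ (s, s • v) ≤ ENNReal.ofReal (2 * R / τ) * (κ * volume E) := by
  have hA := measurable_A hE
  have hH2 := measurableSet_H2 R τ hE hG
  have hHm : Measurable ((H2 E G R τ).indicator (1 : (V d × V d) × ℝ × ℝ → ℝ≥0∞)) :=
    measurable_one.indicator hH2
  have e1 : Psi E G R τ (s, s • v) = ∫⁻ x : V d, ∫⁻ t : ℝ,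
      (H2 E G R τ).indicator 1 ((x, v), t, t + s) := by
    unfold Psi
    have hm : Measurable (fun z : ℝ × V d => ((H2 E G R τ).indicator 1 (ln z v, z.1, z.1 + s) : ℝ≥0∞)) :=
      hHm.comp (f := fun z : ℝ × V d => (ln z v, z.1, z.1 + s)) (by fun_prop)
    have h2 := lintegral_shear v (fun z => ((H2 E G R τ).indicator 1 (ln z v, z.1, z.1 + s) : ℝ≥0∞)) hm
    have h3 : ∀ y : ℝ × V d, K2 E G R τ y (y + (s, s • v)) =
        (H2 E G R τ).indicator 1 (ln y v, y.1, y.1 + s) := by
      intro y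
      unfold K2
      have : y + (s, s • v) = (y.1 + s, y.2 + s • v) := rfl
      rw [this, vel_add y hs v]
    simp_rw [h3]
    rw [← h2]
    refine lintegral_congr fun x => lintegral_congr fun t => ?_
    have h4 : ln (t, x + t • v) v = (x, v) := by simp [ln]
    simp only [h4]
  rw [e1]
  have hs' : 0 < |s| := abs_pos.2 hs
  have key : ∀ x : V d, ∫⁻ t : ℝ, (H2 E G R τ).indicator (1 : (V d × V d) × ℝ × ℝ → ℝ≥0∞) ((x, v), t, t + s) ≤
      {x : V d | (x, v) ∈ G ∧ |s| / (2 * R) ≤ A E (x, v)}.indicator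
        (fun _ => ENNReal.ofReal (|s| / τ)) x := by
    intro x
    by_cases hx : (x, v) ∈ G ∧ |s| / (2 * R) ≤ A E (x, v) ∧ τ * A E (x, v) ≤ |s|
    · have hmem : x ∈ {x : V d | (x, v) ∈ G ∧ |s| / (2 * R) ≤ A E (x, v)} := ⟨hx.1, hx.2.1⟩
      rw [indicator_of_mem hmem]
      calc _ ≤ ∫⁻ t : ℝ, (Sec E (x, v)).indicator 1 t := by
            refine lintegral_mono fun t => ?_
            by_cases ht : ((x, v), t, t + s) ∈ H2 E G R τ
            · have : t ∈ Sec E (x, v) := ht.2.1
              rw [indicator_of_mem ht, indicator_of_mem this]; simp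
            · rw [indicator_of_notMem ht]; exact zero_le
        _ = F E (x, v) := lintegral_indicator_one (measurableSet_Sec hE _)
        _ = ENNReal.ofReal (A E (x, v)) := F_eq (hGF _ hx.1).2
        _ ≤ _ := by
            apply ENNReal.ofReal_le_ofReal
            rw [le_div_iff₀ hτ]
            linarith [hx.2.2]
    · have : ∀ t : ℝ, (H2 E G R τ).indicator (1 : (V d × V d) × ℝ × ℝ → ℝ≥0∞) ((x, v), t, t + s) = 0 := by
        intro t
        rw [indicator_of_notMem]
        rintro ⟨h1, h2, h3, h4, h5⟩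
        apply hx
        simp only [add_sub_cancel_left] at h1 h4 h5
        refine ⟨h1, ?_, h4⟩
        rw [div_le_iff₀ (by positivity)]
        linarith
      simp_rw [this]; simp
  have hms : MeasurableSet {x : V d | (x, v) ∈ G ∧ |s| / (2 * R) ≤ A E (x, v)} := by
    refine MeasurableSet.inter ?_ ?_
    · exact (by fun_prop : Measurable (fun x : V d => (x, v))) hG
    · exact measurableSet_le (f := fun _ : V d => |s| / (2 * R)) (g := fun x : V d => A E (x, v))
        (by fun_prop) (by fun_prop)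
  calc _ ≤ ∫⁻ x : V d, {x : V d | (x, v) ∈ G ∧ |s| / (2 * R) ≤ A E (x, v)}.indicator
        (fun _ => ENNReal.ofReal (|s| / τ)) x := lintegral_mono key
    _ = ENNReal.ofReal (|s| / τ) * volume {x : V d | (x, v) ∈ G ∧ |s| / (2 * R) ≤ A E (x, v)} :=
        lintegral_indicator_const hms _
    _ = ENNReal.ofReal (2 * R / τ) * (ENNReal.ofReal (|s| / (2 * R)) *
          volume {x : V d | (x, v) ∈ G ∧ |s| / (2 * R) ≤ A E (x, v)}) := by
        rw [← mul_assoc, ← ENNReal.ofReal_mul (by positivity)]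
        congr 2
        field_simp
    _ ≤ _ := by
        refine mul_le_mul' le_rfl ?_
        exact hstar v _ (by positivity)

/-- upper bound at a fixed ratio -/
lemma ratio_bound (hE : MeasurableSet E) (hG : MeasurableSet G)
    (hGF : ∀ ℓ ∈ G, F E ℓ ≠ 0 ∧ F E ℓ ≠ ∞) (hR : 0 < R) (hτ : 0 < τ) (κ : ℝ≥0∞)
    (hstar : ∀ v : V d, ∀ a : ℝ, 0 < a →
      ENNReal.ofReal a * volume {x : V d | (x, v) ∈ G ∧ a ≤ A E (x, v)} ≤ κ * volume E)
    (r : ℝ) (hr0 : 0 < r) (hr : r < 1) :
    ENNReal.ofReal ((1 - r) ^ (d + 1)) * ∫⁻ w : ℝ × V d, corr volume (kap E G R τ w) r ≤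
      ENNReal.ofReal ((2 * R) ^ (d + 1) / τ) * (κ * volume E * Phi E G) := by
  have hK := measurable_K2 R τ hE hG
  have hP := measurable_Psi R τ hE hG
  have hH2 := measurableSet_H2 R τ hE hG
  have hHm : Measurable ((H2 E G R τ).indicator (1 : (V d × V d) × ℝ × ℝ → ℝ≥0∞)) :=
    measurable_one.indicator hH2
  -- move the integration in w inside
  have m3 : Measurable (fun q : ((ℝ × V d) × (ℝ × V d)) × (ℝ × V d) =>
      K2 E G R τ q.1.2 q.2 * K2 E G R τ (q.1.1 + r • (q.1.2 - q.1.1)) (q.1.1 + r • (q.2 - q.1.1))) := by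
    refine Measurable.mul ?_ ?_
    · exact hK.comp (g := fun p : (ℝ × V d) × (ℝ × V d) => K2 E G R τ p.1 p.2)
        (f := fun q : ((ℝ × V d) × (ℝ × V d)) × (ℝ × V d) => (q.1.2, q.2)) (by fun_prop)
    · exact hK.comp (g := fun p : (ℝ × V d) × (ℝ × V d) => K2 E G R τ p.1 p.2)
        (f := fun q : ((ℝ × V d) × (ℝ × V d)) × (ℝ × V d) =>
          (q.1.1 + r • (q.1.2 - q.1.1), q.1.1 + r • (q.2 - q.1.1))) (by fun_prop)
  have h1 : ENNReal.ofReal ((1 - r) ^ (d + 1)) * ∫⁻ w : ℝ × V d, corr volume (kap E G R τ w) r ≤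
      ∫⁻ z : ℝ × V d, ∫⁻ z' : ℝ × V d, K2 E G R τ z z' * Psi E G R τ (r • (z' - z)) := by
    calc _ ≤ ENNReal.ofReal ((1 - r) ^ (d + 1)) * ∫⁻ w : ℝ × V d, ∫⁻ z : ℝ × V d, ∫⁻ z' : ℝ × V d,
          K2 E G R τ z z' * K2 E G R τ (w + r • (z - w)) (w + r • (z' - w)) := by
          gcongr with w; exact corr_le R τ hE hG w r
      _ = _ := by
          rw [lintegral_lintegral_swap m3.lintegral_prod_right'.aemeasurable,
            ← lintegral_const_mul' _ _ ENNReal.ofReal_ne_top]
          refine lintegral_congr fun z => ?_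
          have m4 : Measurable (fun q : (ℝ × V d) × (ℝ × V d) =>
              K2 E G R τ z q.2 * K2 E G R τ (q.1 + r • (z - q.1)) (q.1 + r • (q.2 - q.1))) :=
            m3.comp (f := fun q : (ℝ × V d) × (ℝ × V d) => ((q.1, z), q.2)) (by fun_prop)
          rw [lintegral_lintegral_swap m4.aemeasurable,
            ← lintegral_const_mul' _ _ ENNReal.ofReal_ne_top]
          refine lintegral_congr fun z' => ?_
          have m5 : Measurable (fun w : ℝ × V d =>
              K2 E G R τ (w + r • (z - w)) (w + r • (z' - w))) :=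
            hK.comp (g := fun p : (ℝ × V d) × (ℝ × V d) => K2 E G R τ p.1 p.2)
              (f := fun w : ℝ × V d => (w + r • (z - w), w + r • (z' - w))) (by fun_prop)
          rw [lintegral_const_mul _ m5, ← shift_w R τ hE hG z z' r hr]
          ring
  refine h1.trans ?_
  -- pass to line coordinates
  have m6 : Measurable (fun p : (V d × V d) × ℝ × ℝ => (H2 E G R τ).indicator 1 p *
      Psi E G R τ (r • ((p.2.2 - p.2.1), (p.2.2 - p.2.1) • p.1.2))) := by
    refine hHm.mul (hP.comp ?_)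
    fun_prop
  have h2 := lintegral_two_two _ m6
  have h3 : ∀ z z' : ℝ × V d, (H2 E G R τ).indicator 1 (ln z (vel z z'), z.1, z'.1) *
      Psi E G R τ (r • ((z'.1 - z.1), (z'.1 - z.1) • (ln z (vel z z')).2)) =
      K2 E G R τ z z' * Psi E G R τ (r • (z' - z)) := by
    intro z z'
    unfold K2
    by_cases h : (ln z (vel z z'), z.1, z'.1) ∈ H2 E G R τ
    · have hne := (H_symm hGF τ (2 * R) hτ z z' h).1
      have hne' : z'.1 - z.1 ≠ 0 := sub_ne_zero.2 (Ne.symm hne)
      have : ((z'.1 - z.1), (z'.1 - z.1) • (ln z (vel z z')).2) = z' - z := by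
        simp only [ln, vel, smul_smul, mul_inv_cancel₀ hne', one_smul]
        rfl
      rw [this]
    · rw [indicator_of_notMem h]; simp
  simp only [h3] at h2
  rw [h2]
  have h4 : ∀ ℓ : V d × V d, ∫⁻ t : ℝ, ∫⁻ t' : ℝ, ENNReal.ofReal (|t' - t| ^ d) *
      ((H2 E G R τ).indicator 1 (ℓ, t, t') * Psi E G R τ (r • ((t' - t), (t' - t) • ℓ.2))) ≤
      ENNReal.ofReal ((2 * R) ^ (d + 1) / τ) * (κ * volume E) * wt E G (d + 2) ℓ := by
    intro ℓ
    by_cases hℓ : ℓ ∈ G
    · have hApos := A_pos (hGF _ hℓ)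
      simp only [wt, indicator_of_mem hℓ]
      set c : ℝ≥0∞ := ENNReal.ofReal ((2 * R * A E ℓ) ^ d) *
        (ENNReal.ofReal (2 * R / τ) * (κ * volume E)) with hc
      have hb : ∀ t t' : ℝ, ENNReal.ofReal (|t' - t| ^ d) *
          ((H2 E G R τ).indicator 1 (ℓ, t, t') * Psi E G R τ (r • ((t' - t), (t' - t) • ℓ.2))) ≤
          (Sec E ℓ).indicator (fun _ => (Sec E ℓ).indicator (fun _ => c) t') t := by
        intro t t'
        by_cases h : (ℓ, t, t') ∈ H2 E G R τ
        · have ht : t ∈ Sec E ℓ := h.2.1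
          have ht' : t' ∈ Sec E ℓ := h.2.2.1
          rw [indicator_of_mem h, indicator_of_mem ht, indicator_of_mem ht']
          have h5 : |t' - t| ≤ 2 * R * A E ℓ := h.2.2.2.2
          have h6 : τ * A E ℓ ≤ |t' - t| := h.2.2.2.1
          have h7 : t' - t ≠ 0 := by
            intro h0
            rw [h0, abs_zero] at h6
            have : 0 < τ * A E ℓ := by positivity
            linarith
          have h8 : r • ((t' - t), (t' - t) • ℓ.2) = (r * (t' - t), (r * (t' - t)) • ℓ.2) := by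
            simp [smul_smul]
          rw [h8]
          have h9 := Psi_le R τ hE hG hGF hR hτ κ hstar ℓ.2 (r * (t' - t)) (mul_ne_zero hr0.ne' h7)
          simp only [Pi.one_apply, one_mul]
          rw [hc]
          gcongr
        · rw [indicator_of_notMem h]; simp
      calc _ ≤ ∫⁻ t : ℝ, ∫⁻ t' : ℝ, (Sec E ℓ).indicator (fun _ => (Sec E ℓ).indicator (fun _ => c) t') t :=
            lintegral_mono fun t => lintegral_mono fun t' => hb t t'
        _ = ∫⁻ t : ℝ, (Sec E ℓ).indicator (fun _ => c * F E ℓ) t := by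
            refine lintegral_congr fun t => ?_
            by_cases ht : t ∈ Sec E ℓ
            · simp only [indicator_of_mem ht]
              exact lintegral_indicator_const (measurableSet_Sec hE _) _
            · simp only [indicator_of_notMem ht]; simp
        _ = c * F E ℓ * F E ℓ := lintegral_indicator_const (measurableSet_Sec hE _) _
        _ = _ := by
            rw [F_eq (hGF _ hℓ).2, hc]
            have e : ENNReal.ofReal ((2 * R) ^ (d + 1) / τ) * ENNReal.ofReal (A E ℓ ^ (d + 2)) =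
                ENNReal.ofReal ((2 * R * A E ℓ) ^ d) * ENNReal.ofReal (2 * R / τ) *
                ENNReal.ofReal (A E ℓ) * ENNReal.ofReal (A E ℓ) := by
              rw [← ENNReal.ofReal_mul (by positivity), ← ENNReal.ofReal_mul (by positivity),
                ← ENNReal.ofReal_mul (by positivity), ← ENNReal.ofReal_mul (by positivity)]
              congr 1
              rw [mul_pow (2 * R) (A E ℓ)]; ring
            calc _ = (ENNReal.ofReal ((2 * R * A E ℓ) ^ d) * ENNReal.ofReal (2 * R / τ) *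
                ENNReal.ofReal (A E ℓ) * ENNReal.ofReal (A E ℓ)) * (κ * volume E) := by ring
              _ = _ := by rw [← e]; ring
    · have : ∀ t t' : ℝ, (H2 E G R τ).indicator (1 : (V d × V d) × ℝ × ℝ → ℝ≥0∞) (ℓ, t, t') = 0 := by
        intro t t'
        rw [indicator_of_notMem (fun h => hℓ h.1)]
      simp [this]
  calc _ ≤ ∫⁻ ℓ : V d × V d, ENNReal.ofReal ((2 * R) ^ (d + 1) / τ) * (κ * volume E) *
        wt E G (d + 2) ℓ := lintegral_mono h4
    _ = _ := by
        rw [lintegral_const_mul _ (measurable_wt hE hG _)]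
        unfold Phi; ring

end Run7.h567
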