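import Pool.Agent.Run7.h567.Tri4
import Pool.Agent.Run7.h567.Inv

set_option autoImplicit false

open MeasureTheory ENNReal Set

namespace Run7.h567

variable {d : ℕ}

/-- times at which the line meets a line of the family of relative velocity `u`, not shorter -/
def FS (E : Set (ℝ × V d)) (G : Set (V d × V d)) : Set (((V d × V d) × V d) × ℝ) :=
  {q | pt q.1.1 q.2 ∈ E ∧ ln (pt q.1.1 q.2) (q.1.1.2 + q.1.2) ∈ G ∧
    A E q.1.1 ≤ A E (ln (pt q.1.1 q.2) (q.1.1.2 + q.1.2))}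

/-- the lengths of the lines met -/
noncomputable def ff (E : Set (ℝ × V d)) (G : Set (V d × V d)) (ℓ : V d × V d) (u : V d) (t : ℝ) : ℝ :=
  (FS E G).indicator (fun q => A E (ln (pt q.1.1 q.2) (q.1.1.2 + q.1.2))) ((ℓ, u), t)

variable {E : Set (ℝ × V d)} {G : Set (V d × V d)}

lemma measurableSet_FS (hE : MeasurableSet E) (hG : MeasurableSet G) : MeasurableSet (FS E G) := by
  have hA := measurable_A hE
  have m1 : Measurable (fun q : ((V d × V d) × V d) × ℝ => pt q.1.1 q.2) := by fun_prop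
  have m2 : Measurable (fun q : ((V d × V d) × V d) × ℝ => ln (pt q.1.1 q.2) (q.1.1.2 + q.1.2)) := by
    fun_prop
  refine MeasurableSet.inter (m1 hE) (MeasurableSet.inter (m2 hG) ?_)
  exact measurableSet_le (hA.comp (f := fun q : ((V d × V d) × V d) × ℝ => q.1.1) (by fun_prop))
    (hA.comp m2)

lemma measurable_ff (hE : MeasurableSet E) (hG : MeasurableSet G) :
    Measurable (fun q : ((V d × V d) × V d) × ℝ => ff E G q.1.1 q.1.2 q.2) := by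
  have hA := measurable_A hE
  have m2 : Measurable (fun q : ((V d × V d) × V d) × ℝ => ln (pt q.1.1 q.2) (q.1.1.2 + q.1.2)) := by
    fun_prop
  exact (hA.comp m2).indicator (measurableSet_FS hE hG)

lemma Measurable.ff {α : Type*} [MeasurableSpace α] (hE : MeasurableSet E) (hG : MeasurableSet G)
    {f : α → V d × V d} {g : α → V d} {h : α → ℝ} (hf : Measurable f) (hg : Measurable g)
    (hh : Measurable h) : Measurable (fun a => ff E G (f a) (g a) (h a)) :=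
  (measurable_ff hE hG).comp ((hf.prodMk hg).prodMk hh)

lemma ff_nonneg (ℓ : V d × V d) (u : V d) (t : ℝ) : 0 ≤ ff E G ℓ u t := by
  unfold ff
  exact indicator_nonneg (fun _ _ => A_nonneg _ _) _

/-- the kernel in terms of the lengths -/
lemma KK_le_ff (ℓ : V d × V d) (u : V d) (t : ℝ) (w : ℝ × V d) (s : ℝ)
    (hs : w.1 - t = s) (hv : vel (pt ℓ t) w = ℓ.2 + u) (h : KK E G (A E ℓ) (pt ℓ t) w ≠ 0) :
    ff E G ℓ u t / 8 ≤ |s| ∧ KK E G (A E ℓ) (pt ℓ t) w = ENNReal.ofReal ((ff E G ℓ u t / |s|) ^ d) := by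
  unfold KK kk at h
  have hm := mem_of_indicator_ne_zero h
  unfold KK kk
  rw [indicator_of_mem hm]
  rw [hv] at hm ⊢
  obtain ⟨h1, h2, h3, h4, h5⟩ := hm
  simp only at h1 h2 h3 h4 h5
  rw [pt_ln_self] at h2
  have hmem : ((ℓ, u), t) ∈ FS E G := ⟨h2, h1, h5⟩
  have e : ff E G ℓ u t = A E (ln (pt ℓ t) (ℓ.2 + u)) := by
    unfold ff
    rw [indicator_of_mem hmem]
  have hp : (pt ℓ t).1 = t := rfl
  rw [hp] at h4
  rw [e]
  simp only [hp]
  rw [hs] at h4 ⊢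
  exact ⟨h4, rfl⟩

/-- the region in the bilinear form -/
def RR (c1 c2 : ℝ) (f g : ℝ → ℝ) : Set (ℝ × ℝ) :=
  {p : ℝ × ℝ | c1 * f p.1 ≤ |p.2 - p.1| ∧ c2 * g p.2 ≤ |p.2 - p.1|}

/-- pointwise change of variables -/
lemma KK_prod_le (hd : 2 ≤ d) (ℓ : V d × V d) (t t2 : ℝ) (u : V d) (b : ℝ) (hτ : t2 - t ≠ 0) (hb : b ≠ 0)
    (hb1 : 1 + b ≠ 0) :
    ENNReal.ofReal (|t2 - t| / b ^ 2) *
      (ENNReal.ofReal (|(t2 - t) / b + (t2 - t)| ^ d) *
        (KK E G (A E ℓ) (pt ℓ t) ((pt ℓ t).1 + ((t2 - t) / b + (t2 - t)),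
            (pt ℓ t).2 + ((t2 - t) / b + (t2 - t)) • (ℓ.2 + u)) *
          KK E G (A E ℓ) (pt ℓ t2) ((pt ℓ t).1 + ((t2 - t) / b + (t2 - t)),
            (pt ℓ t).2 + ((t2 - t) / b + (t2 - t)) • (ℓ.2 + u)))) ≤
      ENNReal.ofReal (|b| ^ (d - 2)) *
        (ENNReal.ofReal (ff E G ℓ u t ^ d) * ENNReal.ofReal (ff E G ℓ ((1 + b) • u) t2 ^ d) *
          (RR (|b| / (8 * |1 + b|)) (|b| / 8) (ff E G ℓ u) (ff E G ℓ ((1 + b) • u))).indicator
            (fun p => ENNReal.ofReal ((|p.2 - p.1|⁻¹) ^ (d - 1))) (t, t2)) := by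
  obtain ⟨τ, hτe⟩ : ∃ τ, τ = t2 - t := ⟨_, rfl⟩
  rw [← hτe] at hτ ⊢
  obtain ⟨s, hse⟩ : ∃ s, s = τ / b + τ := ⟨_, rfl⟩
  rw [← hse]
  obtain ⟨w, hw⟩ : ∃ w : ℝ × V d, w = ((pt ℓ t).1 + s, (pt ℓ t).2 + s • (ℓ.2 + u)) := ⟨_, rfl⟩
  rw [← hw]
  by_cases hK1 : KK E G (A E ℓ) (pt ℓ t) w = 0
  · rw [hK1]; simp
  by_cases hK2 : KK E G (A E ℓ) (pt ℓ t2) w = 0
  · rw [hK2]; simp
  have hs : s = τ * (1 + b) / b := by rw [hse]; field_simp
  have hs0 : s ≠ 0 := by rw [hs]; exact div_ne_zero (mul_ne_zero hτ hb1) hb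
  have hv1 : vel (pt ℓ t) w = ℓ.2 + u := by
    rw [hw]; exact vel_add _ hs0 _
  have hw1 : w.1 - t = s := by rw [hw]; simp [pt]
  have hw2 : w.1 - t2 = τ / b := by
    rw [hw]; simp only [pt]; rw [hse, hτe]; ring
  have hv2 : vel (pt ℓ t2) w = ℓ.2 + (1 + b) • u := by
    unfold vel
    have : (pt ℓ t2).1 = t2 := rfl
    rw [this, hw2]
    have e1 : w.2 - (pt ℓ t2).2 = (τ / b) • ℓ.2 + s • u := by
      rw [hw]
      simp only [pt]
      have : s = τ / b + (t2 - t) := by rw [hse, hτe]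
      rw [smul_add]
      nth_rewrite 1 [this]
      module
    rw [e1, smul_add, smul_smul, smul_smul, inv_mul_cancel₀ (div_ne_zero hτ hb), one_smul]
    congr 2
    rw [hs]; field_simp
  obtain ⟨h1, e1⟩ := KK_le_ff ℓ u t w s hw1 hv1 hK1
  obtain ⟨h2, e2⟩ := KK_le_ff ℓ ((1 + b) • u) t2 w (τ / b) hw2 hv2 hK2
  rw [e1, e2]
  obtain ⟨f1, hf1⟩ : ∃ f1, f1 = ff E G ℓ u t := ⟨_, rfl⟩
  obtain ⟨f2, hf2⟩ : ∃ f2, f2 = ff E G ℓ ((1 + b) • u) t2 := ⟨_, rfl⟩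
  have hf10 : 0 ≤ f1 := by rw [hf1]; exact ff_nonneg _ _ _
  have hf20 : 0 ≤ f2 := by rw [hf2]; exact ff_nonneg _ _ _
  have hτ' : 0 < |τ| := abs_pos.2 hτ
  have hb' : 0 < |b| := abs_pos.2 hb
  have hb1' : 0 < |1 + b| := abs_pos.2 hb1
  have hs' : |s| = |τ| * |1 + b| / |b| := by rw [hs, abs_div, abs_mul]
  have hmem : (t, t2) ∈ RR (|b| / (8 * |1 + b|)) (|b| / 8) (ff E G ℓ u) (ff E G ℓ ((1 + b) • u)) := by
    refine ⟨?_, ?_⟩
    · simp only
      rw [← hf1, ← hτe]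
      rw [← hf1, hs', le_div_iff₀ hb'] at h1
      rw [div_mul_eq_mul_div, div_le_iff₀ (by positivity)]
      linarith
    · simp only
      rw [← hf2, ← hτe]
      rw [← hf2, abs_div, le_div_iff₀ hb'] at h2
      linarith
  rw [indicator_of_mem hmem]
  rw [← hf1, ← hf2]
  simp only
  rw [← hτe, ← ENNReal.ofReal_mul (by positivity), ← ENNReal.ofReal_mul (by positivity),
    ← ENNReal.ofReal_mul (by positivity), ← ENNReal.ofReal_mul (by positivity),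
    ← ENNReal.ofReal_mul (by positivity), ← ENNReal.ofReal_mul (by positivity)]
  apply ENNReal.ofReal_le_ofReal
  apply le_of_eq
  rw [hs', abs_div, ← sq_abs b]
  obtain ⟨n, rfl⟩ : ∃ n, d = n + 2 := ⟨d - 2, by omega⟩
  rw [show n + 2 - 2 = n by omega, show n + 2 - 1 = n + 1 by omega]
  rw [div_pow f1, div_pow f2, div_pow (|τ| * |1 + b|), div_pow |τ|, mul_pow, inv_pow]
  field_simp
  ring

end Run7.h567
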