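import Pool.Agent.Run7.h567.Upp

set_option autoImplicit false

open MeasureTheory ENNReal Set

namespace Run7.h567

variable {d : ℕ}

/-- the integrand after the change of variables -/
noncomputable def hh (E : Set (ℝ × V d)) (G : Set (V d × V d)) (ℓ : V d × V d) (q : (ℝ × ℝ) × (V d × ℝ)) : ℝ≥0∞ :=
  ENNReal.ofReal (|q.2.2| ^ (d - 2)) *
    (ENNReal.ofReal (ff E G ℓ q.2.1 q.1.1 ^ d) * ENNReal.ofReal (ff E G ℓ ((1 + q.2.2) • q.2.1) q.1.2 ^ d) *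
      (RR (|q.2.2| / (8 * |1 + q.2.2|)) (|q.2.2| / 8) (ff E G ℓ q.2.1) (ff E G ℓ ((1 + q.2.2) • q.2.1))).indicator
        (fun p => ENNReal.ofReal ((|p.2 - p.1|⁻¹) ^ (d - 1))) q.1)

variable {E : Set (ℝ × V d)} {G : Set (V d × V d)}

lemma measurable_hh (hE : MeasurableSet E) (hG : MeasurableSet G) (ℓ : V d × V d) :
    Measurable (hh E G ℓ) := by
  have m1 : Measurable (fun q : (ℝ × ℝ) × (V d × ℝ) => ff E G ℓ q.2.1 q.1.1) :=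
    Measurable.ff hE hG (by fun_prop) (by fun_prop) (by fun_prop)
  have m2 : Measurable (fun q : (ℝ × ℝ) × (V d × ℝ) => ff E G ℓ ((1 + q.2.2) • q.2.1) q.1.2) :=
    Measurable.ff hE hG (by fun_prop) (by fun_prop) (by fun_prop)
  have hS : MeasurableSet {q : (ℝ × ℝ) × (V d × ℝ) |
      (|q.2.2| / (8 * |1 + q.2.2|)) * ff E G ℓ q.2.1 q.1.1 ≤ |q.1.2 - q.1.1| ∧
      (|q.2.2| / 8) * ff E G ℓ ((1 + q.2.2) • q.2.1) q.1.2 ≤ |q.1.2 - q.1.1|} := by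
    refine MeasurableSet.inter ?_ ?_
    · exact measurableSet_le
        (f := fun q : (ℝ × ℝ) × (V d × ℝ) => (|q.2.2| / (8 * |1 + q.2.2|)) * ff E G ℓ q.2.1 q.1.1)
        (g := fun q : (ℝ × ℝ) × (V d × ℝ) => |q.1.2 - q.1.1|) (by fun_prop) (by fun_prop)
    · exact measurableSet_le
        (f := fun q : (ℝ × ℝ) × (V d × ℝ) => (|q.2.2| / 8) * ff E G ℓ ((1 + q.2.2) • q.2.1) q.1.2)
        (g := fun q : (ℝ × ℝ) × (V d × ℝ) => |q.1.2 - q.1.1|) (by fun_prop) (by fun_prop)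
  have e : hh E G ℓ = fun q => ENNReal.ofReal (|q.2.2| ^ (d - 2)) *
    (ENNReal.ofReal (ff E G ℓ q.2.1 q.1.1 ^ d) * ENNReal.ofReal (ff E G ℓ ((1 + q.2.2) • q.2.1) q.1.2 ^ d) *
      {q : (ℝ × ℝ) × (V d × ℝ) |
      (|q.2.2| / (8 * |1 + q.2.2|)) * ff E G ℓ q.2.1 q.1.1 ≤ |q.1.2 - q.1.1| ∧
      (|q.2.2| / 8) * ff E G ℓ ((1 + q.2.2) • q.2.1) q.1.2 ≤ |q.1.2 - q.1.1|}.indicator
        (fun q => ENNReal.ofReal ((|q.1.2 - q.1.1|⁻¹) ^ (d - 1))) q) := by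
    ext q
    rfl
  rw [e]
  refine Measurable.mul (by fun_prop) (Measurable.mul (by fun_prop) ?_)
  exact Measurable.indicator (by fun_prop) hS

lemma int_pair (hd : 2 ≤ d) (hE : MeasurableSet E) (hG : MeasurableSet G) (ℓ : V d × V d) (t t2 : ℝ)
    (hτ : t2 - t ≠ 0) :
    ∫⁻ w : ℝ × V d, KK E G (A E ℓ) (pt ℓ t) w * KK E G (A E ℓ) (pt ℓ t2) w ≤
      ∫⁻ u : V d, ∫⁻ b : ℝ, hh E G ℓ ((t, t2), (u, b)) := by
  have m1 : Measurable (fun w : ℝ × V d => KK E G (A E ℓ) (pt ℓ t) w * KK E G (A E ℓ) (pt ℓ t2) w) :=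
    (Measurable.KK hE hG (by fun_prop) (by fun_prop) (by fun_prop)).mul
      (Measurable.KK hE hG (by fun_prop) (by fun_prop) (by fun_prop))
  rw [← lintegral_cone (pt ℓ t) _ m1, lintegral_lintegral_swap]
  swap
  · have m2 : Measurable (fun p : ℝ × V d => KK E G (A E ℓ) (pt ℓ t) ((pt ℓ t).1 + p.1, (pt ℓ t).2 + p.1 • p.2) *
        KK E G (A E ℓ) (pt ℓ t2) ((pt ℓ t).1 + p.1, (pt ℓ t).2 + p.1 • p.2)) :=
      m1.comp (f := fun p : ℝ × V d => ((pt ℓ t).1 + p.1, (pt ℓ t).2 + p.1 • p.2)) (by fun_prop)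
    exact (Measurable.mul (f := fun p : ℝ × V d => ENNReal.ofReal (|p.1| ^ d)) (by fun_prop) m2).aemeasurable
  rw [← lintegral_add_left_eq_self (μ := (volume : Measure (V d))) _ ℓ.2]
  refine lintegral_mono fun u => ?_
  rw [← lintegral_add_right_eq_self (μ := (volume : Measure ℝ)) _ (t2 - t), lint_inv hτ]
  have h0 : ∀ᵐ s : ℝ, s ≠ 0 := by simp [ae_iff]
  have h1 : ∀ᵐ s : ℝ, s ≠ -1 := by simp [ae_iff]
  refine lintegral_mono_ae ?_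
  filter_upwards [h0, h1] with b hb hb1
  exact KK_prod_le hd ℓ t t2 u b hτ hb (fun h => hb1 (by linarith))

lemma swap4 (h : (ℝ × ℝ) × (V d × ℝ) → ℝ≥0∞) (hm : Measurable h) :
    ∫⁻ t : ℝ, ∫⁻ t2 : ℝ, ∫⁻ u : V d, ∫⁻ b : ℝ, h ((t, t2), (u, b)) =
      ∫⁻ u : V d, ∫⁻ b : ℝ, ∫⁻ t : ℝ, ∫⁻ t2 : ℝ, h ((t, t2), (u, b)) := by
  have e1 : ∀ t t2 : ℝ, ∫⁻ u : V d, ∫⁻ b : ℝ, h ((t, t2), (u, b)) =
      ∫⁻ p : V d × ℝ, h ((t, t2), p) := by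
    intro t t2
    have hmt : Measurable (fun p : V d × ℝ => h ((t, t2), p)) := hm.comp (by fun_prop)
    rw [Measure.volume_eq_prod (V d) ℝ, lintegral_prod _ hmt.aemeasurable]
  have e2 : ∀ (u : V d) (b : ℝ), ∫⁻ t : ℝ, ∫⁻ t2 : ℝ, h ((t, t2), (u, b)) =
      ∫⁻ p : ℝ × ℝ, h (p, (u, b)) := by
    intro u b
    have hmt : Measurable (fun p : ℝ × ℝ => h (p, (u, b))) := hm.comp (by fun_prop)
    rw [Measure.volume_eq_prod ℝ ℝ, lintegral_prod _ hmt.aemeasurable]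
  simp_rw [e1, e2]
  have m1 : Measurable (fun p : ℝ × ℝ => ∫⁻ q : V d × ℝ, h (p, q)) := hm.lintegral_prod_right'
  have m2 : Measurable (fun q : V d × ℝ => ∫⁻ p : ℝ × ℝ, h (p, q)) := hm.lintegral_prod_left'
  have e3 : ∫⁻ t : ℝ, ∫⁻ t2 : ℝ, ∫⁻ q : V d × ℝ, h ((t, t2), q) = ∫⁻ p : ℝ × ℝ, ∫⁻ q : V d × ℝ, h (p, q) := by
    rw [Measure.volume_eq_prod ℝ ℝ, lintegral_prod _ m1.aemeasurable]
  have e4 : ∫⁻ u : V d, ∫⁻ b : ℝ, ∫⁻ p : ℝ × ℝ, h (p, (u, b)) = ∫⁻ q : V d × ℝ, ∫⁻ p : ℝ × ℝ, h (p, q) := by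
    rw [Measure.volume_eq_prod (V d) ℝ, lintegral_prod _ m2.aemeasurable]
  rw [e3, e4]
  exact lintegral_lintegral_swap (f := fun p q => h (p, q)) hm.aemeasurable

lemma int_n3_sq (hd : 2 ≤ d) (hE : MeasurableSet E) (hG : MeasurableSet G) (ℓ : V d × V d) :
    ∫⁻ w : ℝ × V d, n3 E G w ℓ ^ 2 ≤ ∫⁻ u : V d, ∫⁻ b : ℝ, ENNReal.ofReal (|b| ^ (d - 2)) *
      JJ d (|b| / (8 * |1 + b|)) (|b| / 8) (ff E G ℓ u) (ff E G ℓ ((1 + b) • u)) := by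
  have hh' := measurable_hh hE hG ℓ
  have mK : Measurable (fun q : ℝ × (ℝ × V d) => KK E G (A E ℓ) (pt ℓ q.1) q.2) :=
    Measurable.KK hE hG (by fun_prop) (by fun_prop) (by fun_prop)
  have mKt : ∀ w : ℝ × V d, Measurable (fun t : ℝ => KK E G (A E ℓ) (pt ℓ t) w) := fun w =>
    mK.comp (f := fun t : ℝ => (t, w)) (by fun_prop)
  have mKw : ∀ t : ℝ, Measurable (fun w : ℝ × V d => KK E G (A E ℓ) (pt ℓ t) w) := fun t =>
    mK.comp (f := fun w : ℝ × V d => (t, w)) (by fun_prop)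
  have e1 : ∫⁻ w : ℝ × V d, n3 E G w ℓ ^ 2 = ∫⁻ t : ℝ, ∫⁻ t2 : ℝ, ∫⁻ w : ℝ × V d,
      KK E G (A E ℓ) (pt ℓ t) w * KK E G (A E ℓ) (pt ℓ t2) w := by
    have m3 : Measurable (fun q : (ℝ × V d) × ℝ × ℝ => KK E G (A E ℓ) (pt ℓ q.2.1) q.1 *
        KK E G (A E ℓ) (pt ℓ q.2.2) q.1) :=
      (mK.comp (f := fun q : (ℝ × V d) × ℝ × ℝ => (q.2.1, q.1)) (by fun_prop)).mul
        (mK.comp (f := fun q : (ℝ × V d) × ℝ × ℝ => (q.2.2, q.1)) (by fun_prop))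
    have e2 : ∀ w : ℝ × V d, n3 E G w ℓ ^ 2 = ∫⁻ p : ℝ × ℝ, KK E G (A E ℓ) (pt ℓ p.1) w *
        KK E G (A E ℓ) (pt ℓ p.2) w := by
      intro w
      rw [Measure.volume_eq_prod ℝ ℝ, lintegral_prod_mul (mKt w).aemeasurable (mKt w).aemeasurable, sq]
      rfl
    simp_rw [e2]
    rw [lintegral_lintegral_swap m3.aemeasurable]
    have m4 : Measurable (fun p : ℝ × ℝ => ∫⁻ w : ℝ × V d, KK E G (A E ℓ) (pt ℓ p.1) w *
        KK E G (A E ℓ) (pt ℓ p.2) w) := m3.lintegral_prod_left'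
    rw [Measure.volume_eq_prod ℝ ℝ, lintegral_prod _ m4.aemeasurable]
  rw [e1]
  calc _ ≤ ∫⁻ t : ℝ, ∫⁻ t2 : ℝ, ∫⁻ u : V d, ∫⁻ b : ℝ, hh E G ℓ ((t, t2), (u, b)) := by
        refine lintegral_mono fun t => lintegral_mono_ae ?_
        have h0 : ∀ᵐ s : ℝ, s ≠ t := by simp [ae_iff]
        filter_upwards [h0] with t2 ht2
        exact int_pair hd hE hG ℓ t t2 (sub_ne_zero.2 ht2)
    _ = ∫⁻ u : V d, ∫⁻ b : ℝ, ∫⁻ t : ℝ, ∫⁻ t2 : ℝ, hh E G ℓ ((t, t2), (u, b)) := swap4 _ hh'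
    _ = _ := by
        refine lintegral_congr fun u => lintegral_congr fun b => ?_
        unfold JJ
        rw [← lintegral_const_mul' _ _ ENNReal.ofReal_ne_top]
        refine lintegral_congr fun t => ?_
        rw [← lintegral_const_mul' _ _ ENNReal.ofReal_ne_top]
        rfl

/-- the exponents in the change of variables -/
lemma coef_b (hd : 2 ≤ d) (θ b : ℝ) (hb : b ≠ 0) (hb1 : 1 + b ≠ 0) :
    |b| ^ (d - 2) * ((|b| / (8 * |1 + b|)) * (|b| / 8)) ^ (-(((d:ℝ) - 2 + θ) / 2)) * |1 + b| ^ (-((d:ℝ) / 2)) =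
      8 ^ ((d:ℝ) - 2 + θ) * (|b| ^ (-θ) * |1 + b| ^ (θ / 2 - 1)) := by
  have hb' : 0 < |b| := abs_pos.2 hb
  have hb1' : 0 < |1 + b| := abs_pos.2 hb1
  set δ : ℝ := ((d:ℝ) - 2 + θ) / 2 with hδ
  have e1 : (|b| / (8 * |1 + b|)) * (|b| / 8) = |b| ^ (2:ℝ) * (8 ^ (2:ℝ))⁻¹ * |1 + b|⁻¹ := by
    rw [Real.rpow_two, Real.rpow_two]; field_simp
  rw [e1, Real.mul_rpow (by positivity) (by positivity), Real.mul_rpow (by positivity) (by positivity),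
    ← Real.rpow_mul hb'.le, Real.inv_rpow (by positivity), Real.inv_rpow (by positivity),
    ← Real.rpow_neg (by positivity), ← Real.rpow_neg (by positivity), ← Real.rpow_mul (by norm_num)]
  have e2 : |b| ^ (d - 2) = |b| ^ ((d:ℝ) - 2) := by
    rw [← Real.rpow_natCast]
    congr 1
    rw [Nat.cast_sub hd]; norm_num
  have hdc : (d : ℝ) - 2 = 2 * δ - θ := by rw [hδ]; ring
  rw [e2]
  have e3 : |b| ^ ((d:ℝ) - 2) * |b| ^ (2 * -δ) = |b| ^ (-θ) := by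
    rw [← Real.rpow_add hb', hδ]; congr 1; ring
  have e4 : |1 + b| ^ (- -δ) * |1 + b| ^ (-((d:ℝ) / 2)) = |1 + b| ^ (θ / 2 - 1) := by
    rw [← Real.rpow_add hb1', hδ]; congr 1; ring
  have e5 : (8:ℝ) ^ (2 * - -δ) = 8 ^ ((d:ℝ) - 2 + θ) := by
    rw [hδ]; congr 1; ring
  calc |b| ^ ((d:ℝ) - 2) * (|b| ^ (2 * -δ) * 8 ^ (2 * - -δ) * |1 + b| ^ (- -δ)) * |1 + b| ^ (-((d:ℝ) / 2))
      = (|b| ^ ((d:ℝ) - 2) * |b| ^ (2 * -δ)) * 8 ^ (2 * - -δ) *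
        (|1 + b| ^ (- -δ) * |1 + b| ^ (-((d:ℝ) / 2))) := by ring
    _ = _ := by rw [e3, e4, e5]; ring

end Run7.h567
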