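import Pool.Agent.Run7.h567.Upp2

set_option autoImplicit false

open MeasureTheory ENNReal Set

namespace Run7.h567

variable {d : ℕ} {E : Set (ℝ × V d)} {G : Set (V d × V d)}

lemma measurable_WWff (hE : MeasurableSet E) (hG : MeasurableSet G) (θ : ℝ) :
    Measurable (fun q : ((V d × V d) × V d) × ℝ =>
      ENNReal.ofReal (ff E G q.1.1 q.1.2 q.2 ^ ((d:ℝ) + 2 - θ)) *
        volume {s : ℝ | ff E G q.1.1 q.1.2 q.2 / 2 ≤ ff E G q.1.1 q.1.2 s} ^ θ) := by
  have hf := measurable_ff hE hG (d := d)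
  refine Measurable.mul (by fun_prop) (Measurable.pow_const ?_ _)
  have hS : MeasurableSet {r : (((V d × V d) × V d) × ℝ) × ℝ |
      ff E G r.1.1.1 r.1.1.2 r.1.2 / 2 ≤ ff E G r.1.1.1 r.1.1.2 r.2} := by
    have m1 : Measurable (fun r : (((V d × V d) × V d) × ℝ) × ℝ => ff E G r.1.1.1 r.1.1.2 r.1.2) :=
      Measurable.ff hE hG (by fun_prop) (by fun_prop) (by fun_prop)
    have m2 : Measurable (fun r : (((V d × V d) × V d) × ℝ) × ℝ => ff E G r.1.1.1 r.1.1.2 r.2) :=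
      Measurable.ff hE hG (by fun_prop) (by fun_prop) (by fun_prop)
    exact measurableSet_le (m1.div_const 2) m2
  exact measurable_measure_prodMk_left hS

lemma measurable_WWff' (hE : MeasurableSet E) (hG : MeasurableSet G) (θ : ℝ) (ℓ : V d × V d) :
    Measurable (fun u : V d => WW d θ (ff E G ℓ u)) := by
  have h : Measurable (fun q : (V d × V d) × V d => ∫⁻ t : ℝ,
      ENNReal.ofReal (ff E G q.1 q.2 t ^ ((d:ℝ) + 2 - θ)) *
        volume {s : ℝ | ff E G q.1 q.2 t / 2 ≤ ff E G q.1 q.2 s} ^ θ) :=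
    (measurable_WWff hE hG θ).lintegral_prod_right'
  exact h.comp (f := fun u : V d => (ℓ, u)) (by fun_prop)

/-- second moment on a line -/
lemma int_n3_le (hd : 2 ≤ d) (θ : ℝ) (hθ0 : 0 < θ) (hθ1 : θ < 1) :
    ∃ C : NNReal, ∀ (E : Set (ℝ × V d)) (G : Set (V d × V d)), MeasurableSet E → MeasurableSet G →
      ∀ ℓ : V d × V d, ∫⁻ w : ℝ × V d, n3 E G w ℓ ^ 2 ≤ C * ∫⁻ u : V d, WW d θ (ff E G ℓ u) := by
  obtain ⟨C, hC⟩ := schur3 d hd θ hθ0 hθ1
  set B : ℝ≥0∞ := ∫⁻ b : ℝ, ENNReal.ofReal (|b| ^ (-θ) * |1 + b| ^ (θ / 2 - 1)) with hB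
  have hBt : B ≠ ∞ := bint θ hθ0 hθ1
  set K : ℝ≥0∞ := 2 * C * ENNReal.ofReal (8 ^ ((d:ℝ) - 2 + θ)) * B with hK
  have hKt : K ≠ ∞ := ENNReal.mul_ne_top (ENNReal.mul_ne_top (ENNReal.mul_ne_top (by norm_num)
    ENNReal.coe_ne_top) ENNReal.ofReal_ne_top) hBt
  refine ⟨K.toNNReal, fun E G hE hG ℓ => ?_⟩
  rw [ENNReal.coe_toNNReal hKt]
  set W : V d → ℝ≥0∞ := fun u => WW d θ (ff E G ℓ u) with hW
  have hWm : Measurable W := measurable_WWff' hE hG θ ℓ
  set I : ℝ≥0∞ := ∫⁻ u : V d, W u with hI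
  have h0 : ∀ᵐ s : ℝ, s ≠ 0 := by simp [ae_iff]
  have h1 : ∀ᵐ s : ℝ, s ≠ -1 := by simp [ae_iff]
  have hfm : ∀ u : V d, Measurable (ff E G ℓ u) := fun u =>
    Measurable.ff hE hG (by fun_prop) (by fun_prop) (by fun_prop)
  set H : V d × ℝ → ℝ≥0∞ := fun p => ENNReal.ofReal (|p.2| ^ (d - 2)) *
      (C * ENNReal.ofReal (((|p.2| / (8 * |1 + p.2|)) * (|p.2| / 8)) ^ (-(((d:ℝ) - 2 + θ) / 2))) *
      (ENNReal.ofReal (|1 + p.2| ^ (-((d:ℝ) / 2))) * W p.1 +
        ENNReal.ofReal ((|1 + p.2| ^ (-((d:ℝ) / 2)))⁻¹) * W ((1 + p.2) • p.1))) with hH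
  have hHm : Measurable H := by
    have m1 : Measurable (fun p : V d × ℝ => W p.1) := hWm.comp measurable_fst
    have m2 : Measurable (fun p : V d × ℝ => W ((1 + p.2) • p.1)) :=
      hWm.comp (f := fun p : V d × ℝ => (1 + p.2) • p.1) (by fun_prop)
    rw [hH]
    refine Measurable.mul (by fun_prop) (Measurable.mul (by fun_prop) (Measurable.add ?_ ?_))
    · exact Measurable.mul (by fun_prop) m1
    · exact Measurable.mul (by fun_prop) m2
  calc _ ≤ ∫⁻ u : V d, ∫⁻ b : ℝ, ENNReal.ofReal (|b| ^ (d - 2)) *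
        JJ d (|b| / (8 * |1 + b|)) (|b| / 8) (ff E G ℓ u) (ff E G ℓ ((1 + b) • u)) :=
        int_n3_sq hd hE hG ℓ
    _ ≤ ∫⁻ u : V d, ∫⁻ b : ℝ, H (u, b) := by
        refine lintegral_mono fun u => lintegral_mono_ae ?_
        filter_upwards [h0, h1] with b hb hb1
        have hb' : 0 < |b| := abs_pos.2 hb
        have hb1' : 0 < |1 + b| := abs_pos.2 (fun h => hb1 (by linarith))
        rw [hH]
        refine mul_le_mul' le_rfl ?_
        exact hC _ _ (hfm u) (hfm _) (fun t => ff_nonneg _ _ _) (fun t => ff_nonneg _ _ _) _ _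
          (|1 + b| ^ (-((d:ℝ) / 2))) (by positivity) (by positivity) (by positivity)
    _ = ∫⁻ b : ℝ, ∫⁻ u : V d, H (u, b) :=
        lintegral_lintegral_swap (f := fun u b => H (u, b)) hHm.aemeasurable
    _ ≤ ∫⁻ b : ℝ, (2 * C * ENNReal.ofReal (8 ^ ((d:ℝ) - 2 + θ)) *
          ENNReal.ofReal (|b| ^ (-θ) * |1 + b| ^ (θ / 2 - 1))) * I := by
        refine lintegral_mono_ae ?_
        filter_upwards [h0, h1] with b hb hb1
        have hb' : 0 < |b| := abs_pos.2 hb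
        have hb1 : 1 + b ≠ 0 := fun h => hb1 (by linarith)
        have hb1' : 0 < |1 + b| := abs_pos.2 hb1
        have m2 : Measurable (fun u : V d => W ((1 + b) • u)) := hWm.comp (by fun_prop)
        have e1 : ∫⁻ u : V d, H (u, b) = ENNReal.ofReal (|b| ^ (d - 2)) *
            (C * ENNReal.ofReal (((|b| / (8 * |1 + b|)) * (|b| / 8)) ^ (-(((d:ℝ) - 2 + θ) / 2))) *
            (ENNReal.ofReal (|1 + b| ^ (-((d:ℝ) / 2))) * I +
              ENNReal.ofReal ((|1 + b| ^ (-((d:ℝ) / 2)))⁻¹) * ∫⁻ u : V d, W ((1 + b) • u))) := by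
          rw [hH]
          simp only
          rw [lintegral_const_mul' _ _ ENNReal.ofReal_ne_top,
            lintegral_const_mul' _ _ (ENNReal.mul_ne_top ENNReal.coe_ne_top ENNReal.ofReal_ne_top),
            lintegral_add_left (hWm.const_mul _), lintegral_const_mul _ hWm, lintegral_const_mul _ m2]
        have e2 := lintegral_smul_add hb1 (0 : V d) W hWm
        simp only [zero_add] at e2
        have e3 : ENNReal.ofReal ((|1 + b| ^ (-((d:ℝ) / 2)))⁻¹) =
            ENNReal.ofReal (|1 + b| ^ (-((d:ℝ) / 2))) * ENNReal.ofReal (|1 + b| ^ d) := by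
          rw [← ENNReal.ofReal_mul (by positivity)]
          congr 1
          rw [← Real.rpow_natCast |1 + b| d, ← Real.rpow_add hb1', ← Real.rpow_neg hb1'.le]
          congr 1; ring
        have e4 := coef_b hd θ b hb hb1
        rw [e1, e3, mul_assoc (ENNReal.ofReal (|1 + b| ^ (-((d:ℝ) / 2)))), e2, ← hI]
        apply le_of_eq
        rw [mul_assoc (2 * (C : ℝ≥0∞)), ← ENNReal.ofReal_mul (by positivity), ← e4,
          ENNReal.ofReal_mul (by positivity), ENNReal.ofReal_mul (by positivity)]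
        ring
    _ = K * I := by
        rw [lintegral_mul_const _ (by fun_prop), lintegral_const_mul _ (by fun_prop)]

/-- measure of the times at which the line meets a long line with a given direction -/
noncomputable def kf (E : Set (ℝ × V d)) (G : Set (V d × V d)) (ℓ : V d × V d) (v : V d) (c : ℝ) : ℝ≥0∞ :=
  volume {s : ℝ | pt ℓ s ∈ E ∧ ln (pt ℓ s) v ∈ G ∧ c ≤ A E (ln (pt ℓ s) v)}

lemma measurable_kf (hE : MeasurableSet E) (hG : MeasurableSet G) :
    Measurable (fun q : (V d × V d) × V d × ℝ => kf E G q.1 q.2.1 q.2.2) := by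
  have hA := measurable_A hE
  have hS : MeasurableSet {r : ((V d × V d) × V d × ℝ) × ℝ |
      pt r.1.1 r.2 ∈ E ∧ ln (pt r.1.1 r.2) r.1.2.1 ∈ G ∧ r.1.2.2 ≤ A E (ln (pt r.1.1 r.2) r.1.2.1)} := by
    have m1 : Measurable (fun r : ((V d × V d) × V d × ℝ) × ℝ => pt r.1.1 r.2) := by fun_prop
    have m2 : Measurable (fun r : ((V d × V d) × V d × ℝ) × ℝ => ln (pt r.1.1 r.2) r.1.2.1) := by fun_prop
    refine MeasurableSet.inter (m1 hE) (MeasurableSet.inter (m2 hG) ?_)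
    exact measurableSet_le (f := fun r : ((V d × V d) × V d × ℝ) × ℝ => r.1.2.2) (by fun_prop) (hA.comp m2)
  exact measurable_measure_prodMk_left hS

lemma Measurable.kf {α : Type*} [MeasurableSpace α] (hE : MeasurableSet E) (hG : MeasurableSet G)
    {f : α → V d × V d} {g : α → V d} {h : α → ℝ} (hf : Measurable f) (hg : Measurable g)
    (hh : Measurable h) : Measurable (fun a => kf E G (f a) (g a) (h a)) :=
  (measurable_kf hE hG).comp (hf.prodMk (hg.prodMk hh))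

/-- configurations: a point and two lines of `G` through it -/
def PS (E : Set (ℝ × V d)) (G : Set (V d × V d)) : Set ((ℝ × V d) × (V d × V d)) :=
  {p | p.1 ∈ E ∧ ln p.1 p.2.1 ∈ G ∧ ln p.1 p.2.2 ∈ G ∧ A E (ln p.1 p.2.1) ≤ A E (ln p.1 p.2.2)}

/-- the weight of a configuration -/
noncomputable def PP (E : Set (ℝ × V d)) (G : Set (V d × V d)) (θ : ℝ) (p : (ℝ × V d) × (V d × V d)) : ℝ≥0∞ :=
  (PS E G).indicator (fun p => ENNReal.ofReal (A E (ln p.1 p.2.1) ^ d) *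
    ENNReal.ofReal (A E (ln p.1 p.2.2) ^ ((d:ℝ) + 2 - θ)) *
      kf E G (ln p.1 p.2.1) p.2.2 (A E (ln p.1 p.2.2) / 2) ^ θ) p

lemma measurableSet_PS (hE : MeasurableSet E) (hG : MeasurableSet G) : MeasurableSet (PS E G) := by
  have hA := measurable_A hE
  have m1 : Measurable (fun p : (ℝ × V d) × (V d × V d) => ln p.1 p.2.1) := by fun_prop
  have m2 : Measurable (fun p : (ℝ × V d) × (V d × V d) => ln p.1 p.2.2) := by fun_prop
  exact (measurable_fst hE).inter ((m1 hG).inter ((m2 hG).inter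
    (measurableSet_le (hA.comp m1) (hA.comp m2))))

lemma measurable_PP (hE : MeasurableSet E) (hG : MeasurableSet G) (θ : ℝ) : Measurable (PP E G θ) := by
  have hA := measurable_A hE
  have m1 : Measurable (fun p : (ℝ × V d) × (V d × V d) => A E (ln p.1 p.2.1)) := hA.comp (by fun_prop)
  have m2 : Measurable (fun p : (ℝ × V d) × (V d × V d) => A E (ln p.1 p.2.2)) := hA.comp (by fun_prop)
  have m3 : Measurable (fun p : (ℝ × V d) × (V d × V d) =>
      kf E G (ln p.1 p.2.1) p.2.2 (A E (ln p.1 p.2.2) / 2)) :=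
    Measurable.kf hE hG (by fun_prop) (by fun_prop) (by fun_prop)
  refine Measurable.indicator ?_ (measurableSet_PS hE hG)
  have m4 : Measurable (fun p : (ℝ × V d) × (V d × V d) => ENNReal.ofReal (A E (ln p.1 p.2.1) ^ d)) := by
    fun_prop
  have m5 : Measurable (fun p : (ℝ × V d) × (V d × V d) =>
      ENNReal.ofReal (A E (ln p.1 p.2.2) ^ ((d:ℝ) + 2 - θ))) := by
    fun_prop
  exact (m4.mul m5).mul (m3.pow_const _)

lemma int_WW_le (hE : MeasurableSet E) (hG : MeasurableSet G)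
    (hGF : ∀ ℓ ∈ G, F E ℓ ≠ 0 ∧ F E ℓ ≠ ∞) (θ : ℝ) (hθ0 : 0 < θ) (hθ1 : θ < 1) :
    ∫⁻ ℓ : V d × V d, wt E G d ℓ * ∫⁻ u : V d, WW d θ (ff E G ℓ u) ≤
      ∫⁻ p : (ℝ × V d) × (V d × V d), PP E G θ p := by
  have hPm := measurable_PP hE hG θ
  have hWWm := measurable_WWff hE hG θ
  have hd2 : (0:ℝ) < (d:ℝ) + 2 - θ := by
    have : (0:ℝ) ≤ d := Nat.cast_nonneg d
    linarith
  have e1 : ∫⁻ p : (ℝ × V d) × (V d × V d), PP E G θ p =
      ∫⁻ ℓ : V d × V d, ∫⁻ t : ℝ, ∫⁻ v : V d, PP E G θ (pt ℓ t, (ℓ.2, v)) := by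
    have m1 : Measurable (fun q : ((V d × V d) × ℝ) × V d => PP E G θ (pt q.1.1 q.1.2, (q.1.1.2, q.2))) :=
      hPm.comp (by fun_prop)
    have h2 := lintegral_inc (fun p => ∫⁻ v : V d, PP E G θ (pt p.1 p.2, (p.1.2, v))) m1.lintegral_prod_right'
    rw [← h2, Measure.volume_eq_prod (ℝ × V d) (V d × V d), lintegral_prod _ hPm.aemeasurable]
    refine lintegral_congr fun z => ?_
    have m3 : Measurable (fun p : V d × V d => PP E G θ (z, p)) := hPm.comp (by fun_prop)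
    rw [Measure.volume_eq_prod (V d) (V d), lintegral_prod _ m3.aemeasurable]
    refine lintegral_congr fun v => lintegral_congr fun v1 => ?_
    simp only [pt_ln_self]
    rfl
  rw [e1]
  refine lintegral_mono fun ℓ => ?_
  by_cases hℓ : ℓ ∈ G
  swap
  · simp [wt, indicator_of_notMem hℓ]
  have m4 : Measurable (fun q : V d × ℝ => ENNReal.ofReal (ff E G ℓ q.1 q.2 ^ ((d:ℝ) + 2 - θ)) *
        volume {s : ℝ | ff E G ℓ q.1 q.2 / 2 ≤ ff E G ℓ q.1 s} ^ θ) :=
    hWWm.comp (f := fun q : V d × ℝ => ((ℓ, q.1), q.2)) (by fun_prop)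
  unfold WW
  have e2 := lintegral_lintegral_swap (μ := (volume : Measure (V d))) (ν := (volume : Measure ℝ))
    (f := fun u t => ENNReal.ofReal (ff E G ℓ u t ^ ((d:ℝ) + 2 - θ)) *
        volume {s : ℝ | ff E G ℓ u t / 2 ≤ ff E G ℓ u s} ^ θ) m4.aemeasurable
  rw [e2, wt, indicator_of_mem hℓ, ← lintegral_const_mul' _ _ ENNReal.ofReal_ne_top]
  refine lintegral_mono fun t => ?_
  rw [← lintegral_const_mul' _ _ ENNReal.ofReal_ne_top,
    ← lintegral_add_left_eq_self (μ := (volume : Measure (V d))) (fun v => PP E G θ (pt ℓ t, (ℓ.2, v))) ℓ.2]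
  refine lintegral_mono fun u => ?_
  by_cases hmem : ((ℓ, u), t) ∈ FS E G
  swap
  · have : ff E G ℓ u t = 0 := by
      unfold ff
      rw [indicator_of_notMem hmem]
    simp only [this]
    rw [Real.zero_rpow hd2.ne']; simp
  have hff : ff E G ℓ u t = A E (ln (pt ℓ t) (ℓ.2 + u)) := by
    unfold ff
    rw [indicator_of_mem hmem]
  obtain ⟨h1, h2, h3⟩ := hmem
  simp only at h1 h2 h3
  have hPSm : (pt ℓ t, (ℓ.2, ℓ.2 + u)) ∈ PS E G := by
    refine ⟨h1, ?_, h2, ?_⟩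
    · simp only [ln_pt]; exact hℓ
    · simp only [ln_pt]; exact h3
  unfold PP
  rw [indicator_of_mem hPSm]
  simp only [ln_pt]
  rw [hff, mul_assoc]
  gcongr
  unfold kf
  refine measure_mono fun s hs => ?_
  simp only [mem_ofPred_eq] at hs ⊢
  have hA1 := A_pos (hGF _ h2)
  by_cases hms : ((ℓ, u), s) ∈ FS E G
  · have hff2 : ff E G ℓ u s = A E (ln (pt ℓ s) (ℓ.2 + u)) := by
      unfold ff
      rw [indicator_of_mem hms]
    rw [hff2] at hs
    exact ⟨hms.1, hms.2.1, hs⟩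
  · have hff2 : ff E G ℓ u s = 0 := by
      unfold ff
      rw [indicator_of_notMem hms]
    rw [hff2] at hs
    linarith

/-- upper bound for the second moment -/
lemma X3_le (hd : 2 ≤ d) (θ : ℝ) (hθ0 : 0 < θ) (hθ1 : θ < 1) :
    ∃ C : NNReal, ∀ (E : Set (ℝ × V d)) (G : Set (V d × V d)), MeasurableSet E → MeasurableSet G →
      (∀ ℓ ∈ G, F E ℓ ≠ 0 ∧ F E ℓ ≠ ∞) →
      X3 E G ≤ C * ∫⁻ p : (ℝ × V d) × (V d × V d), PP E G θ p := by
  obtain ⟨C, hC⟩ := int_n3_le hd θ hθ0 hθ1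
  refine ⟨C, fun E G hE hG hGF => ?_⟩
  have hw := measurable_wt hE hG d
  have hn := measurable_n3 hE hG
  unfold X3
  have mR : Measurable (fun p : (ℝ × V d) × (V d × V d) => wt E G d p.2 * n3 E G p.1 p.2 ^ 2) :=
    (hw.comp measurable_snd).mul (hn.pow_const 2)
  rw [lintegral_lintegral_swap (f := fun w ℓ => wt E G d ℓ * n3 E G w ℓ ^ 2) mR.aemeasurable]
  calc _ ≤ ∫⁻ ℓ : V d × V d, C * (wt E G d ℓ * ∫⁻ u : V d, WW d θ (ff E G ℓ u)) := by
        refine lintegral_mono fun ℓ => ?_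
        have m1 : Measurable (fun w : ℝ × V d => n3 E G w ℓ ^ 2) :=
          (hn.comp (f := fun w : ℝ × V d => (w, ℓ)) (by fun_prop)).pow_const 2
        rw [lintegral_const_mul _ m1, mul_left_comm]
        gcongr
        exact hC E G hE hG ℓ
    _ = C * ∫⁻ ℓ : V d × V d, wt E G d ℓ * ∫⁻ u : V d, WW d θ (ff E G ℓ u) :=
        lintegral_const_mul' _ _ ENNReal.coe_ne_top
    _ ≤ _ := by
        gcongr
        exact int_WW_le hE hG hGF θ hθ0 hθ1

end Run7.h567
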